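import Mathlib

/-!
BI39 (problem MP_39fe65_gt): wild orientation-reversing involutions of the 3-sphere with a modulus of
continuity which is at most `C exp (η t)`.

Definitions for the construction in `ℝ³`.
-/

set_option autoImplicit false

namespace Pool.Agent.BI39

open Real

/-- Points of `ℝ³` (sup metric). In tube coordinates they are written `(t, y, z)`. -/
abbrev P3 : Type := ℝ × ℝ × ℝ

/-- The square of the euclidean distance. -/
def e2 (p q : P3) : ℝ := (p.1 - q.1) ^ 2 + (p.2.1 - q.2.1) ^ 2 + (p.2.2 - q.2.2) ^ 2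

/-- distance to the nearest integer -/
noncomputable def fd (x : ℝ) : ℝ := |x - round x|

/-- half width of the tubes of stage `n` -/
noncomputable def R (n : ℕ) : ℝ := (1 / 10) * (1 / 40) ^ n

/-- radius of the stadium curves of stage `n + 1` in the coordinates of stage `n` -/
noncomputable def aa (n : ℕ) : ℝ := R n / 4

/-- outer radius of the stadium annuli -/
noncomputable def rho (n : ℕ) : ℝ := aa n + 2 * R (n + 1)

/-- length of the tubes of stage `n` -/
noncomputable def L : ℕ → ℝ
  | 0 => 2 * π
  | n + 1 => L n + 2 * π * rho n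

/-! Planar stadium curves. `q` is half of the length of the straight segments, `ρ` the radius which
determines the speed at the tips; the curve has period `4 q + 2 π ρ`. -/

/-- triangle wave of slope `1`, amplitude `q + π ρ / 2` and period `4 q + 2 π ρ` -/
noncomputable def ww (q ρ t : ℝ) : ℝ :=
  (4 * q + 2 * π * ρ) * (fd (t / (4 * q + 2 * π * ρ) + 1 / 4) - 1 / 4)

/-- the moving centre on the segment `[-q, q]` -/
noncomputable def XX (q ρ t : ℝ) : ℝ := max (-q) (min q (ww q ρ t))

/-- sine of the direction -/
noncomputable def SS (q ρ t : ℝ) : ℝ := sin ((ww q ρ t - XX q ρ t) / ρ)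

/-- cosine of the direction -/
noncomputable def CC (q ρ t : ℝ) : ℝ :=
  sin (max (-(π * ρ / 2)) (min (π * ρ / 2) (ww q ρ (t + (4 * q + 2 * π * ρ) / 4))) / ρ)

/-- first coordinate of the stadium annulus map -/
noncomputable def gt (q ρ a t p : ℝ) : ℝ := XX q ρ t + (a + p) * SS q ρ t

/-- second coordinate of the stadium annulus map -/
noncomputable def gz (q ρ a t p : ℝ) : ℝ := (a + p) * CC q ρ t

/-- The two tubes of stage `n + 1` in the coordinates of a tube of stage `n`: `false` is the stadium
annulus in the plane `y = 0` around `t = 0`, `true` the stadium annulus in the plane `z = 0` around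
`t = L n / 2`. -/
noncomputable def bt (i : Bool) (n : ℕ) (p : P3) : P3 :=
  if i then
    (L n / 2 - gt (L n / 4) (rho n) (aa n) p.1 p.2.2, gz (L n / 4) (rho n) (aa n) p.1 p.2.2, p.2.1)
  else
    (gt (L n / 4) (rho n) (aa n) p.1 p.2.2, p.2.1, gz (L n / 4) (rho n) (aa n) p.1 p.2.2)

/-- shift of the first coordinate -/
def shft (s : ℝ) (p : P3) : P3 := (p.1 + s, p.2)

/-- reflection in tube coordinates -/
def rr (p : P3) : P3 := (-p.1, p.2)

/-- reflection of `ℝ³` -/
def r3 (p : P3) : P3 := (p.1, p.2.1, -p.2.2)

/-- closed tube -/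
def tube (s : ℝ) : Set P3 := {p | |p.2.1| ≤ s ∧ |p.2.2| ≤ s}

/-- open tube -/
def otube (s : ℝ) : Set P3 := {p | |p.2.1| < s ∧ |p.2.2| < s}

/-- The parametrisation of the tube with address `w` (the head of the list is the last digit of the
address); `sh n` is the rotation in the tubes of stage `n`. -/
noncomputable def E (sh : ℕ → ℝ) : List Bool → P3 → P3
  | [], p => ((1 + p.2.2) * cos p.1, p.2.1, (1 + p.2.2) * sin p.1)
  | i :: w, p => E sh w (shft (sh w.length) (bt i w.length p))

/-- composition of the maps from stage `m + v.length` to stage `m` -/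
noncomputable def Bc (sh : ℕ → ℝ) (m : ℕ) : List Bool → P3 → P3
  | [], p => p
  | i :: v, p => Bc sh m v (shft (sh (m + v.length)) (bt i (m + v.length) p))

/-- the union of the tubes of stage `n` -/
def KK (sh : ℕ → ℝ) (n : ℕ) : Set P3 :=
  {x | ∃ w : List Bool, w.length = n ∧ ∃ p ∈ tube (R n), E sh w p = x}

/-- cut-off function -/
noncomputable def chi (n : ℕ) (p : P3) : ℝ := max 0 (min 1 (2 - 2 * max |p.2.1| |p.2.2| / R n))

/-- damped rotation in tube coordinates -/
noncomputable def sgm (n : ℕ) (c : ℝ) (p : P3) : P3 := shft (c * chi n p) p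

open Classical in
/-- damped rotation of all tubes of stage `n` -/
noncomputable def tw (sh : ℕ → ℝ) (n : ℕ) (c : ℝ) (x : P3) : P3 :=
  if h : ∃ w : List Bool, w.length = n ∧ ∃ p ∈ tube (R n), E sh w p = x then
    E sh h.choose (sgm n c h.choose_spec.2.choose)
  else x

/-- from the rotated picture to the standard picture -/
noncomputable def th (sh : ℕ → ℝ) : ℕ → P3 → P3
  | 0, x => x
  | n + 1, x => th sh n (tw sh n (-sh n) x)

/-- the inverse of `th` -/
noncomputable def thi (sh : ℕ → ℝ) : ℕ → P3 → P3
  | 0, x => x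
  | n + 1, x => tw sh n (sh n) (thi sh n x)

/-- the involution of stage `n` -/
noncomputable def Jn (sh : ℕ → ℝ) (n : ℕ) (x : P3) : P3 := thi sh n (r3 (th sh n x))

/-- the limit set -/
def CS (sh : ℕ → ℝ) : Set P3 := {x | ∀ n, x ∈ KK sh n}

open Classical in
/-- the limit involution -/
noncomputable def JJ (sh : ℕ → ℝ) (x : P3) : P3 :=
  if h : ∃ n, x ∉ KK sh n then Jn sh (Nat.find h) x else x

open Classical in
/-- the limit of the maps `th` (outside the limit set) -/
noncomputable def TH (sh : ℕ → ℝ) (x : P3) : P3 :=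
  if h : ∃ n, x ∉ KK sh n then th sh (Nat.find h) x else x

/-- the ruler sequence -/
noncomputable def rs (n : ℕ) : ℝ := if n = 0 then 0 else (1 / 2) ^ (padicValNat 2 n + 2)

/-- the rotations -/
noncomputable def shR (n : ℕ) : ℝ := rs n * L n

/-- folding maps: composition of the ideal maps from stage `m + v.length` to stage `m` -/
noncomputable def Fo (m : ℕ) : List Bool → ℝ → ℝ
  | [], y => y
  | i :: v, y => Fo m v (rs (m + v.length) + (if i then -1 else 1) * fd y)

end Pool.Agent.BI39
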