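import Mathlib
import Pool.Agent.Lib.BI39.Defs

/-!
BI39, row A1: the distance to the nearest integer.
(`fd x = ‖(x : UnitAddCircle)‖`, `UnitAddCircle.norm_eq`, gives the Lipschitz bound and periodicity.)
For `fd_quarter`: reduce to `0 ≤ x ≤ 1/2` by periodicity and evenness; then
`fd (1/4 + x) = 1/4 + fd (2 x) / 2` and `fd (1/4 - x) = |1/4 - x| = 1/4 - fd (2 x) / 2`, and adding `m / 2`
changes `fd y` to `1/2 - fd y` if `m` is odd.
-/

set_option autoImplicit false

namespace Pool.Agent.BI39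

theorem fd_nonneg (x : ℝ) : 0 ≤ fd x := by
  exact abs_nonneg _

theorem fd_le (x : ℝ) : fd x ≤ 1 / 2 := by
  exact abs_sub_round x

private theorem A1_le (x : ℝ) (z : ℤ) : fd x ≤ |x - z| := round_le x z

theorem fd_lip (x y : ℝ) : |fd x - fd y| ≤ |x - y| := by
  have h1 := A1_le x (round y)
  have h2 := A1_le y (round x)
  have e1 : |x - (round y : ℝ)| ≤ |x - y| + fd y := by
    have : x - (round y : ℝ) = (x - y) + (y - round y) := by ring
    rw [this]
    exact abs_add_le _ _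
  have e2 : |y - (round x : ℝ)| ≤ |x - y| + fd x := by
    have : y - (round x : ℝ) = (y - x) + (x - round x) := by ring
    rw [this, abs_sub_comm x y]
    exact abs_add_le _ _
  rw [abs_le]
  constructor <;> linarith

theorem continuous_fd : Continuous fd := by
  refine (LipschitzWith.of_dist_le_mul (K := 1) fun x y => ?_).continuous
  rw [Real.dist_eq, Real.dist_eq]
  simpa using fd_lip x y

theorem fd_add_int (x : ℝ) (k : ℤ) : fd (x + k) = fd x := by
  unfold fd
  rw [round_add_intCast]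
  push_cast
  congr 1
  ring

theorem fd_neg (x : ℝ) : fd (-x) = fd x := by
  have key : ∀ y : ℝ, fd (-y) ≤ fd y := by
    intro y
    have h := A1_le (-y) (-round y)
    have e : |-y - ((-round y : ℤ) : ℝ)| = fd y := by
      unfold fd
      push_cast
      rw [← abs_neg]
      congr 1
      ring
    rw [e] at h
    exact h
  refine le_antisymm (key x) ?_
  have := key (-x)
  rwa [neg_neg] at this

theorem fd_of_abs_le {x : ℝ} (h : |x| ≤ 1 / 2) : fd x = |x| := by
  refine le_antisymm ?_ ?_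
  · have := A1_le x 0
    simpa using this
  · unfold fd
    by_cases h0 : round x = 0
    · rw [h0]
      simp
    · have h1 : (1 : ℝ) ≤ |(round x : ℝ)| := by
        have : (1 : ℤ) ≤ |round x| := Int.one_le_abs h0
        exact_mod_cast this
      have h2 : |(round x : ℝ)| ≤ |x| + |x - round x| := by
        have : (round x : ℝ) = x - (x - round x) := by ring
        calc |(round x : ℝ)| = |x - (x - round x)| := by rw [← this]
          _ ≤ |x| + |x - round x| := abs_sub _ _
      linarith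

private theorem A1_dec (x : ℝ) : ∃ (r : ℝ) (k : ℤ), |r| ≤ 1 / 2 ∧ x = r + k :=
  ⟨x - round x, round x, abs_sub_round x, by ring⟩

theorem fd_add_half (x : ℝ) : fd (x + 1 / 2) = 1 / 2 - fd x := by
  obtain ⟨r, k, hr, rfl⟩ := A1_dec x
  have e : r + (k : ℝ) + 1 / 2 = (r + 1 / 2) + k := by ring
  rw [e, fd_add_int, fd_add_int]
  rw [abs_le] at hr
  rw [fd_of_abs_le (abs_le.2 hr)]
  rcases le_total r 0 with h | h
  · rw [fd_of_abs_le (abs_le.2 ⟨by linarith, by linarith⟩), abs_of_nonneg (by linarith),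
      abs_of_nonpos h]
    ring
  · have e2 : r + 1 / 2 = (r - 1 / 2) + ((1 : ℤ) : ℝ) := by push_cast; ring
    rw [e2, fd_add_int, fd_of_abs_le (abs_le.2 ⟨by linarith, by linarith⟩),
      abs_of_nonpos (by linarith), abs_of_nonneg h]
    ring

private theorem A1_two (x : ℝ) :
    (fd x ≤ 1 / 4 ∧ fd (2 * x) = 2 * fd x) ∨ (1 / 4 ≤ fd x ∧ fd (2 * x) = 1 - 2 * fd x) := by
  obtain ⟨r, k, hr, rfl⟩ := A1_dec x
  have e : 2 * (r + (k : ℝ)) = 2 * r + ((2 * k : ℤ) : ℝ) := by push_cast; ring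
  rw [e, fd_add_int, fd_add_int, fd_of_abs_le hr]
  rcases le_total |r| (1 / 4) with h | h
  · left
    refine ⟨h, ?_⟩
    have h2 : |2 * r| = 2 * |r| := by rw [abs_mul]; norm_num
    rw [fd_of_abs_le (by rw [h2]; linarith), h2]
  · right
    refine ⟨h, ?_⟩
    rw [abs_le] at hr
    rcases le_total r 0 with h0 | h0
    · rw [abs_of_nonpos h0] at h ⊢
      have e2 : 2 * r = (2 * r + 1) + ((-1 : ℤ) : ℝ) := by push_cast; ring
      rw [e2, fd_add_int, fd_of_abs_le (abs_le.2 ⟨by linarith, by linarith⟩),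
        abs_of_nonneg (by linarith)]
      ring
    · rw [abs_of_nonneg h0] at h ⊢
      have e2 : 2 * r = (2 * r - 1) + ((1 : ℤ) : ℝ) := by push_cast; ring
      rw [e2, fd_add_int, fd_of_abs_le (abs_le.2 ⟨by linarith, by linarith⟩),
        abs_of_nonpos (by linarith)]
      ring

private theorem A1_base (ε : ℝ) (hε : ε = 1 ∨ ε = -1) (x : ℝ) :
    fd (1 / 4 + ε * fd x) = 1 / 4 + ε * (fd (2 * x) / 2) := by
  have h0 := fd_nonneg x
  have h1 := fd_le x
  rcases hε with rfl | rfl
  · rcases A1_two x with ⟨h, h2⟩ | ⟨h, h2⟩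
    · rw [h2, fd_of_abs_le (abs_le.2 ⟨by linarith, by linarith⟩), abs_of_nonneg (by linarith)]
      ring
    · have e2 : (1 / 4 + 1 * fd x : ℝ) = (fd x - 3 / 4) + ((1 : ℤ) : ℝ) := by push_cast; ring
      rw [h2, e2, fd_add_int, fd_of_abs_le (abs_le.2 ⟨by linarith, by linarith⟩),
        abs_of_nonpos (by linarith)]
      ring
  · rcases A1_two x with ⟨h, h2⟩ | ⟨h, h2⟩
    · rw [h2, fd_of_abs_le (abs_le.2 ⟨by linarith, by linarith⟩), abs_of_nonneg (by linarith)]
      ring
    · rw [h2, fd_of_abs_le (abs_le.2 ⟨by linarith, by linarith⟩), abs_of_nonpos (by linarith)]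
      ring

theorem fd_quarter (m : ℤ) (ε : ℝ) (hε : ε = 1 ∨ ε = -1) :
    ∃ ε' : ℝ, (ε' = 1 ∨ ε' = -1) ∧
      ∀ x : ℝ, fd (1 / 4 + m / 2 + ε * fd x) = 1 / 4 + ε' * (fd (2 * x) / 2) := by
  rcases Int.even_or_odd' m with ⟨k, hk | hk⟩
  · refine ⟨ε, hε, fun x => ?_⟩
    rw [hk]
    have e : (1 / 4 + ((2 * k : ℤ) : ℝ) / 2 + ε * fd x : ℝ) = (1 / 4 + ε * fd x) + (k : ℤ) := by
      push_cast
      ring
    rw [e, fd_add_int, A1_base ε hε]
  · refine ⟨-ε, ?_, fun x => ?_⟩
    · rcases hε with rfl | rfl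
      · right; rfl
      · left; norm_num
    · rw [hk]
      have e : (1 / 4 + ((2 * k + 1 : ℤ) : ℝ) / 2 + ε * fd x : ℝ)
          = ((1 / 4 + ε * fd x) + 1 / 2) + (k : ℤ) := by
        push_cast
        ring
      rw [e, fd_add_int, fd_add_half, A1_base ε hε]
      ring

end Pool.Agent.BI39
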