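import Mathlib
import Pool.Agent.Lib.BI39.Defs
import Pool.Agent.Lib.BI39.A1

/-!
BI39, row A2: the triangle wave `ww` and the functions `XX`, `SS`, `CC` (`Λ = 4 q + 2 π ρ` is the period).

`ww` on `[-q - πρ/2, q + πρ/2]` is the identity, on `[q + πρ/2, 3q + 3πρ/2]` it is
`t ↦ 2 q + π ρ - t` (`fd_of_abs_le`, `fd_add_int`, `fd_add_half`). The shift by `Λ / 4` in `CC`:
`ww (t + Λ/4)` is the triangle wave which is maximal at `t = 0`; for `0 ≤ t ≤ 2 q + π ρ` it is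
`q + πρ/2 - t`. All identities were checked numerically.
-/

set_option autoImplicit false

namespace Pool.Agent.BI39

open Real

theorem ww_add_int (q ρ t : ℝ) (h : 0 < 4 * q + 2 * π * ρ) (k : ℤ) :
    ww q ρ (t + k * (4 * q + 2 * π * ρ)) = ww q ρ t := by
  unfold ww
  have h1 : (t + k * (4 * q + 2 * π * ρ)) / (4 * q + 2 * π * ρ) + 1 / 4 =
      t / (4 * q + 2 * π * ρ) + 1 / 4 + k := by
    rw [add_div, mul_div_cancel_right₀ _ h.ne']
    ring
  rw [h1, fd_add_int]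

theorem ww_neg (q ρ t : ℝ) : ww q ρ (-t) = -ww q ρ t := by
  unfold ww
  have h1 : fd (-t / (4 * q + 2 * π * ρ) + 1 / 4) =
      1 / 2 - fd (t / (4 * q + 2 * π * ρ) + 1 / 4) := by
    have h2 : t / (4 * q + 2 * π * ρ) + 1 / 4 = (t / (4 * q + 2 * π * ρ) - 1 / 4) + 1 / 2 := by
      ring
    have h3 : -t / (4 * q + 2 * π * ρ) + 1 / 4 = -(t / (4 * q + 2 * π * ρ) - 1 / 4) := by
      rw [neg_div]
      ring
    rw [h2, fd_add_half, h3, fd_neg]
    ring
  rw [h1]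
  ring

theorem ww_half (q ρ t : ℝ) (h : 0 < 4 * q + 2 * π * ρ) :
    ww q ρ (t + (2 * q + π * ρ)) = -ww q ρ t := by
  unfold ww
  have h1 : (t + (2 * q + π * ρ)) / (4 * q + 2 * π * ρ) + 1 / 4 =
      t / (4 * q + 2 * π * ρ) + 1 / 4 + 1 / 2 := by
    have h2 : (2 * q + π * ρ) / (4 * q + 2 * π * ρ) = 1 / 2 := by
      rw [div_eq_iff h.ne']
      ring
    rw [add_div, h2]
    ring
  rw [h1, fd_add_half]
  ring

theorem ww_lip (q ρ t t' : ℝ) (h : 0 < 4 * q + 2 * π * ρ) :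
    |ww q ρ t - ww q ρ t'| ≤ |t - t'| := by
  unfold ww
  set Λ := 4 * q + 2 * π * ρ with hΛ
  have h1 : Λ * (fd (t / Λ + 1 / 4) - 1 / 4) - Λ * (fd (t' / Λ + 1 / 4) - 1 / 4) =
      Λ * (fd (t / Λ + 1 / 4) - fd (t' / Λ + 1 / 4)) := by ring
  rw [h1, abs_mul, abs_of_pos h]
  have h2 := fd_lip (t / Λ + 1 / 4) (t' / Λ + 1 / 4)
  have h3 : t / Λ + 1 / 4 - (t' / Λ + 1 / 4) = (t - t') / Λ := by ring
  rw [h3, abs_div, abs_of_pos h, le_div_iff₀ h] at h2
  linarith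

theorem abs_ww_le (q ρ t : ℝ) (h : 0 < 4 * q + 2 * π * ρ) : |ww q ρ t| ≤ q + π * ρ / 2 := by
  unfold ww
  have h1 := fd_nonneg (t / (4 * q + 2 * π * ρ) + 1 / 4)
  have h2 := fd_le (t / (4 * q + 2 * π * ρ) + 1 / 4)
  rw [abs_mul, abs_of_pos h]
  have h3 : |fd (t / (4 * q + 2 * π * ρ) + 1 / 4) - 1 / 4| ≤ 1 / 4 := by
    rw [abs_le]
    constructor <;> linarith
  calc (4 * q + 2 * π * ρ) * |fd (t / (4 * q + 2 * π * ρ) + 1 / 4) - 1 / 4|
      ≤ (4 * q + 2 * π * ρ) * (1 / 4) := mul_le_mul_of_nonneg_left h3 h.le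
    _ = q + π * ρ / 2 := by ring

theorem ww_of_abs_le (q ρ t : ℝ) (h : 0 < 4 * q + 2 * π * ρ) (ht : |t| ≤ q + π * ρ / 2) :
    ww q ρ t = t := by
  unfold ww
  rw [abs_le] at ht
  have h1 : -(1 / 4) ≤ t / (4 * q + 2 * π * ρ) := by
    rw [le_div_iff₀ h]
    linarith [ht.1]
  have h2 : t / (4 * q + 2 * π * ρ) ≤ 1 / 4 := by
    rw [div_le_iff₀ h]
    linarith [ht.2]
  have h3 : |t / (4 * q + 2 * π * ρ) + 1 / 4| = t / (4 * q + 2 * π * ρ) + 1 / 4 :=
    abs_of_nonneg (by linarith)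
  have h4 : fd (t / (4 * q + 2 * π * ρ) + 1 / 4) = t / (4 * q + 2 * π * ρ) + 1 / 4 := by
    rw [fd_of_abs_le, h3]
    rw [h3]
    linarith
  rw [h4, add_sub_cancel_right, mul_div_cancel₀ _ h.ne']

theorem continuous_ww (q ρ : ℝ) : Continuous (ww q ρ) := by
  unfold ww
  exact continuous_const.mul ((continuous_fd.comp
    ((continuous_id.div_const _).add continuous_const)).sub continuous_const)

theorem continuous_XX (q ρ : ℝ) : Continuous (XX q ρ) :=
  continuous_const.max (continuous_const.min (continuous_ww q ρ))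

theorem continuous_SS (q ρ : ℝ) : Continuous (SS q ρ) :=
  continuous_sin.comp (((continuous_ww q ρ).sub (continuous_XX q ρ)).div_const _)

theorem continuous_CC (q ρ : ℝ) : Continuous (CC q ρ) :=
  continuous_sin.comp ((continuous_const.max (continuous_const.min
    ((continuous_ww q ρ).comp (continuous_id.add continuous_const)))).div_const _)

theorem XX_add_int (q ρ t : ℝ) (h : 0 < 4 * q + 2 * π * ρ) (k : ℤ) :
    XX q ρ (t + k * (4 * q + 2 * π * ρ)) = XX q ρ t := by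
  unfold XX
  rw [ww_add_int q ρ t h k]

theorem SS_add_int (q ρ t : ℝ) (h : 0 < 4 * q + 2 * π * ρ) (k : ℤ) :
    SS q ρ (t + k * (4 * q + 2 * π * ρ)) = SS q ρ t := by
  unfold SS
  rw [ww_add_int q ρ t h k, XX_add_int q ρ t h k]

theorem CC_add_int (q ρ t : ℝ) (h : 0 < 4 * q + 2 * π * ρ) (k : ℤ) :
    CC q ρ (t + k * (4 * q + 2 * π * ρ)) = CC q ρ t := by
  unfold CC
  have h1 : t + k * (4 * q + 2 * π * ρ) + (4 * q + 2 * π * ρ) / 4 =
      t + (4 * q + 2 * π * ρ) / 4 + k * (4 * q + 2 * π * ρ) := by ring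
  rw [h1, ww_add_int q ρ _ h k]

private theorem A2_clamp_neg {q : ℝ} (hq : 0 ≤ q) (w : ℝ) :
    max (-q) (min q (-w)) = -max (-q) (min q w) := by
  rcases le_total q w with h1 | h1
  · rw [min_eq_left h1, min_eq_right (by linarith), max_eq_left (by linarith),
      max_eq_right (by linarith)]
  · rcases le_total w (-q) with h2 | h2
    · rw [min_eq_right h1, max_eq_left h2, min_eq_left (by linarith), max_eq_right (by linarith)]
      ring
    · rw [min_eq_right h1, max_eq_right h2, min_eq_right (by linarith), max_eq_right (by linarith)]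

theorem XX_neg (q ρ t : ℝ) (hq : 0 ≤ q) : XX q ρ (-t) = -XX q ρ t := by
  unfold XX
  rw [ww_neg, A2_clamp_neg hq]

theorem SS_neg (q ρ t : ℝ) (hq : 0 ≤ q) : SS q ρ (-t) = -SS q ρ t := by
  unfold SS
  rw [XX_neg q ρ t hq, ww_neg, ← sin_neg]
  congr 1
  ring

theorem CC_neg (q ρ t : ℝ) (h : 0 < 4 * q + 2 * π * ρ) : CC q ρ (-t) = CC q ρ t := by
  unfold CC
  have h1 : ww q ρ (-t + (4 * q + 2 * π * ρ) / 4) = ww q ρ (t + (4 * q + 2 * π * ρ) / 4) := by
    have h2 : -t + (4 * q + 2 * π * ρ) / 4 = -(t - (4 * q + 2 * π * ρ) / 4) := by ring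
    have h3 : t + (4 * q + 2 * π * ρ) / 4 = (t - (4 * q + 2 * π * ρ) / 4) + (2 * q + π * ρ) := by
      ring
    rw [h2, ww_neg, h3, ww_half q ρ _ h]
  rw [h1]

theorem abs_XX_le (q ρ t : ℝ) (hq : 0 ≤ q) : |XX q ρ t| ≤ q := by
  unfold XX
  rw [abs_le]
  exact ⟨le_max_left _ _, max_le (by linarith) (min_le_left _ _)⟩

end Pool.Agent.BI39
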