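import Mathlib
import Pool.Agent.Lib.BI39.Defs
import Pool.Agent.Lib.BI39.A1
import Pool.Agent.Lib.BI39.A2

/-!
BI39, row A2b: the four arcs of the stadium curve (`Λ = 4 q + 2 π ρ`).

`ww (t + Λ/4) = Λ (fd (t/Λ + 1/2) - 1/4)`; for `-Λ/2 ≤ t ≤ Λ/2` this is `Λ/4 - |t|`. Use `ww_half` and
`CC` of `t + Λ/2` (`= - CC t`) to get arcs 3 and 4 from arcs 1 and 2 (and arc 2 from its first half by
`sin (π - x) = sin x`). All identities were checked numerically.
-/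

set_option autoImplicit false

namespace Pool.Agent.BI39

open Real

private theorem A2b_pos {q ρ : ℝ} (hq : 0 ≤ q) (hρ : 0 < ρ) : 0 < 4 * q + 2 * π * ρ := by
  have := mul_pos pi_pos hρ
  linarith

private theorem A2b_clamp_neg {q : ℝ} (hq : 0 ≤ q) (w : ℝ) :
    max (-q) (min q (-w)) = -max (-q) (min q w) := by
  rcases le_total q w with h1 | h1
  · rw [min_eq_left h1, min_eq_right (by linarith), max_eq_left (by linarith),
      max_eq_right (by linarith)]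
  · rcases le_total w (-q) with h2 | h2
    · rw [min_eq_right h1, max_eq_left h2, min_eq_left (by linarith), max_eq_right (by linarith)]
      ring
    · rw [min_eq_right h1, max_eq_right h2, min_eq_right (by linarith), max_eq_right (by linarith)]

/-- the shifted triangle wave -/
private theorem A2b_wwq {q ρ t : ℝ} (h : 0 < 4 * q + 2 * π * ρ) (ht : |t| ≤ 2 * q + π * ρ) :
    ww q ρ (t + (4 * q + 2 * π * ρ) / 4) = q + π * ρ / 2 - |t| := by
  unfold ww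
  have h1 : (t + (4 * q + 2 * π * ρ) / 4) / (4 * q + 2 * π * ρ) + 1 / 4 =
      t / (4 * q + 2 * π * ρ) + 1 / 2 := by
    have h2 : (4 * q + 2 * π * ρ) / 4 / (4 * q + 2 * π * ρ) = 1 / 4 := by
      rw [div_div, div_eq_iff (by positivity)]
      ring
    rw [add_div, h2]
    ring
  have h3 : |t / (4 * q + 2 * π * ρ)| = |t| / (4 * q + 2 * π * ρ) := by
    rw [abs_div, abs_of_pos h]
  have h4 : |t / (4 * q + 2 * π * ρ)| ≤ 1 / 2 := by
    rw [h3, div_le_iff₀ h]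
    linarith
  rw [h1, fd_add_half, fd_of_abs_le h4, h3]
  have h5 : (4 * q + 2 * π * ρ) * (|t| / (4 * q + 2 * π * ρ)) = |t| := mul_div_cancel₀ _ h.ne'
  linear_combination -h5

theorem XX_half (q ρ t : ℝ) (hq : 0 ≤ q) (hρ : 0 < ρ) : XX q ρ (t + (2 * q + π * ρ)) = -XX q ρ t := by
  unfold XX
  rw [ww_half q ρ t (A2b_pos hq hρ), A2b_clamp_neg hq]

theorem SS_half (q ρ t : ℝ) (hq : 0 ≤ q) (hρ : 0 < ρ) : SS q ρ (t + (2 * q + π * ρ)) = -SS q ρ t := by
  unfold SS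
  rw [XX_half q ρ t hq hρ, ww_half q ρ t (A2b_pos hq hρ), ← sin_neg]
  congr 1
  ring

theorem CC_half (q ρ t : ℝ) (hq : 0 ≤ q) (hρ : 0 < ρ) : CC q ρ (t + (2 * q + π * ρ)) = -CC q ρ t := by
  unfold CC
  have h1 : t + (2 * q + π * ρ) + (4 * q + 2 * π * ρ) / 4 =
      t + (4 * q + 2 * π * ρ) / 4 + (2 * q + π * ρ) := by ring
  have h2 : 0 ≤ π * ρ / 2 := by positivity
  rw [h1, ww_half q ρ _ (A2b_pos hq hρ), A2b_clamp_neg h2, neg_div, sin_neg]

theorem arc1 {q ρ t : ℝ} (hq : 0 ≤ q) (hρ : 0 < ρ) (h : |t| ≤ q) :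
    XX q ρ t = t ∧ SS q ρ t = 0 ∧ CC q ρ t = 1 := by
  have hpos := A2b_pos hq hρ
  have hπ := mul_pos pi_pos hρ
  have hw : ww q ρ t = t := ww_of_abs_le q ρ t hpos (by linarith)
  have hX : XX q ρ t = t := by
    unfold XX
    rw [abs_le] at h
    rw [hw, min_eq_right h.2, max_eq_right h.1]
  refine ⟨hX, ?_, ?_⟩
  · unfold SS
    rw [hX, hw, sub_self, zero_div, sin_zero]
  · unfold CC
    rw [A2b_wwq hpos (by linarith), min_eq_left (by linarith), max_eq_right (by linarith)]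
    have h1 : π * ρ / 2 / ρ = π / 2 := by field_simp
    rw [h1, sin_pi_div_two]

theorem arc2 {q ρ t : ℝ} (hq : 0 ≤ q) (hρ : 0 < ρ) (h : q ≤ t) (h' : t ≤ q + π * ρ) :
    XX q ρ t = q ∧ SS q ρ t = sin ((t - q) / ρ) ∧ CC q ρ t = cos ((t - q) / ρ) := by
  have hpos := A2b_pos hq hρ
  have hπ := mul_pos pi_pos hρ
  have hC : CC q ρ t = cos ((t - q) / ρ) := by
    unfold CC
    have h1 : |t| = t := abs_of_nonneg (hq.trans h)
    rw [A2b_wwq hpos (by rw [h1]; linarith), h1, min_eq_right (by linarith),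
      max_eq_right (by linarith)]
    have h2 : (q + π * ρ / 2 - t) / ρ = π / 2 - (t - q) / ρ := by
      field_simp
      ring
    rw [h2, sin_pi_div_two_sub]
  rcases le_total t (q + π * ρ / 2) with h1 | h1
  · have hw : ww q ρ t = t := ww_of_abs_le q ρ t hpos (by rw [abs_of_nonneg (hq.trans h)]; exact h1)
    have hX : XX q ρ t = q := by
      unfold XX
      rw [hw, min_eq_left h, max_eq_right (by linarith)]
    refine ⟨hX, ?_, hC⟩
    unfold SS
    rw [hX, hw]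
  · have hw : ww q ρ t = 2 * q + π * ρ - t := by
      have h2 : t = (t - (4 * q + 2 * π * ρ) / 4) + (4 * q + 2 * π * ρ) / 4 := by ring
      have h3 : |t - (4 * q + 2 * π * ρ) / 4| = t - (4 * q + 2 * π * ρ) / 4 :=
        abs_of_nonneg (by linarith)
      rw [h2, A2b_wwq hpos (by rw [h3]; linarith), h3]
      ring
    have hX : XX q ρ t = q := by
      unfold XX
      rw [hw, min_eq_left (by linarith), max_eq_right (by linarith)]
    refine ⟨hX, ?_, hC⟩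
    unfold SS
    rw [hX, hw]
    have h2 : (2 * q + π * ρ - t - q) / ρ = π - (t - q) / ρ := by
      field_simp
      ring
    rw [h2, sin_pi_sub]

theorem arc3 {q ρ t : ℝ} (hq : 0 ≤ q) (hρ : 0 < ρ) (h : q + π * ρ ≤ t) (h' : t ≤ 3 * q + π * ρ) :
    XX q ρ t = 2 * q + π * ρ - t ∧ SS q ρ t = 0 ∧ CC q ρ t = -1 := by
  have h1 : |t - (2 * q + π * ρ)| ≤ q := by
    rw [abs_le]
    constructor <;> linarith
  obtain ⟨e1, e2, e3⟩ := arc1 hq hρ h1
  have h2 : t = t - (2 * q + π * ρ) + (2 * q + π * ρ) := by ring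
  have h3 := XX_half q ρ (t - (2 * q + π * ρ)) hq hρ
  have h4 := SS_half q ρ (t - (2 * q + π * ρ)) hq hρ
  have h5 := CC_half q ρ (t - (2 * q + π * ρ)) hq hρ
  rw [sub_add_cancel] at h3 h4 h5
  refine ⟨?_, ?_, ?_⟩
  · rw [h3, e1]
    ring
  · rw [h4, e2, neg_zero]
  · rw [h5, e3]

theorem arc4 {q ρ t : ℝ} (hq : 0 ≤ q) (hρ : 0 < ρ) (h : 3 * q + π * ρ ≤ t)
    (h' : t ≤ 3 * q + 2 * π * ρ) :
    XX q ρ t = -q ∧ SS q ρ t = -sin ((t - 3 * q - π * ρ) / ρ) ∧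
      CC q ρ t = -cos ((t - 3 * q - π * ρ) / ρ) := by
  obtain ⟨e1, e2, e3⟩ := arc2 (t := t - (2 * q + π * ρ)) hq hρ (by linarith) (by linarith)
  have h3 := XX_half q ρ (t - (2 * q + π * ρ)) hq hρ
  have h4 := SS_half q ρ (t - (2 * q + π * ρ)) hq hρ
  have h5 := CC_half q ρ (t - (2 * q + π * ρ)) hq hρ
  rw [sub_add_cancel] at h3 h4 h5
  have h6 : t - (2 * q + π * ρ) - q = t - 3 * q - π * ρ := by ring
  rw [h6] at e2 e3
  exact ⟨by rw [h3, e1], by rw [h4, e2], by rw [h5, e3]⟩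

theorem arcs_cover (q ρ t : ℝ) (h : 0 < 4 * q + 2 * π * ρ) :
    ∃ k : ℤ, -q ≤ t - k * (4 * q + 2 * π * ρ) ∧ t - k * (4 * q + 2 * π * ρ) ≤ 3 * q + 2 * π * ρ := by
  refine ⟨⌊(t + q) / (4 * q + 2 * π * ρ)⌋, ?_, ?_⟩
  · have h1 := Int.floor_le ((t + q) / (4 * q + 2 * π * ρ))
    rw [le_div_iff₀ h] at h1
    linarith
  · have h1 := Int.lt_floor_add_one ((t + q) / (4 * q + 2 * π * ρ))
    rw [div_lt_iff₀ h] at h1
    linarith

theorem SS_sq_add_CC_sq (q ρ t : ℝ) (hq : 0 ≤ q) (hρ : 0 < ρ) : SS q ρ t ^ 2 + CC q ρ t ^ 2 = 1 := by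
  have hpos := A2b_pos hq hρ
  obtain ⟨k, h1, h2⟩ := arcs_cover q ρ t hpos
  set s := t - k * (4 * q + 2 * π * ρ) with hs
  have ht : t = s + k * (4 * q + 2 * π * ρ) := by rw [hs]; ring
  rw [ht, SS_add_int q ρ s hpos, CC_add_int q ρ s hpos]
  rcases le_total s q with h3 | h3
  · obtain ⟨-, e2, e3⟩ := arc1 hq hρ (abs_le.2 ⟨h1, h3⟩)
    rw [e2, e3]
    norm_num
  · rcases le_total s (q + π * ρ) with h4 | h4
    · obtain ⟨-, e2, e3⟩ := arc2 hq hρ h3 h4
      rw [e2, e3, sin_sq_add_cos_sq]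
    · rcases le_total s (3 * q + π * ρ) with h5 | h5
      · obtain ⟨-, e2, e3⟩ := arc3 hq hρ h4 h5
        rw [e2, e3]
        norm_num
      · obtain ⟨-, e2, e3⟩ := arc4 hq hρ h5 h2
        rw [e2, e3, neg_sq, neg_sq, sin_sq_add_cos_sq]

end Pool.Agent.BI39
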