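import Mathlib
import Pool.Agent.Lib.BI39.Defs
import Pool.Agent.Lib.BI39.A1
import Pool.Agent.Lib.BI39.A2
import Pool.Agent.Lib.BI39.A2b

/-!
BI39, row A2c: consequences of the formulas for the four arcs (`arcs_cover`, periodicity, `arc1`, ..., `arc4`).

`exists_arc`: if `|u| ≤ q` then `v = N` (`t = u`) or `v = -N` (`t = 2 q + π ρ - u`); if `u > q` then
`u - q = N sin φ`, `v = N cos φ` with `φ ∈ (0, π)`, `t = q + ρ φ`; if `u < -q` use the half turn.
`gt_error`: `|XX - ww| ≤ π ρ / 2`, `|ww| (1 - 4 q / Λ) ≤ π ρ / 2` (`Λ = 4 q + 2 π ρ`, `|ww| ≤ Λ / 4`),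
`|(a + p) SS| ≤ ρ`, and `fd (t / Λ + 1/4) - 1/4 = ww / Λ`.
-/

set_option autoImplicit false

namespace Pool.Agent.BI39

open Real

private theorem A2c_Lpos {q ρ : ℝ} (hq : 0 ≤ q) (hρ : 0 < ρ) : 0 < 4 * q + 2 * π * ρ := by
  have := mul_pos pi_pos hρ
  linarith

private theorem A2c_diff {q ρ : ℝ} (t : ℝ) (hq : 0 ≤ q) (hρ : 0 < ρ) :
    |ww q ρ t - XX q ρ t| ≤ π * ρ / 2 := by
  have h1 := abs_le.1 (abs_ww_le q ρ t (A2c_Lpos hq hρ))
  have h2 : 0 < π * ρ := mul_pos pi_pos hρ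
  rw [XX, abs_le]
  rcases le_total q (ww q ρ t) with h | h
  · rw [min_eq_left h, max_eq_right (by linarith)]
    constructor <;> linarith [h1.1, h1.2]
  · rw [min_eq_right h]
    rcases le_total (-q) (ww q ρ t) with h' | h'
    · rw [max_eq_right h']
      constructor <;> linarith
    · rw [max_eq_left h']
      constructor <;> linarith [h1.1, h1.2]

private theorem A2c_arg {q ρ : ℝ} (t : ℝ) (hq : 0 ≤ q) (hρ : 0 < ρ) :
    -(π / 2) ≤ (ww q ρ t - XX q ρ t) / ρ ∧ (ww q ρ t - XX q ρ t) / ρ ≤ π / 2 := by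
  have h := abs_le.1 (A2c_diff t hq hρ)
  constructor
  · rw [le_div_iff₀ hρ]; linarith [h.1]
  · rw [div_le_iff₀ hρ]; linarith [h.2]

theorem XX_of_SS_pos {q ρ t : ℝ} (hq : 0 ≤ q) (hρ : 0 < ρ) (h : 0 < SS q ρ t) : XX q ρ t = q := by
  have harg := A2c_arg t hq hρ
  have h1 : 0 < (ww q ρ t - XX q ρ t) / ρ := by
    by_contra hc
    have : SS q ρ t ≤ 0 := by
      rw [SS]
      exact sin_nonpos_of_nonpos_of_neg_pi_le (not_lt.1 hc) (by linarith [harg.1, pi_pos])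
    linarith
  have h2 : 0 < ww q ρ t - XX q ρ t := by
    by_contra hc
    have := div_nonpos_of_nonpos_of_nonneg (not_lt.1 hc) hρ.le
    linarith
  rw [XX] at h2 ⊢
  rcases le_total q (ww q ρ t) with h3 | h3
  · rw [min_eq_left h3, max_eq_right (by linarith)]
  · exfalso
    rw [min_eq_right h3] at h2
    linarith [le_max_right (-q) (ww q ρ t)]

theorem XX_of_SS_neg {q ρ t : ℝ} (hq : 0 ≤ q) (hρ : 0 < ρ) (h : SS q ρ t < 0) : XX q ρ t = -q := by
  have h1 : 0 < SS q ρ (-t) := by rw [SS_neg q ρ t hq]; linarith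
  have h2 := XX_of_SS_pos hq hρ h1
  rw [XX_neg q ρ t hq] at h2
  linarith

private theorem A2c_absSS (q ρ t : ℝ) : |SS q ρ t| ≤ 1 := abs_sin_le_one _

private theorem A2c_absCC (q ρ t : ℝ) : |CC q ρ t| ≤ 1 := abs_sin_le_one _

theorem abs_gt_le {q ρ a t p : ℝ} (hq : 0 ≤ q) (hρ : 0 < ρ) (h : 0 ≤ a + p) :
    |gt q ρ a t p| ≤ q + (a + p) := by
  have h1 := abs_XX_le q ρ t hq
  have h2 := A2c_absSS q ρ t
  rw [gt]
  calc |XX q ρ t + (a + p) * SS q ρ t| ≤ |XX q ρ t| + |(a + p) * SS q ρ t| := abs_add_le _ _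
    _ ≤ q + (a + p) := by
      rw [abs_mul, abs_of_nonneg h]
      nlinarith

theorem abs_gz_le {q ρ a t p : ℝ} (hq : 0 ≤ q) (hρ : 0 < ρ) (h : 0 ≤ a + p) :
    |gz q ρ a t p| ≤ a + p := by
  have h2 := A2c_absCC q ρ t
  rw [gz, abs_mul, abs_of_nonneg h]
  nlinarith

/-- the upper half of the curve lies in the half plane `t > 0` -/
theorem gt_pos {q ρ a t p : ℝ} (hq : 0 < q) (hρ : 0 < ρ) (h : 0 < a + p) (ht : 0 < t)
    (ht' : t < 2 * q + π * ρ) : 0 < gt q ρ a t p := by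
  have hL := A2c_Lpos hq.le hρ
  have hπ : 0 < π * ρ := mul_pos pi_pos hρ
  have hw : 0 < ww q ρ t := by
    rcases le_total t (q + π * ρ / 2) with h1 | h1
    · rw [ww_of_abs_le q ρ t hL (by rw [abs_le]; constructor <;> linarith)]
      exact ht
    · have h2 := ww_half q ρ (t - (2 * q + π * ρ)) hL
      rw [sub_add_cancel] at h2
      rw [h2, ww_of_abs_le q ρ _ hL (by rw [abs_le]; constructor <;> linarith)]
      linarith
  have hX : 0 < XX q ρ t := by
    rw [XX]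
    exact lt_max_of_lt_right (lt_min hq hw)
  have hX' : XX q ρ t ≤ ww q ρ t := by
    rw [XX]
    exact max_le (by linarith) (min_le_right _ _)
  have hS : 0 ≤ SS q ρ t := by
    rw [SS]
    apply sin_nonneg_of_nonneg_of_le_pi
    · exact div_nonneg (by linarith) hρ.le
    · linarith [(A2c_arg t hq.le hρ).2, pi_pos]
  rw [gt]
  have := mul_nonneg h.le hS
  linarith

/-- the stadium function of a point of the image -/
theorem stadium_gt_gz {q ρ a t p : ℝ} (hq : 0 ≤ q) (hρ : 0 < ρ) (h : 0 ≤ a + p) :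
    (max (|gt q ρ a t p| - q) 0) ^ 2 + gz q ρ a t p ^ 2 = (a + p) ^ 2 := by
  have hsc := SS_sq_add_CC_sq q ρ t hq hρ
  have hid : ((a + p) * SS q ρ t) ^ 2 + ((a + p) * CC q ρ t) ^ 2 = (a + p) ^ 2 := by
    have : (a + p) ^ 2 * (SS q ρ t ^ 2 + CC q ρ t ^ 2) = (a + p) ^ 2 := by rw [hsc, mul_one]
    linarith
  rw [gz]
  rcases lt_trichotomy (SS q ρ t) 0 with hS | hS | hS
  · have hX := XX_of_SS_neg hq hρ hS
    have hn : (a + p) * SS q ρ t ≤ 0 := mul_nonpos_of_nonneg_of_nonpos h hS.le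
    rw [gt, hX, abs_of_nonpos (by linarith)]
    have e : -(-q + (a + p) * SS q ρ t) - q = -((a + p) * SS q ρ t) := by ring
    rw [e, max_eq_left (by linarith), neg_sq]
    exact hid
  · have hX := abs_XX_le q ρ t hq
    rw [gt, hS, mul_zero, add_zero, max_eq_right (by linarith)]
    rw [hS] at hid
    simpa using hid
  · have hX := XX_of_SS_pos hq hρ hS
    have hn : 0 ≤ (a + p) * SS q ρ t := mul_nonneg h hS.le
    rw [gt, hX, abs_of_nonneg (by linarith)]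
    have e : q + (a + p) * SS q ρ t - q = (a + p) * SS q ρ t := by ring
    rw [e, max_eq_left hn]
    exact hid

private theorem A2c_arc_right {q ρ u v N : ℝ} (hq : 0 ≤ q) (hρ : 0 < ρ) (hN : 0 < N) (hu : q < u)
    (h : (u - q) ^ 2 + v ^ 2 = N ^ 2) :
    ∃ t : ℝ, XX q ρ t + N * SS q ρ t = u ∧ N * CC q ρ t = v := by
  have hv : |v| ≤ N := abs_le_of_sq_le_sq (by nlinarith [sq_nonneg (u - q)]) hN.le
  have hv' := abs_le.1 hv
  have h1 : -1 ≤ v / N := by rw [le_div_iff₀ hN]; linarith [hv'.1]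
  have h2 : v / N ≤ 1 := by rw [div_le_iff₀ hN]; linarith [hv'.2]
  set φ := arccos (v / N) with hφ
  have hφ0 : 0 ≤ φ := arccos_nonneg _
  have hφ1 : φ ≤ π := arccos_le_pi _
  have hc : cos φ = v / N := cos_arccos h1 h2
  have hs : sin φ = (u - q) / N := by
    have h3 : 0 ≤ sin φ := sin_nonneg_of_nonneg_of_le_pi hφ0 hφ1
    have h4 : 0 ≤ (u - q) / N := div_nonneg (by linarith) hN.le
    have h5 : sin φ ^ 2 = ((u - q) / N) ^ 2 := by
      have h6 := sin_sq_add_cos_sq φ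
      rw [hc] at h6
      have h7 : ((u - q) / N) ^ 2 + (v / N) ^ 2 = 1 := by
        rw [div_pow, div_pow, ← add_div, h, div_self (by positivity)]
      linarith
    exact (pow_left_inj₀ h3 h4 two_ne_zero).1 h5
  have ha := arc2 (q := q) (ρ := ρ) (t := q + ρ * φ) hq hρ
    (by linarith [mul_nonneg hρ.le hφ0]) (by nlinarith)
  have e : (q + ρ * φ - q) / ρ = φ := by field_simp; ring
  rw [e] at ha
  refine ⟨q + ρ * φ, ?_, ?_⟩
  · rw [ha.1, ha.2.1, hs]
    field_simp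
    ring
  · rw [ha.2.2, hc]
    field_simp

/-- surjectivity onto the points outside the segment -/
theorem exists_arc {q ρ u v N : ℝ} (hq : 0 ≤ q) (hρ : 0 < ρ) (hN : 0 < N)
    (h : (max (|u| - q) 0) ^ 2 + v ^ 2 = N ^ 2) :
    ∃ t : ℝ, XX q ρ t + N * SS q ρ t = u ∧ N * CC q ρ t = v := by
  rcases le_or_gt |u| q with hu | hu
  · rw [max_eq_right (by linarith)] at h
    have hv : v ^ 2 = N ^ 2 := by linarith [h, sq_nonneg (0 : ℝ)]
    have hu' := abs_le.1 hu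
    rcases sq_eq_sq_iff_eq_or_eq_neg.1 hv with h1 | h1
    · obtain ⟨e1, e2, e3⟩ := arc1 (q := q) (ρ := ρ) (t := u) hq hρ hu
      exact ⟨u, by rw [e1, e2]; ring, by rw [e3, h1]; ring⟩
    · obtain ⟨e1, e2, e3⟩ := arc3 (q := q) (ρ := ρ) (t := 2 * q + π * ρ - u) hq hρ
        (by linarith) (by linarith)
      exact ⟨2 * q + π * ρ - u, by rw [e1, e2]; ring, by rw [e3, h1]; ring⟩
  · rw [max_eq_left (by linarith)] at h
    rcases le_or_gt 0 u with h0 | h0
    · rw [abs_of_nonneg h0] at h hu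
      exact A2c_arc_right hq hρ hN hu h
    · rw [abs_of_neg h0] at h hu
      obtain ⟨t, h1, h2⟩ := A2c_arc_right (u := -u) (v := -v) hq hρ hN hu (by rw [neg_sq]; exact h)
      refine ⟨t + (2 * q + π * ρ), ?_, ?_⟩
      · rw [XX_half q ρ t hq hρ, SS_half q ρ t hq hρ]
        linarith
      · rw [CC_half q ρ t hq hρ]
        linarith

/-- comparison with the ideal folding map -/
theorem gt_error {q ρ a t p : ℝ} (hq : 0 < q) (hρ : 0 < ρ) (h : 0 ≤ a + p) (h' : a + p ≤ ρ) :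
    |gt q ρ a t p / (4 * q) - (fd (t / (4 * q + 2 * π * ρ) + 1 / 4) - 1 / 4)| ≤
      (π + 1) * ρ / (4 * q) := by
  have hL := A2c_Lpos hq.le hρ
  have h1 := A2c_diff t hq.le hρ
  have h2 := abs_ww_le q ρ t hL
  have h3 := A2c_absSS q ρ t
  have e1 : fd (t / (4 * q + 2 * π * ρ) + 1 / 4) - 1 / 4 = ww q ρ t / (4 * q + 2 * π * ρ) := by
    rw [ww]
    field_simp
  have hq4 : 0 < 4 * q := by linarith
  have e2 : gt q ρ a t p / (4 * q) - ww q ρ t / (4 * q + 2 * π * ρ) =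
      ((a + p) * SS q ρ t - (ww q ρ t - XX q ρ t) +
        ww q ρ t * (2 * π * ρ / (4 * q + 2 * π * ρ))) / (4 * q) := by
    rw [gt]
    have : ww q ρ t / (4 * q + 2 * π * ρ) =
        ww q ρ t * (4 * q / (4 * q + 2 * π * ρ)) / (4 * q) := by field_simp
    rw [this, ← sub_div]
    congr 1
    have h5 : 4 * q / (4 * q + 2 * π * ρ) = 1 - 2 * π * ρ / (4 * q + 2 * π * ρ) := by
      rw [eq_sub_iff_add_eq, ← add_div, div_self hL.ne']
    rw [h5]
    ring
  rw [e1, e2, abs_div, abs_of_pos hq4]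
  apply div_le_div_of_nonneg_right _ hq4.le
  have b1 : |(a + p) * SS q ρ t| ≤ ρ := by
    rw [abs_mul, abs_of_nonneg h]
    nlinarith [abs_nonneg (SS q ρ t)]
  have b3 : |ww q ρ t * (2 * π * ρ / (4 * q + 2 * π * ρ))| ≤ π * ρ / 2 := by
    rw [abs_mul, abs_of_nonneg (a := 2 * π * ρ / (4 * q + 2 * π * ρ)) (by positivity)]
    have h6 : |ww q ρ t| ≤ (4 * q + 2 * π * ρ) / 4 := by linarith
    calc |ww q ρ t| * (2 * π * ρ / (4 * q + 2 * π * ρ))
        ≤ (4 * q + 2 * π * ρ) / 4 * (2 * π * ρ / (4 * q + 2 * π * ρ)) := by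
          apply mul_le_mul_of_nonneg_right h6 (by positivity)
      _ = π * ρ / 2 := by field_simp; ring
  have t1 := abs_add_le ((a + p) * SS q ρ t - (ww q ρ t - XX q ρ t))
    (ww q ρ t * (2 * π * ρ / (4 * q + 2 * π * ρ)))
  have t2 := abs_sub ((a + p) * SS q ρ t) (ww q ρ t - XX q ρ t)
  linarith

end Pool.Agent.BI39
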