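import Mathlib
import Pool.Agent.Lib.BI39.Defs
import Pool.Agent.Lib.BI39.A1
import Pool.Agent.Lib.BI39.A2
import Pool.Agent.Lib.BI39.A2b
import Pool.Agent.Lib.BI39.A2c

/-!
BI39, row A3: the planar stadium annulus map does not increase euclidean distances.
-/

set_option autoImplicit false

namespace Pool.Agent.BI39

open Real

private noncomputable def A3_N (x y : ℝ) : ℝ := ‖(⟨x, y⟩ : ℂ)‖

private theorem A3_N_sq (x y : ℝ) : A3_N x y ^ 2 = x ^ 2 + y ^ 2 := by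
  unfold A3_N
  rw [Complex.sq_norm, Complex.normSq_apply]
  ring

private theorem A3_N_nonneg (x y : ℝ) : 0 ≤ A3_N x y := norm_nonneg _

private theorem A3_le_of_sq {x y x' y' : ℝ} (h : x ^ 2 + y ^ 2 ≤ x' ^ 2 + y' ^ 2) :
    A3_N x y ≤ A3_N x' y' := by
  rw [← A3_N_sq, ← A3_N_sq] at h
  exact (sq_le_sq₀ (A3_N_nonneg _ _) (A3_N_nonneg _ _)).1 h

private theorem A3_sq_of_le {x y x' y' : ℝ} (h : A3_N x y ≤ A3_N x' y') :
    x ^ 2 + y ^ 2 ≤ x' ^ 2 + y' ^ 2 := by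
  rw [← A3_N_sq, ← A3_N_sq]
  exact (sq_le_sq₀ (A3_N_nonneg _ _) (A3_N_nonneg _ _)).2 h

private theorem A3_N_add (x y x' y' : ℝ) :
    A3_N (x + x') (y + y') ≤ A3_N x y + A3_N x' y' := by
  have h : (⟨x + x', y + y'⟩ : ℂ) = ⟨x, y⟩ + ⟨x', y'⟩ := by
    apply Complex.ext <;> simp
  unfold A3_N
  rw [h]
  exact norm_add_le _ _

private theorem A3_N_smul {s : ℝ} (hs : 0 ≤ s) (x y : ℝ) :
    A3_N (s * x) (s * y) = s * A3_N x y := by
  have h1 : A3_N (s * x) (s * y) ^ 2 = (s * A3_N x y) ^ 2 := by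
    rw [A3_N_sq, mul_pow s (A3_N x y), A3_N_sq]
    ring
  exact (sq_eq_sq₀ (A3_N_nonneg _ _) (mul_nonneg hs (A3_N_nonneg _ _))).1 h1

private def A3_Q (q ρ α β : ℝ) : Prop :=
  ∀ t t' r r' : ℝ, α ≤ t → t ≤ β → α ≤ t' → t' ≤ β → 0 ≤ r → r ≤ ρ → 0 ≤ r' → r' ≤ ρ →
    (XX q ρ t + r * SS q ρ t - (XX q ρ t' + r' * SS q ρ t')) ^ 2 +
      (r * CC q ρ t - r' * CC q ρ t') ^ 2 ≤ (t - t') ^ 2 + (r - r') ^ 2

private theorem A3_mixed {q ρ α c β : ℝ} (h1 : A3_Q q ρ α c) (h2 : A3_Q q ρ c β)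
    {t t' r r' : ℝ} (a1 : α ≤ t) (a2 : t ≤ c) (a3 : c ≤ t') (a4 : t' ≤ β) (b1 : 0 ≤ r)
    (b2 : r ≤ ρ) (b3 : 0 ≤ r') (b4 : r' ≤ ρ) :
    (XX q ρ t + r * SS q ρ t - (XX q ρ t' + r' * SS q ρ t')) ^ 2 +
      (r * CC q ρ t - r' * CC q ρ t') ^ 2 ≤ (t - t') ^ 2 + (r - r') ^ 2 := by
  rcases eq_or_lt_of_le (a2.trans a3) with h | h
  · have hc : t' = c := le_antisymm (h ▸ a2) a3
    exact h1 t t' r r' a1 a2 (by rw [← h]; exact a1) hc.le b1 b2 b3 b4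
  · set l := (c - t) / (t' - t) with hl
    have hpos : 0 < t' - t := by linarith
    have l0 : 0 ≤ l := div_nonneg (by linarith) hpos.le
    have l1 : l ≤ 1 := by rw [hl, div_le_one hpos]; linarith
    have hc : c = t + l * (t' - t) := by
      rw [hl, div_mul_cancel₀ _ hpos.ne']
      ring
    set s := r + l * (r' - r) with hs
    have s0 : 0 ≤ s := by nlinarith
    have s1 : s ≤ ρ := by nlinarith
    have e1 := A3_le_of_sq (h1 t c r s a1 a2 (a1.trans a2) le_rfl b1 b2 s0 s1)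
    have e2 := A3_le_of_sq (h2 c t' s r' le_rfl (a3.trans a4) a3 a4 s0 s1 b3 b4)
    apply A3_sq_of_le
    have e3 := A3_N_add (XX q ρ t + r * SS q ρ t - (XX q ρ c + s * SS q ρ c))
      (r * CC q ρ t - s * CC q ρ c)
      (XX q ρ c + s * SS q ρ c - (XX q ρ t' + r' * SS q ρ t')) (s * CC q ρ c - r' * CC q ρ t')
    have f1 : XX q ρ t + r * SS q ρ t - (XX q ρ c + s * SS q ρ c) +
        (XX q ρ c + s * SS q ρ c - (XX q ρ t' + r' * SS q ρ t')) =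
        XX q ρ t + r * SS q ρ t - (XX q ρ t' + r' * SS q ρ t') := by ring
    have f2 : r * CC q ρ t - s * CC q ρ c + (s * CC q ρ c - r' * CC q ρ t') =
        r * CC q ρ t - r' * CC q ρ t' := by ring
    rw [f1, f2] at e3
    have g1 : A3_N (t - c) (r - s) = l * A3_N (t - t') (r - r') := by
      rw [← A3_N_smul l0]
      congr 1
      · rw [hc]; ring
      · rw [hs]; ring
    have g2 : A3_N (c - t') (s - r') = (1 - l) * A3_N (t - t') (r - r') := by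
      rw [← A3_N_smul (by linarith : 0 ≤ 1 - l)]
      congr 1
      · rw [hc]; ring
      · rw [hs]; ring
    rw [g1] at e1
    rw [g2] at e2
    linarith

private theorem A3_glue {q ρ α c β : ℝ} (h1 : A3_Q q ρ α c) (h2 : A3_Q q ρ c β) :
    A3_Q q ρ α β := by
  intro t t' r r' a1 a2 a3 a4 b1 b2 b3 b4
  rcases le_total t c with hc | hc <;> rcases le_total t' c with hc' | hc'
  · exact h1 t t' r r' a1 hc a3 hc' b1 b2 b3 b4
  · exact A3_mixed h1 h2 a1 hc hc' a4 b1 b2 b3 b4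
  · have := A3_mixed h1 h2 a3 hc' hc a2 b3 b4 b1 b2
    calc _ = (XX q ρ t' + r' * SS q ρ t' - (XX q ρ t + r * SS q ρ t)) ^ 2 +
          (r' * CC q ρ t' - r * CC q ρ t) ^ 2 := by ring
      _ ≤ (t' - t) ^ 2 + (r' - r) ^ 2 := this
      _ = _ := by ring
  · exact h2 t t' r r' hc a2 hc' a4 b1 b2 b3 b4

private theorem A3_arc_lip {ρ r r' φ φ' u : ℝ} (b1 : 0 ≤ r) (b2 : r ≤ ρ) (b3 : 0 ≤ r')
    (b4 : r' ≤ ρ) (hu : u ^ 2 = (ρ * (φ - φ')) ^ 2) :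
    (r * sin φ - r' * sin φ') ^ 2 + (r * cos φ - r' * cos φ') ^ 2 ≤ u ^ 2 + (r - r') ^ 2 := by
  have h1 : (r * sin φ - r' * sin φ') ^ 2 + (r * cos φ - r' * cos φ') ^ 2 =
      (r - r') ^ 2 + 2 * (r * r') * (1 - cos (φ - φ')) := by
    rw [cos_sub]
    have e1 := sin_sq_add_cos_sq φ
    have e2 := sin_sq_add_cos_sq φ'
    linear_combination r ^ 2 * e1 + r' ^ 2 * e2
  have h2 : 1 - cos (φ - φ') ≤ (φ - φ') ^ 2 / 2 := by
    have := one_sub_sq_div_two_le_cos (x := φ - φ')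
    linarith
  have h3 : r * r' ≤ ρ ^ 2 := by nlinarith
  have h4 : 0 ≤ r * r' := mul_nonneg b1 b3
  have h5 : 2 * (r * r') * (1 - cos (φ - φ')) ≤ ρ ^ 2 * (φ - φ') ^ 2 := by
    have h6 : 2 * (r * r') * (1 - cos (φ - φ')) ≤ 2 * (r * r') * ((φ - φ') ^ 2 / 2) :=
      mul_le_mul_of_nonneg_left h2 (by linarith)
    have h7 : (r * r') * (φ - φ') ^ 2 ≤ ρ ^ 2 * (φ - φ') ^ 2 :=
      mul_le_mul_of_nonneg_right h3 (sq_nonneg _)
    linarith
  rw [h1, hu, mul_pow]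
  linarith

private theorem A3_period {q ρ : ℝ} (hq : 0 < q) (hρ : 0 < ρ) :
    A3_Q q ρ (-q) (3 * q + 2 * π * ρ) := by
  have hπ : 0 < π * ρ := mul_pos pi_pos hρ
  have q1 : A3_Q q ρ (-q) q := by
    intro t t' r r' a1 a2 a3 a4 b1 b2 b3 b4
    obtain ⟨e1, e2, e3⟩ := arc1 hq.le hρ (abs_le.2 ⟨a1, a2⟩)
    obtain ⟨e1', e2', e3'⟩ := arc1 hq.le hρ (abs_le.2 ⟨a3, a4⟩)
    rw [e1, e2, e3, e1', e2', e3']
    apply le_of_eq
    ring
  have q2 : A3_Q q ρ q (q + π * ρ) := by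
    intro t t' r r' a1 a2 a3 a4 b1 b2 b3 b4
    obtain ⟨e1, e2, e3⟩ := arc2 hq.le hρ a1 a2
    obtain ⟨e1', e2', e3'⟩ := arc2 hq.le hρ a3 a4
    rw [e1, e2, e3, e1', e2', e3']
    have := A3_arc_lip (ρ := ρ) (φ := (t - q) / ρ) (φ' := (t' - q) / ρ) (u := t - t') b1 b2 b3 b4
      (by
        congr 1
        field_simp
        ring)
    calc _ = (r * sin ((t - q) / ρ) - r' * sin ((t' - q) / ρ)) ^ 2 +
          (r * cos ((t - q) / ρ) - r' * cos ((t' - q) / ρ)) ^ 2 := by ring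
      _ ≤ _ := this
  have q3 : A3_Q q ρ (q + π * ρ) (3 * q + π * ρ) := by
    intro t t' r r' a1 a2 a3 a4 b1 b2 b3 b4
    obtain ⟨e1, e2, e3⟩ := arc3 hq.le hρ a1 a2
    obtain ⟨e1', e2', e3'⟩ := arc3 hq.le hρ a3 a4
    rw [e1, e2, e3, e1', e2', e3']
    apply le_of_eq
    ring
  have q4 : A3_Q q ρ (3 * q + π * ρ) (3 * q + 2 * π * ρ) := by
    intro t t' r r' a1 a2 a3 a4 b1 b2 b3 b4
    obtain ⟨e1, e2, e3⟩ := arc4 hq.le hρ a1 a2
    obtain ⟨e1', e2', e3'⟩ := arc4 hq.le hρ a3 a4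
    rw [e1, e2, e3, e1', e2', e3']
    have := A3_arc_lip (ρ := ρ) (φ := (t - 3 * q - π * ρ) / ρ) (φ' := (t' - 3 * q - π * ρ) / ρ)
      (u := t - t') b1 b2 b3 b4
      (by
        congr 1
        field_simp
        ring)
    calc _ = (r * sin ((t - 3 * q - π * ρ) / ρ) - r' * sin ((t' - 3 * q - π * ρ) / ρ)) ^ 2 +
          (r * cos ((t - 3 * q - π * ρ) / ρ) - r' * cos ((t' - 3 * q - π * ρ) / ρ)) ^ 2 := by ring
      _ ≤ _ := this
  exact A3_glue (A3_glue (A3_glue q1 q2) q3) q4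

private theorem A3_shift {q ρ α β : ℝ} (hL : 0 < 4 * q + 2 * π * ρ) (h : A3_Q q ρ α β) (k : ℤ) :
    A3_Q q ρ (α + k * (4 * q + 2 * π * ρ)) (β + k * (4 * q + 2 * π * ρ)) := by
  intro t t' r r' a1 a2 a3 a4 b1 b2 b3 b4
  have := h (t - k * (4 * q + 2 * π * ρ)) (t' - k * (4 * q + 2 * π * ρ)) r r' (by linarith)
    (by linarith) (by linarith) (by linarith) b1 b2 b3 b4
  rw [← XX_add_int q ρ _ hL k, ← SS_add_int q ρ _ hL k, ← CC_add_int q ρ _ hL k,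
    ← XX_add_int q ρ (t' - k * (4 * q + 2 * π * ρ)) hL k,
    ← SS_add_int q ρ (t' - k * (4 * q + 2 * π * ρ)) hL k,
    ← CC_add_int q ρ (t' - k * (4 * q + 2 * π * ρ)) hL k, sub_add_cancel, sub_add_cancel] at this
  calc _ ≤ _ := this
    _ = _ := by ring

private theorem A3_many {q ρ : ℝ} (hq : 0 < q) (hρ : 0 < ρ) (k : ℤ) (m : ℕ) :
    A3_Q q ρ (-q + k * (4 * q + 2 * π * ρ)) (-q + (k + m + 1) * (4 * q + 2 * π * ρ)) := by
  have hπ : 0 < π * ρ := mul_pos pi_pos hρ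
  have hL : 0 < 4 * q + 2 * π * ρ := by linarith
  induction m with
  | zero =>
    have := A3_shift hL (A3_period hq hρ) k
    have e : 3 * q + 2 * π * ρ + (k : ℝ) * (4 * q + 2 * π * ρ) =
        -q + (k + ((0 : ℕ) : ℝ) + 1) * (4 * q + 2 * π * ρ) := by push_cast; ring
    rw [e] at this
    exact this
  | succ m ih =>
    have h2 := A3_shift hL (A3_period hq hρ) (k + m + 1)
    have e : 3 * q + 2 * π * ρ + ((k + m + 1 : ℤ) : ℝ) * (4 * q + 2 * π * ρ) =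
        -q + (k + ((m + 1 : ℕ) : ℝ) + 1) * (4 * q + 2 * π * ρ) := by push_cast; ring
    have e' : -q + ((k + m + 1 : ℤ) : ℝ) * (4 * q + 2 * π * ρ) =
        -q + (k + m + 1) * (4 * q + 2 * π * ρ) := by push_cast; ring
    rw [e, e'] at h2
    exact A3_glue ih h2

private theorem A3_all {q ρ t t' r r' : ℝ} (hq : 0 < q) (hρ : 0 < ρ) (ht : t ≤ t') (b1 : 0 ≤ r)
    (b2 : r ≤ ρ) (b3 : 0 ≤ r') (b4 : r' ≤ ρ) :
    (XX q ρ t + r * SS q ρ t - (XX q ρ t' + r' * SS q ρ t')) ^ 2 +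
      (r * CC q ρ t - r' * CC q ρ t') ^ 2 ≤ (t - t') ^ 2 + (r - r') ^ 2 := by
  have hπ : 0 < π * ρ := mul_pos pi_pos hρ
  have hL : 0 < 4 * q + 2 * π * ρ := by linarith
  set Λ := 4 * q + 2 * π * ρ with hΛ
  obtain ⟨k, hk⟩ := exists_int_lt ((t + q) / Λ)
  obtain ⟨m, hm⟩ := exists_nat_gt ((t' + q) / Λ - k)
  rw [lt_div_iff₀ hL] at hk
  have hm' : (t' + q) / Λ < k + m := by linarith
  rw [div_lt_iff₀ hL] at hm'
  have := A3_many hq hρ k m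
  rw [← hΛ] at this
  have h3 : ((k : ℝ) + m) * Λ ≤ (k + m + 1) * Λ := by nlinarith
  exact this t t' r r' (by linarith) (by linarith) (by linarith) (by linarith) b1 b2 b3 b4

theorem planar_lip {q ρ a t t' p p' : ℝ} (hq : 0 < q) (hρ : 0 < ρ) (h1 : 0 ≤ a + p)
    (h2 : a + p ≤ ρ) (h3 : 0 ≤ a + p') (h4 : a + p' ≤ ρ) :
    (gt q ρ a t p - gt q ρ a t' p') ^ 2 + (gz q ρ a t p - gz q ρ a t' p') ^ 2 ≤
      (t - t') ^ 2 + (p - p') ^ 2 := by
  unfold gt gz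
  rcases le_total t t' with h | h
  · have := A3_all hq hρ h h1 h2 h3 h4
    calc _ ≤ _ := this
      _ = _ := by ring
  · have := A3_all hq hρ h h3 h4 h1 h2
    calc _ = (XX q ρ t' + (a + p') * SS q ρ t' - (XX q ρ t + (a + p) * SS q ρ t)) ^ 2 +
          ((a + p') * CC q ρ t' - (a + p) * CC q ρ t) ^ 2 := by ring
      _ ≤ _ := this
      _ = _ := by ring

end Pool.Agent.BI39
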