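import Mathlib
import Pool.Agent.Lib.BI39.Defs
import Pool.Agent.Lib.BI39.A1
import Pool.Agent.Lib.BI39.A2
import Pool.Agent.Lib.BI39.A2b
import Pool.Agent.Lib.BI39.A2c

/-!
BI39, row A4: the planar stadium annulus map is injective modulo the period, with a Lipschitz inverse at
small scales (the true constant is about `2`).

Let `P = (gt, gz)`, `P' = (gt', gz')`. The stadium function `N P = sqrt ((max (|u| - q) 0) ^ 2 + v ^ 2)`
is the distance to the segment `[-q, q] × {0}`, hence `1`-Lipschitz for the euclidean distance, and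
`N P = a + p` (`stadium_gt_gz`): `|p - p'| ≤ sqrt 2 δ`. The nearest point `XX` of the segment is
`1`-Lipschitz in `u` (`XX = max (-q) (min q u)`), so `|XX - XX'| ≤ δ`. The directions
`(SS, CC) = (P - (XX, 0)) / (a + p)` satisfy
`|SS - SS'|, |CC - CC'| ≤ 5 δ / a ≤ 1 / 2`. Reduce `t`, `t'` to one period (`arcs_cover`). If both lie on
the same arc then `|t - t'| ≤ |XX - XX'| + ρ |φ - φ'|` and `|φ - φ'| ≤ 2 |(SS, CC) - (SS', CC')|`. If they
lie on neighbouring arcs go through the common end point (there `|XX - XX'|` resp. `|φ - φ'|` splits into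
the two parts); arcs 1 and 3 are excluded by `CC = 1`, `CC = -1`, arcs 2 and 4 by `XX = q`, `XX = -q` (as
`δ < a / 10 ≤ q / 10`).
-/

set_option autoImplicit false

namespace Pool.Agent.BI39

open Real

private lemma A4_angle0 {x η : ℝ} (h0 : 0 ≤ x) (h : x ≤ π) (hη : 0 ≤ η)
    (h1 : 2 - 2 * cos x ≤ 2 * η ^ 2) : x ≤ 5 / 2 * η := by
  have hπ := Real.pi_pos
  have hπ3 : π < 3.15 := Real.pi_lt_d2
  have e1 : cos x = 1 - 2 * sin (x / 2) ^ 2 := by
    have h3 := Real.sin_sq_add_cos_sq (x / 2)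
    have h4 : cos x = 2 * cos (x / 2) ^ 2 - 1 := by
      rw [← Real.cos_two_mul]
      congr 1
      ring
    rw [h4]
    linarith
  have e2 : 2 / π * (x / 2) ≤ sin (x / 2) := Real.mul_le_sin (by linarith) (by linarith)
  have e3 : 0 ≤ 2 / π * (x / 2) := by positivity
  have e4 : (2 / π * (x / 2)) ^ 2 ≤ sin (x / 2) ^ 2 := pow_le_pow_left₀ e3 e2 2
  have e5 : (2 / π * (x / 2)) ^ 2 = x ^ 2 / π ^ 2 := by field_simp
  have e6 : x ^ 2 / π ^ 2 ≤ η ^ 2 / 2 := by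
    rw [← e5]
    rw [e1] at h1
    linarith
  have e7 : x ^ 2 ≤ η ^ 2 / 2 * π ^ 2 := by
    rwa [div_le_iff₀ (by positivity)] at e6
  have e8 : x ^ 2 ≤ (5 / 2 * η) ^ 2 := by
    refine e7.trans ?_
    have : π ^ 2 ≤ 3.15 ^ 2 := pow_le_pow_left₀ hπ.le hπ3.le 2
    nlinarith [sq_nonneg η]
  exact (pow_le_pow_iff_left₀ h0 (by positivity) two_ne_zero).mp e8

private lemma A4_angle {x y η : ℝ} (h : |x - y| ≤ π) (hs : |sin x - sin y| ≤ η)
    (hc : |cos x - cos y| ≤ η) : |x - y| ≤ 5 / 2 * η := by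
  have hη : 0 ≤ η := (abs_nonneg _).trans hs
  refine A4_angle0 (abs_nonneg _) h hη ?_
  rw [Real.cos_abs, Real.cos_sub]
  have h1 := Real.sin_sq_add_cos_sq x
  have h2 := Real.sin_sq_add_cos_sq y
  have h3 : (sin x - sin y) ^ 2 ≤ η ^ 2 := by
    rw [← sq_abs]
    exact pow_le_pow_left₀ (abs_nonneg _) hs 2
  have h4 : (cos x - cos y) ^ 2 ≤ η ^ 2 := by
    rw [← sq_abs]
    exact pow_le_pow_left₀ (abs_nonneg _) hc 2
  nlinarith

/-- the data of a point of one period -/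
private lemma A4_data {q ρ t : ℝ} (hq : 0 ≤ q) (hρ : 0 < ρ) (h : -q ≤ t)
    (h' : t ≤ 3 * q + 2 * π * ρ) :
    ∃ σ φ : ℝ, t = σ + ρ * φ ∧ SS q ρ t = sin φ ∧ CC q ρ t = cos φ ∧
      ((φ = 0 ∧ XX q ρ t = σ) ∨ (σ = q ∧ 0 ≤ φ ∧ φ ≤ π ∧ XX q ρ t = q) ∨
        (φ = π ∧ XX q ρ t = 2 * q - σ) ∨ (σ = 3 * q ∧ π ≤ φ ∧ φ ≤ 2 * π ∧ XX q ρ t = -q)) := by
  rcases le_total t q with h1 | h1
  · obtain ⟨a, b, c⟩ := arc1 hq hρ (abs_le.mpr ⟨h, h1⟩)
    exact ⟨t, 0, by ring, by rw [b, sin_zero], by rw [c, cos_zero], Or.inl ⟨rfl, a⟩⟩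
  rcases le_total t (q + π * ρ) with h2 | h2
  · obtain ⟨a, b, c⟩ := arc2 hq hρ h1 h2
    refine ⟨q, (t - q) / ρ, ?_, b, c, Or.inr (Or.inl ⟨rfl, ?_, ?_, a⟩)⟩
    · field_simp
      ring
    · exact div_nonneg (by linarith) hρ.le
    · rw [div_le_iff₀ hρ]
      linarith
  rcases le_total t (3 * q + π * ρ) with h3 | h3
  · obtain ⟨a, b, c⟩ := arc3 hq hρ h2 h3
    refine ⟨t - π * ρ, π, by ring, by rw [b, sin_pi], by rw [c, cos_pi],
      Or.inr (Or.inr (Or.inl ⟨rfl, ?_⟩))⟩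
    rw [a]
    ring
  · obtain ⟨a, b, c⟩ := arc4 hq hρ h3 h'
    refine ⟨3 * q, π + (t - 3 * q - π * ρ) / ρ, ?_, ?_, ?_,
      Or.inr (Or.inr (Or.inr ⟨rfl, ?_, ?_, a⟩))⟩
    · field_simp
      ring
    · rw [b, sin_add, sin_pi, cos_pi]
      ring
    · rw [c, cos_add, sin_pi, cos_pi]
      ring
    · have : 0 ≤ (t - 3 * q - π * ρ) / ρ := div_nonneg (by linarith) hρ.le
      linarith
    · have : (t - 3 * q - π * ρ) / ρ ≤ π := by
        rw [div_le_iff₀ hρ]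
        linarith
      linarith

/-- the combination of the bounds for the two parts -/
private lemma A4_comb {a δ s s' σ σ' φ φ' Λ q : ℝ} (j : ℤ) (ha : 0 < a)
    (hs : s = σ + 6 / 5 * a * φ) (hs' : s' = σ' + 6 / 5 * a * φ')
    (hΛ : Λ = 4 * q + 2 * π * (6 / 5 * a)) (h1 : |σ - σ' - j * (4 * q)| ≤ δ)
    (h2 : |φ - φ' - j * (2 * π)| ≤ 5 / 2 * (5 * δ / a)) : |s - s' - j * Λ| ≤ 16 * δ := by
  have e : s - s' - j * Λ = (σ - σ' - j * (4 * q)) + 6 / 5 * a * (φ - φ' - j * (2 * π)) := by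
    rw [hs, hs', hΛ]
    ring
  rw [e]
  refine (abs_add_le _ _).trans ?_
  rw [abs_mul, abs_of_pos (by positivity : 0 < 6 / 5 * a)]
  have h3 : 6 / 5 * a * |φ - φ' - j * (2 * π)| ≤ 6 / 5 * a * (5 / 2 * (5 * δ / a)) :=
    mul_le_mul_of_nonneg_left h2 (by positivity)
  have h4 : 6 / 5 * a * (5 / 2 * (5 * δ / a)) = 15 * δ := by
    field_simp
    ring
  linarith

private lemma A4_period {q a s s' δ : ℝ} (ha : 0 < a) (hq : a ≤ q) (hδ : δ < a / 10)
    (h0 : -q ≤ s) (h1 : s ≤ 3 * q + 2 * π * (6 / 5 * a)) (h0' : -q ≤ s')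
    (h1' : s' ≤ 3 * q + 2 * π * (6 / 5 * a))
    (hX : |XX q (6 / 5 * a) s - XX q (6 / 5 * a) s'| ≤ δ)
    (hS : |SS q (6 / 5 * a) s - SS q (6 / 5 * a) s'| ≤ 5 * δ / a)
    (hC : |CC q (6 / 5 * a) s - CC q (6 / 5 * a) s'| ≤ 5 * δ / a) :
    ∃ j : ℤ, |s - s' - j * (4 * q + 2 * π * (6 / 5 * a))| ≤ 16 * δ := by
  have hπ := Real.pi_pos
  have hδ0 : 0 ≤ δ := (abs_nonneg _).trans hX
  have hη : 5 * δ / a < 1 / 2 := by
    rw [div_lt_iff₀ ha]
    linarith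
  have hη0 : 0 ≤ 5 * δ / a := by positivity
  obtain ⟨σ, φ, hs, eS, eC, hd⟩ := A4_data (by linarith : 0 ≤ q) (by positivity : 0 < 6 / 5 * a) h0 h1
  obtain ⟨σ', φ', hs', eS', eC', hd'⟩ :=
    A4_data (by linarith : 0 ≤ q) (by positivity : 0 < 6 / 5 * a) h0' h1'
  rw [eS, eS'] at hS
  rw [eC, eC'] at hC
  have key : ∀ j : ℤ, |φ - φ' - j * (2 * π)| ≤ π → |σ - σ' - j * (4 * q)| ≤ δ →
      ∃ j : ℤ, |s - s' - j * (4 * q + 2 * π * (6 / 5 * a))| ≤ 16 * δ := by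
    intro j hj1 hj2
    refine ⟨j, A4_comb j ha hs hs' rfl hj2 ?_⟩
    have e1 : φ - φ' - j * (2 * π) = (φ - j * (2 * π)) - φ' := by ring
    rw [e1]
    refine A4_angle (by rwa [← e1]) ?_ ?_
    · rwa [Real.sin_sub_int_mul_two_pi]
    · rwa [Real.cos_sub_int_mul_two_pi]
  have triv : φ = 0 → φ' = π → False := by
    intro e1 e2
    rw [e1, e2, cos_zero, cos_pi] at hC
    have := (abs_le.mp hC).2
    linarith
  have triv' : φ = π → φ' = 0 → False := by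
    intro e1 e2
    rw [e1, e2, cos_zero, cos_pi] at hC
    have := (abs_le.mp hC).1
    linarith
  have hX2 := abs_le.mp hX
  rcases hd with ⟨e1, x1⟩ | ⟨e1, l1, u1, x1⟩ | ⟨e1, x1⟩ | ⟨e1, l1, u1, x1⟩ <;>
    rcases hd' with ⟨e2, x2⟩ | ⟨e2, l2, u2, x2⟩ | ⟨e2, x2⟩ | ⟨e2, l2, u2, x2⟩ <;>
    rw [x1, x2] at hX2 <;> obtain ⟨hX3, hX4⟩ := hX2
  · refine key 0 (abs_le.mpr ⟨?_, ?_⟩) (abs_le.mpr ⟨?_, ?_⟩) <;> push_cast <;> linarith
  · refine key 0 (abs_le.mpr ⟨?_, ?_⟩) (abs_le.mpr ⟨?_, ?_⟩) <;> push_cast <;> linarith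
  · exact (triv e1 e2).elim
  · refine key (-1) (abs_le.mpr ⟨?_, ?_⟩) (abs_le.mpr ⟨?_, ?_⟩) <;> push_cast <;> linarith
  · refine key 0 (abs_le.mpr ⟨?_, ?_⟩) (abs_le.mpr ⟨?_, ?_⟩) <;> push_cast <;> linarith
  · refine key 0 (abs_le.mpr ⟨?_, ?_⟩) (abs_le.mpr ⟨?_, ?_⟩) <;> push_cast <;> linarith
  · refine key 0 (abs_le.mpr ⟨?_, ?_⟩) (abs_le.mpr ⟨?_, ?_⟩) <;> push_cast <;> linarith
  · exfalso
    linarith
  · exact (triv' e1 e2).elim
  · refine key 0 (abs_le.mpr ⟨?_, ?_⟩) (abs_le.mpr ⟨?_, ?_⟩) <;> push_cast <;> linarith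
  · refine key 0 (abs_le.mpr ⟨?_, ?_⟩) (abs_le.mpr ⟨?_, ?_⟩) <;> push_cast <;> linarith
  · refine key 0 (abs_le.mpr ⟨?_, ?_⟩) (abs_le.mpr ⟨?_, ?_⟩) <;> push_cast <;> linarith
  · refine key 1 (abs_le.mpr ⟨?_, ?_⟩) (abs_le.mpr ⟨?_, ?_⟩) <;> push_cast <;> linarith
  · exfalso
    linarith
  · refine key 0 (abs_le.mpr ⟨?_, ?_⟩) (abs_le.mpr ⟨?_, ?_⟩) <;> push_cast <;> linarith
  · refine key 0 (abs_le.mpr ⟨?_, ?_⟩) (abs_le.mpr ⟨?_, ?_⟩) <;> push_cast <;> linarith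

private lemma A4_clamp {q ρ a t p : ℝ} (hq : 0 ≤ q) (hρ : 0 < ρ) (h : 0 < a + p) :
    XX q ρ t = max (-q) (min q (gt q ρ a t p)) := by
  rcases lt_trichotomy (SS q ρ t) 0 with h1 | h1 | h1
  · have h2 := XX_of_SS_neg hq hρ h1
    have h3 : gt q ρ a t p ≤ -q := by
      rw [gt, h2]
      nlinarith
    rw [h2, min_eq_right (by linarith), max_eq_left h3]
  · have h2 := abs_le.mp (abs_XX_le q ρ t hq)
    have h3 : gt q ρ a t p = XX q ρ t := by rw [gt, h1, mul_zero, add_zero]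
    rw [h3, min_eq_right h2.2, max_eq_right h2.1]
  · have h2 := XX_of_SS_pos hq hρ h1
    have h3 : q ≤ gt q ρ a t p := by
      rw [gt, h2]
      nlinarith
    rw [h2, min_eq_left h3, max_eq_right (by linarith)]

private lemma A4_unit {r r' S S' δ a p p' : ℝ} (ha : 0 < a) (hr : r = a + p) (hr' : r' = a + p')
    (hp : |p| ≤ a / 5) (hpp : |p - p'| ≤ 2 * δ) (hS' : |S'| ≤ 1) (h : |r * S - r' * S'| ≤ 2 * δ) :
    |S - S'| ≤ 5 * δ / a := by
  have hr1 : 4 / 5 * a ≤ r := by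
    have := (abs_le.mp hp).1
    rw [hr]
    linarith
  have hδ0 : 0 ≤ δ := by
    have := (abs_nonneg _).trans hpp
    linarith
  have e : r * (S - S') = (r * S - r' * S') - (p - p') * S' := by
    rw [hr, hr']
    ring
  have h1 : r * |S - S'| ≤ 4 * δ := by
    rw [← abs_of_pos (by linarith : 0 < r), ← abs_mul, e]
    refine (abs_sub _ _).trans ?_
    rw [abs_mul]
    have : |p - p'| * |S'| ≤ 2 * δ * 1 := mul_le_mul hpp hS' (abs_nonneg _) (by linarith)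
    linarith
  rw [le_div_iff₀ ha]
  have h2 : 4 / 5 * a * |S - S'| ≤ r * |S - S'| := mul_le_mul_of_nonneg_right hr1 (abs_nonneg _)
  nlinarith

theorem planar_inv {q a t t' p p' δ : ℝ} (ha : 0 < a) (hq : a ≤ q) (h1 : |p| ≤ a / 5)
    (h2 : |p'| ≤ a / 5) (hδ : δ < a / 10)
    (hu : |gt q (6 / 5 * a) a t p - gt q (6 / 5 * a) a t' p'| ≤ δ)
    (hv : |gz q (6 / 5 * a) a t p - gz q (6 / 5 * a) a t' p'| ≤ δ) :
    ∃ k : ℤ, |t - t' - k * (4 * q + 2 * π * (6 / 5 * a))| ≤ 20 * δ ∧ |p - p'| ≤ 2 * δ := by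
  have hq0 : 0 ≤ q := by linarith
  have hρ : 0 < 6 / 5 * a := by positivity
  have hδ0 : 0 ≤ δ := (abs_nonneg _).trans hu
  have hr : 0 < a + p := by
    have := (abs_le.mp h1).1
    linarith
  have hr' : 0 < a + p' := by
    have := (abs_le.mp h2).1
    linarith
  have hst := stadium_gt_gz (t := t) hq0 hρ hr.le
  have hst' := stadium_gt_gz (t := t') hq0 hρ hr'.le
  have hcl := A4_clamp (t := t) hq0 hρ hr
  have hcl' := A4_clamp (t := t') hq0 hρ hr'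
  have hX : |XX q (6 / 5 * a) t - XX q (6 / 5 * a) t'| ≤ δ := by
    rw [hcl, hcl']
    refine (abs_max_sub_max_le_max _ _ _ _).trans (max_le (by simpa using hδ0) ?_)
    exact (abs_min_sub_min_le_max _ _ _ _).trans (max_le (by simpa using hδ0) hu)
  have hpp : |p - p'| ≤ 2 * δ := by
    generalize gt q (6 / 5 * a) a t p = u at *
    generalize gt q (6 / 5 * a) a t' p' = u' at *
    generalize gz q (6 / 5 * a) a t p = v at *
    generalize gz q (6 / 5 * a) a t' p' = v' at *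
    have hA : |max (|u| - q) 0 - max (|u'| - q) 0| ≤ δ := by
      refine (abs_max_sub_max_le_abs _ _ _).trans ?_
      have e : |u| - q - (|u'| - q) = |u| - |u'| := by ring
      rw [e]
      exact (abs_abs_sub_abs_le _ _).trans hu
    generalize max (|u| - q) 0 = A at *
    generalize max (|u'| - q) 0 = A' at *
    have b1 : |A| ≤ a + p := abs_le_of_sq_le_sq (by nlinarith [sq_nonneg v]) hr.le
    have b2 : |v| ≤ a + p := abs_le_of_sq_le_sq (by nlinarith [sq_nonneg A]) hr.le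
    have b1' : |A'| ≤ a + p' := abs_le_of_sq_le_sq (by nlinarith [sq_nonneg v']) hr'.le
    have b2' : |v'| ≤ a + p' := abs_le_of_sq_le_sq (by nlinarith [sq_nonneg A']) hr'.le
    have c1 : |(A - A') * (A + A')| ≤ δ * ((a + p) + (a + p')) := by
      rw [abs_mul]
      exact mul_le_mul hA ((abs_add_le _ _).trans (add_le_add b1 b1')) (abs_nonneg _) hδ0
    have c2 : |(v - v') * (v + v')| ≤ δ * ((a + p) + (a + p')) := by
      rw [abs_mul]
      exact mul_le_mul hv ((abs_add_le _ _).trans (add_le_add b2 b2')) (abs_nonneg _) hδ0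
    have e : (p - p') * ((a + p) + (a + p')) = (A - A') * (A + A') + (v - v') * (v + v') := by
      linear_combination hst' - hst
    have c3 : |p - p'| * ((a + p) + (a + p')) ≤ 2 * δ * ((a + p) + (a + p')) := by
      rw [← abs_of_pos (by linarith : 0 < (a + p) + (a + p')), ← abs_mul,
        abs_of_pos (by linarith : 0 < (a + p) + (a + p')), e]
      refine (abs_add_le _ _).trans ?_
      linarith
    exact le_of_mul_le_mul_right c3 (by linarith)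
  have hsq := SS_sq_add_CC_sq q (6 / 5 * a) t' hq0 hρ
  have hS1 : |SS q (6 / 5 * a) t'| ≤ 1 :=
    abs_le_one_iff_mul_self_le_one.mpr (by nlinarith [sq_nonneg (CC q (6 / 5 * a) t')])
  have hC1 : |CC q (6 / 5 * a) t'| ≤ 1 :=
    abs_le_one_iff_mul_self_le_one.mpr (by nlinarith [sq_nonneg (SS q (6 / 5 * a) t')])
  have hS : |SS q (6 / 5 * a) t - SS q (6 / 5 * a) t'| ≤ 5 * δ / a := by
    refine A4_unit ha rfl rfl h1 hpp hS1 ?_
    have e : (a + p) * SS q (6 / 5 * a) t - (a + p') * SS q (6 / 5 * a) t' =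
        (gt q (6 / 5 * a) a t p - gt q (6 / 5 * a) a t' p') -
          (XX q (6 / 5 * a) t - XX q (6 / 5 * a) t') := by
      simp only [gt]
      ring
    rw [e]
    refine (abs_sub _ _).trans ?_
    linarith
  have hC : |CC q (6 / 5 * a) t - CC q (6 / 5 * a) t'| ≤ 5 * δ / a := by
    refine A4_unit ha rfl rfl h1 hpp hC1 ?_
    have e : (a + p) * CC q (6 / 5 * a) t - (a + p') * CC q (6 / 5 * a) t' =
        gz q (6 / 5 * a) a t p - gz q (6 / 5 * a) a t' p' := rfl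
    rw [e]
    linarith
  have hΛ : 0 < 4 * q + 2 * π * (6 / 5 * a) := by positivity
  obtain ⟨k, hk1, hk2⟩ := arcs_cover q (6 / 5 * a) t hΛ
  obtain ⟨k', hk1', hk2'⟩ := arcs_cover q (6 / 5 * a) t' hΛ
  have ht : t = (t - k * (4 * q + 2 * π * (6 / 5 * a))) + k * (4 * q + 2 * π * (6 / 5 * a)) := by
    ring
  have ht' : t' = (t' - k' * (4 * q + 2 * π * (6 / 5 * a))) +
      k' * (4 * q + 2 * π * (6 / 5 * a)) := by ring
  rw [ht, ht', XX_add_int _ _ _ hΛ, XX_add_int _ _ _ hΛ] at hX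
  rw [ht, ht', SS_add_int _ _ _ hΛ, SS_add_int _ _ _ hΛ] at hS
  rw [ht, ht', CC_add_int _ _ _ hΛ, CC_add_int _ _ _ hΛ] at hC
  obtain ⟨j, hj⟩ := A4_period ha hq hδ hk1 hk2 hk1' hk2' hX hS hC
  refine ⟨k - k' + j, ?_, hpp⟩
  have e : t - t' - ((k - k' + j : ℤ) : ℝ) * (4 * q + 2 * π * (6 / 5 * a)) =
      t - k * (4 * q + 2 * π * (6 / 5 * a)) - (t' - k' * (4 * q + 2 * π * (6 / 5 * a))) -
        j * (4 * q + 2 * π * (6 / 5 * a)) := by
    push_cast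
    ring
  rw [e]
  linarith

end Pool.Agent.BI39
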