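import Mathlib
import Pool.Agent.Lib.BI39.Defs

/-!
BI39, row B0: numerical facts about `R`, `aa`, `rho`, `L` and trivial facts about the maps `shft`, `rr`,
`r3`, `tube`, `e2`.
(`rho n = 3 / 10 * R n`; `L n = 2 π + 2 π (3 / 10) (R 0 + ... + R (n - 1)) ≤ 2 π (1 + 0.031) ≤ 6.5`; use
`Real.pi_lt_d2`, `Real.pi_gt_d2`; for the upper bound prove by induction
`L n ≤ 2 π + 2 π (3 / 10) (40 / 39) (1 / 10 - R n)`.)
-/

set_option autoImplicit false

namespace Pool.Agent.BI39

open Real

theorem R_pos (n : ℕ) : 0 < R n := by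
  unfold R
  positivity

theorem R_succ (n : ℕ) : R (n + 1) = R n / 40 := by
  unfold R
  rw [pow_succ]
  ring

theorem R_le (n : ℕ) : R n ≤ 1 / 10 := by
  unfold R
  have : ((1 : ℝ) / 40) ^ n ≤ 1 := pow_le_one₀ (by norm_num) (by norm_num)
  linarith

theorem R_anti {m n : ℕ} (h : m ≤ n) : R n ≤ R m := by
  unfold R
  have : ((1 : ℝ) / 40) ^ n ≤ (1 / 40) ^ m :=
    pow_le_pow_of_le_one (by norm_num) (by norm_num) h
  linarith

theorem aa_pos (n : ℕ) : 0 < aa n := by
  unfold aa
  have := R_pos n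
  positivity

theorem rho_eq (n : ℕ) : rho n = 3 / 10 * R n := by
  unfold rho aa
  rw [R_succ]
  ring

theorem rho_eq' (n : ℕ) : rho n = 6 / 5 * aa n := by
  rw [rho_eq]
  unfold aa
  ring

theorem two_R_succ (n : ℕ) : 2 * R (n + 1) = aa n / 5 := by
  rw [R_succ]
  unfold aa
  ring

theorem rho_pos (n : ℕ) : 0 < rho n := by
  rw [rho_eq]
  have := R_pos n
  positivity

theorem L_succ (n : ℕ) : L (n + 1) = 4 * (L n / 4) + 2 * π * rho n := by
  show L n + 2 * π * rho n = _
  ring

theorem L_ge (n : ℕ) : 6 ≤ L n := by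
  induction n with
  | zero =>
    show 6 ≤ 2 * π
    have := Real.pi_gt_three
    linarith
  | succ n ih =>
    show 6 ≤ L n + 2 * π * rho n
    have h1 := rho_pos n
    have h2 := Real.pi_pos
    have : 0 < 2 * π * rho n := by positivity
    linarith

theorem L_le (n : ℕ) : L n ≤ 13 / 2 := by
  have key : ∀ n : ℕ, L n ≤ 2 * π + 2 * π * (3 / 10) * (40 / 39) * (1 / 10 - R n) := by
    intro n
    induction n with
    | zero =>
      show 2 * π ≤ _
      have : R 0 = 1 / 10 := by unfold R; norm_num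
      rw [this]
      linarith
    | succ n ih =>
      show L n + 2 * π * rho n ≤ _
      rw [rho_eq, R_succ]
      have e : 2 * π + 2 * π * (3 / 10) * (40 / 39) * (1 / 10 - R n / 40)
          = (2 * π + 2 * π * (3 / 10) * (40 / 39) * (1 / 10 - R n)) + 2 * π * (3 / 10 * R n) := by
        ring
      rw [e]
      linarith
  have h1 := key n
  have h2 := R_pos n
  have h3 := Real.pi_lt_d2
  have h4 := Real.pi_pos
  have h5 : 0 < π * R n := mul_pos h4 h2
  nlinarith

theorem L_pos (n : ℕ) : 0 < L n := by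
  have := L_ge n
  linarith

theorem tube_mono {s s' : ℝ} (h : s ≤ s') : tube s ⊆ tube s' := by
  intro p hp
  exact ⟨hp.1.trans h, hp.2.trans h⟩

theorem otube_subset (s : ℝ) : otube s ⊆ tube s := by
  intro p hp
  exact ⟨hp.1.le, hp.2.le⟩

theorem tube_subset_otube {s s' : ℝ} (h : s < s') : tube s ⊆ otube s' := by
  intro p hp
  exact ⟨lt_of_le_of_lt hp.1 h, lt_of_le_of_lt hp.2 h⟩

theorem isClosed_tube (s : ℝ) : IsClosed (tube s) := by
  have h1 : IsClosed {p : P3 | |p.2.1| ≤ s} := isClosed_le (by fun_prop) (by fun_prop)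
  have h2 : IsClosed {p : P3 | |p.2.2| ≤ s} := isClosed_le (by fun_prop) (by fun_prop)
  exact h1.inter h2

theorem isOpen_otube (s : ℝ) : IsOpen (otube s) := by
  have h1 : IsOpen {p : P3 | |p.2.1| < s} := isOpen_lt (by fun_prop) (by fun_prop)
  have h2 : IsOpen {p : P3 | |p.2.2| < s} := isOpen_lt (by fun_prop) (by fun_prop)
  exact h1.inter h2

theorem shft_mem_tube {s c : ℝ} {p : P3} : shft c p ∈ tube s ↔ p ∈ tube s := by
  exact Iff.rfl

theorem shft_mem_otube {s c : ℝ} {p : P3} : shft c p ∈ otube s ↔ p ∈ otube s := by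
  exact Iff.rfl

theorem rr_mem_tube {s : ℝ} {p : P3} : rr p ∈ tube s ↔ p ∈ tube s := by
  exact Iff.rfl

theorem shft_shft (c d : ℝ) (p : P3) : shft c (shft d p) = shft (c + d) p := by
  simp only [shft, Prod.mk.injEq, and_true]
  ring

theorem shft_zero (p : P3) : shft 0 p = p := by
  simp [shft]

theorem rr_shft (c : ℝ) (p : P3) : rr (shft c p) = shft (-c) (rr p) := by
  simp only [shft, rr, Prod.mk.injEq, and_true]
  ring

theorem rr_rr (p : P3) : rr (rr p) = p := by
  simp [rr]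

theorem r3_r3 (p : P3) : r3 (r3 p) = p := by
  simp [r3]

theorem dist_r3 (p q : P3) : dist (r3 p) (r3 q) = dist p q := by
  simp only [r3, Prod.dist_eq, dist_neg_neg]

theorem continuous_shft (c : ℝ) : Continuous (shft c) := by
  unfold shft
  fun_prop

theorem continuous_rr : Continuous rr := by
  unfold rr
  fun_prop

theorem continuous_r3 : Continuous r3 := by
  unfold r3
  fun_prop

theorem dist_shft (c : ℝ) (p q : P3) : dist (shft c p) (shft c q) = dist p q := by
  simp only [shft, Prod.dist_eq, dist_add_right]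

theorem e2_shft (c : ℝ) (p q : P3) : e2 (shft c p) (shft c q) = e2 p q := by
  simp only [shft, e2]
  ring

theorem sq_dist_le_e2 (p q : P3) : dist p q ^ 2 ≤ e2 p q := by
  have h1 : dist p q = max |p.1 - q.1| (max |p.2.1 - q.2.1| |p.2.2 - q.2.2|) := by
    simp only [Prod.dist_eq, Real.dist_eq]
  have a1 := sq_abs (p.1 - q.1)
  have a2 := sq_abs (p.2.1 - q.2.1)
  have a3 := sq_abs (p.2.2 - q.2.2)
  have b1 := sq_nonneg (p.1 - q.1)
  have b2 := sq_nonneg (p.2.1 - q.2.1)
  have b3 := sq_nonneg (p.2.2 - q.2.2)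
  unfold e2
  rw [h1]
  rcases max_choice |p.1 - q.1| (max |p.2.1 - q.2.1| |p.2.2 - q.2.2|) with h | h
  · rw [h, a1]; linarith
  · rw [h]
    rcases max_choice |p.2.1 - q.2.1| |p.2.2 - q.2.2| with h' | h'
    · rw [h', a2]; linarith
    · rw [h', a3]; linarith

theorem e2_le_sq_dist (p q : P3) : e2 p q ≤ 3 * dist p q ^ 2 := by
  have h1 : dist p q = max |p.1 - q.1| (max |p.2.1 - q.2.1| |p.2.2 - q.2.2|) := by
    simp only [Prod.dist_eq, Real.dist_eq]
  have c1 : |p.1 - q.1| ≤ dist p q := by rw [h1]; exact le_max_left _ _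
  have c2 : |p.2.1 - q.2.1| ≤ dist p q := by
    rw [h1]; exact (le_max_left _ _).trans (le_max_right _ _)
  have c3 : |p.2.2 - q.2.2| ≤ dist p q := by
    rw [h1]; exact (le_max_right _ _).trans (le_max_right _ _)
  have d1 := pow_le_pow_left₀ (abs_nonneg _) c1 2
  have d2 := pow_le_pow_left₀ (abs_nonneg _) c2 2
  have d3 := pow_le_pow_left₀ (abs_nonneg _) c3 2
  rw [sq_abs] at d1 d2 d3
  unfold e2
  linarith

end Pool.Agent.BI39
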