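import Mathlib
import Pool.Agent.Lib.BI39.Defs
import Pool.Agent.Lib.BI39.A1
import Pool.Agent.Lib.BI39.A2
import Pool.Agent.Lib.BI39.A2b
import Pool.Agent.Lib.BI39.A2c
import Pool.Agent.Lib.BI39.A3
import Pool.Agent.Lib.BI39.A4
import Pool.Agent.Lib.BI39.B0

/-!
BI39, row B1: the maps `bt i n`, first properties. All are translations of the planar statements
(A2, A2b, A3, A4) with `q = L n / 4`, `ρ = rho n`, `a = aa n`, period `L (n + 1)` (`L_succ`),
`2 * R (n + 1) = aa n / 5`, `rho n = 6 / 5 * aa n`.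
-/

set_option autoImplicit false

namespace Pool.Agent.BI39

open Real

private theorem B1_bt_false (n : ℕ) (p : P3) : bt false n p =
    (gt (L n / 4) (rho n) (aa n) p.1 p.2.2, p.2.1, gz (L n / 4) (rho n) (aa n) p.1 p.2.2) := by
  simp [bt]

private theorem B1_bt_true (n : ℕ) (p : P3) : bt true n p =
    (L n / 2 - gt (L n / 4) (rho n) (aa n) p.1 p.2.2, gz (L n / 4) (rho n) (aa n) p.1 p.2.2,
      p.2.1) := by
  simp [bt]

private theorem B1_period_pos (n : ℕ) : 0 < 4 * (L n / 4) + 2 * π * rho n := by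
  rw [← L_succ]; exact L_pos _

private theorem B1_q_pos (n : ℕ) : 0 < L n / 4 := by
  have := L_pos n
  linarith

private theorem B1_aux {n : ℕ} {p : P3} (h : p ∈ tube (2 * R (n + 1))) :
    |p.2.1| ≤ aa n / 5 ∧ |p.2.2| ≤ aa n / 5 ∧ 0 < aa n + p.2.2 ∧ aa n + p.2.2 ≤ rho n := by
  have h1 : |p.2.1| ≤ 2 * R (n + 1) := h.1
  have h2 : |p.2.2| ≤ 2 * R (n + 1) := h.2
  rw [two_R_succ] at h1 h2
  have ha := aa_pos n
  have h3 := abs_le.1 h2
  refine ⟨h1, h2, by linarith [h3.1], ?_⟩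
  rw [rho_eq']
  linarith [h3.2]

theorem continuous_bt (i : Bool) (n : ℕ) : Continuous (bt i n) := by
  have hX := continuous_XX (L n / 4) (rho n)
  have hS := continuous_SS (L n / 4) (rho n)
  have hC := continuous_CC (L n / 4) (rho n)
  cases i
  · have : bt false n = fun p : P3 =>
      (gt (L n / 4) (rho n) (aa n) p.1 p.2.2, p.2.1, gz (L n / 4) (rho n) (aa n) p.1 p.2.2) :=
      funext (B1_bt_false n)
    rw [this]
    unfold gt gz
    fun_prop
  · have : bt true n = fun p : P3 =>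
      (L n / 2 - gt (L n / 4) (rho n) (aa n) p.1 p.2.2, gz (L n / 4) (rho n) (aa n) p.1 p.2.2,
      p.2.1) :=
      funext (B1_bt_true n)
    rw [this]
    unfold gt gz
    fun_prop

theorem bt_mem {i : Bool} {n : ℕ} {p : P3} (h : p ∈ tube (2 * R (n + 1))) :
    bt i n p ∈ tube (R n / 2) := by
  obtain ⟨h1, h2, h3, h4⟩ := B1_aux h
  have hg := abs_gz_le (t := p.1) (B1_q_pos n).le (rho_pos n) h3.le
  have ha := aa_pos n
  have hR : R n / 2 = 2 * aa n := by unfold aa; ring
  rw [rho_eq'] at h4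
  have e1 : |p.2.1| ≤ R n / 2 := by rw [hR]; linarith
  have e2 : |gz (L n / 4) (rho n) (aa n) p.1 p.2.2| ≤ R n / 2 := by rw [hR]; linarith
  cases i
  · rw [B1_bt_false]
    exact ⟨e1, e2⟩
  · rw [B1_bt_true]
    exact ⟨e2, e1⟩

theorem e2_bt_le {i : Bool} {n : ℕ} {p q : P3} (hp : p ∈ tube (2 * R (n + 1)))
    (hq : q ∈ tube (2 * R (n + 1))) : e2 (bt i n p) (bt i n q) ≤ e2 p q := by
  obtain ⟨h1, h2, h3, h4⟩ := B1_aux hp
  obtain ⟨g1, g2, g3, g4⟩ := B1_aux hq
  have key := planar_lip (t := p.1) (t' := q.1) (B1_q_pos n) (rho_pos n) h3.le h4 g3.le g4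
  cases i
  · rw [B1_bt_false, B1_bt_false]
    simp only [e2]
    linarith
  · rw [B1_bt_true, B1_bt_true]
    simp only [e2]
    have : (L n / 2 - gt (L n / 4) (rho n) (aa n) p.1 p.2.2 -
        (L n / 2 - gt (L n / 4) (rho n) (aa n) q.1 q.2.2)) ^ 2 =
        (gt (L n / 4) (rho n) (aa n) p.1 p.2.2 - gt (L n / 4) (rho n) (aa n) q.1 q.2.2) ^ 2 := by
      ring
    rw [this]
    linarith

theorem bt_inv {i : Bool} {n : ℕ} {p q : P3} (hp : p ∈ tube (2 * R (n + 1)))
    (hq : q ∈ tube (2 * R (n + 1))) (h : dist (bt i n p) (bt i n q) < aa n / 10) :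
    ∃ k : ℤ, dist p (shft (k * L (n + 1)) q) ≤ 20 * dist (bt i n p) (bt i n q) := by
  obtain ⟨h1, h2, h3, h4⟩ := B1_aux hp
  obtain ⟨g1, g2, g3, g4⟩ := B1_aux hq
  have haq : aa n ≤ L n / 4 := by
    have e1 := R_le n
    have e2 := L_ge n
    unfold aa
    linarith
  have hδ : 0 ≤ dist (bt i n p) (bt i n q) := dist_nonneg
  have comps : |gt (L n / 4) (rho n) (aa n) p.1 p.2.2 - gt (L n / 4) (rho n) (aa n) q.1 q.2.2| ≤
      dist (bt i n p) (bt i n q) ∧
      |gz (L n / 4) (rho n) (aa n) p.1 p.2.2 - gz (L n / 4) (rho n) (aa n) q.1 q.2.2| ≤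
      dist (bt i n p) (bt i n q) ∧ |p.2.1 - q.2.1| ≤ dist (bt i n p) (bt i n q) := by
    cases i
    · rw [B1_bt_false, B1_bt_false, Prod.dist_eq, Prod.dist_eq]
      simp only [Real.dist_eq]
      exact ⟨le_max_left _ _, (le_max_right _ _).trans (le_max_right _ _),
        (le_max_left _ _).trans (le_max_right _ _)⟩
    · rw [B1_bt_true, B1_bt_true, Prod.dist_eq, Prod.dist_eq]
      simp only [Real.dist_eq]
      refine ⟨le_trans (le_of_eq ?_) (le_max_left _ _), (le_max_left _ _).trans (le_max_right _ _),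
        (le_max_right _ _).trans (le_max_right _ _)⟩
      rw [← abs_neg]
      congr 1
      ring
  obtain ⟨c1, c2, c3⟩ := comps
  rw [rho_eq'] at c1 c2
  obtain ⟨k, hk1, hk2⟩ := planar_inv (aa_pos n) haq h2 g2 h c1 c2
  refine ⟨k, ?_⟩
  rw [← rho_eq', ← L_succ] at hk1
  rw [Prod.dist_eq, Prod.dist_eq]
  simp only [Real.dist_eq, shft]
  refine max_le ?_ (max_le ?_ ?_)
  · rw [show p.1 - (q.1 + k * L (n + 1)) = p.1 - q.1 - k * L (n + 1) by ring]
    exact hk1
  · linarith
  · linarith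

theorem bt_per (i : Bool) (n : ℕ) (k : ℤ) (p : P3) :
    bt i n (shft (k * L (n + 1)) p) = bt i n p := by
  have hpos := B1_period_pos n
  have hg : ∀ t s, gt (L n / 4) (rho n) (aa n) (t + k * L (n + 1)) s =
      gt (L n / 4) (rho n) (aa n) t s := fun t s => by
    unfold gt
    rw [L_succ, XX_add_int _ _ _ hpos, SS_add_int _ _ _ hpos]
  have hz : ∀ t s, gz (L n / 4) (rho n) (aa n) (t + k * L (n + 1)) s =
      gz (L n / 4) (rho n) (aa n) t s := fun t s => by
    unfold gz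
    rw [L_succ, CC_add_int _ _ _ hpos]
  cases i
  · rw [B1_bt_false, B1_bt_false]
    simp only [shft]
    rw [hg, hz]
  · rw [B1_bt_true, B1_bt_true]
    simp only [shft]
    rw [hg, hz]

theorem bt_rr (i : Bool) (n : ℕ) (p : P3) :
    bt i n (rr p) = shft (if i then L n else 0) (rr (bt i n p)) := by
  have hpos := B1_period_pos n
  have hg : ∀ t s, gt (L n / 4) (rho n) (aa n) (-t) s =
      -gt (L n / 4) (rho n) (aa n) t s := fun t s => by
    unfold gt
    rw [XX_neg _ _ _ (B1_q_pos n).le, SS_neg _ _ _ (B1_q_pos n).le]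
    ring
  have hz : ∀ t s, gz (L n / 4) (rho n) (aa n) (-t) s =
      gz (L n / 4) (rho n) (aa n) t s := fun t s => by
    unfold gz
    rw [CC_neg _ _ _ hpos]
  cases i
  · rw [B1_bt_false, B1_bt_false]
    simp only [shft, rr]
    rw [hg, hz]
    simp
  · rw [B1_bt_true, B1_bt_true]
    simp only [shft, rr]
    rw [hg, hz]
    simp only [if_true]
    ext
    · simp only
      ring
    · rfl
    · rfl

private theorem B1_abs_gt {n : ℕ} {p : P3} (h : p ∈ tube (2 * R (n + 1))) :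
    |gt (L n / 4) (rho n) (aa n) p.1 p.2.2| ≤ L n / 4 + rho n := by
  obtain ⟨h1, h2, h3, h4⟩ := B1_aux h
  have := abs_gt_le (t := p.1) (B1_q_pos n).le (rho_pos n) h3.le
  linarith

theorem abs_bt_false_le {n : ℕ} {p : P3} (h : p ∈ tube (2 * R (n + 1))) :
    |(bt false n p).1| ≤ L n / 4 + rho n := by
  rw [B1_bt_false]
  exact B1_abs_gt h

theorem abs_bt_true_le {n : ℕ} {p : P3} (h : p ∈ tube (2 * R (n + 1))) :
    |(bt true n p).1 - L n / 2| ≤ L n / 4 + rho n := by
  rw [B1_bt_true]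
  simp only
  rw [show L n / 2 - gt (L n / 4) (rho n) (aa n) p.1 p.2.2 - L n / 2 =
    -gt (L n / 4) (rho n) (aa n) p.1 p.2.2 by ring, abs_neg]
  exact B1_abs_gt h

theorem bt_half {i : Bool} {n : ℕ} {p : P3} (h : p ∈ tube (2 * R (n + 1))) (h0 : 0 < p.1)
    (h1 : p.1 < L (n + 1) / 2) : 0 < (bt i n p).1 ∧ (bt i n p).1 < L n / 2 := by
  obtain ⟨_, _, h3, _⟩ := B1_aux h
  have hb := (abs_le.1 (B1_abs_gt h)).2
  have hlt : p.1 < 2 * (L n / 4) + π * rho n := by
    rw [L_succ] at h1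
    linarith
  have hp := gt_pos (B1_q_pos n) (rho_pos n) h3 h0 hlt
  have hr : rho n < L n / 4 := by
    have e1 := R_le n
    have e2 := L_ge n
    rw [rho_eq]
    linarith
  cases i
  · rw [B1_bt_false]
    simp only
    constructor <;> linarith
  · rw [B1_bt_true]
    simp only
    constructor <;> linarith

theorem bt_error {i : Bool} {n : ℕ} {p : P3} (h : p ∈ tube (2 * R (n + 1))) :
    |(bt i n p).1 / L n - ((if i then 1 / 2 else 0) +
      (if i then -1 else 1) * (fd (p.1 / L (n + 1) + 1 / 4) - 1 / 4))| ≤ R n := by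
  obtain ⟨_, _, h3, h4⟩ := B1_aux h
  have hL := L_pos n
  have key := gt_error (t := p.1) (B1_q_pos n) (rho_pos n) h3.le h4
  rw [← L_succ] at key
  rw [show 4 * (L n / 4) = L n by ring] at key
  have hb : (π + 1) * rho n / L n ≤ R n := by
    rw [div_le_iff₀ hL, rho_eq]
    have e1 := L_ge n
    have e2 := R_pos n
    have e3 := Real.pi_lt_d2
    have e4 : (π + 1) * (3 / 10 * R n) ≤ 6 * R n := by
      have : (π + 1) * (3 / 10) ≤ 6 := by linarith
      calc (π + 1) * (3 / 10 * R n) = ((π + 1) * (3 / 10)) * R n := by ring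
        _ ≤ 6 * R n := mul_le_mul_of_nonneg_right this e2.le
    have e5 : 6 * R n ≤ L n * R n := mul_le_mul_of_nonneg_right e1 e2.le
    linarith
  refine le_trans ?_ hb
  cases i
  · rw [B1_bt_false]
    simpa using key
  · rw [B1_bt_true]
    simp only [if_true]
    refine le_trans (le_of_eq ?_) key
    rw [← abs_neg]
    congr 1
    field_simp
    ring

end Pool.Agent.BI39
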