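import Mathlib
import Pool.Agent.Lib.BI39.Defs
import Pool.Agent.Lib.BI39.A1
import Pool.Agent.Lib.BI39.A2
import Pool.Agent.Lib.BI39.A2b
import Pool.Agent.Lib.BI39.A2c
import Pool.Agent.Lib.BI39.B0
import Pool.Agent.Lib.BI39.B1

/-!
BI39, row B2: the images of the tubes under `bt i n`: description by the stadium functions, injectivity,
disjointness, open mapping.

`NA n c` and `NB n c` are the squares of the distances to the segments which are the centres of the two
stadium annuli. `mem_false`, `mem_true`: `exists_arc` with `N = sqrt (NA n c)` and `p.2.2 = N - aa n`.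
`bt_inj`: `bt_inv` with distance `0`.
`bt_disjoint`: suppose `bt false n p = shft (k L) (bt true n q) = (t, y, z)`. Then `|y| ≤ aa n / 5` and
`|z| ≤ aa n / 5` (they are the third coordinates of `p`, `q`), `NA ≥ (4/5 aa n)^2` at `(t, y, z)`
gives `|t| > L n / 4`, and `|t| ≤ L n / 4 + rho n`; the same for `t - k L n`:
`|L n / 2 - (t - k L n)| > L n / 4` and `≤ L n / 4 + rho n`; no `k` is possible.
`bt_nhds`: let `c` be close to `bt i n p`; then `c = bt i n q` for some `q` in `otube (2 * R (n + 1))`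
(`mem_false`, `mem_true` with the strict inequalities; `NA` is continuous), `bt_inv` gives `k` with
`shft (k L) q` close to `p`, and `bt_per`.
-/

set_option autoImplicit false

namespace Pool.Agent.BI39

open Real Topology

noncomputable def NA (n : ℕ) (c : P3) : ℝ := (max (|c.1| - L n / 4) 0) ^ 2 + c.2.2 ^ 2

noncomputable def NB (n : ℕ) (c : P3) : ℝ := (max (|L n / 2 - c.1| - L n / 4) 0) ^ 2 + c.2.1 ^ 2

theorem continuous_NA (n : ℕ) : Continuous (NA n) := by
  unfold NA
  fun_prop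

theorem continuous_NB (n : ℕ) : Continuous (NB n) := by
  unfold NB
  fun_prop

private theorem B2_bounds {n : ℕ} {p : P3} (h : p ∈ tube (2 * R (n + 1))) :
    |p.2.1| ≤ aa n / 5 ∧ |p.2.2| ≤ aa n / 5 ∧ 0 ≤ aa n + p.2.2 ∧ 4 / 5 * aa n ≤ aa n + p.2.2 := by
  obtain ⟨h1, h2⟩ := h
  rw [two_R_succ] at h1 h2
  have ha := aa_pos n
  have h3 := (abs_le.1 h2).1
  refine ⟨h1, h2, by linarith, by linarith⟩

theorem NA_bt {n : ℕ} {p : P3} (h : p ∈ tube (2 * R (n + 1))) :
    NA n (bt false n p) = (aa n + p.2.2) ^ 2 := by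
  obtain ⟨-, -, h3, -⟩ := B2_bounds h
  have hL := L_pos n
  have := stadium_gt_gz (q := L n / 4) (ρ := rho n) (a := aa n) (t := p.1) (p := p.2.2)
    (by linarith) (rho_pos n) h3
  simpa [NA, bt] using this

theorem NB_bt {n : ℕ} {p : P3} (h : p ∈ tube (2 * R (n + 1))) :
    NB n (bt true n p) = (aa n + p.2.2) ^ 2 := by
  obtain ⟨-, -, h3, -⟩ := B2_bounds h
  have hL := L_pos n
  have := stadium_gt_gz (q := L n / 4) (ρ := rho n) (a := aa n) (t := p.1) (p := p.2.2)
    (by linarith) (rho_pos n) h3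
  simpa [NB, bt] using this

theorem mem_false {n : ℕ} {c : P3} {s : ℝ} (h0 : s < aa n) (h1 : |c.2.1| ≤ s)
    (h2 : |√(NA n c) - aa n| ≤ s) : ∃ p ∈ tube s, bt false n p = c ∧ p.2.2 = √(NA n c) - aa n := by
  have hL := L_pos n
  have hN : 0 < √(NA n c) := by
    have := (abs_le.1 h2).1
    linarith
  have hNA : 0 ≤ NA n c := by
    unfold NA
    positivity
  obtain ⟨t, ht1, ht2⟩ := exists_arc (q := L n / 4) (ρ := rho n) (u := c.1) (v := c.2.2)
    (N := √(NA n c)) (by linarith) (rho_pos n) hN (by rw [Real.sq_sqrt hNA]; rfl)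
  refine ⟨(t, c.2.1, √(NA n c) - aa n), ⟨h1, h2⟩, ?_, rfl⟩
  have e : aa n + (√(NA n c) - aa n) = √(NA n c) := by ring
  refine Prod.ext ?_ (Prod.ext ?_ ?_)
  · simp only [bt, gt, Bool.false_eq_true, if_false]
    rw [e, ht1]
  · simp [bt]
  · simp only [bt, gz, Bool.false_eq_true, if_false]
    rw [e, ht2]

theorem mem_true {n : ℕ} {c : P3} {s : ℝ} (h0 : s < aa n) (h1 : |c.2.2| ≤ s)
    (h2 : |√(NB n c) - aa n| ≤ s) : ∃ p ∈ tube s, bt true n p = c ∧ p.2.2 = √(NB n c) - aa n := by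
  have hL := L_pos n
  have hN : 0 < √(NB n c) := by
    have := (abs_le.1 h2).1
    linarith
  have hNB : 0 ≤ NB n c := by
    unfold NB
    positivity
  obtain ⟨t, ht1, ht2⟩ := exists_arc (q := L n / 4) (ρ := rho n) (u := L n / 2 - c.1) (v := c.2.1)
    (N := √(NB n c)) (by linarith) (rho_pos n) hN (by rw [Real.sq_sqrt hNB]; rfl)
  refine ⟨(t, c.2.2, √(NB n c) - aa n), ⟨h1, h2⟩, ?_, rfl⟩
  have e : aa n + (√(NB n c) - aa n) = √(NB n c) := by ring
  refine Prod.ext ?_ (Prod.ext ?_ ?_)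
  · simp only [bt, gt, if_true]
    rw [e, ht1]
    ring
  · simp only [bt, gz, if_true]
    rw [e, ht2]
  · simp [bt]

theorem bt_inj {i : Bool} {n : ℕ} {p q : P3} (hp : p ∈ tube (2 * R (n + 1)))
    (hq : q ∈ tube (2 * R (n + 1))) (h : bt i n p = bt i n q) :
    ∃ k : ℤ, p = shft (k * L (n + 1)) q := by
  have ha := aa_pos n
  obtain ⟨k, hk⟩ := bt_inv hp hq (by rw [h, dist_self]; linarith)
  refine ⟨k, ?_⟩
  rw [h, dist_self, mul_zero] at hk
  exact dist_le_zero.1 hk

private theorem B2_lt {q y N x : ℝ} {a : ℝ} (ha : 0 < a) (hy : |y| ≤ a / 5) (hN : 4 / 5 * a ≤ N)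
    (h : (max (x - q) 0) ^ 2 + y ^ 2 = N ^ 2) : q < x := by
  by_contra hx
  rw [max_eq_right (by linarith)] at h
  have h1 : y ^ 2 ≤ (a / 5) ^ 2 := sq_le_sq' (by linarith [(abs_le.1 hy).1]) (abs_le.1 hy).2
  nlinarith

theorem bt_disjoint {n : ℕ} {p q : P3} (hp : p ∈ tube (2 * R (n + 1)))
    (hq : q ∈ tube (2 * R (n + 1))) (k : ℤ) : bt false n p ≠ shft (k * L n) (bt true n q) := by
  intro h
  obtain ⟨hp1, hp2, hp3, hp4⟩ := B2_bounds hp
  obtain ⟨hq1, hq2, hq3, hq4⟩ := B2_bounds hq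
  have ha := aa_pos n
  have e1 : (bt false n p).1 = (bt true n q).1 + k * L n := by rw [h]; rfl
  have e2 : (bt true n q).2.1 = p.2.1 := by
    have : (bt false n p).2.1 = (bt true n q).2.1 := by rw [h]; rfl
    rw [← this]
    simp [bt]
  have e3 : (bt false n p).2.2 = q.2.1 := by
    have : (bt false n p).2.2 = (bt true n q).2.2 := by rw [h]; rfl
    rw [this]
    simp [bt]
  have hA := NA_bt hp
  have hB := NB_bt hq
  unfold NA at hA
  unfold NB at hB
  rw [e3] at hA
  rw [e2] at hB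
  have l1 := B2_lt ha hq1 hp4 hA
  have l2 := B2_lt ha hp1 hq4 hB
  have u1 := abs_bt_false_le hp
  have u2 := abs_bt_true_le hq
  rw [abs_sub_comm] at u2
  set x := (bt true n q).1
  rw [e1] at l1 u1
  have hL := L_ge n
  have hr : rho n ≤ 3 / 100 := by
    rw [rho_eq]
    linarith [R_le n]
  have hr0 := rho_pos n
  set K : ℝ := (k : ℝ) * L n with hK
  have u1' := abs_le.1 u1
  have u2' := abs_le.1 u2
  -- the number `k` is between `-1` and `0`
  have k1 : k < 1 := by
    by_contra hk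
    have hk' : (1 : ℝ) ≤ k := by exact_mod_cast not_lt.1 hk
    have : L n ≤ K := by rw [hK]; nlinarith
    linarith [u1'.2, u2'.2]
  have k2 : -2 < k := by
    by_contra hk
    have hk' : (k : ℝ) ≤ -2 := by exact_mod_cast not_lt.1 hk
    have : K ≤ -2 * L n := by rw [hK]; nlinarith
    linarith [u1'.1, u2'.1]
  have k3 : k = 0 ∨ k = -1 := by omega
  rcases k3 with rfl | rfl
  · have hK0 : K = 0 := by rw [hK]; simp
    rw [hK0] at l1 u1'
    rcases lt_abs.1 l1 with h1 | h1 <;> rcases lt_abs.1 l2 with h2 | h2 <;> linarith [u1'.1, u1'.2, u2'.1, u2'.2]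
  · have hK0 : K = -L n := by rw [hK]; push_cast; ring
    rw [hK0] at l1 u1'
    rcases lt_abs.1 l1 with h1 | h1 <;> rcases lt_abs.1 l2 with h2 | h2 <;> linarith [u1'.1, u1'.2, u2'.1, u2'.2]

private theorem B2_ev {i : Bool} {n : ℕ} {p : P3} (hp : p ∈ otube (2 * R (n + 1))) :
    ∀ᶠ c in 𝓝 (bt i n p), ∃ q ∈ tube (2 * R (n + 1)), bt i n q = c := by
  have ha := aa_pos n
  have hs : 2 * R (n + 1) < aa n := by rw [two_R_succ]; linarith
  have hpt := otube_subset _ hp
  obtain ⟨hp1, hp2, hp3, hp4⟩ := B2_bounds hpt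
  cases i with
  | false =>
    have c1 : Continuous fun c : P3 => |c.2.1| := by fun_prop
    have c2 : Continuous fun c : P3 => |√(NA n c) - aa n| := by
      have := continuous_NA n
      fun_prop
    have o1 := (isOpen_lt c1 (continuous_const (y := 2 * R (n + 1)))).inter
      (isOpen_lt c2 (continuous_const (y := 2 * R (n + 1))))
    refine Filter.mem_of_superset (o1.mem_nhds ⟨?_, ?_⟩) ?_
    · have : (bt false n p).2.1 = p.2.1 := by simp [bt]
      show |(bt false n p).2.1| < 2 * R (n + 1)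
      rw [this]
      exact hp.1
    · show |√(NA n (bt false n p)) - aa n| < 2 * R (n + 1)
      rw [NA_bt hpt, Real.sqrt_sq hp3, add_sub_cancel_left]
      exact hp.2
    · rintro c ⟨hc1, hc2⟩
      obtain ⟨q, hq, hq1, -⟩ := mem_false hs (le_of_lt hc1) (le_of_lt hc2)
      exact ⟨q, hq, hq1⟩
  | true =>
    have c1 : Continuous fun c : P3 => |c.2.2| := by fun_prop
    have c2 : Continuous fun c : P3 => |√(NB n c) - aa n| := by
      have := continuous_NB n
      fun_prop
    have o1 := (isOpen_lt c1 (continuous_const (y := 2 * R (n + 1)))).inter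
      (isOpen_lt c2 (continuous_const (y := 2 * R (n + 1))))
    refine Filter.mem_of_superset (o1.mem_nhds ⟨?_, ?_⟩) ?_
    · have : (bt true n p).2.2 = p.2.1 := by simp [bt]
      show |(bt true n p).2.2| < 2 * R (n + 1)
      rw [this]
      exact hp.1
    · show |√(NB n (bt true n p)) - aa n| < 2 * R (n + 1)
      rw [NB_bt hpt, Real.sqrt_sq hp3, add_sub_cancel_left]
      exact hp.2
    · rintro c ⟨hc1, hc2⟩
      obtain ⟨q, hq, hq1, -⟩ := mem_true hs (le_of_lt hc1) (le_of_lt hc2)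
      exact ⟨q, hq, hq1⟩

theorem bt_nhds {i : Bool} {n : ℕ} {p : P3} (hp : p ∈ otube (2 * R (n + 1))) :
    𝓝 (bt i n p) ≤ Filter.map (bt i n) (𝓝 p) := by
  intro S hS
  rw [Filter.mem_map] at hS
  obtain ⟨ε, hε, hball⟩ := Metric.mem_nhds_iff.1 hS
  have ha := aa_pos n
  have hd : ∀ᶠ c in 𝓝 (bt i n p), dist c (bt i n p) < min (aa n / 10) (ε / 20) :=
    Metric.ball_mem_nhds _ (lt_min (by linarith) (by linarith))
  filter_upwards [B2_ev (i := i) hp, hd] with c hc hc2
  obtain ⟨q, hq, rfl⟩ := hc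
  obtain ⟨k, hk⟩ := bt_inv hq (otube_subset _ hp) (lt_of_lt_of_le hc2 (min_le_left _ _))
  have hlt : dist (bt i n q) (bt i n p) < ε / 20 := lt_of_lt_of_le hc2 (min_le_right _ _)
  have h1 : dist (shft (((-k : ℤ) : ℝ) * L (n + 1)) q) p < ε := by
    have h2 : dist (shft (((-k : ℤ) : ℝ) * L (n + 1)) q) p
        = dist q (shft (k * L (n + 1)) p) := by
      rw [← dist_shft (k * L (n + 1)) (shft (((-k : ℤ) : ℝ) * L (n + 1)) q) p, shft_shft]
      have : (k : ℝ) * L (n + 1) + ((-k : ℤ) : ℝ) * L (n + 1) = 0 := by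
        push_cast
        ring
      rw [this, shft_zero]
    rw [h2]
    linarith
  have h3 := hball (Metric.mem_ball.2 h1)
  rw [Set.mem_preimage, bt_per] at h3
  exact h3

end Pool.Agent.BI39
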