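import Mathlib
import Pool.Agent.Lib.BI39.Defs
import Pool.Agent.Lib.BI39.B0

/-!
BI39, row C0: the parametrisation `E sh []` of the tube of stage `0` around the circle of radius `1` in the
plane of the first and third coordinate.

`E sh [] (t, y, z) = ((1 + z) cos t, y, (1 + z) sin t)`, `|z| ≤ 1/5` on `tube (2 * R 0)`.
`e2 (E p) (E q) = (Δ y) ^ 2 + (z - z') ^ 2 + 2 (1 + z) (1 + z') (1 - cos (t - t'))`.
`E0_inv`: `|z - z'| ≤ sqrt 2 D`, `|e^{it} - e^{it'}| ≤ 4 D` (`D` the distance), and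
`|e^{iθ} - 1| ≥ (2 / π) |θ|` for `|θ| ≤ π`.
`E0_nhds`: polar coordinates (surjectivity of `(t, z) ↦ (1 + z) e^{it}` near the point, with `E0_inv`; or
local homeomorphism).
-/

set_option autoImplicit false

namespace Pool.Agent.BI39

open Real Topology

theorem continuous_E0 (sh : ℕ → ℝ) : Continuous (E sh []) := by
  show Continuous fun p : P3 => ((1 + p.2.2) * cos p.1, p.2.1, (1 + p.2.2) * sin p.1)
  fun_prop

theorem E0_per (sh : ℕ → ℝ) (k : ℤ) (p : P3) : E sh [] (shft (k * (2 * π)) p) = E sh [] p := by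
  show ((1 + p.2.2) * cos (p.1 + k * (2 * π)), p.2.1, (1 + p.2.2) * sin (p.1 + k * (2 * π))) =
    ((1 + p.2.2) * cos p.1, p.2.1, (1 + p.2.2) * sin p.1)
  rw [Real.cos_add_int_mul_two_pi, Real.sin_add_int_mul_two_pi]

private theorem C0_e2 (sh : ℕ → ℝ) (p q : P3) : e2 (E sh [] p) (E sh [] q) =
    (p.2.1 - q.2.1) ^ 2 + (p.2.2 - q.2.2) ^ 2 +
      2 * (1 + p.2.2) * (1 + q.2.2) * (1 - cos (p.1 - q.1)) := by
  show ((1 + p.2.2) * cos p.1 - (1 + q.2.2) * cos q.1) ^ 2 + (p.2.1 - q.2.1) ^ 2 +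
    ((1 + p.2.2) * sin p.1 - (1 + q.2.2) * sin q.1) ^ 2 = _
  rw [Real.cos_sub]
  have h1 := Real.sin_sq_add_cos_sq p.1
  have h2 := Real.sin_sq_add_cos_sq q.1
  have e1 : sin p.1 ^ 2 = 1 - cos p.1 ^ 2 := by linarith
  have e2 : sin q.1 ^ 2 = 1 - cos q.1 ^ 2 := by linarith
  linear_combination ((1 + p.2.2) ^ 2) * e1 + ((1 + q.2.2) ^ 2) * e2

theorem E0_dist {sh : ℕ → ℝ} {p q : P3} (hp : p ∈ tube (1 / 5)) (hq : q ∈ tube (1 / 5)) :
    dist (E sh [] p) (E sh [] q) ^ 2 ≤ 4 * e2 p q := by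
  refine (sq_dist_le_e2 _ _).trans ?_
  rw [C0_e2]
  unfold e2
  have hp2 := abs_le.1 hp.2
  have hq2 := abs_le.1 hq.2
  have h1 := Real.one_sub_sq_div_two_le_cos (x := p.1 - q.1)
  have h2 : 0 ≤ 1 - cos (p.1 - q.1) := by linarith [Real.cos_le_one (p.1 - q.1)]
  have h3 : (1 + p.2.2) * (1 + q.2.2) ≤ 6 / 5 * (6 / 5) :=
    mul_le_mul (by linarith) (by linarith) (by linarith) (by norm_num)
  have h4 : 2 * (1 + p.2.2) * (1 + q.2.2) * (1 - cos (p.1 - q.1)) ≤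
      2 * (6 / 5 * (6 / 5)) * ((p.1 - q.1) ^ 2 / 2) := by
    have h5 : 2 * (1 + p.2.2) * (1 + q.2.2) ≤ 2 * (6 / 5 * (6 / 5)) := by linarith
    exact mul_le_mul h5 (by linarith) h2 (by norm_num)
  nlinarith [sq_nonneg (p.1 - q.1), sq_nonneg (p.2.1 - q.2.1), sq_nonneg (p.2.2 - q.2.2)]

theorem E0_inv {sh : ℕ → ℝ} {p q : P3} (hp : p ∈ tube (1 / 5)) (hq : q ∈ tube (1 / 5)) :
    ∃ k : ℤ, dist p (shft (k * (2 * π)) q) ≤ 100 * dist (E sh [] p) (E sh [] q) := by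
  have hp2 := abs_le.1 hp.2
  have hq2 := abs_le.1 hq.2
  set D := dist (E sh [] p) (E sh [] q) with hD
  have hD0 : 0 ≤ D := dist_nonneg
  set k : ℤ := round ((p.1 - q.1) / (2 * π)) with hk
  set θ : ℝ := p.1 - (q.1 + k * (2 * π)) with hθ
  have hπ := Real.pi_pos
  have hθπ : |θ| ≤ π := by
    have h1 := abs_sub_round ((p.1 - q.1) / (2 * π))
    have h2 : θ = ((p.1 - q.1) / (2 * π) - k) * (2 * π) := by
      rw [hθ]
      field_simp
      ring
    rw [h2, abs_mul, abs_of_pos (by positivity : 0 < 2 * π)]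
    have h3 := mul_le_mul_of_nonneg_right h1 (by positivity : 0 ≤ 2 * π)
    linarith
  have hcos : cos (p.1 - q.1) = cos θ := by
    have h2 : p.1 - q.1 = θ + k * (2 * π) := by rw [hθ]; ring
    rw [h2, Real.cos_add_int_mul_two_pi]
  have h1 := C0_e2 sh p q
  have h2 := e2_le_sq_dist (E sh [] p) (E sh [] q)
  rw [h1, hcos] at h2
  have h3 := Real.cos_le_one_sub_mul_cos_sq hθπ
  have h4 : 0 ≤ 1 - cos θ := by linarith [Real.cos_le_one θ]
  have h5 : (4 / 5 : ℝ) * (4 / 5) ≤ (1 + p.2.2) * (1 + q.2.2) :=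
    mul_le_mul (by linarith) (by linarith) (by norm_num) (by linarith)
  have h6 : 2 * (4 / 5 * (4 / 5)) * (1 - cos θ) ≤ 2 * (1 + p.2.2) * (1 + q.2.2) * (1 - cos θ) :=
    mul_le_mul_of_nonneg_right (by linarith) h4
  have h7 : θ ^ 2 ≤ (100 * D) ^ 2 := by
    have h8 : 2 / π ^ 2 * θ ^ 2 ≤ 1 - cos θ := by linarith
    have h9 : θ ^ 2 = π ^ 2 / 2 * (2 / π ^ 2 * θ ^ 2) := by field_simp
    have h10 : π ^ 2 ≤ 16 := by nlinarith [Real.pi_le_four]
    have h11 : 1 - cos θ ≤ 3 * D ^ 2 := by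
      nlinarith [sq_nonneg (p.2.1 - q.2.1), sq_nonneg (p.2.2 - q.2.2)]
    have h12 : θ ^ 2 ≤ π ^ 2 / 2 * (3 * D ^ 2) := by
      rw [h9]
      exact mul_le_mul_of_nonneg_left (h8.trans h11) (by positivity)
    nlinarith [sq_nonneg D]
  have hy : (p.2.1 - q.2.1) ^ 2 ≤ (100 * D) ^ 2 := by
    nlinarith [sq_nonneg (p.2.2 - q.2.2), sq_nonneg D]
  have hz : (p.2.2 - q.2.2) ^ 2 ≤ (100 * D) ^ 2 := by
    nlinarith [sq_nonneg (p.2.1 - q.2.1), sq_nonneg D]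
  refine ⟨k, ?_⟩
  have h100 : 0 ≤ 100 * D := by positivity
  rw [Prod.dist_eq, Prod.dist_eq]
  refine max_le ?_ (max_le ?_ ?_)
  · rw [Real.dist_eq]
    exact abs_le_of_sq_le_sq h7 h100
  · rw [Real.dist_eq]
    exact abs_le_of_sq_le_sq hy h100
  · rw [Real.dist_eq]
    exact abs_le_of_sq_le_sq hz h100

/-- polar coordinates with respect to the direction `t₀` -/
private noncomputable def C0_pol (t₀ : ℝ) (x : P3) : P3 :=
  (t₀ + Complex.arg (((x.1 : ℂ) + x.2.2 * Complex.I) * Complex.exp (-(t₀ * Complex.I))), x.2.1,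
    ‖((x.1 : ℂ) + x.2.2 * Complex.I) * Complex.exp (-(t₀ * Complex.I))‖ - 1)

private theorem C0_E_pol (sh : ℕ → ℝ) (t₀ : ℝ) (x : P3) : E sh [] (C0_pol t₀ x) = x := by
  set w : ℂ := ((x.1 : ℂ) + x.2.2 * Complex.I) * Complex.exp (-(t₀ * Complex.I)) with hw
  have h1 : ((‖w‖ * cos (t₀ + Complex.arg w) : ℝ) : ℂ) +
      ((‖w‖ * sin (t₀ + Complex.arg w) : ℝ) : ℂ) * Complex.I = (x.1 : ℂ) + x.2.2 * Complex.I := by
    have h2 : (x.1 : ℂ) + x.2.2 * Complex.I = w * Complex.exp (t₀ * Complex.I) := by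
      rw [hw, mul_assoc, ← Complex.exp_add, neg_add_cancel, Complex.exp_zero, mul_one]
    have h3 : w = ‖w‖ * Complex.exp (Complex.arg w * Complex.I) :=
      (Complex.norm_mul_exp_arg_mul_I w).symm
    rw [h2]
    nth_rw 5 [h3]
    rw [mul_assoc, ← Complex.exp_add, ← add_mul, add_comm (Complex.arg w : ℂ) (t₀ : ℂ),
      ← Complex.ofReal_add, Complex.exp_mul_I]
    push_cast
    ring
  have h4 := congrArg Complex.re h1
  have h5 := congrArg Complex.im h1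
  simp only [Complex.add_re, Complex.add_im, Complex.mul_re, Complex.mul_im, Complex.ofReal_re,
    Complex.ofReal_im, Complex.I_re, Complex.I_im, mul_zero, mul_one, zero_mul, sub_zero, add_zero,
    zero_add, sub_self] at h4 h5
  show ((1 + (‖w‖ - 1)) * cos (t₀ + Complex.arg w), x.2.1,
    (1 + (‖w‖ - 1)) * sin (t₀ + Complex.arg w)) = x
  rw [add_sub_cancel, h4, h5]

theorem E0_nhds {sh : ℕ → ℝ} {p : P3} (hp : p ∈ otube (1 / 5)) :
    𝓝 (E sh [] p) ≤ Filter.map (E sh []) (𝓝 p) := by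
  have hp2 := abs_lt.1 hp.2
  have hpos : 0 < 1 + p.2.2 := by linarith
  refine Filter.le_map_of_right_inverse (mba := C0_pol p.1)
    (Filter.Eventually.of_forall fun x => C0_E_pol sh p.1 x) ?_
  have hval : (((E sh [] p).1 : ℂ) + (E sh [] p).2.2 * Complex.I) *
      Complex.exp (-(p.1 * Complex.I)) = ((1 + p.2.2 : ℝ) : ℂ) := by
    show ((((1 + p.2.2) * cos p.1 : ℝ) : ℂ) + (((1 + p.2.2) * sin p.1 : ℝ) : ℂ) * Complex.I) *
      Complex.exp (-(p.1 * Complex.I)) = _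
    have h1 : (((1 + p.2.2) * cos p.1 : ℝ) : ℂ) + (((1 + p.2.2) * sin p.1 : ℝ) : ℂ) * Complex.I =
        ((1 + p.2.2 : ℝ) : ℂ) * Complex.exp (p.1 * Complex.I) := by
      rw [Complex.exp_mul_I]
      push_cast
      ring
    rw [h1, mul_assoc, ← Complex.exp_add, add_neg_cancel, Complex.exp_zero, mul_one]
  have hC0 : C0_pol p.1 (E sh [] p) = p := by
    unfold C0_pol
    rw [hval, Complex.arg_ofReal_of_nonneg hpos.le, add_zero, Complex.norm_real,
      Real.norm_of_nonneg hpos.le, add_sub_cancel_left]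
    rfl
  have hcont : ContinuousAt (C0_pol p.1) (E sh [] p) := by
    have hw : Continuous fun x : P3 =>
        ((x.1 : ℂ) + x.2.2 * Complex.I) * Complex.exp (-(p.1 * Complex.I)) := by fun_prop
    have harg : ContinuousAt (fun x : P3 => Complex.arg
        (((x.1 : ℂ) + x.2.2 * Complex.I) * Complex.exp (-(p.1 * Complex.I)))) (E sh [] p) := by
      refine ContinuousAt.comp (g := Complex.arg) ?_ hw.continuousAt
      rw [hval]
      exact Complex.continuousAt_arg (Complex.ofReal_mem_slitPlane.2 hpos)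
    unfold C0_pol
    exact (continuousAt_const.add harg).prodMk
      ((continuous_fst.comp continuous_snd).continuousAt.prodMk
        ((continuous_norm.comp hw).sub continuous_const).continuousAt)
  have := hcont.tendsto
  rwa [hC0] at this

theorem E0_rr (sh : ℕ → ℝ) (p : P3) : E sh [] (rr p) = r3 (E sh [] p) := by
  show ((1 + p.2.2) * cos (-p.1), p.2.1, (1 + p.2.2) * sin (-p.1)) =
    ((1 + p.2.2) * cos p.1, p.2.1, -((1 + p.2.2) * sin p.1))
  rw [Real.cos_neg, Real.sin_neg, mul_neg]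

theorem norm_E0_le {sh : ℕ → ℝ} {p : P3} (hp : p ∈ tube (1 / 5)) : ‖E sh [] p‖ ≤ 6 / 5 := by
  have hp1 : |p.2.1| ≤ 1 / 5 := hp.1
  have hp2 := abs_le.1 hp.2
  have h1 : |1 + p.2.2| ≤ 6 / 5 := by
    rw [abs_le]
    constructor <;> linarith
  show ‖(((1 + p.2.2) * cos p.1, p.2.1, (1 + p.2.2) * sin p.1) : P3)‖ ≤ 6 / 5
  rw [Prod.norm_def, Prod.norm_def]
  refine max_le ?_ (max_le ?_ ?_)
  · rw [Real.norm_eq_abs, abs_mul]
    have := mul_le_mul h1 (Real.abs_cos_le_one p.1) (abs_nonneg _) (by norm_num)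
    linarith
  · rw [Real.norm_eq_abs]
    show |p.2.1| ≤ 6 / 5
    linarith
  · rw [Real.norm_eq_abs]
    show |(1 + p.2.2) * sin p.1| ≤ 6 / 5
    rw [abs_mul]
    have := mul_le_mul h1 (Real.abs_sin_le_one p.1) (abs_nonneg _) (by norm_num)
    linarith

theorem E0_pos {sh : ℕ → ℝ} {p : P3} (hp : p ∈ tube (1 / 5)) (h0 : 0 < p.1) (h1 : p.1 < π) :
    0 < (E sh [] p).2.2 := by
  have hp2 := abs_le.1 hp.2
  show 0 < (1 + p.2.2) * sin p.1
  exact mul_pos (by linarith) (Real.sin_pos_of_pos_of_lt_pi h0 h1)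

/-- the closed tube of stage `0` as a set -/
theorem mem_E0_tube {sh : ℕ → ℝ} {s : ℝ} (hs : 0 ≤ s) (hs' : s < 1) {x : P3} :
    x ∈ E sh [] '' tube s ↔ |x.2.1| ≤ s ∧ |√(x.1 ^ 2 + x.2.2 ^ 2) - 1| ≤ s := by
  constructor
  · rintro ⟨p, hp, rfl⟩
    have hp2 := abs_le.1 hp.2
    refine ⟨hp.1, ?_⟩
    show |√(((1 + p.2.2) * cos p.1) ^ 2 + ((1 + p.2.2) * sin p.1) ^ 2) - 1| ≤ s
    have h1 : ((1 + p.2.2) * cos p.1) ^ 2 + ((1 + p.2.2) * sin p.1) ^ 2 = (1 + p.2.2) ^ 2 := by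
      have h2 := Real.sin_sq_add_cos_sq p.1
      linear_combination (1 + p.2.2) ^ 2 * h2
    rw [h1, Real.sqrt_sq (by linarith), add_sub_cancel_left]
    exact hp.2
  · rintro ⟨h1, h2⟩
    refine ⟨C0_pol 0 x, ⟨h1, ?_⟩, C0_E_pol sh 0 x⟩
    show |‖((x.1 : ℂ) + x.2.2 * Complex.I) * Complex.exp (-(((0 : ℝ) : ℂ) * Complex.I))‖ - 1| ≤ s
    rw [Complex.ofReal_zero, zero_mul, neg_zero, Complex.exp_zero, mul_one,
      Complex.norm_add_mul_I]
    exact h2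

end Pool.Agent.BI39
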