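import Mathlib
import Pool.Agent.Lib.BI39.Defs
import Pool.Agent.Lib.BI39.B0
import Pool.Agent.Lib.BI39.B1
import Pool.Agent.Lib.BI39.B2
import Pool.Agent.Lib.BI39.C0

/-!
BI39, row C1: the parametrisations `E sh w`, `n = w.length`, on `tube (2 * R n)`.
Everything is by induction on `w` from B1, B2, C0 (`bt_mem`: `bt i n` maps `tube (2 * R (n + 1))` into
`tube (R n / 2)`, which is contained in `otube (2 * R n)`).

`E_inv`: `D := dist (E sh (i :: w) p) (E sh (i :: w) q)`. The induction hypothesis for
`p' = shft _ (bt i n p)`, `q'` gives `k` with `dist (bt i n p) (shft (k L n) (bt i n q)) ≤ 100 ^ (n + 1) D`,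
which is less than `100 ^ (n + 1) / 4000 ^ (n + 2) = (1 / 40) ^ n / 160000 < aa n / 10`. By
`abs_bt_false_le` (`abs_bt_true_le`) the first coordinates of `bt i n p`, `bt i n q` differ by at most
`L n / 2 + 2 rho n`, so `k = 0`. Then `bt_inv`, `20 ≤ 100`.
`E_disj`: induction: `E sh (i :: u) p = E sh (i' :: u') q`, `u ≠ u'`: induction hypothesis; `u = u'`,
`i ≠ i'`: `E_inj` and `bt_disjoint`.
-/

set_option autoImplicit false

namespace Pool.Agent.BI39

open Real Topology

private theorem c1_four_R_succ (n : ℕ) : R n / 2 ≤ 2 * R n := by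
  have := R_pos n
  linarith

private theorem c1_bt_mem {sh : ℕ → ℝ} {i : Bool} {n : ℕ} {p : P3}
    (h : p ∈ tube (2 * R (n + 1))) : shft (sh n) (bt i n p) ∈ tube (2 * R n) :=
  shft_mem_tube.2 (tube_mono (c1_four_R_succ n) (bt_mem h))

theorem continuous_E (sh : ℕ → ℝ) (w : List Bool) : Continuous (E sh w) := by
  induction w with
  | nil => exact continuous_E0 sh
  | cons i w ih =>
    exact ih.comp ((continuous_shft _).comp (continuous_bt i w.length))

theorem E_per (sh : ℕ → ℝ) (w : List Bool) (k : ℤ) (p : P3) :
    E sh w (shft (k * L w.length) p) = E sh w p := by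
  cases w with
  | nil => exact E0_per sh k p
  | cons i w =>
    show E sh w (shft (sh w.length) (bt i w.length (shft (k * L (w.length + 1)) p))) =
      E sh w (shft (sh w.length) (bt i w.length p))
    rw [bt_per]

theorem E_dist {sh : ℕ → ℝ} {w : List Bool} {p q : P3} (hp : p ∈ tube (2 * R w.length))
    (hq : q ∈ tube (2 * R w.length)) : dist (E sh w p) (E sh w q) ^ 2 ≤ 4 * e2 p q := by
  induction w generalizing p q with
  | nil =>
    have h : (2 * R 0 : ℝ) = 1 / 5 := by unfold R; norm_num
    have hp' : p ∈ tube (2 * R 0) := hp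
    have hq' : q ∈ tube (2 * R 0) := hq
    rw [h] at hp' hq'
    exact E0_dist hp' hq'
  | cons i w ih =>
    have hp' : p ∈ tube (2 * R (w.length + 1)) := hp
    have hq' : q ∈ tube (2 * R (w.length + 1)) := hq
    have h1 := ih (c1_bt_mem (sh := sh) (i := i) hp') (c1_bt_mem (sh := sh) (i := i) hq')
    rw [e2_shft] at h1
    have h2 := e2_bt_le (i := i) hp' hq'
    exact h1.trans (by linarith)

theorem E_dist' {sh : ℕ → ℝ} {w : List Bool} {p q : P3} (hp : p ∈ tube (2 * R w.length))
    (hq : q ∈ tube (2 * R w.length)) : dist (E sh w p) (E sh w q) ≤ 4 * dist p q := by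
  have h1 := E_dist (sh := sh) hp hq
  have h2 := e2_le_sq_dist p q
  have h3 : dist (E sh w p) (E sh w q) ^ 2 ≤ (4 * dist p q) ^ 2 := by
    nlinarith [sq_nonneg (dist p q)]
  exact le_of_sq_le_sq h3 (by positivity)

theorem E_inv {sh : ℕ → ℝ} {w : List Bool} {p q : P3} (hp : p ∈ tube (2 * R w.length))
    (hq : q ∈ tube (2 * R w.length))
    (h : dist (E sh w p) (E sh w q) < (1 / 4000) ^ (w.length + 1)) :
    ∃ k : ℤ, dist p (shft (k * L w.length) q) ≤
      100 ^ (w.length + 1) * dist (E sh w p) (E sh w q) := by
  induction w generalizing p q with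
  | nil =>
    have h0 : (2 * R 0 : ℝ) = 1 / 5 := by unfold R; norm_num
    have hp' : p ∈ tube (2 * R 0) := hp
    have hq' : q ∈ tube (2 * R 0) := hq
    rw [h0] at hp' hq'
    obtain ⟨k, hk⟩ := E0_inv (sh := sh) hp' hq'
    refine ⟨k, ?_⟩
    show dist p (shft (k * (2 * π)) q) ≤ 100 ^ (0 + 1) * dist (E sh [] p) (E sh [] q)
    simpa using hk
  | cons i w ih =>
    set n := w.length with hn
    have hp' : p ∈ tube (2 * R (n + 1)) := hp
    have hq' : q ∈ tube (2 * R (n + 1)) := hq
    set D : ℝ := dist (E sh (i :: w) p) (E sh (i :: w) q) with hD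
    have hDdef : dist (E sh w (shft (sh n) (bt i n p))) (E sh w (shft (sh n) (bt i n q))) = D := rfl
    have hlen : (i :: w).length = n + 1 := rfl
    rw [hlen] at h ⊢
    have hpos : (0 : ℝ) ≤ (1 / 4000) ^ (n + 1) := by positivity
    have hlt : D < (1 / 4000) ^ (n + 1) := by
      refine h.trans_le ?_
      rw [pow_succ]
      linarith
    obtain ⟨k, hk⟩ := ih (c1_bt_mem (sh := sh) (i := i) hp') (c1_bt_mem (sh := sh) (i := i) hq')
      (by rw [hDdef]; exact hlt)
    rw [hDdef] at hk
    -- the small distance
    have hsmall : (100 : ℝ) ^ (n + 1) * D < aa n / 10 := by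
      have h1 : (100 : ℝ) ^ (n + 1) * D ≤ 100 ^ (n + 1) * (1 / 4000) ^ (n + 1 + 1) :=
        mul_le_mul_of_nonneg_left h.le (by positivity)
      have h2 : (100 : ℝ) ^ (n + 1) * (1 / 4000) ^ (n + 1 + 1) = (1 / 40) ^ n * (1 / 160000) := by
        rw [pow_succ (1 / 4000 : ℝ) (n + 1), ← mul_assoc, ← mul_pow, pow_succ]
        norm_num
        ring
      have h3 : aa n / 10 = (1 / 40) ^ n * (1 / 400) := by
        unfold aa R; ring
      rw [h3]
      refine h1.trans_lt ?_
      rw [h2]
      have : (0 : ℝ) < (1 / 40) ^ n := by positivity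
      nlinarith
    have hdist : dist (bt i n p) (shft (k * L n) (bt i n q)) ≤ 100 ^ (n + 1) * D := by
      rw [← dist_shft (sh n), shft_shft, add_comm (sh n), ← shft_shft]
      exact hk
    -- k = 0
    have hk0 : k = 0 := by
      by_contra hk0
      have hL := L_ge n
      have hrho : rho n ≤ 3 / 100 := by
        rw [rho_eq]
        have := R_le n
        linarith
      have haa : aa n ≤ 1 / 40 := by
        unfold aa
        have := R_le n
        linarith
      have hfst : |(bt i n p).1 - ((bt i n q).1 + k * L n)| ≤ 100 ^ (n + 1) * D := by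
        have h1 : dist (bt i n p).1 (shft (k * L n) (bt i n q)).1 ≤
            dist (bt i n p) (shft (k * L n) (bt i n q)) := by
          rw [Prod.dist_eq]
          exact le_max_left _ _
        rw [Real.dist_eq] at h1
        exact h1.trans hdist
      have hdiff : |(bt i n p).1 - (bt i n q).1| ≤ L n / 2 + 2 * rho n := by
        cases i with
        | false =>
          have h1 := abs_le.1 (abs_bt_false_le hp')
          have h2 := abs_le.1 (abs_bt_false_le hq')
          rw [abs_le]
          constructor <;> linarith [h1.1, h1.2, h2.1, h2.2]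
        | true =>
          have h1 := abs_le.1 (abs_bt_true_le hp')
          have h2 := abs_le.1 (abs_bt_true_le hq')
          rw [abs_le]
          constructor <;> linarith [h1.1, h1.2, h2.1, h2.2]
      have hk1 : (1 : ℝ) ≤ |(k : ℝ)| := by
        have : (1 : ℤ) ≤ |k| := Int.one_le_abs hk0
        exact_mod_cast this
      have h3 : L n ≤ |(k : ℝ) * L n| := by
        rw [abs_mul, abs_of_pos (L_pos n)]
        nlinarith [L_pos n]
      have h4 : |(k : ℝ) * L n| ≤ |(bt i n p).1 - (bt i n q).1| +
          |(bt i n p).1 - ((bt i n q).1 + k * L n)| := by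
        have h5 := abs_sub ((bt i n p).1 - (bt i n q).1) ((bt i n p).1 - ((bt i n q).1 + k * L n))
        have h6 : ((bt i n p).1 - (bt i n q).1) - ((bt i n p).1 - ((bt i n q).1 + k * L n)) =
          k * L n := by ring
        rw [h6] at h5
        exact h5
      linarith
    rw [hk0, Int.cast_zero, zero_mul, shft_zero] at hdist
    obtain ⟨j, hj⟩ := bt_inv hp' hq' (hdist.trans_lt hsmall)
    refine ⟨j, ?_⟩
    refine hj.trans ?_
    have hD0 : 0 ≤ D := dist_nonneg
    calc 20 * dist (bt i n p) (bt i n q) ≤ 20 * (100 ^ (n + 1) * D) := by linarith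
      _ ≤ 100 * (100 ^ (n + 1) * D) := by
          have : 0 ≤ (100 : ℝ) ^ (n + 1) * D := by positivity
          linarith
      _ = 100 ^ (n + 1 + 1) * D := by ring

theorem E_inj {sh : ℕ → ℝ} {w : List Bool} {p q : P3} (hp : p ∈ tube (2 * R w.length))
    (hq : q ∈ tube (2 * R w.length)) (h : E sh w p = E sh w q) :
    ∃ k : ℤ, p = shft (k * L w.length) q := by
  have h0 : dist (E sh w p) (E sh w q) = 0 := by rw [h, dist_self]
  obtain ⟨k, hk⟩ := E_inv (sh := sh) hp hq (by rw [h0]; positivity)
  rw [h0, mul_zero] at hk
  exact ⟨k, dist_le_zero.1 hk⟩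

theorem E_disj {sh : ℕ → ℝ} {w w' : List Bool} (hl : w.length = w'.length) (hw : w ≠ w')
    {p q : P3} (hp : p ∈ tube (2 * R w.length)) (hq : q ∈ tube (2 * R w.length)) :
    E sh w p ≠ E sh w' q := by
  induction w generalizing w' p q with
  | nil =>
    exfalso
    apply hw
    symm
    exact List.length_eq_zero_iff.1 hl.symm
  | cons i u ih =>
    cases w' with
    | nil => simp at hl
    | cons i' u' =>
      have hl' : u.length = u'.length := by
        simpa using hl
      have hp' : p ∈ tube (2 * R (u.length + 1)) := hp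
      have hq' : q ∈ tube (2 * R (u.length + 1)) := hq
      have hE : E sh (i' :: u') q = E sh u' (shft (sh u.length) (bt i' u.length q)) := by
        show E sh u' (shft (sh u'.length) (bt i' u'.length q)) = _
        rw [hl']
      rw [hE]
      by_cases hu : u = u'
      · subst hu
        have hii : i ≠ i' := fun h => hw (by rw [h])
        intro heq
        have heq' : E sh u (shft (sh u.length) (bt i u.length p)) =
          E sh u (shft (sh u.length) (bt i' u.length q)) := heq
        obtain ⟨k, hk⟩ := E_inj (c1_bt_mem (sh := sh) (i := i) hp')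
          (c1_bt_mem (sh := sh) (i := i') hq') heq'
        have hk' : bt i u.length p = shft (k * L u.length) (bt i' u.length q) := by
          have h1 := congrArg (shft (-sh u.length)) hk
          rw [shft_shft, shft_shft, shft_shft, neg_add_cancel, shft_zero] at h1
          rw [h1]
          congr 1
          ring
        cases i with
        | false =>
          cases i' with
          | false => exact hii rfl
          | true => exact bt_disjoint hp' hq' k hk'
        | true =>
          cases i' with
          | true => exact hii rfl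
          | false =>
            apply bt_disjoint hq' hp' (-k)
            have h1 := congrArg (shft (-(k * L u.length))) hk'
            rw [shft_shft, neg_add_cancel, shft_zero] at h1
            rw [← h1]
            congr 1
            push_cast
            ring
      · exact ih hl' hu (c1_bt_mem (sh := sh) (i := i) hp') (c1_bt_mem (sh := sh) (i := i') hq')

end Pool.Agent.BI39
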