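import Mathlib
import Pool.Agent.Lib.BI39.Defs
import Pool.Agent.Lib.BI39.B0
import Pool.Agent.Lib.BI39.B1
import Pool.Agent.Lib.BI39.B2
import Pool.Agent.Lib.BI39.C0
import Pool.Agent.Lib.BI39.C1

/-!
BI39, row C1b: the parametrisations `E sh w`, second part. Inductions on `w` (resp. `v`) from B1, B2, C0.
`E_nhds`: `𝓝 (E (i :: w) p) ≤ map (E w) (𝓝 (shft _ (bt i n p))) ≤ map (E w) (map (shft _ ∘ bt i n) (𝓝 p))`
(`bt_nhds`; `shft` is a homeomorphism; `bt_mem` puts `bt i n p` into `otube (2 * R n)`).
`isCompact_E_tube`: the image of `tube s` is the image of its part with `0 ≤ t ≤ L w.length` (`E_per`).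
`E_rr`: `bt_rr`, `E_per` with `k = 1`. `E_half`: `bt_half`, `E0_pos`. `E_half'`: shift `p.1` into
`(-L / 2, L / 2]`; `p.1 ∈ (-L / 2, 0)` gives a negative third coordinate (`E_rr`, `E_half`), `p.1 ∈ {0, L / 2}`
gives `0` (`E_rr`, `E_per`).
-/

set_option autoImplicit false

namespace Pool.Agent.BI39

open Real Topology

private theorem c1b_two_R0 : (2 * R 0 : ℝ) = 1 / 5 := by unfold R; norm_num

private theorem c1b_shft_nhds (c : ℝ) (x : P3) : 𝓝 (shft c x) ≤ Filter.map (shft c) (𝓝 x) := by
  have h1 : (shft c) ∘ (shft (-c)) = id := by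
    funext y
    simp only [Function.comp_apply, id]
    rw [shft_shft, add_neg_cancel, shft_zero]
  have h2 : shft (-c) (shft c x) = x := by
    rw [shft_shft, neg_add_cancel, shft_zero]
  calc 𝓝 (shft c x) = Filter.map (shft c) (Filter.map (shft (-c)) (𝓝 (shft c x))) := by
        rw [Filter.map_map, h1, Filter.map_id]
    _ ≤ Filter.map (shft c) (𝓝 x) := by
        apply Filter.map_mono
        have := (continuous_shft (-c)).tendsto (shft c x)
        rw [h2] at this
        exact this

theorem E_nhds {sh : ℕ → ℝ} {w : List Bool} {p : P3} (hp : p ∈ otube (2 * R w.length)) :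
    𝓝 (E sh w p) ≤ Filter.map (E sh w) (𝓝 p) := by
  induction w generalizing p with
  | nil =>
    have hp' : p ∈ otube (2 * R 0) := hp
    rw [c1b_two_R0] at hp'
    exact E0_nhds hp'
  | cons i w ih =>
    have hp' : p ∈ otube (2 * R (w.length + 1)) := hp
    have hR := R_pos w.length
    have h1 : shft (sh w.length) (bt i w.length p) ∈ otube (2 * R w.length) := by
      rw [shft_mem_otube]
      apply tube_subset_otube (s := R w.length / 2) (by linarith)
      exact bt_mem (otube_subset _ hp')
    have h2 := ih h1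
    have h3 : 𝓝 (shft (sh w.length) (bt i w.length p)) ≤
        Filter.map (fun x => shft (sh w.length) (bt i w.length x)) (𝓝 p) := by
      refine (c1b_shft_nhds _ _).trans ?_
      refine (Filter.map_mono (bt_nhds hp')).trans ?_
      rw [Filter.map_map]
      exact le_refl _
    refine h2.trans ((Filter.map_mono h3).trans ?_)
    rw [Filter.map_map]
    exact le_refl _

theorem isOpen_E_image {sh : ℕ → ℝ} {w : List Bool} {U : Set P3} (hU : IsOpen U)
    (h : U ⊆ otube (2 * R w.length)) : IsOpen (E sh w '' U) := by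
  rw [isOpen_iff_mem_nhds]
  rintro _ ⟨p, hp, rfl⟩
  apply E_nhds (h hp)
  rw [Filter.mem_map]
  exact Filter.mem_of_superset (hU.mem_nhds hp) (Set.subset_preimage_image _ _)

theorem isCompact_E_tube (sh : ℕ → ℝ) (w : List Bool) (s : ℝ) : IsCompact (E sh w '' tube s) := by
  have hL := L_pos w.length
  have hK : IsCompact (Set.Icc (0 : ℝ) (L w.length) ×ˢ (Set.Icc (-s) s ×ˢ Set.Icc (-s) s)) :=
    isCompact_Icc.prod (isCompact_Icc.prod isCompact_Icc)
  have heq : E sh w '' tube s =
      E sh w '' (Set.Icc (0 : ℝ) (L w.length) ×ˢ (Set.Icc (-s) s ×ˢ Set.Icc (-s) s)) := by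
    apply Set.Subset.antisymm
    · rintro _ ⟨p, hp, rfl⟩
      refine ⟨shft ((-⌊p.1 / L w.length⌋ : ℤ) * L w.length) p, ?_, ?_⟩
      · have h1 : (⌊p.1 / L w.length⌋ : ℝ) * L w.length ≤ p.1 := by
          have := Int.floor_le (p.1 / L w.length)
          calc (⌊p.1 / L w.length⌋ : ℝ) * L w.length ≤ (p.1 / L w.length) * L w.length :=
                mul_le_mul_of_nonneg_right this hL.le
            _ = p.1 := by field_simp
        have h2 : p.1 < (⌊p.1 / L w.length⌋ + 1 : ℝ) * L w.length := by
          have := Int.lt_floor_add_one (p.1 / L w.length)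
          calc p.1 = (p.1 / L w.length) * L w.length := by field_simp
            _ < (⌊p.1 / L w.length⌋ + 1 : ℝ) * L w.length := mul_lt_mul_of_pos_right this hL
        refine ⟨⟨?_, ?_⟩, abs_le.1 hp.1, abs_le.1 hp.2⟩
        · show 0 ≤ p.1 + ((-⌊p.1 / L w.length⌋ : ℤ) : ℝ) * L w.length
          push_cast
          linarith
        · show p.1 + ((-⌊p.1 / L w.length⌋ : ℤ) : ℝ) * L w.length ≤ L w.length
          push_cast
          linarith
      · exact E_per sh w _ p
    · rintro _ ⟨p, ⟨_, hp2, hp3⟩, rfl⟩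
      exact ⟨p, ⟨abs_le.2 hp2, abs_le.2 hp3⟩, rfl⟩
  rw [heq]
  exact hK.image (continuous_E sh w)

theorem E_cons_mem {sh : ℕ → ℝ} {i : Bool} {w : List Bool} {p : P3}
    (hp : p ∈ tube (2 * R (w.length + 1))) :
    ∃ q ∈ tube (R w.length / 2), E sh (i :: w) p = E sh w q ∧ q = shft (sh w.length) (bt i w.length p) :=
  ⟨shft (sh w.length) (bt i w.length p), shft_mem_tube.2 (bt_mem hp), rfl, rfl⟩

theorem E_append (sh : ℕ → ℝ) (v u : List Bool) (p : P3) :
    E sh (v ++ u) p = E sh u (Bc sh u.length v p) := by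
  induction v generalizing p with
  | nil => rfl
  | cons i v ih =>
    have hlen : (v ++ u).length = u.length + v.length := by
      rw [List.length_append, add_comm]
    show E sh (v ++ u) (shft (sh (v ++ u).length) (bt i (v ++ u).length p)) =
      E sh u (Bc sh u.length v (shft (sh (u.length + v.length)) (bt i (u.length + v.length) p)))
    rw [hlen, ih]

private theorem c1b_bt_mem {sh : ℕ → ℝ} {i : Bool} {n : ℕ} {p : P3}
    (h : p ∈ tube (2 * R (n + 1))) : shft (sh n) (bt i n p) ∈ tube (2 * R n) := by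
  have := R_pos n
  exact shft_mem_tube.2 (tube_mono (by linarith) (bt_mem h))

theorem Bc_mem {sh : ℕ → ℝ} {m : ℕ} {v : List Bool} {p : P3}
    (hp : p ∈ tube (2 * R (m + v.length))) : Bc sh m v p ∈ tube (2 * R m) := by
  induction v generalizing p with
  | nil => exact hp
  | cons i v ih =>
    have hp' : p ∈ tube (2 * R (m + v.length + 1)) := hp
    exact ih (c1b_bt_mem hp')

theorem e2_Bc_le {sh : ℕ → ℝ} {m : ℕ} {v : List Bool} {p q : P3}
    (hp : p ∈ tube (2 * R (m + v.length))) (hq : q ∈ tube (2 * R (m + v.length))) :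
    e2 (Bc sh m v p) (Bc sh m v q) ≤ e2 p q := by
  induction v generalizing p q with
  | nil => exact le_refl _
  | cons i v ih =>
    have hp' : p ∈ tube (2 * R (m + v.length + 1)) := hp
    have hq' : q ∈ tube (2 * R (m + v.length + 1)) := hq
    have h1 := ih (c1b_bt_mem (sh := sh) (i := i) hp') (c1b_bt_mem (sh := sh) (i := i) hq')
    rw [e2_shft] at h1
    exact h1.trans (e2_bt_le hp' hq')

/-- in the standard picture the parametrisations are equivariant -/
theorem E_rr {w : List Bool} (p : P3) : E (fun _ => 0) w (rr p) = r3 (E (fun _ => 0) w p) := by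
  induction w generalizing p with
  | nil => exact E0_rr _ p
  | cons i w ih =>
    show E (fun _ => 0) w (shft 0 (bt i w.length (rr p))) =
      r3 (E (fun _ => 0) w (shft 0 (bt i w.length p)))
    rw [shft_zero, shft_zero, bt_rr, ← ih]
    cases i with
    | false => simp [shft_zero]
    | true =>
      have h := E_per (fun _ => 0) w 1 (rr (bt true w.length p))
      rw [Int.cast_one, one_mul] at h
      simp only [if_true]
      exact h

theorem E_half {w : List Bool} {p : P3} (hp : p ∈ tube (2 * R w.length)) (h0 : 0 < p.1)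
    (h1 : p.1 < L w.length / 2) : 0 < (E (fun _ => 0) w p).2.2 := by
  induction w generalizing p with
  | nil =>
    have hp' : p ∈ tube (2 * R 0) := hp
    rw [c1b_two_R0] at hp'
    have h1' : p.1 < 2 * π / 2 := h1
    exact E0_pos hp' h0 (by linarith)
  | cons i w ih =>
    have hp' : p ∈ tube (2 * R (w.length + 1)) := hp
    have h1' : p.1 < L (w.length + 1) / 2 := h1
    obtain ⟨h2, h3⟩ := bt_half (i := i) hp' h0 h1'
    show 0 < (E (fun _ => 0) w (shft 0 (bt i w.length p))).2.2
    rw [shft_zero]
    have hm : bt i w.length p ∈ tube (2 * R w.length) := by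
      have := R_pos w.length
      exact tube_mono (by linarith) (bt_mem hp')
    exact ih hm h2 h3

/-- in the standard picture: the points of the upper half space -/
theorem E_half' {w : List Bool} {p : P3} (hp : p ∈ tube (2 * R w.length))
    (h : 0 < (E (fun _ => 0) w p).2.2) :
    ∃ k : ℤ, 0 < (shft (k * L w.length) p).1 ∧ (shft (k * L w.length) p).1 < L w.length / 2 := by
  have hL := L_pos w.length
  set x : ℝ := p.1 / L w.length + 1 / 2 with hx
  refine ⟨-⌊x⌋, ?_⟩
  set p' : P3 := shft ((-⌊x⌋ : ℤ) * L w.length) p with hp'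
  have hE : E (fun _ => 0) w p' = E (fun _ => 0) w p := E_per _ w _ p
  have hmem : p' ∈ tube (2 * R w.length) := shft_mem_tube.2 hp
  have hfst : p'.1 = p.1 - ⌊x⌋ * L w.length := by
    show p.1 + ((-⌊x⌋ : ℤ) : ℝ) * L w.length = _
    push_cast
    ring
  have hxp : p.1 = (x - 1 / 2) * L w.length := by
    rw [hx]; field_simp; ring
  have h1 : -(L w.length / 2) ≤ p'.1 := by
    rw [hfst, hxp]
    nlinarith [mul_le_mul_of_nonneg_right (Int.floor_le x) hL.le]
  have h2 : p'.1 < L w.length / 2 := by
    rw [hfst, hxp]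
    nlinarith [mul_lt_mul_of_pos_right (Int.lt_floor_add_one x) hL]
  rw [← hE] at h
  refine ⟨?_, h2⟩
  by_contra hneg
  rw [not_lt] at hneg
  have hr3 : ∀ y : P3, (r3 y).2.2 = -y.2.2 := fun y => rfl
  have hcontra : 0 ≤ (E (fun _ => 0) w (rr p')).2.2 → False := by
    intro h3
    rw [E_rr, hr3] at h3
    linarith
  rcases hneg.lt_or_eq with hlt | heq0
  · rcases h1.lt_or_eq with hgt | heq1
    · apply hcontra
      have hrr : (rr p').1 = -p'.1 := rfl
      have := E_half (w := w) (p := rr p') (rr_mem_tube.2 hmem) (by rw [hrr]; linarith)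
        (by rw [hrr]; linarith)
      exact this.le
    · apply hcontra
      have h4 : rr p' = shft ((1 : ℤ) * L w.length) p' := by
        show (-p'.1, p'.2) = (p'.1 + ((1 : ℤ) : ℝ) * L w.length, p'.2)
        rw [← heq1]
        congr 1
        push_cast
        ring
      rw [h4, E_per]
      exact h.le
  · apply hcontra
    have h4 : rr p' = p' := by
      show (-p'.1, p'.2) = p'
      rw [heq0, neg_zero, ← heq0]
    rw [h4]
    exact h.le

end Pool.Agent.BI39
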