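import Mathlib

/-!
BI39, row D0: a map on a normed space which is `K`-Lipschitz at every point is `K`-Lipschitz.
On the segment `γ s = x + s (y - x)` let `S` be the set of the `s ∈ [0, 1]` with
`dist (f (γ 0)) (f (γ s)) ≤ K * s * ‖y - x‖`: closed (`f` is continuous at every point) and, with `s`, it
contains `[s, s + ε]`. (`IsClosed.Icc_subset_of_forall_mem_nhdsGT` or a supremum argument.)
-/

set_option autoImplicit false

namespace Pool.Agent.BI39

open Topology

theorem lip_of_local {V F : Type*} [NormedAddCommGroup V] [NormedSpace ℝ V] [PseudoMetricSpace F]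
    (f : V → F) (K : ℝ) (hK : 0 ≤ K) (h : ∀ x, ∀ᶠ y in 𝓝 x, dist (f y) (f x) ≤ K * dist y x) :
    ∀ x y, dist (f x) (f y) ≤ K * dist x y := by
  intro x y
  have hcont : Continuous f := by
    rw [continuous_iff_continuousAt]
    intro a
    rw [ContinuousAt, tendsto_iff_dist_tendsto_zero]
    refine squeeze_zero' (Filter.Eventually.of_forall fun b => dist_nonneg) (h a) ?_
    have h1 : Filter.Tendsto (fun b => K * dist b a) (𝓝 a) (𝓝 (K * dist a a)) :=
      (continuous_const.mul (continuous_id.dist continuous_const)).tendsto a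
    rwa [dist_self, mul_zero] at h1
  let γ : ℝ → V := fun s => x + s • (y - x)
  have hγ : Continuous γ := by
    show Continuous fun s : ℝ => x + s • (y - x)
    fun_prop
  have hγd : ∀ s t : ℝ, dist (γ s) (γ t) = |s - t| * dist x y := by
    intro s t
    show dist (x + s • (y - x)) (x + t • (y - x)) = |s - t| * dist x y
    rw [dist_add_left, dist_eq_norm, ← sub_smul, norm_smul, Real.norm_eq_abs, dist_comm x y,
      dist_eq_norm]
  let S : Set ℝ := {s | dist (f x) (f (γ s)) ≤ K * s * dist x y}
  have hS : IsClosed S := by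
    apply isClosed_le
    · exact continuous_const.dist (hcont.comp hγ)
    · fun_prop
  have hkey : Set.Icc (0 : ℝ) 1 ⊆ S := by
    apply IsClosed.Icc_subset_of_forall_mem_nhdsWithin (a := (0 : ℝ)) (b := 1) (s := S)
    · exact hS.inter isClosed_Icc
    · show dist (f x) (f (x + (0 : ℝ) • (y - x))) ≤ K * 0 * dist x y
      simp
    · rintro s ⟨hs, hs1⟩
      have hev : ∀ᶠ t in 𝓝 s, dist (f (γ t)) (f (γ s)) ≤ K * dist (γ t) (γ s) :=
        (hγ.tendsto s).eventually (h (γ s))
      have hev2 : ∀ᶠ t in 𝓝[>] s, dist (f (γ t)) (f (γ s)) ≤ K * dist (γ t) (γ s) :=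
        hev.filter_mono nhdsWithin_le_nhds
      filter_upwards [hev2, self_mem_nhdsWithin] with t ht hst
      have hst' : s < t := hst
      show dist (f x) (f (γ t)) ≤ K * t * dist x y
      have hs' : dist (f x) (f (γ s)) ≤ K * s * dist x y := hs
      rw [hγd, abs_of_pos (sub_pos.2 hst')] at ht
      calc dist (f x) (f (γ t)) ≤ dist (f x) (f (γ s)) + dist (f (γ s)) (f (γ t)) :=
            dist_triangle _ _ _
        _ ≤ K * s * dist x y + K * ((t - s) * dist x y) := by
            rw [dist_comm (f (γ s))]; exact add_le_add hs' ht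
        _ = K * t * dist x y := by ring
  have h1 : (1 : ℝ) ∈ S := hkey ⟨zero_le_one, le_refl _⟩
  have h2 : dist (f x) (f (x + (1 : ℝ) • (y - x))) ≤ K * 1 * dist x y := h1
  rw [one_smul, add_sub_cancel, mul_one] at h2
  exact h2

end Pool.Agent.BI39
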