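import Mathlib
import Pool.Agent.Lib.BI39.Defs
import Pool.Agent.Lib.BI39.B0
import Pool.Agent.Lib.BI39.C1
import Pool.Agent.Lib.BI39.C1b

/-!
BI39, row D1: the cut-off functions and the sets `KK sh n` (finite unions of compact sets).
-/

set_option autoImplicit false

namespace Pool.Agent.BI39

open Real Topology

theorem chi_nonneg (n : ℕ) (p : P3) : 0 ≤ chi n p := le_max_left _ _

theorem chi_le_one (n : ℕ) (p : P3) : chi n p ≤ 1 := max_le zero_le_one (min_le_left _ _)

theorem chi_of_mem {n : ℕ} {p : P3} (h : p ∈ tube (R n / 2)) : chi n p = 1 := by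
  have hR := R_pos n
  have h1 : max |p.2.1| |p.2.2| ≤ R n / 2 := max_le h.1 h.2
  have h2 : 2 * max |p.2.1| |p.2.2| / R n ≤ 1 := by
    rw [div_le_one hR]
    linarith
  unfold chi
  rw [min_eq_left (by linarith), max_eq_right zero_le_one]

theorem chi_of_not_mem {n : ℕ} {p : P3} (h : p ∉ otube (R n)) : chi n p = 0 := by
  have hR := R_pos n
  have h1 : R n ≤ max |p.2.1| |p.2.2| := by
    by_contra hc
    rw [not_le, max_lt_iff] at hc
    exact h hc
  have h2 : 2 ≤ 2 * max |p.2.1| |p.2.2| / R n := by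
    rw [le_div_iff₀ hR]
    linarith
  unfold chi
  exact max_eq_left ((min_le_right _ _).trans (by linarith))

theorem chi_shft (n : ℕ) (c : ℝ) (p : P3) : chi n (shft c p) = chi n p := rfl

theorem chi_rr (n : ℕ) (p : P3) : chi n (rr p) = chi n p := rfl

private theorem D1_clamp (x y : ℝ) : |max 0 (min 1 x) - max 0 (min 1 y)| ≤ |x - y| := by
  have h1 := abs_max_sub_max_le_max 0 (min 1 x) 0 (min 1 y)
  have h2 := abs_min_sub_min_le_max 1 x 1 y
  rw [sub_self, abs_zero] at h1 h2
  have h3 : |max 0 (min 1 x) - max 0 (min 1 y)| ≤ |min 1 x - min 1 y| :=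
    h1.trans (max_le (abs_nonneg _) le_rfl)
  exact h3.trans (h2.trans (max_le (abs_nonneg _) le_rfl))

theorem chi_lip (n : ℕ) (p q : P3) : |chi n p - chi n q| ≤ 2 / R n * dist p q := by
  have hR := R_pos n
  unfold chi
  refine (D1_clamp _ _).trans ?_
  have e : 2 - 2 * max |p.2.1| |p.2.2| / R n - (2 - 2 * max |q.2.1| |q.2.2| / R n) =
      (2 / R n) * (max |q.2.1| |q.2.2| - max |p.2.1| |p.2.2|) := by ring
  rw [e, abs_mul, abs_of_pos (div_pos two_pos hR)]
  refine mul_le_mul_of_nonneg_left ?_ (div_pos two_pos hR).le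
  refine (abs_max_sub_max_le_max _ _ _ _).trans ?_
  rw [Prod.dist_eq, Prod.dist_eq]
  refine le_trans (max_le_max ?_ ?_) (le_max_right _ _)
  · rw [Real.dist_eq, abs_sub_comm p.2.1]
    exact abs_abs_sub_abs_le_abs_sub _ _
  · rw [Real.dist_eq, abs_sub_comm p.2.2]
    exact abs_abs_sub_abs_le_abs_sub _ _

theorem continuous_sgm (n : ℕ) (c : ℝ) : Continuous (sgm n c) := by
  unfold sgm shft chi
  fun_prop

theorem sgm_mem_tube {n : ℕ} {c s : ℝ} {p : P3} : sgm n c p ∈ tube s ↔ p ∈ tube s :=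
  shft_mem_tube

theorem sgm_sgm (n : ℕ) (c d : ℝ) (p : P3) : sgm n c (sgm n d p) = sgm n (c + d) p := by
  unfold sgm
  rw [chi_shft, shft_shft]
  congr 1
  ring

theorem KK_succ_subset (sh : ℕ → ℝ) (n : ℕ) : KK sh (n + 1) ⊆ KK sh n := by
  rintro x ⟨w, hw, p, hp, rfl⟩
  obtain _ | ⟨i, u⟩ := w
  · simp at hw
  · have hu : u.length = n := by simpa using hw
    subst hu
    have hR := R_pos (u.length + 1)
    obtain ⟨q, hq, he, _⟩ := E_cons_mem (sh := sh) (i := i) (w := u) (p := p)
      (tube_mono (by linarith) hp)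
    refine ⟨u, rfl, q, tube_mono ?_ hq, he.symm⟩
    have := R_pos u.length
    linarith

theorem KK_anti (sh : ℕ → ℝ) {m n : ℕ} (h : m ≤ n) : KK sh n ⊆ KK sh m := by
  induction n, h using Nat.le_induction with
  | base => exact subset_rfl
  | succ k _ ih => exact (KK_succ_subset sh k).trans ih

theorem isClosed_KK (sh : ℕ → ℝ) (n : ℕ) : IsClosed (KK sh n) := by
  have e : KK sh n = ⋃ w ∈ {w : List Bool | w.length = n}, E sh w '' tube (R n) := by
    ext x
    simp only [KK, Set.mem_iUnion, Set.mem_image]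
    constructor
    · rintro ⟨w, hw, p, hp, h⟩
      exact ⟨w, hw, p, hp, h⟩
    · rintro ⟨w, hw, p, hp, h⟩
      exact ⟨w, hw, p, hp, h⟩
  rw [e]
  refine Set.Finite.isClosed_biUnion ?_ fun w _ => (isCompact_E_tube sh w (R n)).isClosed
  exact List.finite_length_eq Bool n

theorem E_mem_KK_iff {sh : ℕ → ℝ} {w : List Bool} {p : P3} (hp : p ∈ tube (2 * R w.length)) :
    E sh w p ∈ KK sh w.length ↔ p ∈ tube (R w.length) := by
  have hR := R_pos w.length
  constructor
  · rintro ⟨w', hw', p', hp', h⟩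
    by_cases hww : w' = w
    · subst hww
      obtain ⟨k, hk⟩ := E_inj (tube_mono (by linarith) hp') hp h
      have h1 := hp'
      rw [hk] at h1
      exact shft_mem_tube.1 h1
    · exfalso
      refine E_disj hw' hww (p := p') (q := p) ?_ ?_ h
      · rw [hw']
        exact tube_mono (by linarith) hp'
      · rw [hw']
        exact hp
  · intro h
    exact ⟨w, rfl, p, h, rfl⟩

end Pool.Agent.BI39
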