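import Mathlib
import Pool.Agent.Lib.BI39.Defs
import Pool.Agent.Lib.BI39.B0
import Pool.Agent.Lib.BI39.C1
import Pool.Agent.Lib.BI39.C1b
import Pool.Agent.Lib.BI39.D1

/-!
BI39, row D1b: the damped rotations `tw sh n c`.

`tw_E`: by choice `tw sh n c (E sh w p) = E sh w' (sgm n c p')` with `E sh w' p' = E sh w p`; `w' = w`
(`E_disj`), `p' = shft (k L) p` (`E_inj`), `sgm n c p' = shft (k L) (sgm n c p)`. If `p` is not in
`tube (R n)` then `E sh w p` is not in `KK sh n` (`E_mem_KK_iff`) and `chi n p = 0`.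
`continuous_tw`: at a point `x` of the open set `E sh w '' otube (2 * R n)` (`isOpen_E_image`) `tw` is
given by `tw_E`, and continuity follows from `E_nhds` (`Tendsto (tw ∘ E w) (𝓝 p)` and
`𝓝 (E w p) ≤ map (E w) (𝓝 p)`); the other points are in the open complement of `KK sh n`.
`tw_mem`: write the address of the tube of stage `m` as `v ++ w` (`E_append`, `Bc_mem`, `E_disj`).
-/

set_option autoImplicit false

namespace Pool.Agent.BI39

open Real Topology

private theorem d1b_sgm_shft (n : ℕ) (c k : ℝ) (p : P3) :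
    sgm n c (shft k p) = shft k (sgm n c p) := by
  unfold sgm
  rw [chi_shft, shft_shft, shft_shft, add_comm]

private theorem d1b_tube (n : ℕ) : tube (R n) ⊆ tube (2 * R n) :=
  tube_mono (by linarith [R_pos n])

private theorem d1b_unique {sh : ℕ → ℝ} {w w' : List Bool} (hl : w.length = w'.length) (c : ℝ)
    {p p' : P3} (hp : p ∈ tube (2 * R w.length)) (hp' : p' ∈ tube (2 * R w.length))
    (h : E sh w p = E sh w' p') :
    E sh w (sgm w.length c p) = E sh w' (sgm w.length c p') := by
  by_cases hw : w = w'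
  · subst hw
    obtain ⟨k, hk⟩ := E_inj hp hp' h
    rw [hk, d1b_sgm_shft, E_per]
  · exact absurd h (E_disj hl hw hp hp')

theorem tw_E {sh : ℕ → ℝ} {w : List Bool} (c : ℝ) {p : P3} (hp : p ∈ tube (2 * R w.length)) :
    tw sh w.length c (E sh w p) = E sh w (sgm w.length c p) := by
  unfold tw
  split_ifs with h
  · have h1 := h.choose_spec.1
    have h2 := h.choose_spec.2.choose_spec
    exact (d1b_unique h1.symm c hp (d1b_tube _ h2.1) h2.2.symm).symm
  · have h1 : p ∉ tube (R w.length) := fun hp' => h ⟨w, rfl, p, hp', rfl⟩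
    have h2 : p ∉ otube (R w.length) := fun h' => h1 (otube_subset _ h')
    unfold sgm
    rw [chi_of_not_mem h2, mul_zero, shft_zero]

theorem tw_of_not_mem {sh : ℕ → ℝ} {n : ℕ} (c : ℝ) {x : P3} (hx : x ∉ KK sh n) :
    tw sh n c x = x := by
  unfold tw
  exact dif_neg hx

theorem tw_tw (sh : ℕ → ℝ) (n : ℕ) (c d : ℝ) (x : P3) :
    tw sh n c (tw sh n d x) = tw sh n (c + d) x := by
  by_cases hx : x ∈ KK sh n
  · obtain ⟨w, rfl, p, hp, rfl⟩ := hx
    have hp2 := d1b_tube _ hp
    rw [tw_E d hp2, tw_E c (sgm_mem_tube.2 hp2), tw_E (c + d) hp2, sgm_sgm]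
  · rw [tw_of_not_mem d hx, tw_of_not_mem c hx, tw_of_not_mem (c + d) hx]

theorem tw_zero (sh : ℕ → ℝ) (n : ℕ) (x : P3) : tw sh n 0 x = x := by
  by_cases hx : x ∈ KK sh n
  · obtain ⟨w, rfl, p, hp, rfl⟩ := hx
    have hp2 := d1b_tube _ hp
    rw [tw_E 0 hp2]
    unfold sgm
    rw [zero_mul, shft_zero]
  · exact tw_of_not_mem 0 hx

theorem continuous_tw (sh : ℕ → ℝ) (n : ℕ) (c : ℝ) : Continuous (tw sh n c) := by
  rw [continuous_iff_continuousAt]
  intro x
  by_cases hx : x ∈ KK sh n
  · obtain ⟨w, rfl, p, hp, rfl⟩ := hx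
    have hpo : p ∈ otube (2 * R w.length) :=
      tube_subset_otube (by linarith [R_pos w.length]) hp
    have h1 : Filter.Tendsto (E sh w ∘ sgm w.length c) (𝓝 p) (𝓝 (E sh w (sgm w.length c p))) :=
      ((continuous_E sh w).comp (continuous_sgm w.length c)).continuousAt
    have h2 : (E sh w ∘ sgm w.length c) =ᶠ[𝓝 p] (tw sh w.length c ∘ E sh w) := by
      filter_upwards [(isOpen_otube _).mem_nhds hpo] with q hq
      exact (tw_E c (otube_subset _ hq)).symm
    have h3 : Filter.Tendsto (tw sh w.length c) (Filter.map (E sh w) (𝓝 p))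
        (𝓝 (E sh w (sgm w.length c p))) := by
      rw [Filter.tendsto_map'_iff]
      exact h1.congr' h2
    unfold ContinuousAt
    rw [tw_E c (otube_subset _ hpo)]
    exact h3.mono_left (E_nhds hpo)
  · have h1 : (fun y : P3 => y) =ᶠ[𝓝 x] tw sh n c := by
      filter_upwards [(isClosed_KK sh n).isOpen_compl.mem_nhds hx] with y hy
      exact (tw_of_not_mem c hy).symm
    exact continuousAt_id.congr h1

/-- the damped rotations of stage `m ≥ n` preserve every tube of stage `n` -/
theorem tw_mem {sh : ℕ → ℝ} {w : List Bool} {m : ℕ} (h : w.length ≤ m) (c : ℝ) {x : P3}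
    (hx : x ∈ E sh w '' tube (R w.length)) : tw sh m c x ∈ E sh w '' tube (R w.length) := by
  by_cases hxm : x ∈ KK sh m
  · obtain ⟨u, rfl, p, hp, hpx⟩ := hxm
    obtain ⟨v, w', rfl, hlen⟩ : ∃ v w' : List Bool, u = v ++ w' ∧ w'.length = w.length :=
      ⟨u.take (u.length - w.length), u.drop (u.length - w.length),
        (List.take_append_drop _ _).symm, by rw [List.length_drop]; omega⟩
    have hp2 := d1b_tube _ hp
    have hp3 : p ∈ tube (2 * R (w'.length + v.length)) := by
      rw [List.length_append, add_comm] at hp2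
      exact hp2
    obtain ⟨q0, hq0, hq0x⟩ := hx
    have hww : w = w' := by
      by_contra hne
      have h1 : E sh w q0 = E sh w' (Bc sh w'.length v p) := by
        rw [hq0x, ← hpx, E_append]
      refine E_disj hlen.symm hne (d1b_tube _ hq0) ?_ h1
      rw [← hlen]
      exact Bc_mem hp3
    subst hww
    have hs : sgm (v ++ w).length c p ∈ tube (R (v ++ w).length) := sgm_mem_tube.2 hp
    have hs3 : sgm (v ++ w).length c p ∈ tube (2 * R (w.length + v.length)) := by
      have h2 := d1b_tube _ hs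
      have h3 : (v ++ w).length = w.length + v.length := by
        rw [List.length_append, add_comm]
      have h4 : R (v ++ w).length = R (w.length + v.length) := by rw [h3]
      rw [h4] at h2
      exact h2
    have hB := Bc_mem (sh := sh) hs3
    have hk : E sh (v ++ w) (sgm (v ++ w).length c p) ∈ KK sh w.length :=
      KK_anti sh h ⟨v ++ w, rfl, _, hs, rfl⟩
    rw [E_append, E_mem_KK_iff hB] at hk
    rw [← hpx, tw_E c hp2, E_append]
    exact ⟨_, hk, rfl⟩
  · rw [tw_of_not_mem c hxm]
    exact hx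

theorem tw_mem_KK_iff {sh : ℕ → ℝ} {n m : ℕ} (h : n ≤ m) (c : ℝ) {x : P3} :
    tw sh m c x ∈ KK sh n ↔ x ∈ KK sh n := by
  have key : ∀ (d : ℝ) (y : P3), y ∈ KK sh n → tw sh m d y ∈ KK sh n := by
    rintro d y ⟨w, rfl, p, hp, rfl⟩
    obtain ⟨q, hq, hqx⟩ := tw_mem h d (Set.mem_image_of_mem (E sh w) hp)
    exact ⟨w, rfl, q, hq, hqx⟩
  constructor
  · intro hx
    have h1 := key (-c) _ hx
    rw [tw_tw, neg_add_cancel, tw_zero] at h1
    exact h1
  · exact key c x

end Pool.Agent.BI39
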