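import Mathlib
import Pool.Agent.Lib.BI39.Defs
import Pool.Agent.Lib.BI39.B0
import Pool.Agent.Lib.BI39.C1
import Pool.Agent.Lib.BI39.C1b
import Pool.Agent.Lib.BI39.D1
import Pool.Agent.Lib.BI39.D1b

/-!
BI39, row D2: the maps `th`, `thi`, `Jn`.

`th_E`, by induction: `th (n + 1) (E sh (i :: w) p) = th n (tw n (-sh n) (E sh w (shft (sh n) (bt i n p))))`
and `chi n (bt i n p) = 1` (`bt_mem`), so this is `th n (E sh w (bt i n p)) = E 0 w (bt i n p)`.
`Jn_E`: `th_E`, `E_rr`. `Jn_succ`: `Jn sh (n + 1) = tw n (sh n) ∘ Jn n ∘ tw n (-sh n)`.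
-/

set_option autoImplicit false

namespace Pool.Agent.BI39

open Real Topology

theorem continuous_th (sh : ℕ → ℝ) (n : ℕ) : Continuous (th sh n) := by
  induction n with
  | zero => exact continuous_id
  | succ n ih => exact ih.comp (continuous_tw sh n (-sh n))

theorem continuous_thi (sh : ℕ → ℝ) (n : ℕ) : Continuous (thi sh n) := by
  induction n with
  | zero => exact continuous_id
  | succ n ih => exact (continuous_tw sh n (sh n)).comp ih

theorem thi_th (sh : ℕ → ℝ) (n : ℕ) (x : P3) : thi sh n (th sh n x) = x := by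
  induction n generalizing x with
  | zero => rfl
  | succ n ih =>
    change tw sh n (sh n) (thi sh n (th sh n (tw sh n (-sh n) x))) = x
    rw [ih, tw_tw, add_neg_cancel, tw_zero]

theorem th_thi (sh : ℕ → ℝ) (n : ℕ) (x : P3) : th sh n (thi sh n x) = x := by
  induction n generalizing x with
  | zero => rfl
  | succ n ih =>
    change th sh n (tw sh n (-sh n) (tw sh n (sh n) (thi sh n x))) = x
    rw [tw_tw, neg_add_cancel, tw_zero, ih]

theorem th_E {sh : ℕ → ℝ} {w : List Bool} {p : P3} (hp : p ∈ tube (2 * R w.length)) :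
    th sh w.length (E sh w p) = E (fun _ => 0) w p := by
  induction w generalizing p with
  | nil => rfl
  | cons i w ih =>
    obtain ⟨q, hq, h1, h2⟩ := E_cons_mem (sh := sh) (i := i) (w := w) (p := p) hp
    have hR := R_pos w.length
    have hq' : q ∈ tube (2 * R w.length) := tube_mono (by linarith) hq
    have h3 : shft (-sh w.length) q = bt i w.length p := by
      rw [h2, shft_shft, neg_add_cancel, shft_zero]
    have h4 : bt i w.length p ∈ tube (2 * R w.length) := by
      rw [← h3, shft_mem_tube]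
      exact hq'
    change th sh w.length (tw sh w.length (-sh w.length) (E sh (i :: w) p)) =
      E (fun _ => 0) w (shft 0 (bt i w.length p))
    rw [h1, tw_E _ hq', sgm, chi_of_mem hq, mul_one, h3, ih h4, shft_zero]

theorem th_stable {sh : ℕ → ℝ} {n m : ℕ} (h : n ≤ m) {x : P3} (hx : x ∉ KK sh n) :
    th sh m x = th sh n x := by
  induction m, h using Nat.le_induction with
  | base => rfl
  | succ m hm ih =>
    change th sh m (tw sh m (-sh m) x) = th sh n x
    rw [tw_of_not_mem _ fun h => hx (KK_anti sh hm h), ih]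

theorem th_mem_KK_iff {sh : ℕ → ℝ} {n m : ℕ} (h : n ≤ m) {x : P3} :
    th sh m x ∈ KK (fun _ => 0) n ↔ x ∈ KK sh n := by
  induction m, h using Nat.le_induction generalizing x with
  | base =>
    constructor
    · rintro ⟨w, rfl, p, hp, h1⟩
      have hp' : p ∈ tube (2 * R w.length) := tube_mono (by linarith [R_pos w.length]) hp
      refine ⟨w, rfl, p, hp, ?_⟩
      rw [← th_E (sh := sh) hp'] at h1
      rw [← thi_th sh w.length (E sh w p), h1, thi_th]
    · rintro ⟨w, rfl, p, hp, rfl⟩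
      have hp' : p ∈ tube (2 * R w.length) := tube_mono (by linarith [R_pos w.length]) hp
      exact ⟨w, rfl, p, hp, (th_E hp').symm⟩
  | succ m hm ih =>
    change th sh m (tw sh m (-sh m) x) ∈ _ ↔ _
    rw [ih, tw_mem_KK_iff hm]

theorem continuous_Jn (sh : ℕ → ℝ) (n : ℕ) : Continuous (Jn sh n) := (continuous_thi sh n).comp (continuous_r3.comp (continuous_th sh n))

theorem Jn_zero (sh : ℕ → ℝ) (x : P3) : Jn sh 0 x = r3 x := rfl

theorem Jn_Jn (sh : ℕ → ℝ) (n : ℕ) (x : P3) : Jn sh n (Jn sh n x) = x := by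
  rw [Jn, Jn, th_thi, r3_r3, thi_th]

theorem Jn_E {sh : ℕ → ℝ} {w : List Bool} {p : P3} (hp : p ∈ tube (2 * R w.length)) :
    Jn sh w.length (E sh w p) = E sh w (rr p) := by
  have hp' : rr p ∈ tube (2 * R w.length) := rr_mem_tube.2 hp
  rw [Jn, th_E hp, ← E_rr, ← th_E (sh := sh) hp', thi_th]

theorem Jn_succ_E {sh : ℕ → ℝ} {w : List Bool} {p : P3} (hp : p ∈ tube (2 * R w.length)) :
    Jn sh (w.length + 1) (E sh w p) =
      E sh w (shft (2 * sh w.length * chi w.length p) (rr p)) := by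
  have h1 : sgm w.length (-sh w.length) p ∈ tube (2 * R w.length) := sgm_mem_tube.2 hp
  have h2 : rr (sgm w.length (-sh w.length) p) ∈ tube (2 * R w.length) := rr_mem_tube.2 h1
  change tw sh w.length (sh w.length) (Jn sh w.length (tw sh w.length (-sh w.length) (E sh w p))) =
    _
  rw [tw_E _ hp, Jn_E h1, tw_E _ h2]
  congr 1
  rw [sgm, sgm, rr_shft, chi_shft, chi_rr, shft_shft]
  congr 1
  ring

theorem Jn_mem_KK_iff {sh : ℕ → ℝ} {n m : ℕ} (h : n ≤ m) {x : P3} :
    Jn sh m x ∈ KK sh n ↔ x ∈ KK sh n := by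
  have h1 : ∀ z : P3, z ∈ KK (fun _ => 0) n → r3 z ∈ KK (fun _ => 0) n := by
    rintro _ ⟨w, rfl, p, hp, rfl⟩
    exact ⟨w, rfl, rr p, rr_mem_tube.2 hp, E_rr p⟩
  rw [← th_mem_KK_iff h, Jn, th_thi, ← th_mem_KK_iff (x := x) h]
  constructor
  · intro h2
    have h3 := h1 _ h2
    rwa [r3_r3] at h3
  · exact h1 _

theorem Jn_stable {sh : ℕ → ℝ} {n m : ℕ} (h : n ≤ m) {x : P3} (hx : x ∉ KK sh n) :
    Jn sh m x = Jn sh n x := by
  have h1 : ∀ z : P3, z ∈ KK (fun _ => 0) n → r3 z ∈ KK (fun _ => 0) n := by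
    rintro _ ⟨w, rfl, p, hp, rfl⟩
    exact ⟨w, rfl, rr p, rr_mem_tube.2 hp, E_rr p⟩
  have h2 : thi sh n (r3 (th sh n x)) ∉ KK sh n := by
    intro h3
    rw [← th_mem_KK_iff le_rfl, th_thi] at h3
    have h4 := h1 _ h3
    rw [r3_r3, th_mem_KK_iff le_rfl] at h4
    exact hx h4
  have h3 := th_stable h h2
  rw [th_thi] at h3
  rw [Jn, Jn, th_stable h hx]
  exact (congrArg (thi sh m) h3.symm).trans (thi_th sh m _)

theorem Jn_mem {sh : ℕ → ℝ} {w : List Bool} {m : ℕ} (h : w.length ≤ m) {x : P3}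
    (hx : x ∈ E sh w '' tube (R w.length)) : Jn sh m x ∈ E sh w '' tube (R w.length) := by
  induction m, h using Nat.le_induction generalizing x with
  | base =>
    obtain ⟨p, hp, rfl⟩ := hx
    have hp' : p ∈ tube (2 * R w.length) := tube_mono (by linarith [R_pos w.length]) hp
    exact ⟨rr p, rr_mem_tube.2 hp, (Jn_E hp').symm⟩
  | succ m hm ih =>
    change tw sh m (sh m) (Jn sh m (tw sh m (-sh m) x)) ∈ _
    exact tw_mem hm _ (ih (tw_mem hm _ hx))

end Pool.Agent.BI39
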