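import Mathlib
import Pool.Agent.Lib.BI39.Defs
import Pool.Agent.Lib.BI39.B0
import Pool.Agent.Lib.BI39.C1
import Pool.Agent.Lib.BI39.D0
import Pool.Agent.Lib.BI39.C1b
import Pool.Agent.Lib.BI39.D1
import Pool.Agent.Lib.BI39.D1b
import Pool.Agent.Lib.BI39.D2

/-!
BI39, row D3: `Jn sh n` is Lipschitz with constant `Λ ^ (n + 1)`.

Induction on `n` with `lip_of_local`; `Λ = 10 ^ 5` is enough. `Jn sh 0 = r3` is an isometry. Let `K` be the
constant for `n`, `x` a point. If `x ∉ KK sh n` then `Jn (n + 1) = Jn n` near `x` (`Jn_stable`, `KK` closed).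
If `x = E sh w p`, `p ∈ tube (R n)`: let `y` be near `x`. The set `E sh w '' otube (2 * R n)` is open, so
`y = E sh w q` with `q ∈ otube (2 * R n)`; by `E_inv` we may take
`dist p q ≤ 100 ^ (n + 1) * dist x y` (replace `q` by `shft (k L) q`), and by `Jn_succ_E`
`dist (Jn (n + 1) x) (Jn (n + 1) y) ≤ 4 * dist (shft (2 sh χ p) (rr p)) (shft (2 sh χ q) (rr q))
≤ 4 * (1 + 2 * 2 * (2 / R n)) * dist p q` (`E_dist'`, `chi_lip`).
-/

set_option autoImplicit false

namespace Pool.Agent.BI39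

open Real Topology

private theorem D3_dist_rr (p q : P3) : dist (rr p) (rr q) = dist p q := by
  show dist ((-p.1, p.2) : P3) (-q.1, q.2) = dist p q
  rw [Prod.dist_eq]
  show max (dist (-p.1) (-q.1)) (dist p.2 q.2) = _
  rw [dist_neg_neg]
  rfl

private theorem D3_dist_shft (a b : ℝ) (z : P3) : dist (shft a z) (shft b z) = |a - b| := by
  show dist ((z.1 + a, z.2) : P3) (z.1 + b, z.2) = _
  rw [Prod.dist_eq]
  show max (dist (z.1 + a) (z.1 + b)) (dist z.2 z.2) = _
  rw [dist_self, dist_add_left, Real.dist_eq, max_eq_left (abs_nonneg _)]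

private theorem D3_E {sh : ℕ → ℝ} (hsh : ∀ n, |sh n| ≤ 2) {w : List Bool} {p q : P3}
    (hp : p ∈ tube (2 * R w.length)) (hq : q ∈ tube (2 * R w.length)) :
    dist (Jn sh (w.length + 1) (E sh w p)) (Jn sh (w.length + 1) (E sh w q)) ≤
      4 * ((1 + 8 / R w.length) * dist p q) := by
  rw [Jn_succ_E hp, Jn_succ_E hq]
  have hR := R_pos w.length
  refine (E_dist' (shft_mem_tube.2 (rr_mem_tube.2 hp)) (shft_mem_tube.2 (rr_mem_tube.2 hq))).trans ?_
  refine mul_le_mul_of_nonneg_left ?_ (by norm_num)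
  refine (dist_triangle _ (shft (2 * sh w.length * chi w.length p) (rr q)) _).trans ?_
  rw [dist_shft, D3_dist_rr, D3_dist_shft]
  have h1 : |2 * sh w.length * chi w.length p - 2 * sh w.length * chi w.length q| ≤
      4 * (2 / R w.length * dist p q) := by
    have e : 2 * sh w.length * chi w.length p - 2 * sh w.length * chi w.length q =
        2 * sh w.length * (chi w.length p - chi w.length q) := by ring
    rw [e, abs_mul, abs_mul, abs_two]
    have h2 := chi_lip w.length p q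
    have h3 := hsh w.length
    have h4 : 2 * |sh w.length| ≤ 4 := by linarith
    exact mul_le_mul h4 h2 (abs_nonneg _) (by norm_num)
  have e2 : (1 + 8 / R w.length) * dist p q = dist p q + 4 * (2 / R w.length * dist p q) := by
    ring
  rw [e2]
  linarith

private theorem D3_const (n : ℕ) :
    4 * ((1 + 8 / R n) * 100 ^ (n + 1)) ≤ (10 ^ 4 : ℝ) ^ (n + 1 + 1) := by
  have h8 : 8 / R n = 80 * 40 ^ n := by
    unfold R
    rw [one_div_pow]
    have : (40 : ℝ) ^ n ≠ 0 := by positivity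
    field_simp
    ring
  rw [h8]
  have h1 : (1 : ℝ) ≤ 40 ^ n := one_le_pow₀ (by norm_num)
  have h2 : (1 + 80 * 40 ^ n : ℝ) ≤ 81 * 40 ^ n := by linarith
  have h3 : (4 * ((81 * 40 ^ n) * 100 ^ (n + 1)) : ℝ) = 32400 * 4000 ^ n := by
    have : (4000 : ℝ) ^ n = 40 ^ n * 100 ^ n := by rw [← mul_pow]; norm_num
    rw [this, pow_succ]
    ring
  have h4 : ((10 ^ 4 : ℝ)) ^ (n + 1 + 1) = 10 ^ 8 * (10 ^ 4) ^ n := by
    rw [pow_succ, pow_succ]
    ring
  have h5 : (4000 : ℝ) ^ n ≤ (10 ^ 4) ^ n := pow_le_pow_left₀ (by norm_num) (by norm_num) n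
  have h6 : (0 : ℝ) ≤ 4000 ^ n := by positivity
  calc 4 * ((1 + 80 * 40 ^ n) * 100 ^ (n + 1)) ≤ (4 * ((81 * 40 ^ n) * 100 ^ (n + 1)) : ℝ) := by
        refine mul_le_mul_of_nonneg_left ?_ (by norm_num)
        exact mul_le_mul_of_nonneg_right h2 (by positivity)
    _ = 32400 * 4000 ^ n := h3
    _ ≤ 10 ^ 8 * (10 ^ 4) ^ n := by nlinarith
    _ = (10 ^ 4) ^ (n + 1 + 1) := h4.symm

private theorem D3_local {sh : ℕ → ℝ} (hsh : ∀ n, |sh n| ≤ 2) (w : List Bool) {p : P3}
    (hp : p ∈ tube (R w.length)) :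
    ∀ᶠ y in 𝓝 (E sh w p), dist (Jn sh (w.length + 1) y) (Jn sh (w.length + 1) (E sh w p)) ≤
      (10 ^ 4 : ℝ) ^ (w.length + 1 + 1) * dist y (E sh w p) := by
  have hR := R_pos w.length
  have hO : IsOpen (E sh w '' otube (2 * R w.length)) := isOpen_E_image (isOpen_otube _) subset_rfl
  have hpO : p ∈ otube (2 * R w.length) := tube_subset_otube (by linarith) hp
  have hpt : p ∈ tube (2 * R w.length) := tube_mono (by linarith) hp
  filter_upwards [hO.mem_nhds ⟨p, hpO, rfl⟩,
    Metric.ball_mem_nhds (E sh w p) (show (0 : ℝ) < (1 / 4000) ^ (w.length + 1) by positivity)]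
    with y hy1 hy2
  obtain ⟨q, hq, rfl⟩ := hy1
  have hqt : q ∈ tube (2 * R w.length) := otube_subset _ hq
  have hd : dist (E sh w p) (E sh w q) < (1 / 4000) ^ (w.length + 1) := by
    rw [dist_comm]
    exact hy2
  obtain ⟨k, hk⟩ := E_inv hpt hqt hd
  have hq't : shft (k * L w.length) q ∈ tube (2 * R w.length) := shft_mem_tube.2 hqt
  have h1 := D3_E hsh hpt hq't
  rw [E_per] at h1
  rw [dist_comm, dist_comm (E sh w q)]
  refine h1.trans ?_
  have h2 := D3_const w.length
  have h3 : 0 ≤ 1 + 8 / R w.length := by positivity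
  calc 4 * ((1 + 8 / R w.length) * dist p (shft (k * L w.length) q))
      ≤ 4 * ((1 + 8 / R w.length) * (100 ^ (w.length + 1) * dist (E sh w p) (E sh w q))) := by
        refine mul_le_mul_of_nonneg_left ?_ (by norm_num)
        exact mul_le_mul_of_nonneg_left hk h3
    _ = (4 * ((1 + 8 / R w.length) * 100 ^ (w.length + 1))) * dist (E sh w p) (E sh w q) := by ring
    _ ≤ _ := mul_le_mul_of_nonneg_right h2 dist_nonneg

theorem Jn_lip {sh : ℕ → ℝ} (hsh : ∀ n, |sh n| ≤ 2) :
    ∃ Λ : ℝ, 1 ≤ Λ ∧ ∀ n x y, dist (Jn sh n x) (Jn sh n y) ≤ Λ ^ (n + 1) * dist x y := by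
  refine ⟨10 ^ 4, by norm_num, fun n => ?_⟩
  induction n with
  | zero =>
    intro x y
    rw [Jn_zero, Jn_zero, dist_r3]
    have := dist_nonneg (x := x) (y := y)
    norm_num
    linarith
  | succ n ih =>
    refine lip_of_local _ _ (by positivity) fun x => ?_
    by_cases hx : x ∈ KK sh n
    · obtain ⟨w, hw, p, hp, rfl⟩ := hx
      subst hw
      exact D3_local hsh w hp
    · filter_upwards [(isClosed_KK sh n).isOpen_compl.mem_nhds hx] with y hy
      rw [Jn_stable (Nat.le_succ n) hx, Jn_stable (Nat.le_succ n) hy]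
      refine (ih y x).trans ?_
      refine mul_le_mul_of_nonneg_right ?_ dist_nonneg
      exact pow_le_pow_right₀ (by norm_num) (Nat.le_succ _)

end Pool.Agent.BI39
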