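import Mathlib
import Pool.Agent.Lib.BI39.Defs
import Pool.Agent.Lib.BI39.A1

/-!
BI39, row F1: the ruler sequence and the folding maps.

`ruler`, induction on `k`. `k = 0`: `v = [i]`, `Fo m [i] y = rs m + (± 1) * fd y`, `c = 0`.
`k + 1`: `v = v₁ ++ v₂` with both lengths `2 ^ k` (`Fo_append`:
`Fo m (v₁ ++ v₂) y = Fo m v₂ (Fo (m + 2 ^ k) v₁ y)`). By induction for `v₁` (at `m + 2 ^ k`) and `v₂`
`Fo m v y = rs m + c₂ + ε₂ 2^{-k} fd (2 ^ k (rs (m + 2 ^ k) + c₁) + ε₁ fd (2 ^ k y))`. As `2 ^ (k + 1) ∣ m`,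
`padicValNat 2 (m + 2 ^ k) = k` and `2 ^ k * rs (m + 2 ^ k) = 1 / 4`; `2 ^ k * c₁` is half an integer.
`fd_quarter` (A1) gives `rs m + c₂ + ε₂ 2^{-k} (1 / 4 + ε' fd (2 ^ (k + 1) y) / 2)`. Put
`c = c₂ + ε₂ 2^{-k} / 4`; `2 ^ (k + 2) * c = 2 * (2 ^ (k + 1) * c₂) + ε₂`.
(Checked numerically.)
-/

set_option autoImplicit false

namespace Pool.Agent.BI39

theorem Fo_append (m : ℕ) (v u : List Bool) (y : ℝ) :
    Fo m (v ++ u) y = Fo m u (Fo (m + u.length) v y) := by
  induction v generalizing y with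
  | nil => rfl
  | cons i v ih =>
    show Fo m (v ++ u) (rs (m + (v ++ u).length) + (if i then -1 else 1) * fd y) =
      Fo m u (Fo (m + u.length) v (rs (m + u.length + v.length) + (if i then -1 else 1) * fd y))
    rw [ih, List.length_append]
    have h1 : m + (v.length + u.length) = m + u.length + v.length := by omega
    rw [h1]

theorem Fo_lip (m : ℕ) (v : List Bool) (y y' : ℝ) : |Fo m v y - Fo m v y'| ≤ |y - y'| := by
  induction v generalizing y y' with
  | nil => exact le_rfl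
  | cons i v ih =>
    show |Fo m v (rs (m + v.length) + (if i then -1 else 1) * fd y) -
      Fo m v (rs (m + v.length) + (if i then -1 else 1) * fd y')| ≤ _
    refine (ih _ _).trans (le_trans (le_of_eq ?_) (fd_lip y y'))
    cases i
    · simp
    · simp only [if_true]
      rw [show rs (m + v.length) + -1 * fd y - (rs (m + v.length) + -1 * fd y') =
        -(fd y - fd y') by ring, abs_neg]

theorem Fo_add_int (m : ℕ) (v : List Bool) (y : ℝ) (j : ℤ) :
    ∃ j' : ℤ, Fo m v (y + j) = Fo m v y + j' := by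
  cases v with
  | nil => exact ⟨j, rfl⟩
  | cons i v =>
    refine ⟨0, ?_⟩
    show Fo m v (rs (m + v.length) + (if i then -1 else 1) * fd (y + j)) =
      Fo m v (rs (m + v.length) + (if i then -1 else 1) * fd y) + ((0 : ℤ) : ℝ)
    rw [fd_add_int]
    simp

theorem rs_nonneg (n : ℕ) : 0 ≤ rs n := by
  unfold rs
  split_ifs
  · exact le_rfl
  · positivity

theorem rs_le (n : ℕ) : rs n ≤ 1 / 4 := by
  unfold rs
  split_ifs
  · norm_num
  · rw [pow_add]
    have h1 : ((1 : ℝ) / 2) ^ padicValNat 2 n ≤ 1 := pow_le_one₀ (by norm_num) (by norm_num)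
    nlinarith

theorem rs_add_pow {k m : ℕ} (h : 2 ^ (k + 1) ∣ m) : 2 ^ k * rs (m + 2 ^ k) = 1 / 4 := by
  obtain ⟨j, rfl⟩ := h
  have h1 : 2 ^ (k + 1) * j + 2 ^ k = 2 ^ k * (2 * j + 1) := by ring
  have h2 : (2 : ℕ) ^ k ≠ 0 := by positivity
  have h3 : padicValNat 2 (2 ^ k * (2 * j + 1)) = k := by
    rw [padicValNat.mul h2 (by omega), padicValNat.prime_pow,
      padicValNat.eq_zero_of_not_dvd (by omega), add_zero]
  unfold rs
  rw [h1, if_neg (Nat.mul_ne_zero h2 (by omega)), h3, pow_add]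
  have h4 : (2 : ℝ) ^ k * (1 / 2) ^ k = 1 := by
    rw [← mul_pow]
    norm_num
  rw [← mul_assoc, h4]
  norm_num

theorem ruler (k m : ℕ) (v : List Bool) (hv : v.length = 2 ^ k) (hm : 2 ^ k ∣ m) :
    ∃ c ε : ℝ, (ε = 1 ∨ ε = -1) ∧ (∃ j : ℤ, 2 ^ (k + 1) * c = j) ∧
      ∀ y, Fo m v y = rs m + c + ε * (fd (2 ^ k * y) / 2 ^ k) := by
  have hd : ∀ (k : ℕ) (v : List Bool), v.length = 2 ^ k → ∀ m : ℕ, (2 ^ k ∣ m) →
      ∃ c ε : ℝ, (ε = 1 ∨ ε = -1) ∧ (∃ j : ℤ, 2 ^ (k + 1) * c = j) ∧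
      ∀ y, Fo m v y = rs m + c + ε * (fd (2 ^ k * y) / 2 ^ k) := by
    intro k
    induction k with
    | zero =>
      intro v hv m _
      obtain ⟨i, rfl⟩ : ∃ i, v = [i] := List.length_eq_one_iff.1 (by simpa using hv)
      refine ⟨0, if i then -1 else 1, ?_, ⟨0, by simp⟩, fun y => ?_⟩
      · cases i
        · left
          simp
        · right
          simp
      · show rs (m + 0) + (if i then -1 else 1) * fd y = _
        simp
    | succ k ih =>
      intro v hv m hm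
      have e1 : (v.take (2 ^ k)).length = 2 ^ k := by
        rw [List.length_take, hv, pow_succ]
        omega
      have e2 : (v.drop (2 ^ k)).length = 2 ^ k := by
        rw [List.length_drop, hv, pow_succ]
        omega
      have hm1 : 2 ^ k ∣ m := (pow_dvd_pow 2 (Nat.le_succ k)).trans hm
      obtain ⟨c1, ε1, hε1, ⟨j1, hj1⟩, h1⟩ := ih _ e1 (m + 2 ^ k) (Dvd.dvd.add hm1 dvd_rfl)
      obtain ⟨c2, ε2, hε2, ⟨j2, hj2⟩, h2⟩ := ih _ e2 m hm1
      obtain ⟨ε', hε', h3⟩ := fd_quarter j1 ε1 hε1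
      have hk : (2 : ℝ) ^ k ≠ 0 := by positivity
      have hint : ∃ j : ℤ, (j : ℝ) = ε2 := by
        rcases hε2 with h | h
        · exact ⟨1, by rw [h]; norm_num⟩
        · exact ⟨-1, by rw [h]; norm_num⟩
      obtain ⟨j, hj⟩ := hint
      refine ⟨c2 + ε2 / (4 * 2 ^ k), ε2 * ε', ?_, ⟨2 * j2 + j, ?_⟩, fun y => ?_⟩
      · rcases hε2 with h | h <;> rcases hε' with h' | h' <;> rw [h, h'] <;> norm_num
      · push_cast
        rw [← hj2, hj]
        rw [pow_succ, pow_succ]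
        field_simp
        ring
      · have e3 : v = v.take (2 ^ k) ++ v.drop (2 ^ k) := (List.take_append_drop _ _).symm
        have e4 : Fo m v y = Fo m (v.drop (2 ^ k)) (Fo (m + 2 ^ k) (v.take (2 ^ k)) y) := by
          conv_lhs => rw [e3]
          rw [Fo_append, e2]
        rw [e4, h1, h2]
        have e5 : 2 ^ k * (rs (m + 2 ^ k) + c1 + ε1 * (fd (2 ^ k * y) / 2 ^ k)) =
            1 / 4 + j1 / 2 + ε1 * fd (2 ^ k * y) := by
          rw [← hj1, ← rs_add_pow hm, pow_succ]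
          field_simp
        rw [e5, h3]
        have e6 : 2 * (2 ^ k * y) = 2 ^ (k + 1) * y := by
          rw [pow_succ]
          ring
        rw [e6, pow_succ]
        field_simp
        ring
  exact hd k v hv m hm

end Pool.Agent.BI39
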