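import Mathlib
import Pool.Agent.Lib.BI39.Defs
import Pool.Agent.Lib.BI39.A1
import Pool.Agent.Lib.BI39.B0
import Pool.Agent.Lib.BI39.B1
import Pool.Agent.Lib.BI39.F1

/-!
BI39, row F2: comparison of the maps `Bc shR m v` with the folding maps, in the normalised coordinate
`t / L n + 1 / 4`.

Induction on `v`, with the error `∑ l < v.length, R (m + l) ≤ 40 / 39 * R m`. One step, `M = m + v.length`:
`Bc shR m (i :: v) p = Bc shR m v p'`, `p' = shft (rs M * L M) (bt i M p)`, and by `bt_error`
`p'.1 / L M + 1 / 4 = rs M + 1 / 4 + (bt i M p).1 / L M` is within `R M` of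
`rs M + (± 1) fd (p.1 / L (M + 1) + 1 / 4) + (0 or 1)`. Use `Fo_lip`, `Fo_add_int`. (`Bc` maps the tubes to
the tubes: `bt_mem`; the statement `Bc_mem` of C1 is not needed here.)
-/

set_option autoImplicit false

namespace Pool.Agent.BI39

private theorem F2_step {i : Bool} {M : ℕ} {p : P3} (hp : p ∈ tube (2 * R (M + 1))) :
    ∃ k : ℤ, |(shft (shR M) (bt i M p)).1 / L M + 1 / 4 -
      (rs M + (if i then -1 else 1) * fd (p.1 / L (M + 1) + 1 / 4) + k)| ≤ R M := by
  have h := bt_error (i := i) hp
  have hL := L_pos M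
  have e : (shft (shR M) (bt i M p)).1 / L M = (bt i M p).1 / L M + rs M := by
    show ((bt i M p).1 + rs M * L M) / L M = _
    rw [add_div, mul_div_assoc, div_self hL.ne', mul_one]
  rw [e]
  cases i with
  | false =>
    refine ⟨0, ?_⟩
    have e2 : (bt false M p).1 / L M + rs M + 1 / 4 -
      (rs M + (if (false : Bool) = true then -1 else 1) * fd (p.1 / L (M + 1) + 1 / 4)
        + ((0 : ℤ) : ℝ)) = (bt false M p).1 / L M - ((if (false : Bool) = true then 1 / 2 else 0) +
      (if (false : Bool) = true then -1 else 1) * (fd (p.1 / L (M + 1) + 1 / 4) - 1 / 4)) := by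
      simp only [Bool.false_eq_true, if_false]
      push_cast
      ring
    rw [e2]
    exact h
  | true =>
    refine ⟨1, ?_⟩
    have e2 : (bt true M p).1 / L M + rs M + 1 / 4 -
      (rs M + (if (true : Bool) = true then -1 else 1) * fd (p.1 / L (M + 1) + 1 / 4)
        + ((1 : ℤ) : ℝ)) = (bt true M p).1 / L M - ((if (true : Bool) = true then 1 / 2 else 0) +
      (if (true : Bool) = true then -1 else 1) * (fd (p.1 / L (M + 1) + 1 / 4) - 1 / 4)) := by
      simp only [if_true]
      push_cast
      ring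
    rw [e2]
    exact h

private theorem F2_main (m : ℕ) (v : List Bool) : ∀ p : P3, p ∈ tube (2 * R (m + v.length)) →
    ∃ j : ℤ, |(Bc shR m v p).1 / L m + 1 / 4 - Fo m v (p.1 / L (m + v.length) + 1 / 4) - j| ≤
      40 / 39 * (R m - R (m + v.length)) := by
  induction v with
  | nil =>
    intro p _
    refine ⟨0, ?_⟩
    simp [Bc, Fo]
  | cons i v ih =>
    intro p hp
    have hlen : m + (i :: v).length = (m + v.length) + 1 := by
      simp only [List.length_cons]
      omega
    rw [hlen] at hp ⊢
    obtain ⟨k, hk⟩ := F2_step (i := i) hp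
    have hmem : shft (shR (m + v.length)) (bt i (m + v.length) p) ∈ tube (2 * R (m + v.length)) := by
      rw [shft_mem_tube]
      refine tube_mono ?_ (bt_mem hp)
      have := R_pos (m + v.length)
      linarith
    obtain ⟨j, hj⟩ := ih _ hmem
    obtain ⟨j', hj'⟩ := Fo_add_int m v (rs (m + v.length) +
      (if i then -1 else 1) * fd (p.1 / L (m + v.length + 1) + 1 / 4)) k
    have hl := Fo_lip m v ((shft (shR (m + v.length)) (bt i (m + v.length) p)).1 / L (m + v.length)
      + 1 / 4) (rs (m + v.length) +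
      (if i then -1 else 1) * fd (p.1 / L (m + v.length + 1) + 1 / 4) + k)
    have hl2 := hl.trans hk
    rw [hj'] at hl2
    refine ⟨j + j', ?_⟩
    have hR := R_succ (m + v.length)
    have eB : Bc shR m (i :: v) p =
      Bc shR m v (shft (shR (m + v.length)) (bt i (m + v.length) p)) := rfl
    have eF : Fo m (i :: v) (p.1 / L (m + v.length + 1) + 1 / 4) = Fo m v (rs (m + v.length) +
      (if i then -1 else 1) * fd (p.1 / L (m + v.length + 1) + 1 / 4)) := rfl
    rw [eB, eF, hR]
    rw [abs_le] at hj hl2 ⊢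
    push_cast
    constructor <;> linarith [hj.1, hj.2, hl2.1, hl2.2]

theorem Bc_error {m : ℕ} {v : List Bool} {p : P3} (hp : p ∈ tube (2 * R (m + v.length))) :
    ∃ j : ℤ, |(Bc shR m v p).1 / L m + 1 / 4 - Fo m v (p.1 / L (m + v.length) + 1 / 4) - j| ≤
      2 * R m := by
  obtain ⟨j, hj⟩ := F2_main m v p hp
  refine ⟨j, hj.trans ?_⟩
  have h1 := R_pos m
  have h2 := R_pos (m + v.length)
  linarith

end Pool.Agent.BI39
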