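import Mathlib
import Pool.Agent.Lib.BI39.Defs
import Pool.Agent.Lib.BI39.A1
import Pool.Agent.Lib.BI39.B0
import Pool.Agent.Lib.BI39.C0
import Pool.Agent.Lib.BI39.C1
import Pool.Agent.Lib.BI39.C1b
import Pool.Agent.Lib.BI39.F1
import Pool.Agent.Lib.BI39.F2

/-!
BI39, row F3: the tubes of stage `n` have diameter at most `C / (n + 1)`.

`n ≤ 1`: `norm_E0_le` (all tubes are contained in the tube of stage `0`: `E_append` with `u = []`, `Bc_mem`).
`n ≥ 2`: let `2 ^ (k + 1) ≤ n < 2 ^ (k + 2)`, `m = 2 ^ k`. Write `w = x ++ (v ++ u)` with `u.length = m`,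
`v.length = 2 ^ k`. `E shR w p = E shR u (Bc shR m v p₁)` with `p₁ = Bc shR (2 m) x p ∈ tube (2 * R (2 m))`
(`E_append`, `Bc_mem`; `R m ≥ R n`). For two points `p₁`, `q₁` of `tube (2 * R (2 m))` put
`P = Bc shR m v p₁`, `Q = Bc shR m v q₁` (in `tube (2 * R m)`). By `Bc_error` and `ruler` (`fd` takes values
in `[0, 1/2]`) there is an integer `j` with `|P.1 / L m - Q.1 / L m - j| ≤ 2 ^ (-k) / 2 + 4 * R m`. So
`dist P (shft (j L m) Q) ≤ C' / 2 ^ k` and `E_per`, `E_dist'`.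
-/

set_option autoImplicit false

namespace Pool.Agent.BI39

private theorem F3_R_pow (m : ℕ) (hm : 1 ≤ m) : R m ≤ 1 / 10 / m := by
  have h1 : (m : ℝ) ≤ 2 ^ m := by
    exact_mod_cast (Nat.lt_two_pow_self (n := m)).le
  have h2 : (0 : ℝ) < m := by exact_mod_cast hm
  have h3 : ((1 : ℝ) / 40) ^ m ≤ 1 / m := by
    calc ((1 : ℝ) / 40) ^ m ≤ (1 / 2) ^ m := pow_le_pow_left₀ (by norm_num) (by norm_num) m
      _ = 1 / 2 ^ m := by rw [one_div_pow]
      _ ≤ 1 / m := one_div_le_one_div_of_le h2 h1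
  unfold R
  calc (1 : ℝ) / 10 * (1 / 40) ^ m ≤ 1 / 10 * (1 / m) :=
        mul_le_mul_of_nonneg_left h3 (by norm_num)
    _ = 1 / 10 / m := by ring

private theorem F3_small (w : List Bool) (p : P3) (hp : p ∈ tube (2 * R w.length)) :
    ‖E shR w p‖ ≤ 6 / 5 := by
  have h1 := E_append shR w [] p
  rw [List.append_nil] at h1
  rw [h1]
  refine norm_E0_le ?_
  have h2 : Bc shR ([] : List Bool).length w p ∈ tube (2 * R ([] : List Bool).length) :=
    Bc_mem (by rw [List.length_nil, Nat.zero_add]; exact hp)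
  have h3 : 2 * R ([] : List Bool).length = 1 / 5 := by
    rw [List.length_nil, R, pow_zero]
    norm_num
  rw [h3] at h2
  exact h2

/-- the comparison of two points after `2 ^ k` steps -/
private theorem F3_step {k : ℕ} {v : List Bool} (hv : v.length = 2 ^ k) {p q : P3}
    (hp : p ∈ tube (2 * R (2 ^ k + v.length))) (hq : q ∈ tube (2 * R (2 ^ k + v.length))) :
    ∃ J : ℤ, dist (Bc shR (2 ^ k) v p) (shft (J * L (2 ^ k)) (Bc shR (2 ^ k) v q)) ≤ 6 / 2 ^ k := by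
  have hk : (0 : ℝ) < 2 ^ k := by positivity
  have hR : R (2 ^ k) ≤ 1 / 10 / 2 ^ k := by
    have h1 := F3_R_pow (2 ^ k) Nat.one_le_two_pow
    rw [Nat.cast_pow, Nat.cast_ofNat] at h1
    exact h1
  have hR0 := R_pos (2 ^ k)
  obtain ⟨c, ε, hε, -, hF⟩ := ruler k (2 ^ k) v hv dvd_rfl
  obtain ⟨j, hj⟩ := Bc_error hp
  obtain ⟨j', hj'⟩ := Bc_error hq
  have hP := Bc_mem hp (sh := shR)
  have hQ := Bc_mem hq (sh := shR)
  set P := Bc shR (2 ^ k) v p with hPd
  set Q := Bc shR (2 ^ k) v q with hQd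
  set y := p.1 / L (2 ^ k + v.length) + 1 / 4 with hy
  set y' := q.1 / L (2 ^ k + v.length) + 1 / 4 with hy'
  have hL0 := L_pos (2 ^ k)
  have hL1 := L_le (2 ^ k)
  -- the folding maps
  have h1 : |Fo (2 ^ k) v y - Fo (2 ^ k) v y'| ≤ 1 / 2 / 2 ^ k := by
    rw [hF y, hF y']
    have h2 : rs (2 ^ k) + c + ε * (fd (2 ^ k * y) / 2 ^ k) -
        (rs (2 ^ k) + c + ε * (fd (2 ^ k * y') / 2 ^ k)) =
        ε * ((fd (2 ^ k * y) - fd (2 ^ k * y')) / 2 ^ k) := by ring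
    have h3 : |ε| = 1 := by
      rcases hε with h | h
      · rw [h, abs_one]
      · rw [h, abs_neg, abs_one]
    rw [h2, abs_mul, h3, one_mul, abs_div, abs_of_pos hk]
    refine div_le_div_of_nonneg_right ?_ hk.le
    rw [abs_le]
    have a1 := fd_nonneg (2 ^ k * y)
    have a2 := fd_le (2 ^ k * y)
    have a3 := fd_nonneg (2 ^ k * y')
    have a4 := fd_le (2 ^ k * y')
    constructor <;> linarith
  refine ⟨j - j', ?_⟩
  have h4 : |P.1 / L (2 ^ k) - Q.1 / L (2 ^ k) - ((j - j' : ℤ) : ℝ)| ≤ 9 / 10 / 2 ^ k := by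
    have h5 : P.1 / L (2 ^ k) - Q.1 / L (2 ^ k) - ((j - j' : ℤ) : ℝ) =
        (P.1 / L (2 ^ k) + 1 / 4 - Fo (2 ^ k) v y - j) -
        (Q.1 / L (2 ^ k) + 1 / 4 - Fo (2 ^ k) v y' - j') +
        (Fo (2 ^ k) v y - Fo (2 ^ k) v y') := by
      push_cast
      ring
    have h6 : (9 : ℝ) / 10 / 2 ^ k = 4 * (1 / 10 / 2 ^ k) + 1 / 2 / 2 ^ k := by ring
    rw [h5, h6]
    rw [abs_le] at hj hj' h1 ⊢
    constructor <;> linarith [hj.1, hj.2, hj'.1, hj'.2, h1.1, h1.2]
  have h7 : |P.1 - (Q.1 + ((j - j' : ℤ) : ℝ) * L (2 ^ k))| ≤ 6 / 2 ^ k := by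
    have h8 : P.1 - (Q.1 + ((j - j' : ℤ) : ℝ) * L (2 ^ k)) =
        L (2 ^ k) * (P.1 / L (2 ^ k) - Q.1 / L (2 ^ k) - ((j - j' : ℤ) : ℝ)) := by
      field_simp
      ring
    rw [h8, abs_mul, abs_of_pos hL0]
    calc L (2 ^ k) * |P.1 / L (2 ^ k) - Q.1 / L (2 ^ k) - ((j - j' : ℤ) : ℝ)|
        ≤ 13 / 2 * (9 / 10 / 2 ^ k) :=
          mul_le_mul hL1 h4 (abs_nonneg _) (by norm_num)
      _ ≤ 6 / 2 ^ k := by
          rw [show (13 : ℝ) / 2 * (9 / 10 / 2 ^ k) = 117 / 20 / 2 ^ k by ring]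
          exact div_le_div_of_nonneg_right (by norm_num) hk.le
  have h9 : 4 * (1 / 10 / 2 ^ k) ≤ (6 : ℝ) / 2 ^ k := by
    rw [show 4 * (1 / 10 / 2 ^ k) = (2 : ℝ) / 5 / 2 ^ k by ring]
    exact div_le_div_of_nonneg_right (by norm_num) hk.le
  have hP1 := abs_le.1 hP.1
  have hP2 := abs_le.1 hP.2
  have hQ1 := abs_le.1 hQ.1
  have hQ2 := abs_le.1 hQ.2
  rw [Prod.dist_eq, Prod.dist_eq]
  refine max_le ?_ (max_le ?_ ?_)
  · rw [Real.dist_eq]
    exact h7
  · rw [Real.dist_eq]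
    show |P.2.1 - Q.2.1| ≤ _
    rw [abs_le]
    constructor <;> linarith [hP1.1, hP1.2, hQ1.1, hQ1.2]
  · rw [Real.dist_eq]
    show |P.2.2 - Q.2.2| ≤ _
    rw [abs_le]
    constructor <;> linarith [hP2.1, hP2.2, hQ2.1, hQ2.2]

theorem E_diam : ∃ C : ℝ, 0 < C ∧ ∀ (w : List Bool) (p q : P3), p ∈ tube (R w.length) →
    q ∈ tube (R w.length) → dist (E shR w p) (E shR w q) ≤ C / (w.length + 1) := by
  refine ⟨100, by norm_num, fun w p q hp hq => ?_⟩
  have hsub : tube (R w.length) ⊆ tube (2 * R w.length) :=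
    tube_mono (by linarith [R_pos w.length])
  have hn1 : (0 : ℝ) < (w.length : ℝ) + 1 := by positivity
  rcases Nat.lt_or_ge w.length 2 with hn | hn
  · have h1 := F3_small w p (hsub hp)
    have h2 := F3_small w q (hsub hq)
    have h3 : dist (E shR w p) (E shR w q) ≤ 6 / 5 + 6 / 5 :=
      (dist_le_norm_add_norm _ _).trans (add_le_add h1 h2)
    refine h3.trans ?_
    rw [le_div_iff₀ hn1]
    have h4 : (w.length : ℝ) ≤ 1 := by exact_mod_cast Nat.le_of_lt_succ hn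
    linarith
  · obtain ⟨k, hk1, hk2⟩ : ∃ k : ℕ, 2 ^ (k + 1) ≤ w.length ∧ w.length < 2 ^ (k + 2) := by
      have h1 : 1 ≤ Nat.log 2 w.length := Nat.le_log_of_pow_le (by norm_num) (by simpa using hn)
      refine ⟨Nat.log 2 w.length - 1, ?_, ?_⟩
      · rw [Nat.sub_add_cancel h1]
        exact Nat.pow_log_le_self 2 (by omega)
      · have h2 : Nat.log 2 w.length - 1 + 2 = Nat.log 2 w.length + 1 := by omega
        rw [h2]
        exact Nat.lt_pow_succ_log_self (by norm_num) _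
    have hkk : 2 ^ (k + 1) = 2 ^ k + 2 ^ k := by rw [pow_succ]; ring
    have hkk2 : 2 ^ (k + 2) = 4 * 2 ^ k := by rw [pow_succ, pow_succ]; ring
    set x := w.take (w.length - (2 ^ k + 2 ^ k)) with hx
    set v := (w.drop (w.length - (2 ^ k + 2 ^ k))).take (2 ^ k) with hv
    set u := (w.drop (w.length - (2 ^ k + 2 ^ k))).drop (2 ^ k) with hu
    have hxl : x.length = w.length - (2 ^ k + 2 ^ k) := by
      rw [hx, List.length_take]; omega
    have hvl : v.length = 2 ^ k := by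
      rw [hv, List.length_take, List.length_drop]; omega
    have hul : u.length = 2 ^ k := by
      rw [hu, List.length_drop, List.length_drop]; omega
    have hw : w = x ++ (v ++ u) := by
      rw [hv, hu, List.take_append_drop, hx, List.take_append_drop]
    have hE : ∀ r : P3, E shR w r = E shR u (Bc shR (2 ^ k) v (Bc shR (2 ^ k + 2 ^ k) x r)) := by
      intro r
      rw [congrArg (fun l => E shR l r) hw]
      show E shR (x ++ (v ++ u)) r = _
      rw [E_append, E_append, List.length_append, hvl, hul]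
    have hB : ∀ r ∈ tube (R w.length),
        Bc shR (2 ^ k + 2 ^ k) x r ∈ tube (2 * R (2 ^ k + v.length)) := by
      intro r hr
      rw [hvl]
      refine Bc_mem ?_
      have h5 : 2 ^ k + 2 ^ k + x.length = w.length := by rw [hxl]; omega
      rw [h5]
      exact hsub hr
    obtain ⟨J, hJ⟩ := F3_step hvl (hB p hp) (hB q hq)
    have hQ := Bc_mem (sh := shR) (hB q hq)
    have hP := Bc_mem (sh := shR) (hB p hp)
    rw [hE p, hE q]
    set P := Bc shR (2 ^ k) v (Bc shR (2 ^ k + 2 ^ k) x p) with hPd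
    set Q := Bc shR (2 ^ k) v (Bc shR (2 ^ k + 2 ^ k) x q) with hQd
    have h6 := E_per shR u J Q
    rw [hul] at h6
    rw [← h6]
    have h7 : dist (E shR u P) (E shR u (shft (J * L (2 ^ k)) Q)) ≤
        4 * dist P (shft (J * L (2 ^ k)) Q) := by
      refine E_dist' ?_ ?_
      · rw [hul]; exact hP
      · rw [hul]; exact shft_mem_tube.2 hQ
    refine h7.trans ((mul_le_mul_of_nonneg_left hJ (by norm_num)).trans ?_)
    have hk : (0 : ℝ) < 2 ^ k := by positivity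
    rw [mul_div_assoc', div_le_div_iff₀ hk hn1]
    have h8 : (w.length : ℝ) + 1 ≤ 4 * 2 ^ k := by
      have h9 : w.length + 1 ≤ 4 * 2 ^ k := by omega
      exact_mod_cast h9
    nlinarith

theorem abs_shR_le (n : ℕ) : |shR n| ≤ 2 := by
  have h1 := rs_nonneg n
  have h2 := rs_le n
  have h3 := L_pos n
  have h4 := L_le n
  unfold shR
  rw [abs_of_nonneg (mul_nonneg h1 h3.le)]
  calc rs n * L n ≤ 1 / 4 * (13 / 2) := mul_le_mul h2 h4 h3.le (by norm_num)
    _ ≤ 2 := by norm_num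

end Pool.Agent.BI39
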