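import Mathlib
import Pool.Agent.Lib.BI39.Defs
import Pool.Agent.Lib.BI39.B0
import Pool.Agent.Lib.BI39.C0
import Pool.Agent.Lib.BI39.C1
import Pool.Agent.Lib.BI39.C1b
import Pool.Agent.Lib.BI39.D1
import Pool.Agent.Lib.BI39.D1b
import Pool.Agent.Lib.BI39.D2

/-!
BI39, row G1: the limit involution `JJ sh`, assuming the bound for the diameters (`hd`) and the Lipschitz
bound (`hl`).

`dist_JJ_Jn`: if `x ∉ KK sh n` then `JJ x = Jn n x`. If `x = E sh w p ∈ KK sh n` then both `JJ x` and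
`Jn n x` are in `E sh w '' tube (R n)` (`Jn_mem`; if `x ∈ CS sh` then `JJ x = x`).
`JJ_JJ`: `x ∈ CS`: clear. Otherwise `x ∉ KK n`, `Jn n x ∉ KK n`, `JJ x = Jn n x`, `JJ (Jn n x) = Jn n (Jn n x)`.
Continuity: uniform limit (or from `JJ_modulus`).
-/

set_option autoImplicit false

namespace Pool.Agent.BI39

open Real Topology

theorem JJ_of_not_mem {sh : ℕ → ℝ} {n : ℕ} {x : P3} (hx : x ∉ KK sh n) : JJ sh x = Jn sh n x := by
  classical
  have h : ∃ n, x ∉ KK sh n := ⟨n, hx⟩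
  rw [JJ, dif_pos h]
  exact (Jn_stable (Nat.find_min' h hx) (Nat.find_spec h)).symm

theorem JJ_of_mem {sh : ℕ → ℝ} {x : P3} (hx : x ∈ CS sh) : JJ sh x = x := by
  rw [JJ, dif_neg]
  rintro ⟨n, hn⟩
  exact hn (hx n)

theorem JJ_mem_CS_iff {sh : ℕ → ℝ} {x : P3} : JJ sh x ∈ CS sh ↔ x ∈ CS sh := by
  constructor
  · intro h
    by_contra hx
    have h1 : ∃ n, x ∉ KK sh n := by
      by_contra h2
      push Not at h2
      exact hx h2
    obtain ⟨n, hn⟩ := h1
    have h3 := h n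
    rw [JJ_of_not_mem hn, Jn_mem_KK_iff le_rfl] at h3
    exact hn h3
  · intro h
    rw [JJ_of_mem h]
    exact h

theorem JJ_JJ (sh : ℕ → ℝ) (x : P3) : JJ sh (JJ sh x) = x := by
  by_cases hx : x ∈ CS sh
  · rw [JJ_of_mem hx, JJ_of_mem hx]
  · have h1 : ∃ n, x ∉ KK sh n := by
      by_contra h2
      push Not at h2
      exact hx h2
    obtain ⟨n, hn⟩ := h1
    have h3 : Jn sh n x ∉ KK sh n := by
      rw [Jn_mem_KK_iff le_rfl]
      exact hn
    rw [JJ_of_not_mem hn, JJ_of_not_mem h3, Jn_Jn]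

theorem dist_JJ_Jn {sh : ℕ → ℝ} {C : ℝ} (hC : 0 < C)
    (hd : ∀ (w : List Bool) (p q : P3), p ∈ tube (R w.length) → q ∈ tube (R w.length) →
      dist (E sh w p) (E sh w q) ≤ C / (w.length + 1)) (n : ℕ) (x : P3) :
    dist (JJ sh x) (Jn sh n x) ≤ C / (n + 1) := by
  have hn : (0 : ℝ) ≤ C / (n + 1) := by positivity
  by_cases hx : x ∈ KK sh n
  · obtain ⟨w, rfl, p, hp, rfl⟩ := hx
    have hm : E sh w p ∈ E sh w '' tube (R w.length) := ⟨p, hp, rfl⟩
    have h1 : Jn sh w.length (E sh w p) ∈ E sh w '' tube (R w.length) := Jn_mem le_rfl hm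
    have h2 : JJ sh (E sh w p) ∈ E sh w '' tube (R w.length) := by
      by_cases hc : E sh w p ∈ CS sh
      · rw [JJ_of_mem hc]
        exact hm
      · have h3 : ∃ m, E sh w p ∉ KK sh m := by
          by_contra h2
          push Not at h2
          exact hc h2
        obtain ⟨m, hm'⟩ := h3
        rw [JJ_of_not_mem hm']
        refine Jn_mem ?_ hm
        by_contra h4
        exact hm' (KK_anti sh (by omega) ⟨w, rfl, p, hp, rfl⟩)
    obtain ⟨a, ha, ha'⟩ := h1
    obtain ⟨b, hb, hb'⟩ := h2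
    rw [← ha', ← hb']
    exact hd w b a hb ha
  · rw [JJ_of_not_mem hx, dist_self]
    exact hn

theorem JJ_modulus {sh : ℕ → ℝ} {C Λ : ℝ} (hC : 0 < C)
    (hd : ∀ (w : List Bool) (p q : P3), p ∈ tube (R w.length) → q ∈ tube (R w.length) →
      dist (E sh w p) (E sh w q) ≤ C / (w.length + 1))
    (hl : ∀ n x y, dist (Jn sh n x) (Jn sh n y) ≤ Λ ^ (n + 1) * dist x y) (n : ℕ) (x y : P3) :
    dist (JJ sh x) (JJ sh y) ≤ Λ ^ (n + 1) * dist x y + 2 * C / (n + 1) := by
  have h1 := dist_JJ_Jn hC hd n x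
  have h2 := dist_JJ_Jn hC hd n y
  have h3 := hl n x y
  have h4 := dist_triangle (JJ sh x) (Jn sh n x) (JJ sh y)
  have h5 := dist_triangle (Jn sh n x) (Jn sh n y) (JJ sh y)
  rw [dist_comm (Jn sh n y) (JJ sh y)] at h5
  have h6 : 2 * C / ((n : ℝ) + 1) = C / (n + 1) + C / (n + 1) := by ring
  rw [h6]
  linarith

theorem continuous_JJ {sh : ℕ → ℝ} {C : ℝ} (hC : 0 < C)
    (hd : ∀ (w : List Bool) (p q : P3), p ∈ tube (R w.length) → q ∈ tube (R w.length) →
      dist (E sh w p) (E sh w q) ≤ C / (w.length + 1)) : Continuous (JJ sh) := by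
  have h1 : TendstoUniformly (Jn sh) (JJ sh) Filter.atTop := by
    rw [Metric.tendstoUniformly_iff]
    intro ε hε
    have h2 : Filter.Tendsto (fun n : ℕ => C / ((n : ℝ) + 1)) Filter.atTop (𝓝 0) :=
      tendsto_const_nhds.div_atTop
        (Filter.tendsto_atTop_add_const_right _ _ tendsto_natCast_atTop_atTop)
    filter_upwards [h2.eventually (gt_mem_nhds hε)] with n hn x
    exact (dist_JJ_Jn hC hd n x).trans_lt hn
  exact h1.continuous (Filter.Eventually.frequently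
    (Filter.Eventually.of_forall fun n => continuous_Jn sh n))

/-- all points which are moved by more than the reflection are in a ball -/
theorem JJ_outside {sh : ℕ → ℝ} {x : P3} (hx : 6 / 5 < ‖x‖) : JJ sh x = r3 x := by
  have h1 : x ∉ KK sh 0 := by
    rintro ⟨w, hw, p, hp, rfl⟩
    have h2 : w = [] := List.length_eq_zero_iff.1 hw
    subst h2
    have h3 : p ∈ tube (1 / 5) := tube_mono (by linarith [R_le 0]) hp
    exact absurd (norm_E0_le h3) (not_le.2 hx)
  rw [JJ_of_not_mem h1, Jn_zero]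

end Pool.Agent.BI39
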