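import Mathlib
import Pool.Agent.Lib.BI39.Defs
import Pool.Agent.Lib.BI39.B0
import Pool.Agent.Lib.BI39.C0
import Pool.Agent.Lib.BI39.C1
import Pool.Agent.Lib.BI39.C1b
import Pool.Agent.Lib.BI39.D1
import Pool.Agent.Lib.BI39.D1b
import Pool.Agent.Lib.BI39.D2
import Pool.Agent.Lib.BI39.G1

/-!
BI39, row G2: the map `TH sh` from the rotated picture to the standard picture, outside the limit set.
Everything is local: on the open set `(KK sh n)ᶜ` we have `TH = th n`, `JJ = Jn n = thi n ∘ r3 ∘ th n`.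
-/

set_option autoImplicit false

namespace Pool.Agent.BI39

open Real Topology unitInterval

/-- The curve `μ` is null homotopic in `U`, relative to its end points. -/
def NullIn (U : Set P3) (μ : ℝ → P3) : Prop :=
  ∃ H : C(I × I, P3), (∀ p, H p ∈ U) ∧ (∀ s : I, H (s, 0) = μ s) ∧ (∀ s : I, H (s, 1) = μ 0) ∧
    ∀ t : I, H (0, t) = μ 0 ∧ H (1, t) = μ 0

/-- a meridian of the tube of stage `0` -/
noncomputable def mu (s : ℝ) : P3 :=
  (0, 3 / 20 * cos (2 * π * s), 1 + 3 / 20 * sin (2 * π * s))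

theorem mu_not_mem (sh : ℕ → ℝ) (s : ℝ) : mu s ∉ KK sh 0 := by
  rintro ⟨w, hw, p, hp, h⟩
  have hw' : w = [] := List.length_eq_zero_iff.1 hw
  subst hw'
  obtain ⟨h1, h2⟩ := hp
  have hR : R 0 = 1 / 10 := by unfold R; norm_num
  rw [hR] at h1 h2
  simp only [E, mu, Prod.mk.injEq] at h
  obtain ⟨e1, e2, e3⟩ := h
  have hc := sin_sq_add_cos_sq p.1
  have hc' := sin_sq_add_cos_sq (2 * π * s)
  have hs1 := neg_one_le_sin (2 * π * s)
  rw [abs_le] at h1 h2
  have hpos : 0 < 1 + p.2.2 := by linarith [h2.1]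
  have hsq : (1 + p.2.2) ^ 2 = (1 + 3 / 20 * sin (2 * π * s)) ^ 2 := by
    have : (1 + p.2.2) ^ 2 = ((1 + p.2.2) * cos p.1) ^ 2 + ((1 + p.2.2) * sin p.1) ^ 2 := by
      nlinarith
    rw [this, e1, e3]; ring
  have hpos2 : 0 < 1 + 3 / 20 * sin (2 * π * s) := by linarith
  have heq : p.2.2 = 3 / 20 * sin (2 * π * s) := by
    have h3 := (pow_left_inj₀ hpos.le hpos2.le (two_ne_zero)).1 hsq
    linarith
  rw [heq] at h2
  rw [e2] at h1
  have h4 : sin (2 * π * s) ^ 2 ≤ 4 / 9 := by nlinarith [h2.1, h2.2]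
  have h5 : cos (2 * π * s) ^ 2 ≤ 4 / 9 := by nlinarith [h1.1, h1.2]
  linarith

theorem g2_ex {sh : ℕ → ℝ} {x : P3} (hx : x ∉ CS sh) : ∃ n, x ∉ KK sh n := by
  by_contra h
  push Not at h
  exact hx h

theorem TH_of_not_mem {sh : ℕ → ℝ} {n : ℕ} {x : P3} (hx : x ∉ KK sh n) : TH sh x = th sh n x := by
  classical
  have h : ∃ n, x ∉ KK sh n := ⟨n, hx⟩
  rw [TH, dif_pos h]
  exact (th_stable (Nat.find_min' h hx) (Nat.find_spec h)).symm

theorem isClosed_CS (sh : ℕ → ℝ) : IsClosed (CS sh) := by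
  have : CS sh = ⋂ n, KK sh n := by
    ext x
    simp [CS]
  rw [this]
  exact isClosed_iInter fun n => isClosed_KK sh n

theorem continuousOn_TH (sh : ℕ → ℝ) : ContinuousOn (TH sh) (CS sh)ᶜ := by
  intro x hx
  obtain ⟨n, hn⟩ := g2_ex hx
  refine ContinuousAt.continuousWithinAt ?_
  have h1 : th sh n =ᶠ[𝓝 x] TH sh := by
    filter_upwards [(isClosed_KK sh n).isOpen_compl.mem_nhds hn] with y hy
    exact (TH_of_not_mem hy).symm
  exact (continuous_th sh n).continuousAt.congr h1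

theorem TH_JJ {sh : ℕ → ℝ} {x : P3} (hx : x ∉ CS sh) : TH sh (JJ sh x) = r3 (TH sh x) := by
  obtain ⟨n, hn⟩ := g2_ex hx
  have h1 : Jn sh n x ∉ KK sh n := fun h => hn ((Jn_mem_KK_iff le_rfl).1 h)
  rw [JJ_of_not_mem hn, TH_of_not_mem h1, TH_of_not_mem hn, Jn, th_thi]

theorem TH_not_mem {sh : ℕ → ℝ} {x : P3} (hx : x ∉ CS sh) : TH sh x ∉ CS (fun _ => 0) := by
  obtain ⟨n, hn⟩ := g2_ex hx
  intro h
  have h1 := h n
  rw [TH_of_not_mem hn] at h1
  exact hn ((th_mem_KK_iff le_rfl).1 h1)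

theorem TH_inj {sh : ℕ → ℝ} {x y : P3} (hx : x ∉ CS sh) (hy : y ∉ CS sh) (h : TH sh x = TH sh y) :
    x = y := by
  obtain ⟨n, hn⟩ := g2_ex hx
  obtain ⟨m, hm⟩ := g2_ex hy
  have hn' : x ∉ KK sh (max n m) := fun h => hn (KK_anti sh (le_max_left _ _) h)
  have hm' : y ∉ KK sh (max n m) := fun h => hm (KK_anti sh (le_max_right _ _) h)
  rw [TH_of_not_mem hn', TH_of_not_mem hm'] at h
  rw [← thi_th sh (max n m) x, h, thi_th]

/-- the upper side of the fixed point set of `JJ sh` -/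
noncomputable def VV (sh : ℕ → ℝ) : Set P3 := {x | x ∉ CS sh ∧ 0 < (TH sh x).2.2}

theorem isOpen_VV (sh : ℕ → ℝ) : IsOpen (VV sh) := by
  have h1 : IsOpen {p : P3 | 0 < p.2.2} := isOpen_lt continuous_const (by fun_prop)
  have h2 := (continuousOn_TH sh).isOpen_inter_preimage (isClosed_CS sh).isOpen_compl h1
  exact h2

theorem JJ_ne_iff {sh : ℕ → ℝ} {x : P3} : JJ sh x ≠ x ↔ x ∈ VV sh ∨ JJ sh x ∈ VV sh := by
  by_cases hx : x ∈ CS sh
  · rw [JJ_of_mem hx]
    constructor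
    · intro h
      exact absurd rfl h
    · rintro (h | h) <;> exact absurd hx h.1
  · have hJ : JJ sh x ∉ CS sh := fun h => hx (JJ_mem_CS_iff.1 h)
    have h1 := TH_JJ hx
    constructor
    · intro h
      have h2 : (TH sh x).2.2 ≠ 0 := by
        intro h0
        apply h
        apply TH_inj hJ hx
        rw [h1]
        unfold r3
        rw [h0, neg_zero]
        ext
        · rfl
        · rfl
        · exact h0.symm
      rcases lt_or_gt_of_ne h2 with h3 | h3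
      · right
        refine ⟨hJ, ?_⟩
        rw [h1]
        show 0 < -(TH sh x).2.2
        linarith
      · left
        exact ⟨hx, h3⟩
    · rintro (h | h) he
      · have h2 := h.2
        rw [he] at h1
        have h3 : (TH sh x).2.2 = -(TH sh x).2.2 := congrArg (fun p : P3 => p.2.2) h1
        linarith
      · rw [he] at h h1
        have h2 := h.2
        have h3 : (TH sh x).2.2 = -(TH sh x).2.2 := congrArg (fun p : P3 => p.2.2) h1
        linarith

theorem VV_disjoint {sh : ℕ → ℝ} {x : P3} (hx : x ∈ VV sh) : JJ sh x ∉ VV sh := by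
  intro h
  have h1 := h.2
  rw [TH_JJ hx.1] at h1
  have h2 := hx.2
  have h3 : 0 < -(TH sh x).2.2 := h1
  linarith

theorem mu_mem_VV (sh : ℕ → ℝ) (s : ℝ) : mu s ∈ VV sh := by
  have h := mu_not_mem sh s
  refine ⟨fun hc => h (hc 0), ?_⟩
  rw [TH_of_not_mem h]
  show 0 < 1 + 3 / 20 * sin (2 * π * s)
  have hs1 := neg_one_le_sin (2 * π * s)
  linarith

theorem not_nullIn_VV {sh : ℕ → ℝ}
    (h : ¬ NullIn {x | 0 < x.2.2 ∧ x ∉ CS (fun _ => 0)} mu) : ¬ NullIn (VV sh) mu := by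
  rintro ⟨H, h1, h2, h3, h4⟩
  apply h
  have hmu : ∀ s, TH sh (mu s) = mu s := fun s => TH_of_not_mem (mu_not_mem sh s)
  refine ⟨⟨fun p => TH sh (H p), ?_⟩, ?_, ?_, ?_, ?_⟩
  · exact (continuousOn_TH sh).comp_continuous H.continuous fun p => (h1 p).1
  · intro p
    exact ⟨(h1 p).2, TH_not_mem (h1 p).1⟩
  · intro s
    show TH sh (H (s, 0)) = _
    rw [h2, hmu]
  · intro s
    show TH sh (H (s, 1)) = _
    rw [h3, hmu]
  · intro t
    constructor
    · show TH sh (H (0, t)) = _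
      rw [(h4 t).1, hmu]
    · show TH sh (H (1, t)) = _
      rw [(h4 t).2, hmu]

end Pool.Agent.BI39
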