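import Mathlib

/-!
MP_39fe65_gt: involutions of the 3-sphere and moduli of continuity. Definitions of the final statement.
-/

set_option autoImplicit false

namespace Pool.Agent.BI39

open scoped ENNReal

/-- The ambient space `ℝ⁴`. -/
abbrev V4 : Type := EuclideanSpace ℝ (Fin 4)

/-- The unit sphere `S³` of `ℝ⁴` with the euclidean metric of `ℝ⁴`. -/
abbrev S3 : Type := Metric.sphere (0 : V4) 1

/-- The reflection `(x₁, x₂, x₃, x₄) ↦ (x₁, x₂, x₃, -x₄)` of `ℝ⁴`. -/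
noncomputable def refl4 : V4 ≃ₗᵢ[ℝ] V4 := (ℝ ∙ (EuclideanSpace.single (3 : Fin 4) (1 : ℝ)))ᗮ.reflection

/-- A linear isometry of `ℝ⁴` restricted to the sphere. -/
noncomputable def onS3 (A : V4 ≃ₗᵢ[ℝ] V4) : C(S3, S3) :=
  ⟨fun x => ⟨A x, by
    have h := x.2
    rw [mem_sphere_zero_iff_norm] at h ⊢
    rw [A.norm_map, h]⟩, by fun_prop⟩

/-- An involution of `S³`: a self-homeomorphism whose square is the identity. -/
def IsInvol (J : S3 ≃ₜ S3) : Prop := ∀ x, J (J x) = x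

/-- Orientation-reversing (degree `-1`): homotopic to the reflection. -/
def OrRev (J : S3 ≃ₜ S3) : Prop := ContinuousMap.Homotopic (J : C(S3, S3)) (onS3 refl4)

/-- Wild: not conjugate to any orthogonal involution. -/
def IsWild (J : S3 ≃ₜ S3) : Prop :=
  ∀ A : V4 ≃ₗᵢ[ℝ] V4, (∀ x, A (A x) = x) →
    ¬ ∃ h : S3 ≃ₜ S3, ∀ x : S3, ((h (J (h.symm x)) : S3) : V4) = A (x : V4)

/-- `δ_h(ε)`, the supremum of the `δ > 0` such that `d(x, y) < δ` implies `d(h x, h y) < ε`. -/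
noncomputable def delta (h : S3 → S3) (ε : ℝ) : ℝ≥0∞ :=
  ⨆ (δ : ℝ) (_ : 0 < δ ∧ ∀ x y : S3, dist x y < δ → dist (h x) (h y) < ε), ENNReal.ofReal δ

/-- The modulus of continuity `moc(h)(t) = 1 / δ_h(1/t)`. -/
noncomputable def moc (h : S3 → S3) (t : ℝ) : ℝ≥0∞ := (delta h (1 / t))⁻¹

/-- The full statement. -/
def MainStatement : Prop :=
  ∀ η : ℝ, 0 < η → ∃ (J : S3 ≃ₜ S3) (C : ℝ), IsInvol J ∧ OrRev J ∧ IsWild J ∧
    ∀ t : ℝ, 1 ≤ t → moc J t ≤ ENNReal.ofReal (C * Real.exp (η * t))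

/-- The negated form of Q1. -/
def NegQ1 : Prop :=
  ∃ J : S3 ≃ₜ S3, IsInvol J ∧ OrRev J ∧ IsWild J ∧ ∃ t : ℕ → ℝ,
    Filter.Tendsto t Filter.atTop Filter.atTop ∧
      ∀ i, moc J (t i) < ENNReal.ofReal (Real.exp (t i))

end Pool.Agent.BI39
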