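import Mathlib
import Pool.Agent.Lib.BI39.Defs
import Pool.Agent.Lib.BI39.Stmt
import Pool.Agent.Lib.BI39.G2

/-!
BI39, part S (transfer to the sphere): definitions.
`ist` is the inverse of the stereographic projection `st` from the point `(-1, 0, 0, 0)`.
-/

set_option autoImplicit false

namespace Pool.Agent.BI39

open Real

/-- `|v| ^ 2` -/
def nn (v : P3) : ℝ := v.1 ^ 2 + v.2.1 ^ 2 + v.2.2 ^ 2

theorem nn_nonneg (v : P3) : 0 ≤ nn v := by
  unfold nn; positivity

/-- inverse stereographic projection, with values in `ℝ⁴` -/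
noncomputable def ist4 (v : P3) : V4 :=
  !₂[(1 - nn v) / (1 + nn v), 2 * v.1 / (1 + nn v), 2 * v.2.1 / (1 + nn v), 2 * v.2.2 / (1 + nn v)]

theorem norm_ist4 (v : P3) : ‖ist4 v‖ = 1 := by
  have h0 : (1 + nn v) ≠ 0 := by have := nn_nonneg v; positivity
  rw [EuclideanSpace.norm_eq, Real.sqrt_eq_one]
  simp only [Fin.sum_univ_four, ist4, Real.norm_eq_abs, sq_abs]
  simp
  unfold nn at h0 ⊢
  field_simp
  ring

/-- inverse stereographic projection -/
noncomputable def ist (v : P3) : S3 := ⟨ist4 v, by rw [mem_sphere_zero_iff_norm]; exact norm_ist4 v⟩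

/-- stereographic projection -/
noncomputable def st (x : S3) : P3 :=
  (x.1 1 / (1 + x.1 0), x.1 2 / (1 + x.1 0), x.1 3 / (1 + x.1 0))

open Classical in
/-- the map of the sphere given by a map of `ℝ³` -/
noncomputable def JS (f : P3 → P3) (x : S3) : S3 := if x.1 0 = -1 then x else ist (f (st x))

end Pool.Agent.BI39
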