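import Mathlib
import Pool.Agent.Lib.BI39.Defs
import Pool.Agent.Lib.BI39.Stmt
import Pool.Agent.Lib.BI39.SDefs

/-!
BI39, row S1: stereographic projection.
`‖ist4 v - ist4 v'‖ ^ 2 = 4 |v - v'| ^ 2 / ((1 + nn v) (1 + nn v'))` (euclidean norms), `nn v ≤ 3 * ‖v‖ ^ 2`.
-/

set_option autoImplicit false

namespace Pool.Agent.BI39

open Real

theorem refl4_apply (x : V4) : refl4 x = !₂[x 0, x 1, x 2, -x 3] := by
  have h : refl4 x = -((ℝ ∙ (EuclideanSpace.single (3 : Fin 4) (1 : ℝ))).reflection x) :=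
    Submodule.reflection_orthogonal_apply _ x
  have hi : inner ℝ (EuclideanSpace.single (3 : Fin 4) (1 : ℝ)) x = x 3 := by
    rw [EuclideanSpace.inner_single_left]
    simp
  rw [h, Submodule.reflection_singleton_apply, hi]
  ext i
  fin_cases i <;> simp
  ring

private theorem S1_one_add (v : P3) : (1 + nn v) ≠ 0 := by
  have := nn_nonneg v
  positivity

private theorem S1_ist0 (v : P3) : (ist v).1 0 = (1 - nn v) / (1 + nn v) := by
  simp [ist, ist4]

private theorem S1_ist1 (v : P3) : (ist v).1 1 = 2 * v.1 / (1 + nn v) := by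
  simp [ist, ist4]

private theorem S1_ist2 (v : P3) : (ist v).1 2 = 2 * v.2.1 / (1 + nn v) := by
  simp [ist, ist4]

private theorem S1_ist3 (v : P3) : (ist v).1 3 = 2 * v.2.2 / (1 + nn v) := by
  simp [ist, ist4]

theorem ist_zero (v : P3) : (ist v).1 0 = (1 - nn v) / (1 + nn v) := S1_ist0 v

private theorem S1_one_add_ist (v : P3) : 1 + (ist v).1 0 = 2 / (1 + nn v) := by
  rw [S1_ist0]
  have := S1_one_add v
  field_simp
  ring

theorem ist_ne (v : P3) : (ist v).1 0 ≠ -1 := by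
  intro h
  have h1 := S1_one_add_ist v
  rw [h] at h1
  have h2 := S1_one_add v
  have h3 : (2 : ℝ) / (1 + nn v) ≠ 0 := div_ne_zero two_ne_zero h2
  apply h3
  rw [← h1]
  ring

theorem st_ist (v : P3) : st (ist v) = v := by
  have h2 := S1_one_add v
  unfold st
  rw [S1_one_add_ist, S1_ist1, S1_ist2, S1_ist3]
  refine Prod.ext ?_ (Prod.ext ?_ ?_)
  · show 2 * v.1 / (1 + nn v) / (2 / (1 + nn v)) = v.1
    field_simp
  · show 2 * v.2.1 / (1 + nn v) / (2 / (1 + nn v)) = v.2.1
    field_simp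
  · show 2 * v.2.2 / (1 + nn v) / (2 / (1 + nn v)) = v.2.2
    field_simp

private theorem S1_sum (x : S3) : x.1 0 ^ 2 + x.1 1 ^ 2 + x.1 2 ^ 2 + x.1 3 ^ 2 = 1 := by
  have h := x.2
  rw [mem_sphere_zero_iff_norm, EuclideanSpace.norm_eq, Real.sqrt_eq_one] at h
  simpa [Fin.sum_univ_four] using h

theorem nn_st {x : S3} (h : x.1 0 ≠ -1) : nn (st x) = (1 - x.1 0) / (1 + x.1 0) := by
  have h1 : 1 + x.1 0 ≠ 0 := fun h2 => h (by linarith)
  have h3 := S1_sum x
  unfold nn st
  simp only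
  have h4 : x.1 1 ^ 2 + x.1 2 ^ 2 + x.1 3 ^ 2 = (1 - x.1 0) * (1 + x.1 0) := by linarith
  rw [div_pow, div_pow, div_pow, ← add_div, ← add_div, h4, pow_two, mul_div_mul_right _ _ h1]

theorem ist_st {x : S3} (h : x.1 0 ≠ -1) : ist (st x) = x := by
  have h1 : 1 + x.1 0 ≠ 0 := fun h2 => h (by linarith)
  have h3 : 1 + nn (st x) = 2 / (1 + x.1 0) := by
    rw [nn_st h]
    field_simp
    ring
  apply Subtype.ext
  ext i
  fin_cases i
  · show (ist (st x)).1 0 = x.1 0
    rw [S1_ist0, nn_st h]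
    field_simp
    ring
  · show (ist (st x)).1 1 = x.1 1
    rw [S1_ist1, h3]
    show 2 * (x.1 1 / (1 + x.1 0)) / (2 / (1 + x.1 0)) = x.1 1
    field_simp
  · show (ist (st x)).1 2 = x.1 2
    rw [S1_ist2, h3]
    show 2 * (x.1 2 / (1 + x.1 0)) / (2 / (1 + x.1 0)) = x.1 2
    field_simp
  · show (ist (st x)).1 3 = x.1 3
    rw [S1_ist3, h3]
    show 2 * (x.1 3 / (1 + x.1 0)) / (2 / (1 + x.1 0)) = x.1 3
    field_simp

private theorem S1_zero {x : S3} (hx : x.1 0 = -1) : x.1 1 = 0 ∧ x.1 2 = 0 ∧ x.1 3 = 0 := by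
  have h := S1_sum x
  rw [hx] at h
  have h1 := sq_nonneg (x.1 1)
  have h2 := sq_nonneg (x.1 2)
  have h3 := sq_nonneg (x.1 3)
  refine ⟨?_, ?_, ?_⟩
  · exact pow_eq_zero_iff two_ne_zero |>.1 (by linarith)
  · exact pow_eq_zero_iff two_ne_zero |>.1 (by linarith)
  · exact pow_eq_zero_iff two_ne_zero |>.1 (by linarith)

/-- the centre of the projection is a single point -/
theorem eq_of_zero_eq {x y : S3} (hx : x.1 0 = -1) (hy : y.1 0 = -1) : x = y := by
  obtain ⟨a1, a2, a3⟩ := S1_zero hx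
  obtain ⟨b1, b2, b3⟩ := S1_zero hy
  apply Subtype.ext
  ext i
  fin_cases i
  · exact hx.trans hy.symm
  · exact a1.trans b1.symm
  · exact a2.trans b2.symm
  · exact a3.trans b3.symm

private theorem S1_continuous_nn : Continuous nn := by
  unfold nn
  fun_prop

theorem continuous_ist : Continuous ist := by
  have h : Continuous ist4 := by
    unfold ist4
    refine (PiLp.continuous_toLp 2 _).comp (continuous_pi fun i => ?_)
    have hn := S1_continuous_nn
    fin_cases i
    · exact (continuous_const.sub hn).div (continuous_const.add hn) S1_one_add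
    · exact (continuous_const.mul continuous_fst).div (continuous_const.add hn) S1_one_add
    · exact (continuous_const.mul (continuous_fst.comp continuous_snd)).div
        (continuous_const.add hn) S1_one_add
    · exact (continuous_const.mul (continuous_snd.comp continuous_snd)).div
        (continuous_const.add hn) S1_one_add
  exact h.subtype_mk _

private theorem S1_continuous_coord (i : Fin 4) : Continuous fun x : S3 => x.1 i := by
  fun_prop

theorem isOpen_ne : IsOpen {x : S3 | x.1 0 ≠ -1} :=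
  isOpen_ne_fun (S1_continuous_coord 0) continuous_const

theorem continuousOn_st : ContinuousOn st {x : S3 | x.1 0 ≠ -1} := by
  have hne : ∀ x ∈ {x : S3 | x.1 0 ≠ -1}, 1 + x.1 0 ≠ 0 := by
    intro x hx h
    exact hx (by linarith)
  have hd : ContinuousOn (fun x : S3 => 1 + x.1 0) {x : S3 | x.1 0 ≠ -1} :=
    (continuous_const.add (S1_continuous_coord 0)).continuousOn
  exact ((S1_continuous_coord 1).continuousOn.div hd hne).prodMk
    (((S1_continuous_coord 2).continuousOn.div hd hne).prodMk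
      ((S1_continuous_coord 3).continuousOn.div hd hne))

private theorem S1_refl_coord (x : S3) : (onS3 refl4 x).1 0 = x.1 0 ∧ (onS3 refl4 x).1 1 = x.1 1 ∧
    (onS3 refl4 x).1 2 = x.1 2 ∧ (onS3 refl4 x).1 3 = -x.1 3 := by
  have h : (onS3 refl4 x).1 = !₂[x.1 0, x.1 1, x.1 2, -x.1 3] := refl4_apply x.1
  rw [h]
  refine ⟨?_, ?_, ?_, ?_⟩ <;> simp

theorem ist_r3 (v : P3) : ist (r3 v) = onS3 refl4 (ist v) := by
  have hn : nn (r3 v) = nn v := by
    simp [nn, r3]
  obtain ⟨c0, c1, c2, c3⟩ := S1_refl_coord (ist v)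
  apply Subtype.ext
  ext i
  fin_cases i
  · show (ist (r3 v)).1 0 = (onS3 refl4 (ist v)).1 0
    rw [c0, S1_ist0, S1_ist0, hn]
  · show (ist (r3 v)).1 1 = (onS3 refl4 (ist v)).1 1
    rw [c1, S1_ist1, S1_ist1, hn]
    rfl
  · show (ist (r3 v)).1 2 = (onS3 refl4 (ist v)).1 2
    rw [c2, S1_ist2, S1_ist2, hn]
    rfl
  · show (ist (r3 v)).1 3 = (onS3 refl4 (ist v)).1 3
    rw [c3, S1_ist3, S1_ist3, hn]
    show 2 * (-v.2.2) / (1 + nn v) = -(2 * v.2.2 / (1 + nn v))
    ring

theorem refl4_of_zero_eq {x : S3} (hx : x.1 0 = -1) : onS3 refl4 x = x :=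
  eq_of_zero_eq ((S1_refl_coord x).1.trans hx) hx

end Pool.Agent.BI39
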