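import Mathlib
import Pool.Agent.Lib.BI39.Defs
import Pool.Agent.Lib.BI39.B0
import Pool.Agent.Lib.BI39.Stmt
import Pool.Agent.Lib.BI39.SDefs
import Pool.Agent.Lib.BI39.S1

/-!
BI39, row S2: the involution of the sphere given by an involution `f` of `ℝ³` with `f = r3` outside of the ball
of radius `2`; continuity, homotopy to the reflection, modulus.

`continuous_JS`: on the open set `{x | x.1 0 ≠ -1}` by composition; on the open set `{x | x.1 0 < -11/13}`
(there `nn (st x) > 12`, so `‖st x‖ > 2`) the map is `(u, x) ↦ onS3 refl4 x` (also at the centre,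
`refl4_of_zero_eq`; `ist_r3`, `ist_st`).
`JS_orRev`: the homotopy `(u, x) ↦ JS ((1 - u) • f + u • r3) x` (`continuous_JS` with parameter `u ∈ [0, 1]`).
`JS_modulus`: cases: both `‖st x‖, ‖st y‖ ≤ 3`: `dist_ist_le`, `dist_st_le`; both outside of the ball of radius
`2` (or the centre): the map is `onS3 refl4` at both points, an isometry; one inside the ball of radius `2` and
the other outside of the ball of radius `3`: `dist x y ≥ 1/10`, and distances on the sphere are at most `2`.
-/

set_option autoImplicit false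

namespace Pool.Agent.BI39

open Real unitInterval

private theorem S2_JS_of_ne {f : P3 → P3} {x : S3} (hx : x.1 0 ≠ -1) : JS f x = ist (f (st x)) := by
  unfold JS
  rw [if_neg hx]

private theorem S2_JS_of_eq {f : P3 → P3} {x : S3} (hx : x.1 0 = -1) : JS f x = x := by
  unfold JS
  rw [if_pos hx]

/-- outside of the ball of radius `2` the map is the reflection -/
private theorem S2_JS_of_out {f : P3 → P3} (hout : ∀ v, 2 < ‖v‖ → f v = r3 v) {x : S3}
    (hx : x.1 0 = -1 ∨ 2 < ‖st x‖) : JS f x = onS3 refl4 x := by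
  by_cases h0 : x.1 0 = -1
  · rw [S2_JS_of_eq h0, refl4_of_zero_eq h0]
  · have h1 : 2 < ‖st x‖ := by
      rcases hx with h | h
      · exact absurd h h0
      · exact h
    rw [S2_JS_of_ne h0, hout _ h1, ist_r3, ist_st h0]

private theorem S2_nn_le (v : P3) : nn v ≤ 3 * ‖v‖ ^ 2 := by
  have h1 : |v.1| ≤ ‖v‖ := by
    have := norm_fst_le v
    rwa [Real.norm_eq_abs] at this
  have h2 : |v.2.1| ≤ ‖v‖ := by
    have := (norm_fst_le v.2).trans (norm_snd_le v)
    rwa [Real.norm_eq_abs] at this
  have h3 : |v.2.2| ≤ ‖v‖ := by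
    have := (norm_snd_le v.2).trans (norm_snd_le v)
    rwa [Real.norm_eq_abs] at this
  have e1 := sq_le_sq' (by linarith [neg_abs_le v.1, abs_nonneg v.1]) ((le_abs_self v.1).trans h1)
  have e2 := sq_le_sq' (by linarith [neg_abs_le v.2.1, abs_nonneg v.2.1])
    ((le_abs_self v.2.1).trans h2)
  have e3 := sq_le_sq' (by linarith [neg_abs_le v.2.2, abs_nonneg v.2.2])
    ((le_abs_self v.2.2).trans h3)
  unfold nn
  linarith

private theorem S2_norm_st {x : S3} (hx : x.1 0 < -11 / 13) (h0 : x.1 0 ≠ -1) : 2 < ‖st x‖ := by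
  have hm : -1 ≤ x.1 0 := by
    have h := x.2
    rw [mem_sphere_zero_iff_norm] at h
    have h1 : ‖x.1 0‖ ≤ ‖x.1‖ := PiLp.norm_apply_le x.1 0
    rw [h, Real.norm_eq_abs] at h1
    exact (abs_le.1 h1).1
  have hp : 0 < 1 + x.1 0 := by
    have : -1 < x.1 0 := lt_of_le_of_ne hm (Ne.symm h0)
    linarith
  have h1 := nn_st h0
  have h2 : 12 < nn (st x) := by
    rw [h1, lt_div_iff₀ hp]
    linarith
  have h3 := S2_nn_le (st x)
  by_contra hcon
  push Not at hcon
  have h4 : ‖st x‖ ^ 2 ≤ 2 ^ 2 := pow_le_pow_left₀ (norm_nonneg _) hcon 2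
  linarith

theorem continuous_JS {T : Type*} [TopologicalSpace T] {F : T → P3 → P3}
    (hF : Continuous (Function.uncurry F)) (hout : ∀ u v, 2 < ‖v‖ → F u v = r3 v) :
    Continuous fun p : T × S3 => JS (F p.1) p.2 := by
  rw [continuous_iff_continuousAt]
  rintro ⟨t, x⟩
  by_cases hx : x.1 0 = -1
  · have hopen : IsOpen {p : T × S3 | p.2.1 0 < -11 / 13} :=
      isOpen_lt (by fun_prop) continuous_const
    have hmem : ((t, x) : T × S3) ∈ {p : T × S3 | p.2.1 0 < -11 / 13} := by
      show x.1 0 < -11 / 13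
      rw [hx]
      norm_num
    have hc : Continuous fun p : T × S3 => onS3 refl4 p.2 :=
      (onS3 refl4).continuous.comp continuous_snd
    refine hc.continuousAt.congr ?_
    filter_upwards [hopen.mem_nhds hmem] with p hp
    refine (S2_JS_of_out (hout p.1) ?_).symm
    by_cases h0 : p.2.1 0 = -1
    · exact Or.inl h0
    · exact Or.inr (S2_norm_st hp h0)
  · have hopen : IsOpen {p : T × S3 | p.2.1 0 ≠ -1} := isOpen_ne.preimage continuous_snd
    have hmem : ((t, x) : T × S3) ∈ {p : T × S3 | p.2.1 0 ≠ -1} := hx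
    have hst : ContinuousAt (fun p : T × S3 => st p.2) (t, x) := by
      have h1 : ContinuousAt st x := continuousOn_st.continuousAt (isOpen_ne.mem_nhds hx)
      exact ContinuousAt.comp (g := st) (f := fun p : T × S3 => p.2) h1 continuousAt_snd
    have hc : ContinuousAt (fun p : T × S3 => ist (F p.1 (st p.2))) (t, x) := by
      have h1 : ContinuousAt (fun p : T × S3 => (p.1, st p.2)) (t, x) :=
        continuousAt_fst.prodMk hst
      have h2 : ContinuousAt (fun p : T × S3 => Function.uncurry F (p.1, st p.2)) (t, x) :=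
        ContinuousAt.comp (g := Function.uncurry F) hF.continuousAt h1
      exact ContinuousAt.comp (g := ist) continuous_ist.continuousAt h2
    refine hc.congr ?_
    filter_upwards [hopen.mem_nhds hmem] with p hp
    exact (S2_JS_of_ne hp).symm

theorem JS_JS {f : P3 → P3} (hff : ∀ v, f (f v) = v) (x : S3) : JS f (JS f x) = x := by
  by_cases hx : x.1 0 = -1
  · rw [S2_JS_of_eq hx, S2_JS_of_eq hx]
  · rw [S2_JS_of_ne hx, S2_JS_of_ne (ist_ne _), st_ist, hff, ist_st hx]

/-- the homeomorphism -/
noncomputable def JSh (f : P3 → P3) (hf : Continuous f) (hff : ∀ v, f (f v) = v)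
    (hout : ∀ v, 2 < ‖v‖ → f v = r3 v) : S3 ≃ₜ S3 where
  toFun := JS f
  invFun := JS f
  left_inv := JS_JS hff
  right_inv := JS_JS hff
  continuous_toFun := by
    have h := continuous_JS (T := Unit) (F := fun _ => f) (hf.comp continuous_snd) (fun _ => hout)
    exact h.comp (Continuous.prodMk_right ())
  continuous_invFun := by
    have h := continuous_JS (T := Unit) (F := fun _ => f) (hf.comp continuous_snd) (fun _ => hout)
    exact h.comp (Continuous.prodMk_right ())

theorem JSh_apply {f : P3 → P3} {hf : Continuous f} {hff : ∀ v, f (f v) = v}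
    {hout : ∀ v, 2 < ‖v‖ → f v = r3 v} (x : S3) : JSh f hf hff hout x = JS f x := rfl

theorem JSh_isInvol {f : P3 → P3} (hf : Continuous f) (hff : ∀ v, f (f v) = v)
    (hout : ∀ v, 2 < ‖v‖ → f v = r3 v) : IsInvol (JSh f hf hff hout) := JS_JS hff

private theorem S2_JS_r3 (x : S3) : JS r3 x = onS3 refl4 x := by
  by_cases h0 : x.1 0 = -1
  · rw [S2_JS_of_eq h0, refl4_of_zero_eq h0]
  · rw [S2_JS_of_ne h0, ist_r3, ist_st h0]

theorem JSh_orRev {f : P3 → P3} (hf : Continuous f) (hff : ∀ v, f (f v) = v)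
    (hout : ∀ v, 2 < ‖v‖ → f v = r3 v) : OrRev (JSh f hf hff hout) := by
  let F : I → P3 → P3 := fun u v => (1 - (u : ℝ)) • f v + (u : ℝ) • r3 v
  have hF : Continuous (Function.uncurry F) := by
    have h1 : Continuous fun p : I × P3 => (1 - (p.1 : ℝ)) • f p.2 + (p.1 : ℝ) • r3 p.2 := by
      have h2 : Continuous fun p : I × P3 => f p.2 := hf.comp continuous_snd
      have h3 : Continuous fun p : I × P3 => r3 p.2 := continuous_r3.comp continuous_snd
      have h4 : Continuous fun p : I × P3 => (p.1 : ℝ) :=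
        continuous_subtype_val.comp continuous_fst
      exact ((continuous_const.sub h4).smul h2).add (h4.smul h3)
    exact h1
  have hFout : ∀ u v, 2 < ‖v‖ → F u v = r3 v := by
    intro u v hv
    show (1 - (u : ℝ)) • f v + (u : ℝ) • r3 v = r3 v
    rw [hout v hv, ← add_smul]
    simp
  have hc := continuous_JS hF hFout
  refine ⟨⟨⟨fun p => JS (F p.1) p.2, hc⟩, ?_, ?_⟩⟩
  · intro x
    show JS (F 0) x = JS f x
    have : F 0 = f := by
      funext v
      show (1 - ((0 : I) : ℝ)) • f v + ((0 : I) : ℝ) • r3 v = f v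
      simp
    rw [this]
  · intro x
    show JS (F 1) x = onS3 refl4 x
    have : F 1 = r3 := by
      funext v
      show (1 - ((1 : I) : ℝ)) • f v + ((1 : I) : ℝ) • r3 v = r3 v
      simp
    rw [this, S2_JS_r3]

end Pool.Agent.BI39
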