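import Mathlib
import Pool.Agent.Lib.BI39.Defs
import Pool.Agent.Lib.BI39.B0
import Pool.Agent.Lib.BI39.Stmt
import Pool.Agent.Lib.BI39.SDefs
import Pool.Agent.Lib.BI39.S1

/-!
BI39, row S1b: stereographic projection, metric properties.
`dist_ge_of_norm_st`: `nn (st x) ≤ 12`; if `y` is the centre then `dist ^ 2 = 4 / (1 + nn (st x)) ≥ 4 / 13`; otherwise
with `s = |st y|` (euclidean), `s ≥ 3`: `|st x - st y| ≥ max 1 (s - 2 √3)` and `sq_dist_ist`.
-/

set_option autoImplicit false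

namespace Pool.Agent.BI39

open Real

theorem sq_dist_ist (v v' : P3) : dist (ist v) (ist v') ^ 2 = 4 * e2 v v' / ((1 + nn v) * (1 + nn v')) := by
  have h0 : (1 + nn v) ≠ 0 := by have := nn_nonneg v; positivity
  have h1 : (1 + nn v') ≠ 0 := by have := nn_nonneg v'; positivity
  rw [Subtype.dist_eq, EuclideanSpace.dist_eq, Real.sq_sqrt (by positivity)]
  simp only [Fin.sum_univ_four, Real.dist_eq, sq_abs]
  have e0 : ∀ u : P3, (ist u).1 0 = (1 - nn u) / (1 + nn u) := fun u => rfl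
  have e1 : ∀ u : P3, (ist u).1 1 = 2 * u.1 / (1 + nn u) := fun u => rfl
  have e2' : ∀ u : P3, (ist u).1 2 = 2 * u.2.1 / (1 + nn u) := fun u => rfl
  have e3 : ∀ u : P3, (ist u).1 3 = 2 * u.2.2 / (1 + nn u) := fun u => rfl
  rw [e0, e0, e1, e1, e2', e2', e3, e3]
  have hn : nn v = v.1 ^ 2 + v.2.1 ^ 2 + v.2.2 ^ 2 := rfl
  have hn' : nn v' = v'.1 ^ 2 + v'.2.1 ^ 2 + v'.2.2 ^ 2 := rfl
  have he : e2 v v' = nn v + nn v' - 2 * (v.1 * v'.1 + v.2.1 * v'.2.1 + v.2.2 * v'.2.2) := by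
    unfold e2
    rw [hn, hn']
    ring
  rw [he]
  field_simp
  rw [hn, hn']
  ring

private theorem S1b_dist_cases (v v' : P3) : dist v v' = |v.1 - v'.1| ∨
    dist v v' = |v.2.1 - v'.2.1| ∨ dist v v' = |v.2.2 - v'.2.2| := by
  have h : dist v v' = max |v.1 - v'.1| (max |v.2.1 - v'.2.1| |v.2.2 - v'.2.2|) := rfl
  rw [h]
  rcases max_choice |v.1 - v'.1| (max |v.2.1 - v'.2.1| |v.2.2 - v'.2.2|) with h1 | h1
  · exact Or.inl h1
  · rw [h1]
    rcases max_choice |v.2.1 - v'.2.1| |v.2.2 - v'.2.2| with h2 | h2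
    · exact Or.inr (Or.inl h2)
    · exact Or.inr (Or.inr h2)

private theorem S1b_sq_dist_le (v v' : P3) : dist v v' ^ 2 ≤ e2 v v' := by
  unfold e2
  rcases S1b_dist_cases v v' with h | h | h
  · rw [h, sq_abs]
    nlinarith [sq_nonneg (v.2.1 - v'.2.1), sq_nonneg (v.2.2 - v'.2.2)]
  · rw [h, sq_abs]
    nlinarith [sq_nonneg (v.1 - v'.1), sq_nonneg (v.2.2 - v'.2.2)]
  · rw [h, sq_abs]
    nlinarith [sq_nonneg (v.1 - v'.1), sq_nonneg (v.2.1 - v'.2.1)]

private theorem S1b_e2_le (v v' : P3) : e2 v v' ≤ 3 * dist v v' ^ 2 := by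
  have h : dist v v' = max |v.1 - v'.1| (max |v.2.1 - v'.2.1| |v.2.2 - v'.2.2|) := rfl
  have h1 : |v.1 - v'.1| ≤ dist v v' := by rw [h]; exact le_max_left _ _
  have h2 : |v.2.1 - v'.2.1| ≤ dist v v' := by
    rw [h]; exact (le_max_left _ _).trans (le_max_right _ _)
  have h3 : |v.2.2 - v'.2.2| ≤ dist v v' := by
    rw [h]; exact (le_max_right _ _).trans (le_max_right _ _)
  have q1 := pow_le_pow_left₀ (abs_nonneg _) h1 2
  have q2 := pow_le_pow_left₀ (abs_nonneg _) h2 2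
  have q3 := pow_le_pow_left₀ (abs_nonneg _) h3 2
  rw [sq_abs] at q1 q2 q3
  unfold e2
  linarith

private theorem S1b_nn_le (v : P3) : nn v ≤ 3 * ‖v‖ ^ 2 := by
  have h := S1b_e2_le v 0
  rw [dist_zero_right] at h
  have h1 : e2 v 0 = nn v := by
    unfold e2 nn
    simp
  rwa [h1] at h

theorem dist_ist_le (v v' : P3) : dist (ist v) (ist v') ≤ 4 * dist v v' := by
  have h1 := S1b_e2_le v v'
  have h0 : 0 ≤ e2 v v' := (sq_nonneg _).trans (S1b_sq_dist_le v v')
  have hD : 1 ≤ (1 + nn v) * (1 + nn v') := by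
    have a := nn_nonneg v
    have b := nn_nonneg v'
    nlinarith [mul_nonneg a b]
  have h2 : dist (ist v) (ist v') ^ 2 ≤ (4 * dist v v') ^ 2 := by
    rw [sq_dist_ist]
    calc 4 * e2 v v' / ((1 + nn v) * (1 + nn v')) ≤ 4 * e2 v v' :=
          div_le_self (by positivity) hD
      _ ≤ (4 * dist v v') ^ 2 := by nlinarith [sq_nonneg (dist v v')]
  exact (pow_le_pow_iff_left₀ dist_nonneg (by positivity) two_ne_zero).1 h2

theorem dist_st_le {x y : S3} (hx : x.1 0 ≠ -1) (hy : y.1 0 ≠ -1) (hx' : ‖st x‖ ≤ 3)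
    (hy' : ‖st y‖ ≤ 3) : dist (st x) (st y) ≤ 20 * dist x y := by
  have h1 := sq_dist_ist (st x) (st y)
  rw [ist_st hx, ist_st hy] at h1
  have a0 := nn_nonneg (st x)
  have b0 := nn_nonneg (st y)
  have a1 : nn (st x) ≤ 27 := by
    have h := S1b_nn_le (st x)
    have h2 := pow_le_pow_left₀ (norm_nonneg _) hx' 2
    linarith
  have b1 : nn (st y) ≤ 27 := by
    have h := S1b_nn_le (st y)
    have h2 := pow_le_pow_left₀ (norm_nonneg _) hy' 2
    linarith
  have he := S1b_sq_dist_le (st x) (st y)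
  have hD : 0 < (1 + nn (st x)) * (1 + nn (st y)) := by positivity
  have hD' : (1 + nn (st x)) * (1 + nn (st y)) ≤ 28 * 28 :=
    mul_le_mul (by linarith) (by linarith) (by positivity) (by norm_num)
  rw [eq_div_iff hD.ne'] at h1
  have h2 : dist (st x) (st y) ^ 2 ≤ (20 * dist x y) ^ 2 := by
    have h3 : dist x y ^ 2 * ((1 + nn (st x)) * (1 + nn (st y))) ≤ dist x y ^ 2 * (28 * 28) :=
      mul_le_mul_of_nonneg_left hD' (sq_nonneg _)
    nlinarith [sq_nonneg (dist x y)]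
  exact (pow_le_pow_iff_left₀ dist_nonneg (by positivity) two_ne_zero).1 h2

private theorem S1b_coord (x y : S3) : |x.1 0 - y.1 0| ≤ dist x y := by
  rw [Subtype.dist_eq, EuclideanSpace.dist_eq]
  apply Real.le_sqrt_of_sq_le
  rw [sq_abs, Fin.sum_univ_four]
  simp only [Real.dist_eq, sq_abs]
  nlinarith [sq_nonneg (x.1 1 - y.1 1), sq_nonneg (x.1 2 - y.1 2), sq_nonneg (x.1 3 - y.1 3)]

theorem dist_ge_of_norm_st {x y : S3} (hx : x.1 0 ≠ -1) (hx' : ‖st x‖ ≤ 2)
    (hy : y.1 0 = -1 ∨ 3 < ‖st y‖) : 1 / 10 ≤ dist x y := by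
  have a0 := nn_nonneg (st x)
  have a1 : nn (st x) ≤ 12 := by
    have h := S1b_nn_le (st x)
    have h2 := pow_le_pow_left₀ (norm_nonneg _) hx' 2
    linarith
  by_cases hy1 : y.1 0 = -1
  · have h := S1b_coord x y
    have hx0 : x.1 0 = (1 - nn (st x)) / (1 + nn (st x)) := by
      rw [← ist_zero, ist_st hx]
    have h1 : x.1 0 - y.1 0 = 2 / (1 + nn (st x)) := by
      rw [hx0, hy1]
      have : (1 + nn (st x)) ≠ 0 := by positivity
      field_simp
      ring
    have h2 : 1 / 10 ≤ 2 / (1 + nn (st x)) := by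
      rw [div_le_div_iff₀ (by norm_num) (by positivity)]
      linarith
    rw [h1, abs_of_pos (by positivity)] at h
    exact h2.trans h
  · have hy2 : 3 < ‖st y‖ := hy.resolve_left hy1
    have h1 := sq_dist_ist (st x) (st y)
    rw [ist_st hx, ist_st hy1] at h1
    have b0 := nn_nonneg (st y)
    have hD : 0 < (1 + nn (st x)) * (1 + nn (st y)) := by positivity
    have he1 : 1 ≤ e2 (st x) (st y) := by
      have h := S1b_sq_dist_le (st x) (st y)
      have h3 : 1 ≤ dist (st x) (st y) := by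
        have h4 := norm_sub_norm_le (st y) (st x)
        rw [← dist_eq_norm, dist_comm] at h4
        linarith
      nlinarith
    have he2 : (nn (st y) - 2 * nn (st x)) / 2 ≤ e2 (st x) (st y) := by
      unfold e2 nn
      nlinarith [sq_nonneg ((st y).1 - 2 * (st x).1), sq_nonneg ((st y).2.1 - 2 * (st x).2.1),
        sq_nonneg ((st y).2.2 - 2 * (st x).2.2)]
    have key : (1 + nn (st x)) * (1 + nn (st y)) ≤ 400 * e2 (st x) (st y) := by
      have h5 : (1 + nn (st x)) * (1 + nn (st y)) ≤ 13 * (1 + nn (st y)) :=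
        mul_le_mul_of_nonneg_right (by linarith) (by positivity)
      rcases le_total (nn (st y)) 29 with h6 | h6
      · linarith
      · linarith
    rw [eq_div_iff hD.ne'] at h1
    have h2 : (1 / 10) ^ 2 ≤ dist x y ^ 2 := by
      by_contra hcon
      push Not at hcon
      have h7 : dist x y ^ 2 * ((1 + nn (st x)) * (1 + nn (st y))) <
          (1 / 10) ^ 2 * ((1 + nn (st x)) * (1 + nn (st y))) := mul_lt_mul_of_pos_right hcon hD
      linarith
    exact (pow_le_pow_iff_left₀ (by norm_num) dist_nonneg two_ne_zero).1 h2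

end Pool.Agent.BI39
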