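import Mathlib
import Pool.Agent.Lib.BI39.Defs
import Pool.Agent.Lib.BI39.B0
import Pool.Agent.Lib.BI39.Stmt
import Pool.Agent.Lib.BI39.SDefs
import Pool.Agent.Lib.BI39.S1
import Pool.Agent.Lib.BI39.S1b

/-!
BI39, row S2b: the modulus of `JS f`.
Cases: both `‖st x‖, ‖st y‖ ≤ 3`: `dist_ist_le`, `dist_st_le`; both outside of the ball of radius
`2` (or the centre): the map is `onS3 refl4` at both points, an isometry; one inside the ball of radius `2` and
the other outside of the ball of radius `3`: `dist x y ≥ 1/10`, and distances on the sphere are at most `2`.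
-/

set_option autoImplicit false

namespace Pool.Agent.BI39

open Real unitInterval

private theorem S2b_JS_of_ne {f : P3 → P3} {x : S3} (hx : x.1 0 ≠ -1) : JS f x = ist (f (st x)) := by
  unfold JS
  rw [if_neg hx]

private theorem S2b_JS_of_eq {f : P3 → P3} {x : S3} (hx : x.1 0 = -1) : JS f x = x := by
  unfold JS
  rw [if_pos hx]

private theorem S2b_JS_of_out {f : P3 → P3} (hout : ∀ v, 2 < ‖v‖ → f v = r3 v) {x : S3}
    (hx : x.1 0 = -1 ∨ 2 < ‖st x‖) : JS f x = onS3 refl4 x := by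
  by_cases h0 : x.1 0 = -1
  · rw [S2b_JS_of_eq h0, refl4_of_zero_eq h0]
  · have h1 : 2 < ‖st x‖ := by
      rcases hx with h | h
      · exact absurd h h0
      · exact h
    rw [S2b_JS_of_ne h0, hout _ h1, ist_r3, ist_st h0]

private theorem S2b_dist_refl (x y : S3) : dist (onS3 refl4 x) (onS3 refl4 y) = dist x y := by
  show dist (refl4 x.1) (refl4 y.1) = dist x.1 y.1
  exact refl4.dist_map _ _

private theorem S2b_dist_le_two (x y : S3) : dist x y ≤ 2 := by
  have hx := x.2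
  have hy := y.2
  rw [mem_sphere_zero_iff_norm] at hx hy
  have h1 : dist x.1 y.1 ≤ ‖x.1‖ + ‖y.1‖ := by
    rw [dist_eq_norm]
    exact norm_sub_le _ _
  rw [hx, hy] at h1
  show dist x.1 y.1 ≤ 2
  linarith

/-- one point in the ball of radius `2` -/
private theorem S2b_in {f : P3 → P3} {A B : ℝ} (hA : 1 ≤ A)
    (hB : 0 ≤ B) (h : ∀ v v', dist (f v) (f v') ≤ A * dist v v' + B) {x y : S3}
    (hx : x.1 0 ≠ -1) (hx2 : ‖st x‖ ≤ 2) :
    dist (JS f x) (JS f y) ≤ 200 * (A * dist x y + B) := by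
  have hd0 : 0 ≤ dist x y := dist_nonneg
  have hAd : 0 ≤ A * dist x y := by positivity
  by_cases hy : y.1 0 = -1 ∨ 3 < ‖st y‖
  · have h1 := dist_ge_of_norm_st hx hx2 hy
    have h2 := S2b_dist_le_two (JS f x) (JS f y)
    nlinarith
  · push Not at hy
    obtain ⟨hy0, hy3⟩ := hy
    rw [S2b_JS_of_ne hx, S2b_JS_of_ne hy0]
    have h1 := dist_ist_le (f (st x)) (f (st y))
    have h2 := h (st x) (st y)
    have h3 := dist_st_le hx hy0 (by linarith) hy3
    have h4 : A * dist (st x) (st y) ≤ A * (20 * dist x y) :=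
      mul_le_mul_of_nonneg_left h3 (by linarith)
    nlinarith

theorem JS_modulus {f : P3 → P3} (hout : ∀ v, 2 < ‖v‖ → f v = r3 v) {A B : ℝ} (hA : 1 ≤ A)
    (hB : 0 ≤ B) (h : ∀ v v', dist (f v) (f v') ≤ A * dist v v' + B) (x y : S3) :
    dist (JS f x) (JS f y) ≤ 200 * (A * dist x y + B) := by
  by_cases hx : x.1 0 = -1 ∨ 2 < ‖st x‖
  · by_cases hy : y.1 0 = -1 ∨ 2 < ‖st y‖
    · rw [S2b_JS_of_out hout hx, S2b_JS_of_out hout hy, S2b_dist_refl]
      have hd0 : 0 ≤ dist x y := dist_nonneg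
      nlinarith
    · push Not at hy
      rw [dist_comm, dist_comm x y]
      exact S2b_in hA hB h hy.1 hy.2
  · push Not at hx
    exact S2b_in hA hB h hx.1 hx.2

end Pool.Agent.BI39
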