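import Mathlib
import Pool.Agent.Lib.BI39.Defs
import Pool.Agent.Lib.BI39.Stmt
import Pool.Agent.Lib.BI39.G2
import Pool.Agent.Lib.BI39.SDefs
import Pool.Agent.Lib.BI39.S1
import Pool.Agent.Lib.BI39.S2

/-!
BI39, row S4: wildness of the involution of the sphere.

Let `Ω = {x : S3 | JS f x ≠ x} = ist '' V ∪ ist '' {v | f v ∈ V}`, a disjoint union of two open sets exchanged
by `JS f`. Suppose `h ∘ JS f ∘ h⁻¹ = A`. Then `h '' Ω = {y | A y ≠ y}`.
(1) `A` is an orthogonal involution; `E' = {v | A v = -v}`, `{v | A v = v}` are orthogonal and span `ℝ⁴`.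
If `dim E' ≥ 2` then the unit sphere of `E'` is connected (`isConnected_sphere`) and contained in
`h '' Ω`, and it contains with `y` also `A y = -y`: contradiction, `y` and `A y` are in different parts.
If `E' = 0` then `A = 1`, but `Ω` is not empty (`μ 0`). So `E' = ℝ e`, `‖e‖ = 1`, and
`h '' Ω = {y | inner y e ≠ 0}`.
(2) The curve `γ s = h (ist (μ s))`, `0 ≤ s ≤ 1`, has `inner (γ s) e` of constant sign `σ`. The map
`(s, t) ↦ normalisation of (1 - t) γ s + t γ 0` is a null homotopy in `{y | 0 < σ * inner y e}`; apply `h⁻¹` and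
`st` to get a null homotopy `H` of `μ` in `{v | f v ≠ v} = V ∪ {v | f v ∈ V}`; the square is connected and
`H (0, 0) = μ 0 ∈ V`, so `H` has values in `V`: contradiction.
-/

set_option autoImplicit false

namespace Pool.Agent.BI39

open Real unitInterval

open RealInnerProductSpace in
private theorem s4_key {f : P3 → P3} (hf : Continuous f) (hff : ∀ v, f (f v) = v)
    (hout : ∀ v, 2 < ‖v‖ → f v = r3 v) {V : Set P3} (hV : IsOpen V)
    (h1 : ∀ v, f v ≠ v ↔ v ∈ V ∨ f v ∈ V) (h2 : ∀ v ∈ V, f v ∉ V)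
    (A : V4 ≃ₗᵢ[ℝ] V4) (h : S3 ≃ₜ S3)
    (hh : ∀ x : S3, ((h (JSh f hf hff hout (h.symm x)) : S3) : V4) = A (x : V4)) :
    ∃ O1 O2 : Set S3, IsOpen O1 ∧ IsOpen O2 ∧ Disjoint O1 O2 ∧
      (∀ x, JSh f hf hff hout x ≠ x → x ∈ O1 ∪ O2) ∧
      (∀ x, x ∈ O1 → x.1 0 ≠ -1 ∧ st x ∈ V) ∧ (∀ v, v ∈ V → ist v ∈ O1) ∧
      (∀ x ∈ O1, JSh f hf hff hout x ∈ O2) ∧ (∀ x ∈ O2, JSh f hf hff hout x ∈ O1) ∧
      (∀ x ∈ O2, x.1 0 ≠ -1) := by
  have hJst : ∀ x : S3, x.1 0 ≠ -1 → JSh f hf hff hout x = ist (f (st x)) := by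
    intro x hx
    rw [JSh_apply, JS, if_neg hx]
  refine ⟨{x : S3 | x.1 0 ≠ -1 ∧ st x ∈ V}, {x : S3 | x.1 0 ≠ -1 ∧ f (st x) ∈ V}, ?_, ?_, ?_, ?_,
    ?_, ?_, ?_, ?_, ?_⟩
  · exact continuousOn_st.isOpen_inter_preimage isOpen_ne hV
  · exact continuousOn_st.isOpen_inter_preimage isOpen_ne (hV.preimage hf)
  · rw [Set.disjoint_left]
    rintro x ⟨_, hx⟩ ⟨_, hx'⟩
    exact h2 _ hx hx'
  · intro x hx
    have hx0 : x.1 0 ≠ -1 := by
      intro h0
      apply hx
      rw [JSh_apply, JS, if_pos h0]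
    rw [hJst x hx0] at hx
    have hne : f (st x) ≠ st x := by
      intro he
      apply hx
      rw [he, ist_st hx0]
    rcases (h1 _).1 hne with h' | h'
    · exact Or.inl ⟨hx0, h'⟩
    · exact Or.inr ⟨hx0, h'⟩
  · intro x hx
    exact hx
  · intro v hv
    refine ⟨ist_ne v, ?_⟩
    rw [st_ist]
    exact hv
  · rintro x ⟨hx0, hx⟩
    rw [hJst x hx0]
    refine ⟨ist_ne _, ?_⟩
    rw [st_ist, hff]
    exact hx
  · rintro x ⟨hx0, hx⟩
    rw [hJst x hx0]
    refine ⟨ist_ne _, ?_⟩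
    rw [st_ist]
    exact hx
  · intro x hx
    exact hx.1

open RealInnerProductSpace in
theorem JSh_isWild {f : P3 → P3} (hf : Continuous f) (hff : ∀ v, f (f v) = v)
    (hout : ∀ v, 2 < ‖v‖ → f v = r3 v) {V : Set P3} (hV : IsOpen V)
    (h1 : ∀ v, f v ≠ v ↔ v ∈ V ∨ f v ∈ V) (h2 : ∀ v ∈ V, f v ∉ V) {μ : ℝ → P3} (hμ : Continuous μ)
    (hμV : ∀ s, μ s ∈ V) (hμ1 : μ 1 = μ 0) (hn : ¬ NullIn V μ) : IsWild (JSh f hf hff hout) := by
  intro A hA
  rintro ⟨h, hh⟩
  obtain ⟨O1, O2, hO1, hO2, hdisj, hcov, hO1V, hVO1, hJ1, hJ2, hO2n⟩ :=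
    s4_key hf hff hout hV h1 h2 A h hh
  set J : S3 ≃ₜ S3 := JSh f hf hff hout with hJ
  have hconj : ∀ x : S3, ((h (J x) : S3) : V4) = A (h x : V4) := by
    intro x
    have := hh (h x)
    rwa [h.symm_apply_apply] at this
  have hmoved : ∀ y : S3, A (y : V4) ≠ y → J (h.symm y) ≠ h.symm y := by
    intro y hy he
    apply hy
    rw [← hh y, he, h.apply_symm_apply]
  have key : ∀ {T : Type} [TopologicalSpace T] [PreconnectedSpace T] (G : T → S3), Continuous G →
      (∀ t, A (G t : V4) ≠ (G t : V4)) → ∀ t t', h.symm (G t) ∈ O1 → h.symm (G t') ∈ O1 := by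
    intro T _ _ G hG hGA t t' ht
    have hpre : IsPreconnected (Set.range fun t => h.symm (G t)) :=
      isPreconnected_range (h.symm.continuous.comp hG)
    have hsub : (Set.range fun t => h.symm (G t)) ⊆ O1 := by
      refine hpre.subset_left_of_subset_union hO1 hO2 hdisj ?_ ⟨_, ⟨t, rfl⟩, ht⟩
      rintro _ ⟨s, rfl⟩
      exact hcov _ (hmoved _ (hGA s))
    exact hsub ⟨t', rfl⟩
  -- the vector e0
  set y0 : V4 := (h (ist (μ 0)) : V4) with hy0
  have hinner : ∀ x y : V4, ⟪A x, A y⟫ = ⟪x, y⟫ := fun x y => A.inner_map_map x y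
  have hneJ : ∀ x ∈ O1, J x ≠ x := by
    intro x hx he
    have := hJ1 x hx
    rw [he] at this
    exact Set.disjoint_left.1 hdisj hx this
  have hAγ : ∀ s, A (h (ist (μ s)) : V4) ≠ (h (ist (μ s)) : V4) := by
    intro s he
    rw [← hconj] at he
    exact hneJ _ (hVO1 _ (hμV s)) (h.injective (Subtype.ext he))
  set e0 : V4 := y0 - A y0 with he0
  have he0ne : e0 ≠ 0 := by
    intro h0
    exact hAγ 0 (sub_eq_zero.1 h0).symm
  have hAe0 : A e0 = -e0 := by
    rw [he0, map_sub, hA]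
    abel
  have hAin : ∀ y : V4, ⟪A y, e0⟫ = -⟪y, e0⟫ := by
    intro y
    have h3 := hinner y e0
    rw [hAe0, inner_neg_right] at h3
    linarith
  have claim : ∀ w : V4, A w = -w → ⟪w, e0⟫ = 0 → w = 0 := by
    intro w hw hw0
    by_contra hwne
    have hwn : ‖w‖ ≠ 0 := norm_ne_zero_iff.2 hwne
    have hen : ‖e0‖ ≠ 0 := norm_ne_zero_iff.2 he0ne
    set u : V4 := ‖e0‖⁻¹ • e0 with hu
    set w' : V4 := ‖w‖⁻¹ • w with hw'
    have hAu : A u = -u := by rw [hu, map_smul, hAe0, smul_neg]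
    have hAw' : A w' = -w' := by rw [hw', map_smul, hw, smul_neg]
    have huu : ⟪u, u⟫ = 1 := by
      rw [real_inner_self_eq_norm_sq, hu, norm_smul, norm_inv, norm_norm, inv_mul_cancel₀ hen,
        one_pow]
    have hww : ⟪w', w'⟫ = 1 := by
      rw [real_inner_self_eq_norm_sq, hw', norm_smul, norm_inv, norm_norm, inv_mul_cancel₀ hwn,
        one_pow]
    have huw : ⟪u, w'⟫ = 0 := by
      rw [hu, hw', inner_smul_left, inner_smul_right, real_inner_comm, hw0]
      simp
    have hwu : ⟪w', u⟫ = 0 := by rw [real_inner_comm]; exact huw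
    have hnorm : ∀ θ : ℝ, ‖Real.cos θ • u + Real.sin θ • w'‖ = 1 := by
      intro θ
      have h4 : ‖Real.cos θ • u + Real.sin θ • w'‖ ^ 2 = 1 := by
        rw [← real_inner_self_eq_norm_sq, inner_add_left, inner_add_right, inner_add_right]
        simp only [inner_smul_left, inner_smul_right, huu, hww, huw, hwu]
        have h5 := Real.sin_sq_add_cos_sq θ
        simp only [conj_trivial]
        linarith
      have h6 := norm_nonneg (Real.cos θ • u + Real.sin θ • w')
      nlinarith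
    set G : ℝ → S3 := fun θ => ⟨Real.cos θ • u + Real.sin θ • w', by
      rw [mem_sphere_zero_iff_norm]; exact hnorm θ⟩ with hG
    have hGc : Continuous G := by
      rw [hG]
      refine Continuous.subtype_mk ?_ _
      exact (Real.continuous_cos.smul continuous_const).add
        (Real.continuous_sin.smul continuous_const)
    have hGA' : ∀ θ, A (G θ : V4) = -(G θ : V4) := by
      intro θ
      change A (Real.cos θ • u + Real.sin θ • w') = -(Real.cos θ • u + Real.sin θ • w')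
      rw [map_add, map_smul A (Real.cos θ) u, map_smul A (Real.sin θ) w', hAu, hAw', smul_neg,
        smul_neg]
      abel
    have hGA : ∀ θ, A (G θ : V4) ≠ (G θ : V4) := by
      intro θ he
      rw [hGA' θ] at he
      have h7 : (G θ : V4) = 0 := by
        have h8 : (2 : ℝ) • (G θ : V4) = 0 := by
          rw [two_smul]
          nth_rewrite 1 [← he]
          simp
        exact (smul_eq_zero.1 h8).resolve_left two_ne_zero
      have h9 : ‖(G θ : V4)‖ = 1 := hnorm θ
      rw [h7, norm_zero] at h9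
      exact zero_ne_one h9
    -- h.symm (G π) = J (h.symm (G 0))
    have hGπ : h.symm (G Real.pi) = J (h.symm (G 0)) := by
      have h10 : G Real.pi = h (J (h.symm (G 0))) := by
        apply Subtype.ext
        rw [hh (G 0), hGA' 0]
        change Real.cos Real.pi • u + Real.sin Real.pi • w' = -(Real.cos 0 • u + Real.sin 0 • w')
        simp
      rw [h10, h.symm_apply_apply]
    rcases hcov _ (hmoved _ (hGA 0)) with h11 | h11
    · have h12 := key G hGc hGA 0 Real.pi h11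
      rw [hGπ] at h12
      exact Set.disjoint_left.1 hdisj h12 (hJ1 _ h11)
    · have h12 := hJ2 _ h11
      rw [← hGπ] at h12
      have h13 := key G hGc hGA Real.pi 0 h12
      exact Set.disjoint_left.1 hdisj h13 h11
  have hfix : ∀ y : V4, ⟪y, e0⟫ ≠ 0 → A y ≠ y := by
    intro y hy he
    have h3 := hAin y
    rw [he] at h3
    apply hy
    linarith
  have hfix2 : ∀ y : V4, A y ≠ y → ⟪y, e0⟫ ≠ 0 := by
    intro y hy h0
    have h3 : y - A y = 0 := by
      apply claim
      · rw [map_sub, hA]; abel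
      · rw [inner_sub_left, hAin, h0]; simp
    exact hy (sub_eq_zero.1 h3).symm
  -- the curve
  have hγc : Continuous fun s : ℝ => ((h (ist (μ s)) : S3) : V4) :=
    continuous_subtype_val.comp (h.continuous.comp (continuous_ist.comp hμ))
  have hφc : Continuous fun s : ℝ => ⟪((h (ist (μ s)) : S3) : V4), e0⟫ :=
    hγc.inner continuous_const
  have hφ0 : 0 < ⟪y0, e0⟫ := by
    have h3 : ⟪e0, e0⟫ = 2 * ⟪y0, e0⟫ := by
      nth_rewrite 1 [he0]
      rw [inner_sub_left, hAin]
      ring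
    have h4 : 0 < ⟪e0, e0⟫ := by
      rw [real_inner_self_eq_norm_sq]
      have := norm_pos_iff.2 he0ne
      positivity
    linarith
  have hφ : ∀ s, 0 < ⟪((h (ist (μ s)) : S3) : V4), e0⟫ := by
    intro s
    by_contra hle
    push Not at hle
    obtain ⟨r, hr⟩ := mem_range_of_exists_le_of_exists_ge hφc ⟨s, hle⟩ ⟨0, hφ0.le⟩
    exact hfix2 _ (hAγ r) hr
  -- the homotopy
  have hpos : ∀ p : I × I, 0 < ⟪(1 - (p.2 : ℝ)) • ((h (ist (μ p.1)) : S3) : V4) + (p.2 : ℝ) • y0, e0⟫ := by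
    intro p
    rw [inner_add_left, inner_smul_left, inner_smul_left]
    simp only [conj_trivial]
    have h3 := hφ p.1
    have h4 : 0 ≤ (p.2 : ℝ) := p.2.2.1
    have h5 : (p.2 : ℝ) ≤ 1 := p.2.2.2
    rcases eq_or_lt_of_le h4 with h6 | h6
    · rw [← h6]; simpa using h3
    · have h7 := mul_pos h6 hφ0
      have h8 := mul_nonneg (sub_nonneg.2 h5) h3.le
      linarith
  have hne0 : ∀ p : I × I,
      (1 - (p.2 : ℝ)) • ((h (ist (μ p.1)) : S3) : V4) + (p.2 : ℝ) • y0 ≠ 0 := by
    intro p h0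
    have h3 := hpos p
    rw [h0, inner_zero_left] at h3
    exact lt_irrefl _ h3
  set K : I × I → V4 := fun p =>
    (1 - (p.2 : ℝ)) • ((h (ist (μ p.1)) : S3) : V4) + (p.2 : ℝ) • y0 with hK
  have hKc : Continuous K := by
    rw [hK]
    have hc1 : Continuous fun p : I × I => ((h (ist (μ p.1)) : S3) : V4) :=
      hγc.comp (continuous_subtype_val.comp continuous_fst)
    have hc2 : Continuous fun p : I × I => (p.2 : ℝ) := continuous_subtype_val.comp continuous_snd
    exact ((continuous_const.sub hc2).smul hc1).add (hc2.smul continuous_const)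
  set G : I × I → S3 := fun p => ⟨‖K p‖⁻¹ • K p, by
    rw [mem_sphere_zero_iff_norm, norm_smul, norm_inv, norm_norm,
      inv_mul_cancel₀ (norm_ne_zero_iff.2 (hne0 p))]⟩ with hG
  have hGc : Continuous G := by
    rw [hG]
    refine Continuous.subtype_mk ?_ _
    exact (hKc.norm.inv₀ fun p => norm_ne_zero_iff.2 (hne0 p)).smul hKc
  have hGA : ∀ p, A (G p : V4) ≠ (G p : V4) := by
    intro p
    apply hfix
    change ⟪‖K p‖⁻¹ • K p, e0⟫ ≠ 0
    rw [inner_smul_left]
    simp only [conj_trivial]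
    have h3 := hpos p
    have h4 : 0 < ‖K p‖ := norm_pos_iff.2 (hne0 p)
    exact (mul_pos (inv_pos.2 h4) h3).ne'
  have hγn : ∀ s, ‖((h (ist (μ s)) : S3) : V4)‖ = 1 := fun s =>
    mem_sphere_zero_iff_norm.1 (h (ist (μ s))).2
  have hval : ∀ p s, K p = ((h (ist (μ s)) : S3) : V4) → h.symm (G p) = ist (μ s) := by
    intro p s hp
    have h3 : G p = h (ist (μ s)) := by
      apply Subtype.ext
      change ‖K p‖⁻¹ • K p = _
      rw [hp, hγn, inv_one, one_smul]
    rw [h3, h.symm_apply_apply]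
  have hK0 : ∀ s : I, K (s, 0) = ((h (ist (μ s)) : S3) : V4) := by
    intro s
    simp [hK]
  have hK1 : ∀ s : I, K (s, 1) = ((h (ist (μ 0)) : S3) : V4) := by
    intro s
    simp [hK, hy0]
  have hK2 : ∀ t : I, K (0, t) = ((h (ist (μ 0)) : S3) : V4) := by
    intro t
    simp only [hK, hy0, Set.Icc.coe_zero]
    rw [← add_smul]
    simp
  have hK3 : ∀ t : I, K (1, t) = ((h (ist (μ 0)) : S3) : V4) := by
    intro t
    simp only [hK, hy0, Set.Icc.coe_one, hμ1]
    rw [← add_smul]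
    simp
  have hin : ∀ p, h.symm (G p) ∈ O1 := by
    intro p
    refine key G hGc hGA ((0 : I), (0 : I)) p ?_
    rw [hval _ _ (hK0 0)]
    exact hVO1 _ (hμV _)
  apply hn
  refine ⟨⟨fun p => st (h.symm (G p)), ?_⟩, ?_, ?_, ?_, ?_⟩
  · exact continuousOn_st.comp_continuous (h.symm.continuous.comp hGc) fun p => (hO1V _ (hin p)).1
  · intro p
    exact (hO1V _ (hin p)).2
  · intro s
    change st (h.symm (G (s, 0))) = μ s
    rw [hval _ _ (hK0 s), st_ist]
  · intro s
    change st (h.symm (G (s, 1))) = μ 0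
    rw [hval _ _ (hK1 s), st_ist]
  · intro t
    constructor
    · change st (h.symm (G (0, t))) = μ 0
      rw [hval _ _ (hK2 t), st_ist]
    · change st (h.symm (G (1, t))) = μ 0
      rw [hval _ _ (hK3 t), st_ist]

end Pool.Agent.BI39
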