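import Mathlib
import Pool.Agent.Lib.BI39.Defs
import Pool.Agent.Lib.BI39.Stmt
import Pool.Agent.Lib.BI39.G2

/-!
BI39, row S5: scaling, and the bound for the modulus of continuity.

`moc_bound`: let `ε = 1 / t`, `n = ⌈2 K B t⌉₊`, `δ = ε / (4 K Λ ^ (n + 1))`. Then `dist x y < δ` implies
`dist (J x) (J y) ≤ ε / 4 + ε / 2 < ε`, so `delta J ε ≥ ofReal δ` and
`moc J t ≤ ofReal (4 K t Λ ^ (n + 1)) ≤ ofReal (4 K Λ ^ 2 t exp (2 K B log Λ t))`; `2 K B log Λ ≤ η / 2` and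
`t ≤ (2 / η) exp (η t / 2)`.
-/

set_option autoImplicit false

namespace Pool.Agent.BI39

open Real unitInterval

/-- the scaled map -/
noncomputable def scl (c : ℝ) (f : P3 → P3) (v : P3) : P3 := c • f (c⁻¹ • v)

theorem continuous_scl {c : ℝ} {f : P3 → P3} (hf : Continuous f) : Continuous (scl c f) := (hf.comp (continuous_const_smul c⁻¹)).const_smul c

theorem scl_scl {c : ℝ} (hc : 0 < c) {f : P3 → P3} (hff : ∀ v, f (f v) = v) (v : P3) :
    scl c f (scl c f v) = v := by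
  rw [scl, scl, inv_smul_smul₀ hc.ne', hff, smul_inv_smul₀ hc.ne']

theorem scl_out {c : ℝ} (hc : 0 < c) (hc1 : c ≤ 1) {f : P3 → P3}
    (hout : ∀ v, 6 / 5 < ‖v‖ → f v = r3 v) (v : P3) (hv : 2 < ‖v‖) : scl c f v = r3 v := by
  have h1 : ‖v‖ ≤ ‖c⁻¹ • v‖ := by
    rw [norm_smul, Real.norm_eq_abs, abs_of_pos (inv_pos.2 hc)]
    have h2 : 1 ≤ c⁻¹ := (one_le_inv₀ hc).2 hc1
    have h3 := norm_nonneg v
    nlinarith
  rw [scl, hout _ (by linarith)]
  have hc' := hc.ne'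
  refine Prod.ext ?_ (Prod.ext ?_ ?_)
  · change c * (c⁻¹ * v.1) = v.1
    rw [← mul_assoc, mul_inv_cancel₀ hc', one_mul]
  · change c * (c⁻¹ * v.2.1) = v.2.1
    rw [← mul_assoc, mul_inv_cancel₀ hc', one_mul]
  · change c * (-(c⁻¹ * v.2.2)) = -v.2.2
    rw [mul_neg, ← mul_assoc, mul_inv_cancel₀ hc', one_mul]

theorem scl_modulus {c : ℝ} (hc : 0 < c) {f : P3 → P3} {A B : ℝ}
    (h : ∀ v v', dist (f v) (f v') ≤ A * dist v v' + B) (v v' : P3) :
    dist (scl c f v) (scl c f v') ≤ A * dist v v' + c * B := by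
  rw [scl, scl, dist_smul₀, Real.norm_eq_abs, abs_of_pos hc]
  have h1 := h (c⁻¹ • v) (c⁻¹ • v')
  rw [dist_smul₀, Real.norm_eq_abs, abs_of_pos (inv_pos.2 hc)] at h1
  have h2 := mul_le_mul_of_nonneg_left h1 hc.le
  have h3 : c * (A * (c⁻¹ * dist v v') + B) = A * dist v v' + c * B := by
    have hc' := hc.ne'
    field_simp
  rw [h3] at h2
  exact h2

theorem scl_ne_iff {c : ℝ} (hc : 0 < c) {f : P3 → P3} {V : Set P3}
    (h : ∀ v, f v ≠ v ↔ v ∈ V ∨ f v ∈ V) (v : P3) :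
    scl c f v ≠ v ↔ c⁻¹ • v ∈ V ∨ c⁻¹ • scl c f v ∈ V := by
  have h1 : c⁻¹ • scl c f v = f (c⁻¹ • v) := by rw [scl, inv_smul_smul₀ hc.ne']
  rw [h1, ← h]
  refine not_congr ⟨fun h2 => ?_, fun h2 => ?_⟩
  · rw [← h1, h2]
  · rw [scl, h2, smul_inv_smul₀ hc.ne']

theorem scl_not_mem {c : ℝ} (hc : 0 < c) {f : P3 → P3} {V : Set P3} (h : ∀ v ∈ V, f v ∉ V) (v : P3)
    (hv : c⁻¹ • v ∈ V) : c⁻¹ • scl c f v ∉ V := by
  have h1 : c⁻¹ • scl c f v = f (c⁻¹ • v) := by rw [scl, inv_smul_smul₀ hc.ne']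
  rw [h1]
  exact h _ hv

theorem scl_nullIn {c : ℝ} (hc : 0 < c) {V : Set P3} {μ : ℝ → P3} (h : ¬ NullIn V μ) :
    ¬ NullIn {v | c⁻¹ • v ∈ V} (fun s => c • μ s) := by
  rintro ⟨H, h1, h2, h3, h4⟩
  refine h ⟨⟨fun p => c⁻¹ • H p, H.continuous.const_smul c⁻¹⟩, fun p => h1 p, fun s => ?_,
    fun s => ?_, fun t => ⟨?_, ?_⟩⟩
  · change c⁻¹ • H (s, 0) = μ s
    rw [h2, inv_smul_smul₀ hc.ne']
  · change c⁻¹ • H (s, 1) = μ 0
    rw [h3, inv_smul_smul₀ hc.ne']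
  · change c⁻¹ • H (0, t) = μ 0
    rw [(h4 t).1, inv_smul_smul₀ hc.ne']
  · change c⁻¹ • H (1, t) = μ 0
    rw [(h4 t).2, inv_smul_smul₀ hc.ne']

theorem moc_bound {J : S3 → S3} {K Λ B η : ℝ} (hK : 0 < K) (hΛ : 1 ≤ Λ) (hB : 0 ≤ B)
    (h : ∀ (n : ℕ) (x y : S3), dist (J x) (J y) ≤ K * (Λ ^ (n + 1) * dist x y + B / (n + 1)))
    (hη : 0 < η) (hη' : 4 * K * B * Real.log Λ ≤ η) :
    ∃ C : ℝ, ∀ t : ℝ, 1 ≤ t → moc J t ≤ ENNReal.ofReal (C * Real.exp (η * t)) := by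
  refine ⟨8 * K * Λ ^ 2 / η, fun t ht => ?_⟩
  have ht0 : 0 < t := by linarith
  have hΛ0 : 0 < Λ := by linarith
  set n : ℕ := ⌈2 * K * B * t⌉₊ with hn
  have hn1 : 2 * K * B * t ≤ n := Nat.le_ceil _
  have hn2 : (n : ℝ) ≤ 2 * K * B * t + 1 := (Nat.ceil_lt_add_one (by positivity)).le
  set δ : ℝ := 1 / t / (4 * K * Λ ^ (n + 1)) with hδ
  have hδ0 : 0 < δ := by positivity
  have h1 : ∀ x y : S3, dist x y < δ → dist (J x) (J y) < 1 / t := by
    intro x y hxy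
    have h2 := h n x y
    have h3 : K * (Λ ^ (n + 1) * dist x y) ≤ 1 / t / 4 := by
      have h4 : K * Λ ^ (n + 1) * dist x y ≤ K * Λ ^ (n + 1) * δ :=
        mul_le_mul_of_nonneg_left hxy.le (by positivity)
      have h5 : K * Λ ^ (n + 1) * δ = 1 / t / 4 := by
        rw [hδ]
        field_simp
      rw [← mul_assoc]
      linarith
    have h6 : K * (B / (n + 1)) ≤ 1 / t / 2 := by
      have h7 : (0 : ℝ) < (n : ℝ) + 1 := by positivity
      rw [← mul_div_assoc, div_le_iff₀ h7, div_div, div_mul_eq_mul_div, one_mul,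
        le_div_iff₀ (by positivity)]
      nlinarith
    have h8 : 0 < 1 / t := by positivity
    have h9 : K * (Λ ^ (n + 1) * dist x y + B / (n + 1)) =
        K * (Λ ^ (n + 1) * dist x y) + K * (B / (n + 1)) := by ring
    rw [h9] at h2
    linarith
  have h2 : ENNReal.ofReal δ ≤ delta J (1 / t) := by
    rw [delta]
    exact le_iSup₂_of_le δ ⟨hδ0, h1⟩ le_rfl
  have h3 : moc J t ≤ ENNReal.ofReal δ⁻¹ := by
    rw [moc, ENNReal.ofReal_inv_of_pos hδ0]
    exact ENNReal.inv_le_inv.2 h2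
  refine h3.trans (ENNReal.ofReal_le_ofReal ?_)
  have h4 : δ⁻¹ = 4 * K * Λ ^ (n + 1) * t := by
    rw [hδ]
    field_simp
  have hlog : 0 ≤ Real.log Λ := Real.log_nonneg hΛ
  have h5 : Λ ^ (n + 1) ≤ Λ ^ 2 * Real.exp (η * t / 2) := by
    have h6 : Λ ^ (n + 1) = Real.exp ((n + 1 : ℕ) * Real.log Λ) := by
      rw [← Real.log_pow, Real.exp_log (by positivity)]
    have h7 : Λ ^ 2 = Real.exp (2 * Real.log Λ) := by
      have h8 : (2 : ℝ) * Real.log Λ = Real.log (Λ ^ 2) := by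
        rw [Real.log_pow]
        norm_num
      rw [h8, Real.exp_log (by positivity)]
    rw [h6, h7, ← Real.exp_add]
    refine Real.exp_le_exp.2 ?_
    have h9 : ((n + 1 : ℕ) : ℝ) ≤ 2 * K * B * t + 2 := by
      push_cast
      linarith
    have h10 := mul_le_mul_of_nonneg_right h9 hlog
    have h11 : 4 * K * B * Real.log Λ * t ≤ η * t := mul_le_mul_of_nonneg_right hη' ht0.le
    nlinarith
  have h6 : t ≤ 2 / η * Real.exp (η * t / 2) := by
    have h7 := Real.add_one_le_exp (η * t / 2)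
    have h8 : t = 2 / η * (η * t / 2) := by
      field_simp
    have h9 : 2 / η * (η * t / 2) ≤ 2 / η * Real.exp (η * t / 2) :=
      mul_le_mul_of_nonneg_left (by linarith) (by positivity)
    linarith
  have h7 : Real.exp (η * t) = Real.exp (η * t / 2) * Real.exp (η * t / 2) := by
    rw [← Real.exp_add]
    congr 1
    ring
  rw [h4, h7]
  have h8 : 4 * K * Λ ^ (n + 1) * t ≤
      4 * K * (Λ ^ 2 * Real.exp (η * t / 2)) * (2 / η * Real.exp (η * t / 2)) := by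
    have h9 : 4 * K * Λ ^ (n + 1) ≤ 4 * K * (Λ ^ 2 * Real.exp (η * t / 2)) :=
      mul_le_mul_of_nonneg_left h5 (by positivity)
    exact mul_le_mul h9 h6 ht0.le (by positivity)
  refine h8.trans (le_of_eq ?_)
  ring

/-- from the bound to the sequence -/
theorem negQ1_of_main (h : MainStatement) : NegQ1 := by
  obtain ⟨J, C, h1, h2, h3, h4⟩ := h (1 / 2) (by norm_num)
  refine ⟨J, h1, h2, h3, fun i => (i : ℝ) + (1 + 2 * |Real.log (|C| + 1)|), ?_, fun i => ?_⟩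
  · exact Filter.tendsto_atTop_add_const_right _ _ tendsto_natCast_atTop_atTop
  · set t : ℝ := (i : ℝ) + (1 + 2 * |Real.log (|C| + 1)|) with ht
    have hi : (0 : ℝ) ≤ i := by positivity
    have ha := abs_nonneg (Real.log (|C| + 1))
    have hb := le_abs_self (Real.log (|C| + 1))
    refine (h4 t (by linarith)).trans_lt ?_
    rw [ENNReal.ofReal_lt_ofReal_iff (Real.exp_pos _)]
    have h5 : |C| + 1 ≤ Real.exp (1 / 2 * t) := by
      rw [← Real.log_le_iff_le_exp (by positivity)]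
      linarith
    have h6 : Real.exp t = Real.exp (1 / 2 * t) * Real.exp (1 / 2 * t) := by
      rw [← Real.exp_add]
      congr 1
      ring
    rw [h6]
    refine mul_lt_mul_of_pos_right ?_ (Real.exp_pos _)
    have h7 := le_abs_self C
    linarith

end Pool.Agent.BI39
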