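import Mathlib

/-!
BI39, row W0: holonomy of a locally constant cocycle (Mathlib only).

Let `FiberBundleCore ι X G` (with the discrete topology on `G`) have base sets `B i`, `indexAt` chosen by
`hcov` and `coordChange i j x v = (h j x)⁻¹ * h i x * v`. The total space is a covering space of `X`
(`FiberBundle.isCoveringMap`). The path `s ↦ ⟨γ s, (h (indexAt (γ s)) (γ s))⁻¹ * e s⟩` is a continuous lift
of `γ` (in the local trivialisation of index `i` its second coordinate is `(h i (γ s))⁻¹ * e s`). The null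
homotopy lifts (`IsCoveringMap.liftPath`, monodromy: `liftPath_apply_one_eq_of_homotopicRel`), so the two
end points of the lift agree: `e 0 = e 1`.
(Another way: subdivide the square with the Lebesgue number and extend `e` over the square.)
-/

set_option autoImplicit false

namespace Pool.Agent.BI39

open Topology unitInterval

/-- the bundle with discrete fibre `G` of the cocycle -/
private noncomputable def W0_core {X G ι : Type*} [TopologicalSpace X] [Group G]
    [TopologicalSpace G] [DiscreteTopology G] (B : ι → Set X) (hB : ∀ i, IsOpen (B i))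
    (h : ι → X → G) (hcov : ∀ x, ∃ i, x ∈ B i)
    (hc : ∀ i j x, x ∈ B i → x ∈ B j →
      ∀ᶠ x' in 𝓝 x, (h j x')⁻¹ * h i x' = (h j x)⁻¹ * h i x) : FiberBundleCore ι X G where
  baseSet := B
  isOpen_baseSet := hB
  indexAt := fun x => (hcov x).choose
  mem_baseSet_at := fun x => (hcov x).choose_spec
  coordChange := fun i j x v => (h j x)⁻¹ * h i x * v
  coordChange_self := fun i x _ v => by rw [inv_mul_cancel, one_mul]
  continuousOn_coordChange := fun i j p hp => by
    have h1 := hc i j p.1 hp.1.1 hp.1.2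
    have h2 : ∀ᶠ q : X × G in 𝓝 p, (h j q.1)⁻¹ * h i q.1 = (h j p.1)⁻¹ * h i p.1 :=
      (continuous_fst.tendsto p).eventually h1
    apply ContinuousAt.continuousWithinAt
    have h4 : Continuous fun v : G => (h j p.1)⁻¹ * h i p.1 * v := continuous_of_discreteTopology
    have h3 : ContinuousAt (fun q : X × G => (h j p.1)⁻¹ * h i p.1 * q.2) p :=
      (h4.comp continuous_snd).continuousAt
    refine h3.congr (h2.mono fun q hq => ?_)
    show (h j p.1)⁻¹ * h i p.1 * q.2 = (h j q.1)⁻¹ * h i q.1 * q.2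
    rw [hq]
  coordChange_comp := fun i j k x _ v => by
    show (h k x)⁻¹ * h j x * ((h j x)⁻¹ * h i x * v) = (h k x)⁻¹ * h i x * v
    group

theorem holonomy {X : Type*} [TopologicalSpace X] {G : Type*} [Group G] {ι : Type*}
    (B : ι → Set X) (hB : ∀ i, IsOpen (B i)) (h : ι → X → G) (hcov : ∀ x, ∃ i, x ∈ B i)
    (hc : ∀ i j x, x ∈ B i → x ∈ B j →
      ∀ᶠ x' in 𝓝 x, (h j x')⁻¹ * h i x' = (h j x)⁻¹ * h i x)
    (H : C(I × I, X)) (x₀ : X) (h1 : ∀ s : I, H (s, 1) = x₀) (h2 : ∀ t : I, H (0, t) = x₀)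
    (h3 : ∀ t : I, H (1, t) = x₀) (e : I → G)
    (he : ∀ s : I, ∃ i, H (s, 0) ∈ B i ∧
      ∀ᶠ s' in 𝓝 s, (h i (H (s', 0)))⁻¹ * e s' = (h i (H (s, 0)))⁻¹ * e s) :
    e 0 = e 1 := by
  let _ : TopologicalSpace G := ⊥
  have _ : DiscreteTopology G := ⟨rfl⟩
  let Z : FiberBundleCore ι X G := W0_core B hB h hcov hc
  have cov : IsCoveringMap (Bundle.TotalSpace.proj : Z.TotalSpace → X) :=
    FiberBundle.isCoveringMap (F := G) (E := Z.Fiber)
  -- the lower path and its lift
  let γ : C(I, X) := ⟨fun s => H (s, 0), by fun_prop⟩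
  let Γ : I → Z.TotalSpace := fun s => ⟨γ s, (h (Z.indexAt (γ s)) (γ s))⁻¹ * e s⟩
  have hΓ : Continuous Γ := by
    rw [continuous_iff_continuousAt]
    intro s
    obtain ⟨i, hi, hs⟩ := he s
    have hopen : ∀ᶠ s' in 𝓝 s, γ s' ∈ B i := (γ.continuous.tendsto s).eventually
      ((hB i).mem_nhds hi)
    rw [(Z.localTriv i).toOpenPartialHomeomorph.continuousAt_iff_continuousAt_comp_left
      (f := Γ) (by
        filter_upwards [hopen] with s' hs'
        exact (Z.mem_localTriv_source i _).2 hs')]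
    have h4 : ∀ s', ((Z.localTriv i) ∘ Γ) s' = (γ s', (h i (γ s'))⁻¹ * e s') := by
      intro s'
      show (Z.localTriv i) (Γ s') = _
      rw [Z.localTriv_apply i]
      show (γ s', (h i (γ s'))⁻¹ * h (Z.indexAt (γ s')) (γ s') *
        ((h (Z.indexAt (γ s')) (γ s'))⁻¹ * e s')) = _
      congr 1
      group
    have h5 : ContinuousAt (fun s' => (γ s', (h i (γ s))⁻¹ * e s)) s := by fun_prop
    refine h5.congr ?_
    filter_upwards [hs] with s' hs'
    have h6 := h4 s'
    refine Eq.trans ?_ h6.symm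
    show (γ s', (h i (γ s))⁻¹ * e s) = (γ s', (h i (γ s'))⁻¹ * e s')
    rw [show (h i (γ s'))⁻¹ * e s' = (h i (γ s))⁻¹ * e s from hs']
  have h0 : γ 0 = x₀ := h2 0
  have h11 : γ 1 = x₀ := h3 0
  have hlift : Γ = ⇑(cov.liftPath γ (Γ 0) rfl) := (cov.eq_liftPath_iff rfl).2 ⟨hΓ, rfl, rfl⟩
  -- the homotopy
  have hom : γ.HomotopicRel (ContinuousMap.const I x₀) {0, 1} := by
    refine ⟨⟨⟨⟨fun p => H (p.2, p.1), by fun_prop⟩, fun s => rfl, fun s => h1 s⟩, ?_⟩⟩
    intro t s hs
    rcases hs with hs | hs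
    · rw [hs]
      show H (0, t) = H (0, 0)
      rw [h2, h2]
    · rw [Set.mem_singleton_iff.1 hs]
      show H (1, t) = H (1, 0)
      rw [h3, h3]
  have hend := cov.liftPath_apply_one_eq_of_homotopicRel hom (Γ 0) rfl h0.symm
  rw [cov.liftPath_const, ← hlift] at hend
  have hend' : Γ 1 = Γ 0 := hend
  -- the end points have the same second coordinates
  have key : ∀ s, γ s = x₀ → (Z.localTriv (Z.indexAt x₀)) (Γ s) =
      (x₀, (h (Z.indexAt x₀) x₀)⁻¹ * e s) := by
    intro s hs
    rw [Z.localTriv_apply]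
    show (γ s, (h (Z.indexAt x₀) (γ s))⁻¹ * h (Z.indexAt (γ s)) (γ s) *
        ((h (Z.indexAt (γ s)) (γ s))⁻¹ * e s)) = _
    rw [hs]
    congr 1
    group
  have k0 := key 0 h0
  have k1 := key 1 h11
  rw [hend', k0] at k1
  exact mul_left_cancel (Prod.ext_iff.1 k1).2

end Pool.Agent.BI39
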