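import Mathlib

/-!
BI39, row W1: labels of the binary tree in a group such that every label is the commutator of the labels of
its two sons. (All 3-cycles of `Fin 5` are conjugate, and one of them is `y⁻¹ * x⁻¹ * y * x` for two 3-cycles
`x`, `y` with exactly one common point; so for every 3-cycle there are such 3-cycles. Define `lab` by
recursion on the list with values in the 3-cycles.)
-/

set_option autoImplicit false

namespace Pool.Agent.BI39

private def w1x : Equiv.Perm (Fin 5) := Equiv.swap 0 1 * Equiv.swap 1 2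
private def w1y : Equiv.Perm (Fin 5) := Equiv.swap 0 3 * Equiv.swap 3 4

private theorem w1x_three : w1x.IsThreeCycle := by
  rw [← card_support_eq_three_iff]; decide

private theorem w1y_three : w1y.IsThreeCycle := by
  rw [← card_support_eq_three_iff]; decide

private theorem w1c_three : (w1y⁻¹ * w1x⁻¹ * w1y * w1x).IsThreeCycle := by
  rw [← card_support_eq_three_iff]; decide

private theorem w1conj (g x : Equiv.Perm (Fin 5)) (h : x.IsThreeCycle) :
    (g * x * g⁻¹).IsThreeCycle := by
  unfold Equiv.Perm.IsThreeCycle at *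
  rw [Equiv.Perm.cycleType_conj]; exact h

private theorem w1split (s : Equiv.Perm (Fin 5)) (h : s.IsThreeCycle) :
    ∃ x y : Equiv.Perm (Fin 5), x.IsThreeCycle ∧ y.IsThreeCycle ∧ s = y⁻¹ * x⁻¹ * y * x := by
  have hc : IsConj (w1y⁻¹ * w1x⁻¹ * w1y * w1x) s := by
    rw [Equiv.Perm.isConj_iff_cycleType_eq]
    have h1 := w1c_three
    unfold Equiv.Perm.IsThreeCycle at h1 h
    rw [h1, h]
  rw [isConj_iff] at hc
  obtain ⟨g, hg⟩ := hc
  refine ⟨g * w1x * g⁻¹, g * w1y * g⁻¹, w1conj g _ w1x_three, w1conj g _ w1y_three, ?_⟩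
  rw [← hg]
  group

private noncomputable def w1lab : List Bool → {s : Equiv.Perm (Fin 5) // s.IsThreeCycle}
  | [] => ⟨w1x, w1x_three⟩
  | b :: w =>
    let s := w1lab w
    if b then ⟨(w1split s.1 s.2).choose_spec.choose, (w1split s.1 s.2).choose_spec.choose_spec.2.1⟩
    else ⟨(w1split s.1 s.2).choose, (w1split s.1 s.2).choose_spec.choose_spec.1⟩

theorem exists_lab : ∃ lab : List Bool → Equiv.Perm (Fin 5), lab [] ≠ 1 ∧
    ∀ w, lab w = (lab (true :: w))⁻¹ * (lab (false :: w))⁻¹ * lab (true :: w) * lab (false :: w) := by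
  refine ⟨fun w => (w1lab w).1, ?_, ?_⟩
  · change w1x ≠ 1
    decide
  · intro w
    have h := (w1split (w1lab w).1 (w1lab w).2).choose_spec.choose_spec.2.2
    simpa [w1lab] using h

end Pool.Agent.BI39
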