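import Mathlib
import Pool.Agent.Lib.BI39.Defs
import Pool.Agent.Lib.BI39.B2

/-!
BI39, part W (wildness): definitions. Everything is in the standard picture `E (fun _ => 0)`.

`c = (t, y, z)` are the coordinates in the tube `E0 w` of stage `n`. `DD n`: the points of the upper half
of the (enlarged) tube which are not in the two tubes of stage `n + 1`. The walls are the part of the plane
`y = 0` outside of the first stadium (label `x`, `aa n ^ 2 < NA n c`) and the part of the plane `z = 0`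
outside of the second stadium (label `y`, `aa n ^ 2 < NB n c`), and the boundary of `tube (R n)` (labels
`MM`). `hS x y n c` is the local potential near `c`.
-/

set_option autoImplicit false

namespace Pool.Agent.BI39

open Real Topology

noncomputable def E0 (w : List Bool) : P3 → P3 := E (fun _ => 0) w

/-- the upper half space without the limit set (standard picture) -/
def UU : Set P3 := {x | 0 < x.2.2 ∧ x ∉ CS (fun _ => 0)}

def DD (n : ℕ) : Set P3 :=
  {c | 0 < c.1 ∧ c.1 < L n / 2 ∧ c ∈ otube (2 * R n) ∧ c ∉ bt false n '' tube (R (n + 1)) ∧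
    c ∉ bt true n '' tube (R (n + 1))}

def NN (n : ℕ) (c : P3) : Set P3 :=
  {c' | c' ∈ DD n ∧ (c.2.1 ≠ 0 → 0 < c.2.1 * c'.2.1) ∧ (c.2.2 ≠ 0 → 0 < c.2.2 * c'.2.2) ∧
    (c.2.1 = 0 → c'.2.1 = 0 → (aa n ^ 2 < NA n c ↔ aa n ^ 2 < NA n c')) ∧
    (c.2.2 = 0 → c'.2.2 = 0 → (aa n ^ 2 < NB n c ↔ aa n ^ 2 < NB n c'))}

section

variable {G : Type*} [Group G]

open Classical in
/-- labels of the boundary of the tube -/
noncomputable def MM (x y : G) (c : P3) : G :=
  if 0 ≤ c.2.1 then (if 0 ≤ c.2.2 then 1 else y⁻¹)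
  else (if 0 ≤ c.2.2 then y⁻¹ * x⁻¹ * y else y⁻¹ * x⁻¹)

open Classical in
/-- the local potential near `c`, as a function of `c'` -/
noncomputable def hS (x y : G) (n : ℕ) (c c' : P3) : G :=
  (if c' ∈ tube (R n) then 1 else MM x y c') *
    (if c.2.1 = 0 ∧ aa n ^ 2 < NA n c ∧ c'.2.1 < 0 then x else 1) *
    (if c.2.2 = 0 ∧ aa n ^ 2 < NB n c ∧ c'.2.2 < 0 then y else 1)

end

/-- the upper half space without the closed tube of stage `0` -/
def VR : Set P3 := {x | 0 < x.2.2 ∧ x ∉ E0 [] '' tube (R 0)}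

def NR (x : P3) : Set P3 :=
  {x' | x' ∈ VR ∧ (x.2.1 ≠ 0 → 0 < x.2.1 * x'.2.1) ∧
    (x.2.1 = 0 → x'.2.1 = 0 → (1 < x.1 ^ 2 + x.2.2 ^ 2 ↔ 1 < x'.1 ^ 2 + x'.2.2 ^ 2))}

open Classical in
/-- the local potential near a point outside of the tube of stage `0` -/
noncomputable def hR {G : Type*} [Group G] (g : G) (x x' : P3) : G :=
  if x.2.1 = 0 ∧ 1 < x.1 ^ 2 + x.2.2 ^ 2 ∧ x'.2.1 < 0 then g else 1

end Pool.Agent.BI39
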