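import Mathlib
import Pool.Agent.Lib.BI39.Defs
import Pool.Agent.Lib.BI39.B0
import Pool.Agent.Lib.BI39.B1
import Pool.Agent.Lib.BI39.B2
import Pool.Agent.Lib.BI39.WDefs

/-!
BI39, row W2: the potentials of one stage are compatible.

`plane_y`: if `c ∈ DD n`, `c.2.1 = 0` then `R (n + 1) < |√(NA n c) - aa n|` (`mem_false`), so
`aa n ^ 2 < NA n c` is locally constant on `DD n ∩ {y = 0}`. The same for `z = 0` and `NB`.
`axis`: if `c ∈ DD n` (only `0 < c.1 < L n / 2` is used) and `c.2.1 = c.2.2 = 0` then not both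
`aa n ^ 2 < NA n c` (i.e. `L n / 4 + aa n < c.1`) and `aa n ^ 2 < NB n c` (i.e. `c.1 < L n / 4 - aa n`).
`hS_compat`: the factor `if c'' ∈ tube ...` cancels. With `[·]` for the exponents:
`hS c₂ c''⁻¹ * hS c₁ c'' = y^{-[z'' < 0]} x^{-[y'' < 0]} x^{[y'' < 0]} y^{[z'' < 0]}` (each factor present only
if the conditions for `c₂` resp. `c₁` hold). If `c'.2.1 = 0` then `c₁.2.1 = c₂.2.1 = 0` and the conditions
on `NA` for `c₁`, `c'`, `c₂` agree, so the `x`-factors cancel; if `c'.2.1 ≠ 0` then `[y'' < 0]` is constant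
near `c'`, and the product of the `x`-factors is a constant `k`. The same for `z`; if `c'.2.2 = 0` and the
`y`-factors are present, then `c₁`, `c₂` have `z = 0`, `aa n ^ 2 < NB`, so by `axis` no `x`-factor is
present: `k = 1`.
-/

set_option autoImplicit false

namespace Pool.Agent.BI39

open Real Topology

private theorem W2_lt (n : ℕ) : R (n + 1) < aa n := by
  have h1 := two_R_succ n
  have h2 := aa_pos n
  linarith

theorem plane_y {n : ℕ} {c : P3} (hc : c ∈ DD n) (h : c.2.1 = 0) : R (n + 1) < |√(NA n c) - aa n| := by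
  by_contra hcon
  rw [not_lt] at hcon
  obtain ⟨p, hp, hpc, -⟩ := mem_false (W2_lt n) (by rw [h, abs_zero]; exact (R_pos _).le) hcon
  exact hc.2.2.2.1 ⟨p, hp, hpc⟩

theorem plane_z {n : ℕ} {c : P3} (hc : c ∈ DD n) (h : c.2.2 = 0) : R (n + 1) < |√(NB n c) - aa n| := by
  by_contra hcon
  rw [not_lt] at hcon
  obtain ⟨p, hp, hpc, -⟩ := mem_true (W2_lt n) (by rw [h, abs_zero]; exact (R_pos _).le) hcon
  exact hc.2.2.2.2 ⟨p, hp, hpc⟩

theorem axis {n : ℕ} {c : P3} (h0 : 0 < c.1) (h1 : c.1 < L n / 2) (hy : c.2.1 = 0) (hz : c.2.2 = 0)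
    (hA : aa n ^ 2 < NA n c) : ¬ aa n ^ 2 < NB n c := by
  intro hB
  have ha := aa_pos n
  have key : ∀ s : ℝ, aa n ^ 2 < (max s 0) ^ 2 → aa n < s := by
    intro s hs
    have h2 : aa n < max s 0 := lt_of_pow_lt_pow_left₀ 2 (le_max_right _ _) hs
    rcases lt_max_iff.1 h2 with h3 | h3
    · exact h3
    · exact absurd h3 (not_lt.2 ha.le)
  rw [NA, hz] at hA
  rw [NB, hy] at hB
  have h2 := key (|c.1| - L n / 4) (by simpa using hA)
  have h3 := key (|L n / 2 - c.1| - L n / 4) (by simpa using hB)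
  rw [abs_of_pos h0] at h2
  rw [abs_of_pos (by linarith)] at h3
  linarith

private theorem W2_isClosed (i : Bool) (n : ℕ) : IsClosed (bt i n '' tube (R (n + 1))) := by
  have h1 : bt i n '' tube (R (n + 1)) = bt i n '' (Set.Icc 0 (L (n + 1)) ×ˢ
      (Set.Icc (-R (n + 1)) (R (n + 1)) ×ˢ Set.Icc (-R (n + 1)) (R (n + 1)))) := by
    apply Set.Subset.antisymm
    · rintro _ ⟨p, hp, rfl⟩
      refine ⟨shft ((-⌊p.1 / L (n + 1)⌋ : ℤ) * L (n + 1)) p, ⟨?_, ?_⟩, bt_per _ _ _ _⟩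
      · have hL := L_pos (n + 1)
        have h2 := Int.floor_le (p.1 / L (n + 1))
        have h3 := Int.lt_floor_add_one (p.1 / L (n + 1))
        rw [le_div_iff₀ hL] at h2
        rw [div_lt_iff₀ hL] at h3
        show _ ∧ _
        simp only [shft, Int.cast_neg]
        constructor
        · linarith
        · linarith
      · exact ⟨abs_le.1 hp.1, abs_le.1 hp.2⟩
    · rintro _ ⟨p, hp, rfl⟩
      exact ⟨p, ⟨abs_le.2 hp.2.1, abs_le.2 hp.2.2⟩, rfl⟩
  rw [h1]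
  exact ((isCompact_Icc.prod (isCompact_Icc.prod isCompact_Icc)).image
    (continuous_bt i n)).isClosed

theorem isOpen_DD (n : ℕ) : IsOpen (DD n) := by
  have h1 : DD n = {c : P3 | 0 < c.1} ∩ ({c : P3 | c.1 < L n / 2} ∩ (otube (2 * R n) ∩
      ((bt false n '' tube (R (n + 1)))ᶜ ∩ (bt true n '' tube (R (n + 1)))ᶜ))) := rfl
  rw [h1]
  exact (isOpen_lt continuous_const continuous_fst).inter
    ((isOpen_lt continuous_fst continuous_const).inter ((isOpen_otube _).inter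
      ((W2_isClosed false n).isOpen_compl.inter (W2_isClosed true n).isOpen_compl)))

/-- A condition which is strict on both sides is locally constant. -/
private theorem W2_const {f : P3 → ℝ} (hf : Continuous f) {a r : ℝ} (ha : 0 < a) (hr : 0 < r)
    {c : P3} (h : r < |√(f c) - a|) : ∀ᶠ c' in 𝓝 c, (a ^ 2 < f c ↔ a ^ 2 < f c') := by
  by_cases h1 : a ^ 2 < f c
  · have h2 : ∀ᶠ c' in 𝓝 c, a ^ 2 < f c' := hf.continuousAt.eventually (lt_mem_nhds h1)
    filter_upwards [h2] with c' h3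
    exact ⟨fun _ => h3, fun _ => h1⟩
  · have h3 : f c < a ^ 2 := by
      refine lt_of_le_of_ne (not_lt.1 h1) fun h4 => ?_
      rw [h4, Real.sqrt_sq ha.le, sub_self, abs_zero] at h
      linarith
    have h2 : ∀ᶠ c' in 𝓝 c, f c' < a ^ 2 := hf.continuousAt.eventually (gt_mem_nhds h3)
    filter_upwards [h2] with c' h4
    exact ⟨fun h5 => absurd h5 h1, fun h5 => absurd h5 (not_lt.2 h4.le)⟩

private theorem W2_sign {f : P3 → ℝ} (hf : Continuous f) {c' : P3} (h : f c' ≠ 0) :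
    ∀ᶠ c'' in 𝓝 c', (f c'' < 0 ↔ f c' < 0) := by
  rcases lt_or_gt_of_ne h with h1 | h1
  · have h2 : ∀ᶠ c'' in 𝓝 c', f c'' < 0 := hf.continuousAt.eventually (gt_mem_nhds h1)
    filter_upwards [h2] with c'' h3
    exact ⟨fun _ => h1, fun _ => h3⟩
  · have h2 : ∀ᶠ c'' in 𝓝 c', 0 < f c'' := hf.continuousAt.eventually (lt_mem_nhds h1)
    filter_upwards [h2] with c'' h3
    exact ⟨fun h4 => absurd h4 (not_lt.2 h3.le), fun h4 => absurd h4 (not_lt.2 (le_of_lt h1))⟩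

private theorem W2_cy : Continuous fun c : P3 => c.2.1 := continuous_snd.fst
private theorem W2_cz : Continuous fun c : P3 => c.2.2 := continuous_snd.snd

theorem isOpen_NN (n : ℕ) (c : P3) : IsOpen (NN n c) := by
  rw [isOpen_iff_mem_nhds]
  rintro c' ⟨h1, h2, h3, h4, h5⟩
  have e1 : ∀ᶠ c'' in 𝓝 c', c'' ∈ DD n := (isOpen_DD n).mem_nhds h1
  have e2 : ∀ᶠ c'' in 𝓝 c', (c.2.1 ≠ 0 → 0 < c.2.1 * c''.2.1) := by
    by_cases h : c.2.1 = 0
    · exact Filter.Eventually.of_forall fun _ h' => absurd h h'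
    · filter_upwards [(continuous_const.mul W2_cy).continuousAt.eventually (lt_mem_nhds (h2 h))]
        with c'' h' _
      exact h'
  have e3 : ∀ᶠ c'' in 𝓝 c', (c.2.2 ≠ 0 → 0 < c.2.2 * c''.2.2) := by
    by_cases h : c.2.2 = 0
    · exact Filter.Eventually.of_forall fun _ h' => absurd h h'
    · filter_upwards [(continuous_const.mul W2_cz).continuousAt.eventually (lt_mem_nhds (h3 h))]
        with c'' h' _
      exact h'
  have e4 : ∀ᶠ c'' in 𝓝 c', (c.2.1 = 0 → c''.2.1 = 0 →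
      (aa n ^ 2 < NA n c ↔ aa n ^ 2 < NA n c'')) := by
    by_cases h : c'.2.1 = 0
    · filter_upwards [W2_const (continuous_NA n) (aa_pos n) (R_pos (n + 1)) (plane_y h1 h)]
        with c'' h' h6 _
      exact (h4 h6 h).trans h'
    · filter_upwards [W2_cy.continuousAt.eventually (isOpen_ne.mem_nhds h)] with c'' h' _ h6
      exact absurd h6 h'
  have e5 : ∀ᶠ c'' in 𝓝 c', (c.2.2 = 0 → c''.2.2 = 0 →
      (aa n ^ 2 < NB n c ↔ aa n ^ 2 < NB n c'')) := by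
    by_cases h : c'.2.2 = 0
    · filter_upwards [W2_const (continuous_NB n) (aa_pos n) (R_pos (n + 1)) (plane_z h1 h)]
        with c'' h' h6 _
      exact (h5 h6 h).trans h'
    · filter_upwards [W2_cz.continuousAt.eventually (isOpen_ne.mem_nhds h)] with c'' h' _ h6
      exact absurd h6 h'
  filter_upwards [e1, e2, e3, e4, e5] with c'' a1 a2 a3 a4 a5
  exact ⟨a1, a2, a3, a4, a5⟩

theorem mem_NN_self {n : ℕ} {c : P3} (hc : c ∈ DD n) : c ∈ NN n c :=
  ⟨hc, fun h => mul_self_pos.2 h, fun h => mul_self_pos.2 h, fun _ _ => Iff.rfl,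
    fun _ _ => Iff.rfl⟩

private theorem W2_zero {a b : ℝ} (h : a ≠ 0 → 0 < a * b) (hb : b = 0) : a = 0 := by
  by_contra ha
  have h1 := h ha
  rw [hb, mul_zero] at h1
  exact lt_irrefl _ h1

theorem hS_compat {G : Type*} [Group G] (x y : G) {n : ℕ} {c₁ c₂ c' : P3} (h1 : c₁ ∈ DD n)
    (h2 : c₂ ∈ DD n) (h1' : c' ∈ NN n c₁) (h2' : c' ∈ NN n c₂) :
    ∀ᶠ c'' in 𝓝 c', (hS x y n c₂ c'')⁻¹ * hS x y n c₁ c'' = (hS x y n c₂ c')⁻¹ * hS x y n c₁ c' := by
  classical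
  have cancel : ∀ T X₁ Y₁ X₂ Y₂ : G, (T * X₂ * Y₂)⁻¹ * (T * X₁ * Y₁) =
      Y₂⁻¹ * (X₂⁻¹ * X₁) * Y₁ := by
    intro T X₁ Y₁ X₂ Y₂
    group
  -- the `x`-factors
  have hX : ∀ᶠ c'' in 𝓝 c', ((if c₂.2.1 = 0 ∧ aa n ^ 2 < NA n c₂ ∧ c''.2.1 < 0 then x else 1)⁻¹ *
      (if c₁.2.1 = 0 ∧ aa n ^ 2 < NA n c₁ ∧ c''.2.1 < 0 then x else 1) : G) =
      (if c₂.2.1 = 0 ∧ aa n ^ 2 < NA n c₂ ∧ c'.2.1 < 0 then x else 1)⁻¹ *
      (if c₁.2.1 = 0 ∧ aa n ^ 2 < NA n c₁ ∧ c'.2.1 < 0 then x else 1) := by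
    by_cases h : c'.2.1 = 0
    · have a1 := W2_zero h1'.2.1 h
      have a2 := W2_zero h2'.2.1 h
      have a3 : aa n ^ 2 < NA n c₁ ↔ aa n ^ 2 < NA n c₂ :=
        (h1'.2.2.2.1 a1 h).trans (h2'.2.2.2.1 a2 h).symm
      refine Filter.Eventually.of_forall fun c'' => ?_
      simp only [a1, a2, a3, true_and, inv_mul_cancel]
    · filter_upwards [W2_sign W2_cy h] with c'' h'
      simp only [h']
  by_cases h : c'.2.2 = 0
  · have b1 := W2_zero h1'.2.2.1 h
    have b2 := W2_zero h2'.2.2.1 h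
    have b3 : aa n ^ 2 < NB n c₁ ↔ aa n ^ 2 < NB n c₂ :=
      (h1'.2.2.2.2 b1 h).trans (h2'.2.2.2.2 b2 h).symm
    by_cases hQ : aa n ^ 2 < NB n c₂
    · have hP1 : ¬ (c₁.2.1 = 0 ∧ aa n ^ 2 < NA n c₁) := fun hP =>
        axis h1.1 h1.2.1 hP.1 b1 hP.2 (b3.2 hQ)
      have hP2 : ¬ (c₂.2.1 = 0 ∧ aa n ^ 2 < NA n c₂) := fun hP =>
        axis h2.1 h2.2.1 hP.1 b2 hP.2 hQ
      refine Filter.Eventually.of_forall fun c'' => ?_
      unfold hS
      rw [cancel, cancel]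
      have e1 : ∀ c : P3, (if c₁.2.1 = 0 ∧ aa n ^ 2 < NA n c₁ ∧ c.2.1 < 0 then x else 1 : G) = 1 :=
        fun c => if_neg fun hc => hP1 ⟨hc.1, hc.2.1⟩
      have e2 : ∀ c : P3, (if c₂.2.1 = 0 ∧ aa n ^ 2 < NA n c₂ ∧ c.2.1 < 0 then x else 1 : G) = 1 :=
        fun c => if_neg fun hc => hP2 ⟨hc.1, hc.2.1⟩
      rw [e1, e1, e2, e2]
      simp only [b1, b2, b3, true_and, inv_one, mul_one, inv_mul_cancel]
    · filter_upwards [hX] with c'' h'
      unfold hS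
      rw [cancel, cancel, h']
      simp only [b1, b2, b3, hQ, true_and, false_and, if_false, and_false]
  · filter_upwards [hX, W2_sign W2_cz h] with c'' h' h''
    unfold hS
    rw [cancel, cancel, h']
    simp only [h'']

end Pool.Agent.BI39
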