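import Mathlib
import Pool.Agent.Lib.BI39.Defs
import Pool.Agent.Lib.BI39.B0
import Pool.Agent.Lib.BI39.B1
import Pool.Agent.Lib.BI39.B2
import Pool.Agent.Lib.BI39.WDefs
import Pool.Agent.Lib.BI39.W2

/-!
BI39, row W3b: as W3 for the second son.
-/

set_option autoImplicit false

namespace Pool.Agent.BI39

open Real Topology

/-- the potential of the son, away from the tube -/
private noncomputable def sonP {G : Type*} [Group G] (x y : G) (n : ℕ) (c c' : P3) : G :=
  MM x y c' *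
    (open Classical in if c.2.1 = 0 ∧ aa n ^ 2 < NA n c ∧ c'.2.1 < 0 then x else 1) *
    (open Classical in if c.2.2 = 0 ∧ aa n ^ 2 < NB n c ∧ c'.2.2 < 0 then y else 1)

private theorem sq_lt_NA {n : ℕ} {c : P3} (h : R n < |c.2.2|) : aa n ^ 2 < NA n c := by
  have hR := R_pos n
  have h1 : R n ^ 2 < c.2.2 ^ 2 := by
    rw [← sq_abs c.2.2]
    gcongr
  have h2 : aa n ^ 2 < R n ^ 2 := by
    unfold aa
    nlinarith
  unfold NA
  nlinarith [sq_nonneg (max (|c.1| - L n / 4) 0)]

private theorem sq_lt_NB {n : ℕ} {c : P3} (h : R n < |c.2.1|) : aa n ^ 2 < NB n c := by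
  have hR := R_pos n
  have h1 : R n ^ 2 < c.2.1 ^ 2 := by
    rw [← sq_abs c.2.1]
    gcongr
  have h2 : aa n ^ 2 < R n ^ 2 := by
    unfold aa
    nlinarith
  unfold NB
  nlinarith [sq_nonneg (max (|L n / 2 - c.1| - L n / 4) 0)]

private theorem ev_pos {f : P3 → ℝ} (hf : Continuous f) {c : P3} (h : 0 < f c) :
    ∀ᶠ c' in 𝓝 c, 0 < f c' :=
  (hf.tendsto c).eventually (lt_mem_nhds h)

private theorem ev_neg {f : P3 → ℝ} (hf : Continuous f) {c : P3} (h : f c < 0) :
    ∀ᶠ c' in 𝓝 c, f c' < 0 :=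
  (hf.tendsto c).eventually (gt_mem_nhds h)

private theorem cont1 : Continuous (fun c : P3 => c.2.1) := by fun_prop

private theorem cont2 : Continuous (fun c : P3 => c.2.2) := by fun_prop

/-- the sign of a continuous function is locally constant where it is not zero -/
private theorem ev_sign {f : P3 → ℝ} (hf : Continuous f) {c : P3} (h : f c ≠ 0) :
    ∀ᶠ c' in 𝓝 c, (f c' < 0 ↔ f c < 0) := by
  rcases lt_or_gt_of_ne h with h | h
  · filter_upwards [ev_neg hf h] with c' hc'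
    exact ⟨fun _ => h, fun _ => hc'⟩
  · filter_upwards [ev_pos hf h] with c' hc'
    exact ⟨fun h2 => absurd h2 (not_lt.2 hc'.le), fun h2 => absurd h2 (not_lt.2 h.le)⟩

private theorem son_eq {G : Type*} [Group G] (x y : G) {n : ℕ} (c : P3) {c' : P3}
    (h : c' ∉ tube (R n)) : ∀ᶠ c'' in 𝓝 c', hS x y n c c'' = sonP x y n c c'' := by
  filter_upwards [(isClosed_tube (R n)).isOpen_compl.mem_nhds h] with c'' hc''
  have : c'' ∉ tube (R n) := hc''
  simp only [hS, sonP, if_neg this]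

/-- the potential of the son near a point of the collar which is in the plane `y = 0` -/
private theorem son_A1 {G : Type*} [Group G] {x y : G} {n : ℕ} {c c' : P3}
    (hc' : c' ∈ NN n c) (hy : c'.2.1 = 0) (hz : 0 < c'.2.2) (h : c' ∉ tube (R n)) :
    ∀ᶠ c'' in 𝓝 c', sonP x y n c c'' = if c''.2.1 < 0 then y⁻¹ * x⁻¹ * y * x else 1 := by
  have hR := R_pos n
  obtain ⟨-, h1, h2, h3, h4⟩ := hc'
  have hc0 : c.2.1 = 0 := by
    by_contra h0
    have := h1 h0
    rw [hy] at this
    simp at this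
  have hN : aa n ^ 2 < NA n c := by
    rw [h3 hc0 hy]
    apply sq_lt_NA
    by_contra h5
    apply h
    refine ⟨?_, not_lt.1 h5⟩
    rw [hy]
    simpa using hR.le
  filter_upwards [ev_pos cont2 hz] with c'' hz''
  have e1 : ¬ (c.2.2 = 0 ∧ aa n ^ 2 < NB n c ∧ c''.2.2 < 0) := fun h5 =>
    absurd h5.2.2 (not_lt.2 hz''.le)
  unfold sonP MM
  rw [if_neg e1, if_pos hz''.le, if_pos hz''.le]
  by_cases h6 : c''.2.1 < 0
  · rw [if_neg (not_le.2 h6), if_pos ⟨hc0, hN, h6⟩, if_pos h6, mul_one]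
  · rw [if_pos (not_lt.1 h6), if_neg (fun h7 => h6 h7.2.2), if_neg h6]
    simp

private theorem son_A2 {G : Type*} [Group G] {x y : G} {n : ℕ} {c c' : P3}
    (hc' : c' ∈ NN n c) (hy : c'.2.1 = 0) (hz : c'.2.2 < 0) (h : c' ∉ tube (R n)) :
    ∀ᶠ c'' in 𝓝 c', sonP x y n c c'' = sonP x y n c c' := by
  have hR := R_pos n
  obtain ⟨-, h1, h2, h3, h4⟩ := hc'
  have hc0 : c.2.1 = 0 := by
    by_contra h0
    have := h1 h0
    rw [hy] at this
    simp at this
  have hN : aa n ^ 2 < NA n c := by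
    rw [h3 hc0 hy]
    apply sq_lt_NA
    by_contra h5
    apply h
    refine ⟨?_, not_lt.1 h5⟩
    rw [hy]
    simpa using hR.le
  have key : ∀ e : P3, e.2.2 < 0 → sonP x y n c e =
      y⁻¹ * (open Classical in if c.2.2 = 0 ∧ aa n ^ 2 < NB n c then y else 1) := by
    intro e he
    unfold sonP MM
    rw [if_neg (not_le.2 he), if_neg (not_le.2 he)]
    by_cases h6 : e.2.1 < 0
    · rw [if_neg (not_le.2 h6), if_pos ⟨hc0, hN, h6⟩]
      simp only [he, and_true, inv_mul_cancel_right]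
    · rw [if_pos (not_lt.1 h6), if_neg (fun h7 => h6 h7.2.2)]
      simp only [he, and_true, mul_one]
  filter_upwards [ev_neg cont2 hz] with c'' hz''
  rw [key _ hz'', key _ hz]

private theorem son_B {G : Type*} [Group G] {x y : G} {n : ℕ} {c c' : P3} (hc : c ∈ DD n)
    (hc' : c' ∈ NN n c) (hy : c'.2.1 ≠ 0) (h : c' ∉ tube (R n)) :
    ∀ᶠ c'' in 𝓝 c', sonP x y n c c'' = sonP x y n c c' := by
  have hR := R_pos n
  obtain ⟨-, h1, h2, h3, h4⟩ := hc'
  by_cases hz : c'.2.2 = 0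
  · have hc0 : c.2.2 = 0 := by
      by_contra h0
      have := h2 h0
      rw [hz] at this
      simp at this
    have hN : aa n ^ 2 < NB n c := by
      rw [h4 hc0 hz]
      apply sq_lt_NB
      by_contra h5
      apply h
      refine ⟨not_lt.1 h5, ?_⟩
      rw [hz]
      simpa using hR.le
    have hx : ∀ e : P3, ¬ (c.2.1 = 0 ∧ aa n ^ 2 < NA n c ∧ e.2.1 < 0) := by
      rintro e ⟨h5, h6, -⟩
      exact axis hc.1 hc.2.1 h5 hc0 h6 hN
    have key : ∀ e : P3, sonP x y n c e = if e.2.1 < 0 then y⁻¹ * x⁻¹ * y else 1 := by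
      intro e
      unfold sonP MM
      rw [if_neg (hx e)]
      by_cases h6 : e.2.1 < 0
      · rw [if_neg (not_le.2 h6), if_pos h6]
        by_cases h7 : e.2.2 < 0
        · rw [if_neg (not_le.2 h7), if_pos ⟨hc0, hN, h7⟩, mul_one]
        · rw [if_pos (not_lt.1 h7), if_neg (fun h8 => h7 h8.2.2)]
          simp
      · rw [if_pos (not_lt.1 h6), if_neg h6]
        by_cases h7 : e.2.2 < 0
        · rw [if_neg (not_le.2 h7), if_pos ⟨hc0, hN, h7⟩]
          simp
        · rw [if_pos (not_lt.1 h7), if_neg (fun h8 => h7 h8.2.2)]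
          simp
    filter_upwards [ev_sign cont1 hy] with c'' h6
    rw [key, key]
    simp only [h6]
  · filter_upwards [ev_sign cont1 hy, ev_sign cont2 hz] with c'' h6 h7
    have h6' : (0 ≤ c''.2.1 ↔ 0 ≤ c'.2.1) := by
      rw [← not_lt, ← not_lt, h6]
    have h7' : (0 ≤ c''.2.2 ↔ 0 ≤ c'.2.2) := by
      rw [← not_lt, ← not_lt, h7]
    unfold sonP MM
    simp only [h6, h7, h6', h7']

private theorem bt_true_22 (n : ℕ) (c : P3) : (bt true n c).2.2 = c.2.1 := by
  simp [bt]

private theorem NA_lt {n : ℕ} {c : P3} (hc : c ∈ DD (n + 1)) (h0 : (bt true n c).2.1 = 0) :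
    ¬ aa n ^ 2 < NA n (bt true n c) := by
  have ha := aa_pos n
  have hR := two_R_succ n
  have ht : c ∈ tube (2 * R (n + 1)) := otube_subset _ hc.2.2.1
  obtain ⟨h1, h2⟩ := bt_half (i := true) (n := n) ht hc.1 hc.2.1
  have h3 := NB_bt (n := n) ht
  have ht1 : |c.2.1| ≤ aa n / 5 := by rw [← hR]; exact ht.1
  have ht2 : |c.2.2| ≤ aa n / 5 := by rw [← hR]; exact ht.2
  have h4 : 0 < aa n + c.2.2 := by
    have := (abs_le.1 ht2).1
    linarith
  unfold NB at h3
  rw [h0, abs_of_pos (by linarith : 0 < L n / 2 - (bt true n c).1)] at h3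
  have h5 : (bt true n c).1 < L n / 4 := by
    by_contra h6
    rw [max_eq_right (by linarith)] at h3
    nlinarith
  have hL := L_pos n
  unfold NA
  have h6 : max (|(bt true n c).1| - L n / 4) 0 = 0 := by
    apply max_eq_right
    rw [abs_of_pos h1]
    linarith
  rw [h6, bt_true_22]
  have h7 : c.2.1 ^ 2 ≤ (aa n / 5) ^ 2 := by
    rw [← sq_abs]
    gcongr
  nlinarith

/-- the first factor of the potential of the father -/
private theorem fb_T {G : Type*} [Group G] (xv : G) {n : ℕ} {c' d : P3} (hc' : c' ∈ DD (n + 1))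
    (hd' : bt true n c' ∈ NN n d) :
    ∀ᶠ c'' in 𝓝 c',
      (open Classical in
        if d.2.1 = 0 ∧ aa n ^ 2 < NA n d ∧ (bt true n c'').2.1 < 0 then xv else 1) =
      (open Classical in
        if d.2.1 = 0 ∧ aa n ^ 2 < NA n d ∧ (bt true n c').2.1 < 0 then xv else 1) := by
  obtain ⟨-, h1, h2, h3, h4⟩ := hd'
  by_cases h0 : (bt true n c').2.1 = 0
  · have h5 : ∀ e : P3, ¬ (d.2.1 = 0 ∧ aa n ^ 2 < NA n d ∧ (bt true n e).2.1 < 0) := by
      rintro e ⟨h6, h7, -⟩
      rw [h3 h6 h0] at h7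
      exact NA_lt hc' h0 h7
    filter_upwards with c''
    rw [if_neg (h5 _), if_neg (h5 _)]
  · have hcont : Continuous (fun c : P3 => (bt true n c).2.1) :=
      cont1.comp (continuous_bt true n)
    filter_upwards [ev_sign hcont h0] with c'' h6
    simp only [h6]

private theorem fb_eq {G : Type*} [Group G] (xv yv : G) {n : ℕ} {c' : P3} (d : P3)
    (hc' : c' ∈ DD (n + 1)) :
    ∀ᶠ c'' in 𝓝 c', hS xv yv n d (bt true n c'') =
      (open Classical in
        if d.2.1 = 0 ∧ aa n ^ 2 < NA n d ∧ (bt true n c'').2.1 < 0 then xv else 1) *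
      (open Classical in if d.2.2 = 0 ∧ aa n ^ 2 < NB n d ∧ c''.2.1 < 0 then yv else 1) := by
  have hR := R_pos n
  filter_upwards [(isOpen_otube _).mem_nhds hc'.2.2.1] with c'' h1
  have h2 : bt true n c'' ∈ tube (R n) :=
    tube_mono (by linarith) (bt_mem (otube_subset _ h1))
  unfold hS
  rw [if_pos h2, bt_true_22, one_mul]

theorem hS_collar_true {G : Type*} [Group G] {x y xv yv : G} (hg : y⁻¹ * x⁻¹ * y * x = yv) {n : ℕ}
    {c c' d : P3} (hc : c ∈ DD (n + 1)) (hc' : c' ∈ NN (n + 1) c) (h : c' ∉ tube (R (n + 1)))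
    (hd : d ∈ DD n) (hd' : bt true n c' ∈ NN n d) :
    ∀ᶠ c'' in 𝓝 c', (hS xv yv n d (bt true n c''))⁻¹ * hS x y (n + 1) c c'' =
      (hS xv yv n d (bt true n c'))⁻¹ * hS x y (n + 1) c c' := by
  have ha := aa_pos n
  have hR := R_pos (n + 1)
  have hRa := two_R_succ n
  have hD := hc'.1
  have hT := fb_T xv hD hd'
  have hf := fb_eq xv yv d hD
  have hs := son_eq x y c h
  have hf0 := hf.self_of_nhds
  have hs0 := hs.self_of_nhds
  have ht : c' ∈ tube (2 * R (n + 1)) := otube_subset _ hD.2.2.1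
  have ht2 : |c'.2.2| ≤ aa n / 5 := by rw [← hRa]; exact ht.2
  by_cases hy : c'.2.1 = 0
  · have hdy : d.2.2 = 0 := by
      by_contra h0
      have := hd'.2.2.1 h0
      rw [bt_true_22, hy] at this
      simp at this
    have hNB : aa n ^ 2 < NB n d ↔ aa n ^ 2 < (aa n + c'.2.2) ^ 2 := by
      rw [hd'.2.2.2.2 hdy (by rw [bt_true_22, hy]), NB_bt ht]
    have hz0 : c'.2.2 ≠ 0 := by
      intro h0
      apply h
      constructor
      · rw [hy]; simpa using hR.le
      · rw [h0]; simpa using hR.le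
    rcases lt_or_gt_of_ne hz0 with hz | hz
    · have hs2 := son_A2 hc' hy hz h (x := x) (y := y)
      have hN : ¬ aa n ^ 2 < NB n d := by
        rw [hNB]
        have := (abs_le.1 ht2).1
        nlinarith
      filter_upwards [hT, hf, hs, hs2] with c'' h1 h2 h3 h4
      rw [h2, h3, h4, h1, hf0, hs0]
      simp only [hN, false_and, and_false, if_false]
    · have hs2 := son_A1 hc' hy hz h (x := x) (y := y)
      have hs20 := hs2.self_of_nhds
      have hN : aa n ^ 2 < NB n d := by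
        rw [hNB]
        nlinarith
      have h5 : ∀ e : P3, ¬ (d.2.1 = 0 ∧ aa n ^ 2 < NA n d ∧ (bt true n e).2.1 < 0) := by
        rintro e ⟨h6, h7, -⟩
        exact axis hd.1 hd.2.1 h6 hdy h7 hN
      filter_upwards [hf, hs, hs2] with c'' h2 h3 h4
      rw [h2, h3, h4, hf0, hs0, hs20, if_neg (h5 _), if_neg (h5 _), hg]
      simp only [hdy, hN, true_and, one_mul, inv_mul_cancel]
  · have hs2 := son_B hc hc' hy h (x := x) (y := y)
    filter_upwards [hT, hf, hs, hs2, ev_sign cont1 hy] with c'' h1 h2 h3 h4 h5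
    rw [h2, h3, h4, h1, hf0, hs0]
    simp only [h5]

end Pool.Agent.BI39
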