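import Mathlib
import Pool.Agent.Lib.BI39.Defs
import Pool.Agent.Lib.BI39.B0
import Pool.Agent.Lib.BI39.C0
import Pool.Agent.Lib.BI39.WDefs

/-!
BI39, row W4: the potentials outside of the tube of stage `0`. As W2, W3 with only one wall: the part of
the plane `y = 0` outside of the circle of radius `1`. In the collar `E0 [] (t, y, z)` has second coordinate
`y` and `x.1 ^ 2 + x.2.2 ^ 2 = (1 + z) ^ 2`. On the plane `y = 0` a point of `VR` satisfies
`|√(x.1 ^ 2 + x.2.2 ^ 2) - 1| > R 0` (`mem_E0_tube`).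
-/

set_option autoImplicit false

namespace Pool.Agent.BI39

open Real Topology

private theorem W4_R0 : R 0 = 1 / 10 := by
  unfold R; norm_num

private theorem W4_L0 : L 0 = 2 * π := rfl

private theorem W4_VR_iff {x : P3} : x ∈ VR ↔ 0 < x.2.2 ∧
    ¬ (|x.2.1| ≤ R 0 ∧ |√(x.1 ^ 2 + x.2.2 ^ 2) - 1| ≤ R 0) := by
  have h := mem_E0_tube (sh := fun _ => 0) (s := R 0) (R_pos 0).le (by rw [W4_R0]; norm_num) (x := x)
  unfold VR E0
  rw [Set.mem_ofPred_eq, h]

private theorem W4_isOpen_N {f : P3 → ℝ} (hf : Continuous f) (a : ℝ) : IsOpen {x | a < f x} :=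
  isOpen_lt continuous_const hf

theorem isOpen_VR : IsOpen VR := by
  have : VR = {x : P3 | 0 < x.2.2} ∩
      ({x : P3 | |x.2.1| ≤ R 0} ∩ {x : P3 | |√(x.1 ^ 2 + x.2.2 ^ 2) - 1| ≤ R 0})ᶜ := by
    ext x
    rw [W4_VR_iff]
    rfl
  rw [this]
  refine IsOpen.inter (isOpen_lt continuous_const (by fun_prop)) ?_
  refine (IsClosed.inter ?_ ?_).isOpen_compl
  · exact isClosed_le (by fun_prop) continuous_const
  · exact isClosed_le (by fun_prop) continuous_const

private theorem W4_plane {x : P3} (h : x ∈ VR) (h0 : x.2.1 = 0) : x.1 ^ 2 + x.2.2 ^ 2 ≠ 1 := by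
  intro h1
  rw [W4_VR_iff] at h
  apply h.2
  rw [h0, h1]
  simp [(R_pos 0).le]

theorem isOpen_NR (x : P3) : IsOpen (NR x) := by
  by_cases h0 : x.2.1 = 0
  · by_cases h1 : 1 < x.1 ^ 2 + x.2.2 ^ 2
    · have : NR x = VR ∩ ({x' : P3 | x'.2.1 ≠ 0} ∪ {x' : P3 | 1 < x'.1 ^ 2 + x'.2.2 ^ 2}) := by
        ext x'
        simp only [NR, Set.mem_ofPred_eq, Set.mem_inter_iff, Set.mem_union, h0, h1, true_iff,
          ne_eq, not_true_eq_false, false_imp_iff, true_imp_iff, true_and]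
        tauto
      rw [this]
      refine isOpen_VR.inter (IsOpen.union ?_ ?_)
      · exact isOpen_ne_fun (by fun_prop) continuous_const
      · exact isOpen_lt continuous_const (by fun_prop)
    · have : NR x = VR ∩ ({x' : P3 | x'.2.1 ≠ 0} ∪ {x' : P3 | x'.1 ^ 2 + x'.2.2 ^ 2 < 1}) := by
        ext x'
        simp only [NR, Set.mem_ofPred_eq, Set.mem_inter_iff, Set.mem_union, h0, h1, false_iff,
          ne_eq, not_true_eq_false, false_imp_iff, true_imp_iff, true_and]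
        constructor
        · rintro ⟨hv, h2⟩
          refine ⟨hv, ?_⟩
          by_cases h3 : x'.2.1 = 0
          · exact Or.inr (lt_of_le_of_ne (not_lt.1 (h2 h3)) (W4_plane hv h3))
          · exact Or.inl h3
        · rintro ⟨hv, h2⟩
          refine ⟨hv, fun h3 => ?_⟩
          rcases h2 with h2 | h2
          · exact absurd h3 h2
          · exact not_lt.2 h2.le
      rw [this]
      refine isOpen_VR.inter (IsOpen.union ?_ ?_)
      · exact isOpen_ne_fun (by fun_prop) continuous_const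
      · exact isOpen_lt (by fun_prop) continuous_const
  · have : NR x = VR ∩ {x' : P3 | 0 < x.2.1 * x'.2.1} := by
      ext x'
      simp only [NR, Set.mem_ofPred_eq, Set.mem_inter_iff, h0, ne_eq, not_false_eq_true,
        true_imp_iff, false_imp_iff, and_true]
    rw [this]
    exact isOpen_VR.inter (isOpen_lt continuous_const (by fun_prop))

theorem mem_NR_self {x : P3} (h : x ∈ VR) : x ∈ NR x :=
  ⟨h, fun h0 => mul_self_pos.2 h0, fun _ _ => Iff.rfl⟩

/-- the sign of a continuous function is locally constant at points where it is not zero -/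
private theorem W4_sign {f : P3 → ℝ} (hf : Continuous f) {x : P3} (h : f x ≠ 0) :
    ∀ᶠ x' in 𝓝 x, (f x' < 0 ↔ f x < 0) ∧ (0 ≤ f x' ↔ 0 ≤ f x) := by
  rcases lt_or_gt_of_ne h with h | h
  · have : {x' | f x' < 0} ∈ 𝓝 x := (isOpen_lt hf continuous_const).mem_nhds h
    filter_upwards [this] with x' hx'
    exact ⟨by simp [h, hx'], by simp [not_le.2 h, not_le.2 hx']⟩
  · have : {x' | 0 < f x'} ∈ 𝓝 x := (isOpen_lt continuous_const hf).mem_nhds h
    filter_upwards [this] with x' hx'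
    exact ⟨by simp [not_lt.2 h.le, not_lt.2 hx'.le], by simp [h.le, hx'.le]⟩

private theorem W4_zero_left {x x' : P3} (h : x' ∈ NR x) (h0 : x'.2.1 = 0) : x.2.1 = 0 := by
  by_contra h1
  have := h.2.1 h1
  rw [h0, mul_zero] at this
  exact lt_irrefl _ this

theorem hR_compat {G : Type*} [Group G] (g : G) {x₁ x₂ x' : P3} (h1 : x₁ ∈ VR) (h2 : x₂ ∈ VR)
    (h1' : x' ∈ NR x₁) (h2' : x' ∈ NR x₂) :
    ∀ᶠ x'' in 𝓝 x', (hR g x₂ x'')⁻¹ * hR g x₁ x'' = (hR g x₂ x')⁻¹ * hR g x₁ x' := by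
  by_cases h0 : x'.2.1 = 0
  · have e1 := W4_zero_left h1' h0
    have e2 := W4_zero_left h2' h0
    have e3 : (1 < x₁.1 ^ 2 + x₁.2.2 ^ 2 ↔ 1 < x₂.1 ^ 2 + x₂.2.2 ^ 2) :=
      (h1'.2.2 e1 h0).trans (h2'.2.2 e2 h0).symm
    have e4 : ∀ z, hR g x₁ z = hR g x₂ z := by
      intro z
      simp only [hR, e1, e2, e3]
    exact Filter.Eventually.of_forall fun z => by rw [e4, e4]; simp
  · filter_upwards [W4_sign (f := fun x => x.2.1) (by fun_prop) h0] with z hz
    simp only [hR, hz.1]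

private theorem W4_abs_R0 {c : P3} (hc : c ∈ DD 0) : |c.2.2| < 1 / 5 ∧ |c.2.1| < 1 / 5 := by
  have h := hc.2.2.1
  have e : 2 * R 0 = 1 / 5 := by rw [W4_R0]; norm_num
  rw [e] at h
  exact ⟨h.2, h.1⟩

private theorem W4_E0_N {c : P3} : (E0 [] c).1 ^ 2 + (E0 [] c).2.2 ^ 2 = (1 + c.2.2) ^ 2 := by
  unfold E0 E
  have := cos_sq_add_sin_sq c.1
  simp only
  linear_combination (1 + c.2.2) ^ 2 * this

theorem E0_mem_VR {c : P3} (hc : c ∈ DD 0) (h : c ∉ tube (R 0)) : E0 [] c ∈ VR := by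
  have h5 := W4_abs_R0 hc
  have hz : 0 < 1 + c.2.2 := by have := (abs_lt.1 h5.1).1; linarith
  rw [W4_VR_iff]
  constructor
  · have hp : c ∈ tube (1 / 5) := ⟨h5.2.le, h5.1.le⟩
    exact E0_pos hp hc.1 (by have := hc.2.1; rw [W4_L0] at this; linarith)
  · rintro ⟨h1, h2⟩
    apply h
    refine ⟨h1, ?_⟩
    rw [W4_E0_N, Real.sqrt_sq hz.le] at h2
    have e : 1 + c.2.2 - 1 = c.2.2 := by ring
    rwa [e] at h2

private theorem W4_axis {n : ℕ} {c : P3} (h1 : c.1 < L n / 2) (hy : c.2.1 = 0) (hz : c.2.2 = 0)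
    (h0 : 0 < c.1) (hA : aa n ^ 2 < NA n c) : ¬ aa n ^ 2 < NB n c := by
  unfold NA at hA
  unfold NB
  rw [hz] at hA
  rw [hy]
  have ha := aa_pos n
  by_cases h2 : |c.1| - L n / 4 ≤ 0
  · rw [max_eq_right h2] at hA
    have := sq_nonneg (aa n)
    norm_num at hA
    linarith
  · rw [abs_of_pos h0] at h2
    have h3 : |L n / 2 - c.1| - L n / 4 ≤ 0 := by
      rw [abs_of_pos (by linarith)]; linarith
    rw [max_eq_right h3]
    have := sq_nonneg (aa n)
    norm_num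
    linarith

private theorem W4_R_aa (n : ℕ) : aa n < R n := by
  have := R_pos n
  unfold aa
  linarith

private theorem W4_sq_lt {n : ℕ} {z : ℝ} (h : R n < |z|) : aa n ^ 2 < z ^ 2 := by
  have h1 := W4_R_aa n
  have h2 := aa_pos n
  rw [← sq_abs z]
  exact pow_lt_pow_left₀ (h1.trans h) h2.le (by norm_num)

theorem hR_collar {G : Type*} [Group G] {x y g : G} (hg : y⁻¹ * x⁻¹ * y * x = g) {c c' d : P3}
    (hc : c ∈ DD 0) (hc' : c' ∈ NN 0 c) (h : c' ∉ tube (R 0)) (hd : d ∈ VR)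
    (hd' : E0 [] c' ∈ NR d) :
    ∀ᶠ c'' in 𝓝 c', (hR g d (E0 [] c''))⁻¹ * hS x y 0 c c'' =
      (hR g d (E0 [] c'))⁻¹ * hS x y 0 c c' := by
  have hE : ∀ q : P3, (E0 [] q).2.1 = q.2.1 := fun q => rfl
  have hopen : ∀ᶠ c'' in 𝓝 c', c'' ∉ tube (R 0) := (isClosed_tube (R 0)).isOpen_compl.mem_nhds h
  have hz5 := (W4_abs_R0 hc'.1).1
  by_cases hy0 : c'.2.1 = 0
  · have hcy : c.2.1 = 0 := by
      by_contra h1
      have := hc'.2.1 h1
      rw [hy0, mul_zero] at this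
      exact lt_irrefl _ this
    have hdy : d.2.1 = 0 := W4_zero_left hd' hy0
    have hz0 : R 0 < |c'.2.2| := by
      by_contra h1
      exact h ⟨by rw [hy0, abs_zero]; exact (R_pos 0).le, not_lt.1 h1⟩
    have hzne : c'.2.2 ≠ 0 := by
      intro h1
      rw [h1, abs_zero] at hz0
      exact absurd hz0 (not_lt.2 (R_pos 0).le)
    have hNA' : aa 0 ^ 2 < NA 0 c' := by
      have := W4_sq_lt hz0
      unfold NA
      have h2 := sq_nonneg (max (|c'.1| - L 0 / 4) 0)
      linarith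
    have hNA : aa 0 ^ 2 < NA 0 c := (hc'.2.2.2.1 hcy hy0).2 hNA'
    have hyf : ¬ (c.2.2 = 0 ∧ aa 0 ^ 2 < NB 0 c) := fun h1 =>
      W4_axis hc.2.1 hcy h1.1 hc.1 hNA h1.2
    have hyf' : ∀ q : P3, ¬ (c.2.2 = 0 ∧ aa 0 ^ 2 < NB 0 c ∧ q.2.2 < 0) := fun q h1 =>
      hyf ⟨h1.1, h1.2.1⟩
    have hN : (1 < d.1 ^ 2 + d.2.2 ^ 2 ↔ 0 < c'.2.2) := by
      rw [hd'.2.2 hdy hy0, W4_E0_N]
      have := (abs_lt.1 hz5).1
      constructor
      · intro h1
        by_contra h2
        nlinarith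
      · intro h1
        nlinarith
    filter_upwards [hopen, W4_sign (f := fun x => x.2.2) (by fun_prop) hzne] with q hq hq2
    simp only [hR, hS, MM, hE, hq, h, hcy, hdy, hNA, hyf', if_false, true_and, mul_one, hN, hq2.2, hy0,
      lt_irrefl, and_false, le_refl, if_true]
    by_cases h1 : 0 ≤ c'.2.2
    · have h2 : 0 < c'.2.2 := lt_of_le_of_ne h1 (Ne.symm hzne)
      by_cases h3 : 0 ≤ q.2.1
      · simp [h1, h2, h3, not_lt.2 h3]
      · simp [h1, h2, h3, not_le.1 h3, hg]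
    · have h2 : ¬ 0 < c'.2.2 := fun h => h1 h.le
      by_cases h3 : 0 ≤ q.2.1
      · simp [h1, h2, h3, not_lt.2 h3]
      · simp [h1, h2, h3, not_le.1 h3]
  · by_cases hz0 : c'.2.2 = 0
    · have hcz : c.2.2 = 0 := by
        by_contra h1
        have := hc'.2.2.1 h1
        rw [hz0, mul_zero] at this
        exact lt_irrefl _ this
      have hyR : R 0 < |c'.2.1| := by
        by_contra h1
        exact h ⟨not_lt.1 h1, by rw [hz0, abs_zero]; exact (R_pos 0).le⟩
      have hNB' : aa 0 ^ 2 < NB 0 c' := by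
        have := W4_sq_lt hyR
        unfold NB
        have h2 := sq_nonneg (max (|L 0 / 2 - c'.1| - L 0 / 4) 0)
        linarith
      have hNB : aa 0 ^ 2 < NB 0 c := (hc'.2.2.2.2 hcz hz0).2 hNB'
      have hxf : ∀ q : P3, ¬ (c.2.1 = 0 ∧ aa 0 ^ 2 < NA 0 c ∧ q.2.1 < 0) := fun q h1 =>
        W4_axis hc.2.1 h1.1 hcz hc.1 h1.2.1 hNB
      filter_upwards [hopen, W4_sign (f := fun x => x.2.1) (by fun_prop) hy0] with q hq hq2
      simp only [hR, hS, MM, hE, hq, h, hcz, hNB, hxf, if_false, true_and, mul_one, hq2.2, hq2.1, hz0,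
        lt_irrefl, and_false, le_refl, if_true]
      congr 1
      by_cases h1 : 0 ≤ c'.2.1
      · by_cases h3 : 0 ≤ q.2.2
        · simp [h1, h3, not_lt.2 h3]
        · simp [h1, h3, not_le.1 h3]
      · by_cases h3 : 0 ≤ q.2.2
        · simp [h1, h3, not_lt.2 h3]
        · simp [h1, h3, not_le.1 h3]
    · filter_upwards [hopen, W4_sign (f := fun x => x.2.1) (by fun_prop) hy0,
        W4_sign (f := fun x => x.2.2) (by fun_prop) hz0] with q hq hq1 hq2
      simp only [hR, hS, MM, hE, hq, h, hq2.2, hq2.1, hq1.1, hq1.2]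

end Pool.Agent.BI39
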