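import Mathlib
import Pool.Agent.Lib.BI39.Defs
import Pool.Agent.Lib.BI39.B0
import Pool.Agent.Lib.BI39.B1
import Pool.Agent.Lib.BI39.B2
import Pool.Agent.Lib.BI39.C0
import Pool.Agent.Lib.BI39.C1
import Pool.Agent.Lib.BI39.C1b
import Pool.Agent.Lib.BI39.D1
import Pool.Agent.Lib.BI39.WDefs

/-!
BI39, row W5: the sets `VR` and `E0 w '' DD w.length` cover `UU`, and how they meet.

`UU_cover`: `x ∉ KK 0`: `VR`. Otherwise let `n` be maximal with `x ∈ KK n`: `x = E0 w p`, `p ∈ tube (R n)`, by
`E_half'` we may assume `0 < p.1 < L n / 2`; `p ∈ bt i n '' tube (R (n + 1))` would give `x ∈ KK (n + 1)`.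
`no_wrap`: `c = shft (k L) (bt i n p)` with `0 < c.1 < L n / 2` implies `k = 0` (`abs_bt_false_le`,
`abs_bt_true_le`: `(bt false n p).1 ∈ [-L/4 - rho, L/4 + rho]`, `(bt true n p).1 ∈ [L/4 - rho, 3L/4 + rho]`).
`E0_DD_mem`: `E_half`; not in `KK (w.length + 1)`: `E_disj`, `E_inj`, `no_wrap`.
`E0_meet`: let `E0 w c = E0 w' c'` with `w.length ≥ w'.length`. Write `w = v ++ u`, `u.length = w'.length`;
`E_append`, `E_disj` give `u = w'`. If `v = []`: `c = c'`. If `v = [i]`: `c' = shft _ (bt i _ c)`, `no_wrap`,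
and `c ∉ tube (R _)` as `c' ∈ DD`. If `v.length ≥ 2`: `c' = shft _ (bt i _ p)` with `p ∈ tube (R _ / 2)`,
contradiction to `c' ∈ DD`.
-/

set_option autoImplicit false

namespace Pool.Agent.BI39

open Real Topology

private theorem W5_cons (i : Bool) (w : List Bool) (p : P3) :
    E (fun _ => 0) (i :: w) p = E (fun _ => 0) w (bt i w.length p) := by
  show E (fun _ => 0) w (shft 0 (bt i w.length p)) = _
  rw [shft_zero]

private theorem W5_bt_mem {i : Bool} {n : ℕ} {p : P3} (h : p ∈ tube (2 * R (n + 1))) :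
    bt i n p ∈ tube (2 * R n) :=
  tube_mono (by have := R_pos n; linarith) (bt_mem h)

private theorem W5_R_tube {n : ℕ} {p : P3} (h : p ∈ tube (R n)) : p ∈ tube (2 * R n) :=
  tube_mono (by have := R_pos n; linarith) h

private theorem W5_Bc (m : ℕ) (v : List Bool) : ∀ p : P3, p ∈ tube (2 * R (m + v.length)) →
    v ≠ [] → Bc (fun _ => 0) m v p ∈ tube (R m / 2) := by
  induction v with
  | nil => intro p _ h; exact absurd rfl h
  | cons i v ih =>
    intro p hp _
    have hlen : m + (i :: v).length = (m + v.length) + 1 := by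
      simp only [List.length_cons]
      omega
    rw [hlen] at hp
    have h1 : shft ((fun _ : ℕ => (0 : ℝ)) (m + v.length)) (bt i (m + v.length) p) ∈
        tube (R (m + v.length) / 2) := by
      rw [shft_mem_tube]
      exact bt_mem hp
    rcases eq_or_ne v [] with rfl | hv
    · exact h1
    · refine ih _ (tube_mono ?_ h1) hv
      have := R_pos (m + v.length)
      linarith

theorem UU_cover {x : P3} (hx : x ∈ UU) : x ∈ VR ∨ ∃ w : List Bool, ∃ c ∈ DD w.length, E0 w c = x := by
  classical
  obtain ⟨h0, hx⟩ := hx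
  have hex : ∃ n, x ∉ KK (fun _ => 0) n := by
    by_contra hcon
    push Not at hcon
    exact hx hcon
  rcases Nat.eq_zero_or_pos (Nat.find hex) with hN | hN
  · left
    refine ⟨h0, ?_⟩
    rintro ⟨p, hp, hpx⟩
    have h1 := Nat.find_spec hex
    rw [hN] at h1
    exact h1 ⟨[], rfl, p, hp, hpx⟩
  · right
    obtain ⟨n, hn⟩ : ∃ n, Nat.find hex = n + 1 := ⟨Nat.find hex - 1, by omega⟩
    have h1 := Nat.find_spec hex
    have h2 : x ∈ KK (fun _ => 0) n := by
      have := Nat.find_min hex (m := n) (by omega)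
      push Not at this
      exact this
    rw [hn] at h1
    obtain ⟨w, hw, p, hp, hpx⟩ := h2
    subst hw
    rw [← hpx] at h0
    obtain ⟨k, hk0, hk1⟩ := E_half' (W5_R_tube hp) h0
    refine ⟨w, shft (k * L w.length) p, ⟨hk0, hk1, ?_, ?_, ?_⟩, ?_⟩
    · rw [shft_mem_otube]
      exact tube_subset_otube (by have := R_pos w.length; linarith) hp
    · rintro ⟨q, hq, hqe⟩
      refine h1 ⟨false :: w, rfl, q, hq, ?_⟩
      rw [W5_cons, hqe, E_per, hpx]
    · rintro ⟨q, hq, hqe⟩
      refine h1 ⟨true :: w, rfl, q, hq, ?_⟩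
      rw [W5_cons, hqe, E_per, hpx]
    · show E (fun _ => 0) w _ = x
      rw [E_per, hpx]

theorem no_wrap {i : Bool} {n : ℕ} {p c : P3} {k : ℤ} (hp : p ∈ tube (2 * R (n + 1)))
    (h : c = shft (k * L n) (bt i n p)) (h0 : 0 < c.1) (h1 : c.1 < L n / 2) : c = bt i n p := by
  have hc1 : c.1 = (bt i n p).1 + k * L n := by rw [h]; rfl
  have hL := L_ge n
  have hrho : rho n ≤ 3 / 100 := by
    rw [rho_eq]
    have := R_le n
    linarith
  have hk : k = 0 := by
    have hlo : (-1 : ℝ) < k := by
      by_contra hcon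
      push Not at hcon
      have h3 : (k : ℝ) * L n ≤ -L n := by nlinarith
      cases i with
      | false =>
        have := abs_le.1 (abs_bt_false_le hp)
        linarith [this.1, this.2]
      | true =>
        have := abs_le.1 (abs_bt_true_le hp)
        linarith [this.1, this.2]
    have hhi : (k : ℝ) < 1 := by
      by_contra hcon
      push Not at hcon
      have h3 : L n ≤ (k : ℝ) * L n := by nlinarith
      cases i with
      | false =>
        have := abs_le.1 (abs_bt_false_le hp)
        linarith [this.1, this.2]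
      | true =>
        have := abs_le.1 (abs_bt_true_le hp)
        linarith [this.1, this.2]
    have e1 : (-1 : ℤ) < k := by exact_mod_cast hlo
    have e2 : k < (1 : ℤ) := by exact_mod_cast hhi
    omega
  rw [h, hk]
  push_cast
  rw [zero_mul, shft_zero]

theorem E0_DD_mem {w : List Bool} {c : P3} (hc : c ∈ DD w.length) : E0 w c ∈ UU := by
  obtain ⟨h0, h1, h2, h3, h4⟩ := hc
  have hct : c ∈ tube (2 * R w.length) := otube_subset _ h2
  refine ⟨E_half hct h0 h1, fun hcon => ?_⟩
  obtain ⟨w', hw', p, hp, hpe⟩ := hcon (w.length + 1)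
  cases w' with
  | nil => simp at hw'
  | cons i u =>
    simp only [List.length_cons, Nat.add_right_cancel_iff] at hw'
    rw [W5_cons] at hpe
    have hpe' : E (fun _ => 0) w c = E (fun _ => 0) u (bt i u.length p) := hpe.symm
    rw [hw'] at hpe'
    have hbt := W5_bt_mem (i := i) (W5_R_tube hp)
    by_cases huw : w = u
    · subst huw
      obtain ⟨k, hk⟩ := E_inj hct hbt hpe'
      have h5 := no_wrap (W5_R_tube hp) hk h0 h1
      cases i with
      | false => exact h3 ⟨p, hp, h5.symm⟩
      | true => exact h4 ⟨p, hp, h5.symm⟩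
    · exact E_disj hw'.symm huw hct hbt hpe'

theorem VR_subset : VR ⊆ UU := by
  rintro x ⟨h0, h1⟩
  refine ⟨h0, fun hcon => ?_⟩
  obtain ⟨w, hw, p, hp, hpe⟩ := hcon 0
  rw [List.length_eq_zero_iff] at hw
  subst hw
  exact h1 ⟨p, hp, hpe⟩

theorem E0_DD_inj {w : List Bool} {c c' : P3} (hc : c ∈ DD w.length) (hc' : c' ∈ DD w.length)
    (h : E0 w c = E0 w c') : c = c' := by
  obtain ⟨h0, h1, h2, -, -⟩ := hc
  obtain ⟨h0', h1', h2', -, -⟩ := hc'
  obtain ⟨k, hk⟩ := E_inj (otube_subset _ h2) (otube_subset _ h2') h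
  have hc1 : c.1 = c'.1 + k * L w.length := by rw [hk]; rfl
  have hL := L_ge w.length
  have hlo : (-1 : ℝ) < k := by
    by_contra hcon
    push Not at hcon
    have h3 : (k : ℝ) * L w.length ≤ -L w.length := by nlinarith
    linarith
  have hhi : (k : ℝ) < 1 := by
    by_contra hcon
    push Not at hcon
    have h3 : L w.length ≤ (k : ℝ) * L w.length := by nlinarith
    linarith
  have e1 : (-1 : ℤ) < k := by exact_mod_cast hlo
  have e2 : k < (1 : ℤ) := by exact_mod_cast hhi
  have hk0 : k = 0 := by omega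
  rw [hk, hk0]
  push_cast
  rw [zero_mul, shft_zero]

theorem E0_DD_open {w : List Bool} {U : Set P3} (hU : IsOpen U) (h : U ⊆ DD w.length) :
    IsOpen (E0 w '' U) := by
  exact isOpen_E_image hU fun c hc => (h hc).2.2.1

private theorem W5_meet {w w' : List Bool} {c c' : P3} (hl : w'.length ≤ w.length)
    (hc : c ∈ DD w.length) (hc' : c' ∈ DD w'.length) (h : E0 w c = E0 w' c') :
    (w = w' ∧ c = c') ∨
      (∃ i, w = i :: w' ∧ c ∉ tube (R w.length) ∧ c' = bt i w'.length c) := by
  have hct : c ∈ tube (2 * R w.length) := otube_subset _ hc.2.2.1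
  have hct' : c' ∈ tube (2 * R w'.length) := otube_subset _ hc'.2.2.1
  rcases Nat.eq_or_lt_of_le hl with heq | hlt
  · left
    by_cases hw : w = w'
    · subst hw
      exact ⟨rfl, E0_DD_inj hc hc' h⟩
    · exact absurd h (E_disj heq.symm hw hct (by rw [← heq]; exact hct'))
  · right
    obtain ⟨v, u, hwv, hul⟩ : ∃ v u : List Bool, w = v ++ u ∧ u.length = w'.length + 1 := by
      refine ⟨w.take (w.length - (w'.length + 1)), w.drop (w.length - (w'.length + 1)),
        (List.take_append_drop _ _).symm, ?_⟩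
      rw [List.length_drop]
      omega
    cases u with
    | nil => simp at hul
    | cons j u =>
      simp only [List.length_cons, Nat.add_right_cancel_iff] at hul
      subst hwv
      have hlen : (v ++ j :: u).length = (u.length + 1) + v.length := by
        simp only [List.length_append, List.length_cons]
        omega
      have hct2 : c ∈ tube (2 * R ((u.length + 1) + v.length)) := by rw [← hlen]; exact hct
      have hB : Bc (fun _ => 0) (u.length + 1) v c ∈ tube (2 * R (u.length + 1)) := Bc_mem hct2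
      have hE : E (fun _ => 0) (v ++ j :: u) c =
          E (fun _ => 0) u (bt j u.length (Bc (fun _ => 0) (u.length + 1) v c)) := by
        rw [E_append, W5_cons]
        rfl
      have hbt := W5_bt_mem (i := j) hB
      have h' : E (fun _ => 0) w' c' =
          E (fun _ => 0) u (bt j u.length (Bc (fun _ => 0) (u.length + 1) v c)) := by
        rw [← hE]
        exact h.symm
      by_cases huw : w' = u
      · subst huw
        obtain ⟨k, hk⟩ := E_inj hct' hbt h'
        have h5 := no_wrap hB hk hc'.1 hc'.2.1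
        rcases eq_or_ne v [] with rfl | hv
        · refine ⟨j, rfl, fun hcon => ?_, h5⟩
          have hcon' : c ∈ tube (R (w'.length + 1)) := hcon
          cases j with
          | false => exact hc'.2.2.2.1 ⟨c, hcon', h5.symm⟩
          | true => exact hc'.2.2.2.2 ⟨c, hcon', h5.symm⟩
        · exfalso
          have h6 := W5_Bc (w'.length + 1) v c hct2 hv
          have h7 : Bc (fun _ => 0) (w'.length + 1) v c ∈ tube (R (w'.length + 1)) :=
            tube_mono (by have := R_pos (w'.length + 1); linarith) h6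
          cases j with
          | false => exact hc'.2.2.2.1 ⟨_, h7, h5.symm⟩
          | true => exact hc'.2.2.2.2 ⟨_, h7, h5.symm⟩
      · exact absurd h' (E_disj hul.symm huw hct' (by rw [← hul]; exact hbt))

theorem E0_meet {w w' : List Bool} {c c' : P3} (hc : c ∈ DD w.length) (hc' : c' ∈ DD w'.length)
    (h : E0 w c = E0 w' c') :
    (w = w' ∧ c = c') ∨
      (∃ i, w = i :: w' ∧ c ∉ tube (R w.length) ∧ c' = bt i w'.length c) ∨
      (∃ i, w' = i :: w ∧ c' ∉ tube (R w'.length) ∧ c = bt i w.length c') := by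
  rcases le_total w'.length w.length with hl | hl
  · rcases W5_meet hl hc hc' h with h1 | h1
    · exact Or.inl h1
    · exact Or.inr (Or.inl h1)
  · rcases W5_meet hl hc' hc h.symm with ⟨h1, h2⟩ | h1
    · exact Or.inl ⟨h1.symm, h2.symm⟩
    · exact Or.inr (Or.inr h1)

theorem E0_meet_VR {w : List Bool} {c : P3} (hc : c ∈ DD w.length) (h : E0 w c ∈ VR) :
    w = [] ∧ c ∉ tube (R 0) := by
  rcases eq_or_ne w [] with rfl | hw
  · exact ⟨rfl, fun hcon => h.2 ⟨c, hcon, rfl⟩⟩
  · exfalso
    have hct : c ∈ tube (2 * R (0 + w.length)) := by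
      rw [Nat.zero_add]
      exact otube_subset _ hc.2.2.1
    have h6 := W5_Bc 0 w c hct hw
    have h7 : Bc (fun _ => 0) 0 w c ∈ tube (R 0) :=
      tube_mono (by have := R_pos 0; linarith) h6
    refine h.2 ⟨_, h7, ?_⟩
    have h8 := E_append (fun _ => 0) w [] c
    rw [List.append_nil] at h8
    exact h8.symm

end Pool.Agent.BI39
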