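import Mathlib
import Pool.Agent.Lib.BI39.Defs
import Pool.Agent.Lib.BI39.B0
import Pool.Agent.Lib.BI39.C0
import Pool.Agent.Lib.BI39.C1
import Pool.Agent.Lib.BI39.C1b
import Pool.Agent.Lib.BI39.G2
import Pool.Agent.Lib.BI39.WDefs
import Pool.Agent.Lib.BI39.W0
import Pool.Agent.Lib.BI39.W1
import Pool.Agent.Lib.BI39.W2
import Pool.Agent.Lib.BI39.W3
import Pool.Agent.Lib.BI39.W3b
import Pool.Agent.Lib.BI39.W4
import Pool.Agent.Lib.BI39.W5

/-!
BI39, row W6: the meridian `mu` is not null homotopic in `UU`.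

Apply `holonomy` with `X = UU` (subtype), `G = Equiv.Perm (Fin 5)`, `lab` from `exists_lab`,
`ι = P3 ⊕ (List Bool × P3)` (restricted to the points of `VR` resp. the pairs `(w, c)` with
`c ∈ DD w.length`; for the other indices the set is empty),
`B (inl x) = {u | u ∈ NR x}`, `h (inl x) u = hR (lab []) x u`,
`B (inr (w, c)) = E0 w '' NN w.length c`,
`h (inr (w, c)) u = hS (lab (false :: w)) (lab (true :: w)) w.length c (coord w u)`, where
`coord w (E0 w c') = c'` for `c' ∈ DD w.length` (`E0_DD_inj`).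
Compatibility: two indices `inl`: `hR_compat`; two indices with the same `w`: `hS_compat`; otherwise
`E0_meet`, `E0_meet_VR` and `hS_collar_false`, `hS_collar_true`, `hR_collar` (a statement
`∀ᶠ c'' in 𝓝 c', ...` implies the statement near `E0 w c'` because `E0 w` is open on `DD w.length`).
The function `e` along `mu`: the points `mu s` are in `VR`; the second coordinate `3/20 cos (2 π s)` is
negative exactly for `1/4 < s < 3/4`. Put `e s = 1` for `s ≤ 1/4` and `e s = lab []` for `s > 1/4`. Near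
`s = 1/4` (`mu s = (0, 0, 23/20)`, outside of the circle) `hR` jumps from `1` to `lab []`; near `s = 3/4`
(`mu s = (0, 0, 17/20)`, inside) and at all other points `hR` is constant. So `e 0 = 1 ≠ lab [] = e 1`.
-/

set_option autoImplicit false

namespace Pool.Agent.BI39

open Real Topology unitInterval

open Classical in
/-- coordinates -/
private noncomputable def W6_coord (w : List Bool) (x : P3) : P3 :=
  if h : ∃ c, c ∈ DD w.length ∧ E0 w c = x then h.choose else (0, 0, 0)

private theorem W6_coord_eq {w : List Bool} {c : P3} (hc : c ∈ DD w.length) :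
    W6_coord w (E0 w c) = c := by
  have h : ∃ c', c' ∈ DD w.length ∧ E0 w c' = E0 w c := ⟨c, hc, rfl⟩
  unfold W6_coord
  rw [dif_pos h]
  exact E0_DD_inj h.choose_spec.1 hc h.choose_spec.2

private theorem W6_ev {w : List Bool} {c : P3} (hc : c ∈ DD w.length) {P : P3 → Prop}
    (h : ∀ᶠ c' in 𝓝 c, P c') : ∀ᶠ x in 𝓝 (E0 w c), ∃ c', c' ∈ DD w.length ∧ E0 w c' = x ∧ P c' := by
  have h0 : ∀ᶠ c' in 𝓝 c, c' ∈ DD w.length := (isOpen_DD w.length).mem_nhds hc
  have h1 : ∀ᶠ c' in 𝓝 c, c' ∈ DD w.length ∧ P c' := h0.and h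
  obtain ⟨U, hU, hUo, hcU⟩ := eventually_nhds_iff.1 h1
  have h2 : IsOpen (E0 w '' U) := E0_DD_open hUo (fun c' hc' => (hU c' hc').1)
  filter_upwards [h2.mem_nhds ⟨c, hcU, rfl⟩] with x hx
  obtain ⟨c', hc', rfl⟩ := hx
  exact ⟨c', (hU c' hc').1, rfl, (hU c' hc').2⟩

private theorem W6_cons (i : Bool) (w : List Bool) (c : P3) :
    E0 (i :: w) c = E0 w (bt i w.length c) := by
  show E (fun _ => 0) w (shft 0 (bt i w.length c)) = E (fun _ => 0) w (bt i w.length c)
  rw [shft_zero]

private theorem W6_mem_DD_of_NN {n : ℕ} {c c' : P3} (h : c' ∈ NN n c) : c' ∈ DD n := h.1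

/-- the father and the son -/
private theorem W6_collar {lab : List Bool → Equiv.Perm (Fin 5)}
    (hlab : ∀ w, lab w = (lab (true :: w))⁻¹ * (lab (false :: w))⁻¹ * lab (true :: w) *
      lab (false :: w)) (i : Bool) {w : List Bool} {c c' d : P3} (hc : c ∈ DD (i :: w).length)
    (hc' : c' ∈ NN (i :: w).length c) (h : c' ∉ tube (R (i :: w).length))
    (hd : d ∈ DD w.length) (hd' : bt i w.length c' ∈ NN w.length d) :
    ∀ᶠ x in 𝓝 (E0 (i :: w) c'),
      (hS (lab (false :: w)) (lab (true :: w)) w.length d (W6_coord w x))⁻¹ *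
        hS (lab (false :: i :: w)) (lab (true :: i :: w)) (i :: w).length c (W6_coord (i :: w) x) =
      (hS (lab (false :: w)) (lab (true :: w)) w.length d (W6_coord w (E0 (i :: w) c')))⁻¹ *
        hS (lab (false :: i :: w)) (lab (true :: i :: w)) (i :: w).length c
          (W6_coord (i :: w) (E0 (i :: w) c')) := by
  have hg := (hlab (i :: w)).symm
  have hopen : ∀ᶠ c'' in 𝓝 c', c'' ∉ tube (R (i :: w).length) :=
    (isClosed_tube _).isOpen_compl.mem_nhds h
  have key : ∀ᶠ c'' in 𝓝 c',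
      (hS (lab (false :: w)) (lab (true :: w)) w.length d (bt i w.length c''))⁻¹ *
        hS (lab (false :: i :: w)) (lab (true :: i :: w)) (w.length + 1) c c'' =
      (hS (lab (false :: w)) (lab (true :: w)) w.length d (bt i w.length c'))⁻¹ *
        hS (lab (false :: i :: w)) (lab (true :: i :: w)) (w.length + 1) c c' := by
    cases i with
    | false => exact hS_collar_false hg hc hc' h hd hd'
    | true => exact hS_collar_true hg hc hc' h hd hd'
  have e1 : ∀ c'' : P3, c'' ∈ DD (i :: w).length → c'' ∉ tube (R (i :: w).length) →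
      W6_coord w (E0 (i :: w) c'') = bt i w.length c'' := by
    intro c'' h1 h2
    rw [W6_cons]
    exact W6_coord_eq (bt_mem_DD h1 h2)
  filter_upwards [W6_ev hc'.1 (key.and hopen)] with x hx
  obtain ⟨c'', h1, rfl, h2, h3⟩ := hx
  rw [e1 c'' h1 h3, e1 c' hc'.1 h, W6_coord_eq h1, W6_coord_eq hc'.1]
  exact h2

private theorem W6_inv {G X : Type*} [Group G] {f g : X → G} {l : Filter X} {x : X}
    (h : ∀ᶠ x' in l, (g x')⁻¹ * f x' = (g x)⁻¹ * f x) :
    ∀ᶠ x' in l, (f x')⁻¹ * g x' = (f x)⁻¹ * g x := by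
  filter_upwards [h] with x' hx'
  have := congrArg (fun a => a⁻¹) hx'
  simpa [mul_inv_rev] using this

/-- the index set -/
private abbrev W6_ι : Type := P3 ⊕ (List Bool × P3)

private def W6_B : W6_ι → Set P3
  | Sum.inl x => {u | x ∈ VR ∧ u ∈ NR x}
  | Sum.inr (w, c) => {u | c ∈ DD w.length ∧ u ∈ E0 w '' NN w.length c}

private noncomputable def W6_h (lab : List Bool → Equiv.Perm (Fin 5)) : W6_ι → P3 → Equiv.Perm (Fin 5)
  | Sum.inl x, u => hR (lab []) x u
  | Sum.inr (w, c), u => hS (lab (false :: w)) (lab (true :: w)) w.length c (W6_coord w u)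

private theorem W6_B_open (i : W6_ι) : IsOpen (W6_B i) := by
  match i with
  | Sum.inl x =>
    by_cases hx : x ∈ VR
    · have : W6_B (Sum.inl x) = NR x := by
        ext u; simp [W6_B, hx]
      rw [this]; exact isOpen_NR x
    · have : W6_B (Sum.inl x) = ∅ := by
        ext u; simp [W6_B, hx]
      rw [this]; exact isOpen_empty
  | Sum.inr (w, c) =>
    by_cases hc : c ∈ DD w.length
    · have : W6_B (Sum.inr (w, c)) = E0 w '' NN w.length c := by
        ext u; simp [W6_B, hc]
      rw [this]; exact E0_DD_open (isOpen_NN _ _) (fun c' hc' => hc'.1)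
    · have : W6_B (Sum.inr (w, c)) = ∅ := by
        ext u; simp [W6_B, hc]
      rw [this]; exact isOpen_empty

private theorem W6_cov {x : P3} (hx : x ∈ UU) : ∃ i, x ∈ W6_B i := by
  rcases UU_cover hx with h | ⟨w, c, hc, rfl⟩
  · exact ⟨Sum.inl x, h, mem_NR_self h⟩
  · exact ⟨Sum.inr (w, c), hc, c, mem_NN_self hc, rfl⟩

private theorem W6_RS {lab : List Bool → Equiv.Perm (Fin 5)}
    (hlab : ∀ w, lab w = (lab (true :: w))⁻¹ * (lab (false :: w))⁻¹ * lab (true :: w) *
      lab (false :: w)) (d : P3) (w : List Bool) (c : P3) (x : P3)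
    (hi : x ∈ W6_B (Sum.inl d)) (hj : x ∈ W6_B (Sum.inr (w, c))) :
    ∀ᶠ x' in 𝓝 x, (W6_h lab (Sum.inl d) x')⁻¹ * W6_h lab (Sum.inr (w, c)) x' =
      (W6_h lab (Sum.inl d) x)⁻¹ * W6_h lab (Sum.inr (w, c)) x := by
  obtain ⟨hd, hd'⟩ := hi
  obtain ⟨hc, c', hc', rfl⟩ := hj
  obtain ⟨hw, ht⟩ := E0_meet_VR hc'.1 hd'.1
  subst hw
  have hg := (hlab []).symm
  have key := hR_collar hg hc hc' ht hd hd'
  filter_upwards [W6_ev hc'.1 key] with x hx
  obtain ⟨c'', h1, rfl, h2⟩ := hx
  show (hR (lab []) d (E0 [] c''))⁻¹ *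
      hS (lab [false]) (lab [true]) 0 c (W6_coord [] (E0 [] c'')) =
    (hR (lab []) d (E0 [] c'))⁻¹ *
      hS (lab [false]) (lab [true]) 0 c (W6_coord [] (E0 [] c'))
  rw [W6_coord_eq h1, W6_coord_eq hc'.1]
  exact h2

private theorem W6_compat {lab : List Bool → Equiv.Perm (Fin 5)}
    (hlab : ∀ w, lab w = (lab (true :: w))⁻¹ * (lab (false :: w))⁻¹ * lab (true :: w) *
      lab (false :: w)) (i j : W6_ι) (x : P3) (hi : x ∈ W6_B i) (hj : x ∈ W6_B j) :
    ∀ᶠ x' in 𝓝 x, (W6_h lab j x')⁻¹ * W6_h lab i x' = (W6_h lab j x)⁻¹ * W6_h lab i x := by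
  match i, j with
  | Sum.inl x₁, Sum.inl x₂ => exact hR_compat (lab []) hi.1 hj.1 hi.2 hj.2
  | Sum.inl d, Sum.inr (w, c) => exact W6_inv (W6_RS hlab d w c x hi hj)
  | Sum.inr (w, c), Sum.inl d => exact W6_RS hlab d w c x hj hi
  | Sum.inr (w₁, c₁), Sum.inr (w₂, c₂) =>
    obtain ⟨hc₁, c, hc, rfl⟩ := hi
    obtain ⟨hc₂, c', hc', he⟩ := hj
    rcases E0_meet hc.1 hc'.1 he.symm with ⟨hw, hcc⟩ | ⟨b, hw, ht, hb⟩ | ⟨b, hw, ht, hb⟩
    · subst hw
      subst hcc
      have key := hS_compat (lab (false :: w₁)) (lab (true :: w₁)) hc₁ hc₂ hc hc'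
      filter_upwards [W6_ev hc.1 key] with x hx
      obtain ⟨c'', h1, rfl, h2⟩ := hx
      show (hS (lab (false :: w₁)) (lab (true :: w₁)) w₁.length c₂
          (W6_coord w₁ (E0 w₁ c'')))⁻¹ *
          hS (lab (false :: w₁)) (lab (true :: w₁)) w₁.length c₁ (W6_coord w₁ (E0 w₁ c'')) =
        (hS (lab (false :: w₁)) (lab (true :: w₁)) w₁.length c₂
          (W6_coord w₁ (E0 w₁ c)))⁻¹ *
          hS (lab (false :: w₁)) (lab (true :: w₁)) w₁.length c₁ (W6_coord w₁ (E0 w₁ c))
      rw [W6_coord_eq h1, W6_coord_eq hc.1]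
      exact h2
    · subst hw
      subst hb
      exact W6_collar hlab b hc₁ hc ht hc₂ hc'
    · subst hw
      subst hb
      have := W6_collar hlab b hc₂ hc' ht hc₁ hc
      rw [he] at this
      exact W6_inv this

/-- the potential along the meridian -/
private theorem W6_mu {G : Type*} [Group G] (g : G) (s : I) :
    ∀ᶠ s' : I in 𝓝 s, (hR g (mu s) (mu s'))⁻¹ * (if s'.1 ≤ 1 / 4 then 1 else g) =
      (hR g (mu s) (mu s))⁻¹ * (if s.1 ≤ 1 / 4 then 1 else g) := by
  have hmu : ∀ r : ℝ, (mu r).2.1 = 3 / 20 * cos (2 * π * r) := fun r => rfl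
  have hmu1 : ∀ r : ℝ, (mu r).1 ^ 2 + (mu r).2.2 ^ 2 = (1 + 3 / 20 * sin (2 * π * r)) ^ 2 := by
    intro r
    show (0 : ℝ) ^ 2 + (1 + 3 / 20 * sin (2 * π * r)) ^ 2 = _
    ring
  rcases lt_trichotomy s.1 (1 / 4) with hs | hs | hs
  · have hno : ¬ ((mu s).2.1 = 0 ∧ 1 < (mu s).1 ^ 2 + (mu s).2.2 ^ 2) := by
      rintro ⟨h1, -⟩
      rw [hmu] at h1
      have : 0 < cos (2 * π * s.1) := by
        apply cos_pos_of_mem_Ioo
        constructor
        · have := s.2.1
          nlinarith [pi_pos]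
        · nlinarith [pi_pos]
      linarith
    have hR1 : ∀ y, hR g (mu s) y = 1 := by
      intro y
      unfold hR
      rw [if_neg]
      rintro ⟨a, b, -⟩
      exact hno ⟨a, b⟩
    have hev : ∀ᶠ s' : I in 𝓝 s, s'.1 < 1 / 4 :=
      (continuous_subtype_val.tendsto s).eventually (eventually_lt_nhds hs)
    filter_upwards [hev] with s' hs'
    rw [hR1, hR1, if_pos hs'.le, if_pos hs.le]
  · have h1 : (mu s).2.1 = 0 := by
      rw [hmu, hs]
      have : 2 * π * (1 / 4) = π / 2 := by ring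
      rw [this, cos_pi_div_two, mul_zero]
    have h2 : 1 < (mu s).1 ^ 2 + (mu s).2.2 ^ 2 := by
      rw [hmu1, hs]
      have : 2 * π * (1 / 4) = π / 2 := by ring
      rw [this, sin_pi_div_two]
      norm_num
    have hev1 : ∀ᶠ s' : I in 𝓝 s, s'.1 < 1 / 2 :=
      (continuous_subtype_val.tendsto s).eventually (eventually_lt_nhds (by rw [hs]; norm_num))
    have hval : ∀ s' : I, s'.1 < 1 / 2 →
        (hR g (mu s) (mu s'))⁻¹ * (if s'.1 ≤ 1 / 4 then 1 else g) = 1 := by
      intro s' hs'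
      by_cases h : s'.1 ≤ 1 / 4
      · have hc : 0 ≤ cos (2 * π * s'.1) := by
          apply cos_nonneg_of_mem_Icc
          constructor
          · have := s'.2.1
            nlinarith [pi_pos]
          · nlinarith [pi_pos]
        have : hR g (mu s) (mu s') = 1 := by
          unfold hR
          rw [if_neg]
          rintro ⟨-, -, h3⟩
          rw [hmu] at h3
          linarith
        rw [this, if_pos h]
        simp
      · have hc : cos (2 * π * s'.1) < 0 := by
          apply cos_neg_of_pi_div_two_lt_of_lt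
          · push Not at h
            nlinarith [pi_pos]
          · nlinarith [pi_pos]
        have : hR g (mu s) (mu s') = g := by
          unfold hR
          rw [if_pos]
          refine ⟨h1, h2, ?_⟩
          rw [hmu]
          linarith
        rw [this, if_neg h]
        simp
    filter_upwards [hev1] with s' hs'
    rw [hval s' hs', hval s (by rw [hs]; norm_num)]
  · have hno : ¬ ((mu s).2.1 = 0 ∧ 1 < (mu s).1 ^ 2 + (mu s).2.2 ^ 2) := by
      rintro ⟨h1, h2⟩
      rw [hmu] at h1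
      rw [hmu1] at h2
      have hc : cos (2 * π * s.1) = 0 := by linarith
      have hsin : sin (2 * π * s.1) = 1 := by
        have h3 := sin_sq_add_cos_sq (2 * π * s.1)
        rw [hc] at h3
        have h4 : (sin (2 * π * s.1) - 1) * (sin (2 * π * s.1) + 1) = 0 := by nlinarith
        rcases mul_eq_zero.1 h4 with h5 | h5
        · linarith
        · have h6 : sin (2 * π * s.1) = -1 := by linarith
          rw [h6] at h2
          norm_num at h2
      obtain ⟨k, hk⟩ := sin_eq_one_iff.1 hsin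
      have h5 : s.1 = 1 / 4 + k := by
        have := pi_pos
        field_simp at hk
        linarith
      have h6 := s.2.1
      have h7 := s.2.2
      have h8 : (0 : ℝ) < k := by linarith
      have h9 : (k : ℝ) < 1 := by linarith
      have h10 : 0 < k := by exact_mod_cast h8
      have h11 : k < 1 := by exact_mod_cast h9
      omega
    have hR1 : ∀ y, hR g (mu s) y = 1 := by
      intro y
      unfold hR
      rw [if_neg]
      rintro ⟨a, b, -⟩
      exact hno ⟨a, b⟩
    have hev : ∀ᶠ s' : I in 𝓝 s, 1 / 4 < s'.1 :=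
      (continuous_subtype_val.tendsto s).eventually (eventually_gt_nhds hs)
    filter_upwards [hev] with s' hs'
    rw [hR1, hR1, if_neg (not_le.2 hs'), if_neg (not_le.2 hs)]

private theorem W6_mu_mem_VR (s : ℝ) : mu s ∈ VR := by
  refine ⟨?_, ?_⟩
  · show 0 < 1 + 3 / 20 * sin (2 * π * s)
    have := neg_one_le_sin (2 * π * s)
    linarith
  · rintro ⟨p, hp, he⟩
    exact mu_not_mem (fun _ => 0) s ⟨[], rfl, p, hp, he⟩

theorem not_nullIn_UU : ¬ NullIn UU mu := by
  rintro ⟨H, hU, h0, h1, h2⟩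
  obtain ⟨lab, hne, hlab⟩ := exists_lab
  let H' : C(I × I, UU) := ⟨fun p => ⟨H p, hU p⟩, by fun_prop⟩
  let x₀ : UU := H' (0, 1)
  have hx₀ : x₀.1 = mu 0 := by
    show H (0, 1) = mu 0
    exact h1 0
  let e : I → Equiv.Perm (Fin 5) := fun s => if s.1 ≤ 1 / 4 then 1 else lab []
  have key : e 0 = e 1 := by
    refine holonomy (X := UU) (fun i => Subtype.val ⁻¹' W6_B i)
      (fun i => (W6_B_open i).preimage continuous_subtype_val) (fun i x => W6_h lab i x.1)
      (fun x => W6_cov x.2) ?_ H' x₀ ?_ ?_ ?_ e ?_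
    · intro i j x hi hj
      have := W6_compat hlab i j x.1 hi hj
      exact (continuous_subtype_val.tendsto x).eventually this
    · intro s
      apply Subtype.ext
      rw [hx₀]
      exact h1 s
    · intro t
      apply Subtype.ext
      rw [hx₀]
      exact (h2 t).1
    · intro t
      apply Subtype.ext
      rw [hx₀]
      exact (h2 t).2
    · intro s
      have hm : ∀ s' : I, (H' (s', 0)).1 = mu s' := fun s' => h0 s'
      refine ⟨Sum.inl (mu s), ?_, ?_⟩
      · show (H' (s, 0)).1 ∈ W6_B (Sum.inl (mu s))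
        rw [hm]
        exact ⟨W6_mu_mem_VR _, mem_NR_self (W6_mu_mem_VR _)⟩
      · show ∀ᶠ s' in 𝓝 s, (hR (lab []) (mu s) (H' (s', 0)).1)⁻¹ * e s' =
          (hR (lab []) (mu s) (H' (s, 0)).1)⁻¹ * e s
        simp only [hm]
        exact W6_mu (lab []) s
  have e0 : e 0 = 1 := by simp [e]
  have e1 : e 1 = lab [] := by
    show (if ((1 : I) : ℝ) ≤ 1 / 4 then (1 : Equiv.Perm (Fin 5)) else lab []) = lab []
    rw [if_neg (by simp; norm_num)]
  rw [e0, e1] at key
  exact hne key.symm

end Pool.Agent.BI39
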