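import Mathlib
import Pool.Agent.Lib.BI39.Defs
import Pool.Agent.Lib.BI39.Stmt
import Pool.Agent.Lib.BI39.D3
import Pool.Agent.Lib.BI39.F3
import Pool.Agent.Lib.BI39.G1
import Pool.Agent.Lib.BI39.G2
import Pool.Agent.Lib.BI39.W6
import Pool.Agent.Lib.BI39.S1
import Pool.Agent.Lib.BI39.S2
import Pool.Agent.Lib.BI39.S2b
import Pool.Agent.Lib.BI39.S4
import Pool.Agent.Lib.BI39.S5

/-!
BI39: assembly of the main theorem.
-/

set_option autoImplicit false

namespace Pool.Agent.BI39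

open Real

theorem continuous_mu : Continuous mu := by
  unfold mu
  fun_prop

theorem mu_one : mu 1 = mu 0 := by
  unfold mu
  simp [Real.cos_two_pi, Real.sin_two_pi]

theorem main : MainStatement := by
  intro η hη
  obtain ⟨C, hC, hd⟩ := E_diam
  obtain ⟨Λ, hΛ, hl⟩ := Jn_lip abs_shR_le
  have hlog : 0 ≤ Real.log Λ := Real.log_nonneg hΛ
  -- the scale
  obtain ⟨c, hc, hc1, hcη⟩ : ∃ c : ℝ, 0 < c ∧ c ≤ 1 ∧ 4 * 200 * (c * (2 * C)) * Real.log Λ ≤ η := by
    refine ⟨min 1 (η / (4 * 200 * (2 * C) * (Real.log Λ + 1))), ?_, min_le_left _ _, ?_⟩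
    · exact lt_min one_pos (by positivity)
    · have h1 : min 1 (η / (4 * 200 * (2 * C) * (Real.log Λ + 1))) ≤
          η / (4 * 200 * (2 * C) * (Real.log Λ + 1)) := min_le_right _ _
      have h2 : 0 < 4 * 200 * (2 * C) * (Real.log Λ + 1) := by positivity
      have h3 : min 1 (η / (4 * 200 * (2 * C) * (Real.log Λ + 1))) *
          (4 * 200 * (2 * C) * (Real.log Λ + 1)) ≤ η := by
        rw [le_div_iff₀ h2] at h1
        exact h1
      have h4 : 0 < min 1 (η / (4 * 200 * (2 * C) * (Real.log Λ + 1))) :=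
        lt_min one_pos (by positivity)
      nlinarith [mul_pos h4 hC]
  have hJc := continuous_JJ hC hd
  have hJJ := JJ_JJ shR
  have hout : ∀ v, 2 < ‖v‖ → scl c (JJ shR) v = r3 v :=
    scl_out hc hc1 (fun v hv => JJ_outside hv)
  have hcont : Continuous (scl c (JJ shR)) := continuous_scl hJc
  have hinv : ∀ v, scl c (JJ shR) (scl c (JJ shR) v) = v := scl_scl hc hJJ
  have hmod : ∀ (n : ℕ) (v v' : P3), dist (scl c (JJ shR) v) (scl c (JJ shR) v') ≤
      Λ ^ (n + 1) * dist v v' + c * (2 * C / (n + 1)) :=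
    fun n v v' => scl_modulus hc (JJ_modulus hC hd hl n) v v'
  have hmodS : ∀ (n : ℕ) (x y : S3), dist (JS (scl c (JJ shR)) x) (JS (scl c (JJ shR)) y) ≤
      200 * (Λ ^ (n + 1) * dist x y + c * (2 * C) / (n + 1)) := by
    intro n x y
    have h := JS_modulus hout (one_le_pow₀ hΛ) (by positivity : (0 : ℝ) ≤ c * (2 * C / (n + 1)))
      (hmod n) x y
    rwa [← mul_div_assoc] at h
  obtain ⟨C', hC'⟩ := moc_bound (J := JS (scl c (JJ shR))) (by norm_num : (0 : ℝ) < 200) hΛ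
    (by positivity : (0 : ℝ) ≤ c * (2 * C)) hmodS hη hcη
  refine ⟨JSh (scl c (JJ shR)) hcont hinv hout, C', JSh_isInvol hcont hinv hout,
    JSh_orRev hcont hinv hout, ?_, hC'⟩
  have hV : IsOpen {v : P3 | c⁻¹ • v ∈ VV shR} :=
    (isOpen_VV shR).preimage (continuous_const_smul c⁻¹)
  refine JSh_isWild hcont hinv hout hV ?_ ?_ (μ := fun s => c • mu s)
    (continuous_mu.const_smul c) ?_ ?_ ?_
  · intro v
    exact scl_ne_iff hc (fun v => JJ_ne_iff) v
  · intro v hv
    exact scl_not_mem hc (fun v hv => VV_disjoint hv) v hv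
  · intro s
    show c⁻¹ • c • mu s ∈ VV shR
    rw [smul_smul, inv_mul_cancel₀ hc.ne', one_smul]
    exact mu_mem_VV shR s
  · show c • mu 1 = c • mu 0
    rw [mu_one]
  · exact scl_nullIn hc (not_nullIn_VV not_nullIn_UU)

theorem negQ1 : NegQ1 := negQ1_of_main main

end Pool.Agent.BI39
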