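import Mathlib
import Pool.Agent.Lib.BI39.Stmt
import Pool.Agent.Lib.BI39.Final

/-!
MP_39fe65_gt: the definitions of the final statement, in a form which is short when printed: the
sphere `Sph` is a definition with its own name for the metric, and orthogonal maps are given by
matrices. `transfer` deduces the final statement from the one for `S3`.
-/

set_option autoImplicit false

namespace Pool.Agent.BI39

open scoped ENNReal

/-- The unit sphere `S³` of `ℝ⁴`. -/
def Sph : Type := Metric.sphere (0 : EuclideanSpace ℝ (Fin 4)) 1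

/-- The metric of `Sph` is the euclidean metric of `ℝ⁴`, restricted to the sphere. -/
noncomputable instance instMetricSph : MetricSpace Sph := Subtype.metricSpace

/-- The coordinates `x₁, ..., x₄` of a point of the sphere (numbered `0, ..., 3`). -/
def coord (x : Sph) (i : Fin 4) : ℝ := x.1 i

/-- `J` is an involution: a self-homeomorphism of the sphere whose square is the identity. -/
def Invol (J : Sph ≃ₜ Sph) : Prop := ∀ x, J (J x) = x

/-- `J` is orientation-reversing (of degree `-1`): there is a homotopy from `J` to the reflection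
`(x₁, x₂, x₃, x₄) ↦ (x₁, x₂, x₃, -x₄)`. -/
def OrientationReversing (J : Sph ≃ₜ Sph) : Prop :=
  ∃ H : C(unitInterval × Sph, Sph), (∀ x, H (0, x) = J x) ∧
    ∀ x i, coord (H (1, x)) i = if i = 3 then -coord x i else coord x i

/-- `J` is wild: it is not conjugate to any orthogonal involution `x ↦ A x`, where `A` is an
orthogonal matrix with `A * A = 1`. -/
def Wild (J : Sph ≃ₜ Sph) : Prop :=
  ∀ A ∈ Matrix.orthogonalGroup (Fin 4) ℝ, A * A = 1 →
    ¬ ∃ h : Sph ≃ₜ Sph, ∀ x, coord (h (J (h.symm x))) = A.mulVec (coord x)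

/-- `δ_h(ε)`, the supremum in `[0, ∞]` of the `δ > 0` such that `d(x, y) < δ` implies
`d(h x, h y) < ε`. -/
noncomputable def deltaOf (h : Sph → Sph) (ε : ℝ) : ℝ≥0∞ :=
  ⨆ (δ : ℝ) (_ : 0 < δ ∧ ∀ x y : Sph, dist x y < δ → dist (h x) (h y) < ε), ENNReal.ofReal δ

/-- The modulus of continuity `moc(h)(t) = 1 / δ_h(1/t)`, in `[0, ∞]`. -/
noncomputable def mocOf (h : Sph → Sph) (t : ℝ) : ℝ≥0∞ := (deltaOf h (1 / t))⁻¹

theorem coord_refl4 (x : V4) (i : Fin 4) : (refl4 x) i = if i = 3 then -x i else x i := by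
  rw [refl4_apply]
  fin_cases i <;> simp

theorem mulVec_dot (A : Matrix (Fin 4) (Fin 4) ℝ) (hA : A.transpose * A = 1) (x : Fin 4 → ℝ) :
    dotProduct (A.mulVec x) (A.mulVec x) = dotProduct x x := by
  rw [Matrix.dotProduct_mulVec, Matrix.vecMul_mulVec, hA, Matrix.vecMul_one]

theorem wild_of_isWild (J : S3 ≃ₜ S3) (hJ : IsWild J) : Wild J := by
  intro A hA hA2 hex
  obtain ⟨h, hh⟩ := hex
  have hAt : A.transpose * A = 1 := (Matrix.mem_orthogonalGroup_iff' (Fin 4) ℝ).1 hA
  let f : V4 →ₗ[ℝ] V4 := Matrix.toEuclideanLin A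
  have hf : ∀ (x : V4) (i : Fin 4), (f x) i = A.mulVec (fun j => x j) i := fun x i => rfl
  have hff : Function.Involutive f := by
    intro x
    ext i
    rw [hf]
    have h1 : (fun j => (f x) j) = A.mulVec (fun j => x j) := funext (hf x)
    rw [h1, Matrix.mulVec_mulVec, hA2, Matrix.one_mulVec]
  have hfn : ∀ x : V4, ‖f x‖ = ‖x‖ := by
    intro x
    have h1 := mulVec_dot A hAt (fun j => x j)
    rw [EuclideanSpace.norm_eq, EuclideanSpace.norm_eq]
    congr 1
    simp only [Real.norm_eq_abs, sq_abs]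
    simp only [dotProduct] at h1
    calc ∑ i, (f x) i ^ 2 = ∑ i, A.mulVec (fun j => x j) i * A.mulVec (fun j => x j) i :=
          Finset.sum_congr rfl fun i _ => by rw [hf, sq]
      _ = ∑ i, x i * x i := h1
      _ = ∑ i, x i ^ 2 := Finset.sum_congr rfl fun i _ => by rw [sq]
  let B : V4 ≃ₗᵢ[ℝ] V4 := ⟨LinearEquiv.ofInvolutive f hff, hfn⟩
  have hB : ∀ x, B x = f x := fun x => rfl
  refine hJ B (fun x => ?_) ⟨h, fun x => ?_⟩
  · rw [hB, hB]
    exact hff x
  · ext i
    rw [hB, hf]
    exact congrFun (hh x) i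

theorem orRev_of_orRev (J : S3 ≃ₜ S3) (hJ : OrRev J) : OrientationReversing J := by
  obtain ⟨F⟩ := hJ
  have h3 : ∀ (x : S3) (i : Fin 4), ((F (1, x) : S3) : V4) i =
      if i = 3 then -(x : V4) i else (x : V4) i := by
    intro x i
    have h1 : F (1, x) = onS3 refl4 x := F.map_one_left x
    have h2 : ((F (1, x) : S3) : V4) i = (refl4 (x : V4)) i := by rw [h1]; rfl
    exact h2.trans (coord_refl4 _ i)
  exact ⟨F.toContinuousMap, fun x => F.map_zero_left x, h3⟩

theorem mocOf_eq (h : S3 → S3) (t : ℝ) : mocOf h t = moc h t := rfl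

end Pool.Agent.BI39
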